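import Pool.Agent.NH16.SM.Stm2
import Pool.Agent.NH16.DL.B6

set_option autoImplicit false
set_option linter.unusedSectionVars false
set_option linter.unusedVariables false

/-!
# Pseudorandomness of the sieve weight along positions
-/

namespace Pool.Agent.NH16.SM.FLA

open Finset Filter Topology
open scoped BigOperators
open Pool.Agent.NH16.DL Pool.Agent.NH16.SM

/-- a local factor -/
noncomputable def gl (z k p : ℕ) : ℝ := (1 - (z : ℝ) / p) * ((1 - 1 / (p : ℝ)) ^ k)⁻¹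

lemma gl_le_one (k : ℕ) {p : ℕ} (hp : p.Prime) : gl k k p ≤ 1 := by
  unfold gl
  rw [← div_eq_mul_inv, div_le_one (pow_pos (fac_pos hp) _)]
  have hp1 : (1 : ℝ) < p := by exact_mod_cast hp.one_lt
  have h1 : (1 : ℝ) / p ≤ 1 := by rw [div_le_one (by linarith)]; exact hp1.le
  have := one_add_mul_le_pow (a := -(1 / (p : ℝ))) (by linarith) k
  have e : (1 : ℝ) + (k : ℝ) * -(1 / (p : ℝ)) = 1 - (k : ℝ) / p := by ring
  rw [e] at this
  have e2 : (1 : ℝ) + -(1 / (p : ℝ)) = 1 - 1 / p := by ring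
  rw [e2] at this
  exact this

lemma gl_le (z : ℕ) {k m p : ℕ} (hk : k ≤ m) (hp : p.Prime) : gl z k p ≤ 1 + 3 ^ m / p := by
  have hp2 : (2 : ℝ) ≤ p := by exact_mod_cast hp.two_le
  have hpp : (0 : ℝ) < p := by linarith
  have h1 : (1 : ℝ) / p ≤ 1 := by rw [div_le_one hpp]; linarith
  have h0 : (0 : ℝ) ≤ 1 / p := by positivity
  have h2 : (1 - 1 / (p : ℝ))⁻¹ ≤ 1 + 2 * (1 / p) := by
    rw [inv_le_comm₀ (fac_pos hp) (by positivity), inv_le_iff_one_le_mul₀ (by positivity)]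
    have : (1 : ℝ) / p ≤ 1 / 2 := by
      apply one_div_le_one_div_of_le <;> linarith
    nlinarith
  have h3 : gl z k p ≤ (1 + 2 * (1 / (p : ℝ))) ^ m := by
    unfold gl
    calc _ ≤ 1 * ((1 - 1 / (p : ℝ)) ^ k)⁻¹ := by
          refine mul_le_mul_of_nonneg_right ?_ (inv_nonneg.2 (pow_nonneg (fac_pos hp).le _))
          have : (0 : ℝ) ≤ (z : ℝ) / p := by positivity
          linarith
      _ = ((1 - 1 / (p : ℝ))⁻¹) ^ k := by rw [one_mul, inv_pow]
      _ ≤ (1 + 2 * (1 / (p : ℝ))) ^ k :=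
          pow_le_pow_left₀ (inv_nonneg.2 (fac_pos hp).le) h2 _
      _ ≤ _ := pow_le_pow_right₀ (by linarith) hk
  refine h3.trans ((one_add_pow_le zero_le_two h0 h1 m).trans ?_)
  have : (1 + 2 : ℝ) = 3 := by norm_num
  rw [this, div_mul_eq_mul_div, one_mul]
  have : ((3 : ℝ) ^ m - 1) / p ≤ 3 ^ m / p := div_le_div_of_nonneg_right (by linarith) hpp.le
  linarith

lemma gl_ge {z k m p : ℕ} (hz : z ≤ k) (hk : k ≤ m) (hm : m ≤ p) (hp : p.Prime) :
    1 - (m : ℝ) ^ 2 * (1 / (p : ℝ) ^ 2) ≤ gl z k p := by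
  have h1 := Pool.Agent.W218.MU.abs_generic k hp (hk.trans hm)
  have h2 : (1 - (k : ℝ) / p) / (1 - 1 / (p : ℝ)) ^ k ≤ gl z k p := by
    unfold gl
    rw [div_eq_mul_inv]
    refine mul_le_mul_of_nonneg_right ?_ (inv_nonneg.2 (pow_nonneg (fac_pos hp).le _))
    have : (z : ℝ) / p ≤ (k : ℝ) / p :=
      div_le_div_of_nonneg_right (by exact_mod_cast hz) (Nat.cast_nonneg _)
    linarith
  have h3 : (k : ℝ) ^ 2 * (1 / (p : ℝ) ^ 2) ≤ (m : ℝ) ^ 2 * (1 / (p : ℝ) ^ 2) := by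
    refine mul_le_mul_of_nonneg_right ?_ (by positivity)
    exact pow_le_pow_left₀ (Nat.cast_nonneg _) (by exact_mod_cast hk) 2
  have := (abs_le.1 h1).1
  linarith

lemma Lw_eq {m : ℕ} {w y : ℕ} (hwy : w ≤ y) (a : Fin m → Bool) (u : Fin m → ℕ) :
    Lw w y a u = ∏ p ∈ (PP y).filter (fun p => w < p), gl (zs w a u p) (tb a) p := by
  unfold Lw gl
  rw [prod_mul_distrib, mul_comm]
  congr 1
  have h := split_PP hwy (fun p => 1 - 1 / (p : ℝ))
  have hV : Vv y = Vv w * ∏ p ∈ (PP y).filter (fun p => w < p), (1 - 1 / (p : ℝ)) := h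
  have hw := (Vv_pos w).ne'
  have h2 : Vv w / Vv y = (∏ p ∈ (PP y).filter (fun p => w < p), (1 - 1 / (p : ℝ)))⁻¹ := by
    rw [hV, ← div_div, div_self hw, one_div]
  rw [h2, inv_pow, ← prod_pow, prod_inv_distrib]

lemma gl_nonneg {m : ℕ} (w : ℕ) (a : Fin m → Bool) (u : Fin m → ℕ) (k : ℕ) {p : ℕ} (hp : p.Prime) :
    0 ≤ gl (zs w a u p) k p :=
  mul_nonneg (fac_zs_nonneg w a u p) (inv_nonneg.2 (pow_nonneg (fac_pos hp).le _))

lemma Lw_le {m : ℕ} {w y : ℕ} (hwy : w ≤ y) (a : Fin m → Bool) (u : Fin m → ℕ) {D : ℕ} (hD : D ≠ 0)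
    (h : ∀ p : ℕ, p.Prime → w < p → ¬ p ∣ D → ∀ i j, i ≠ j → ¬ p ∣ Nat.dist (u i) (u j)) :
    Lw w y a u ≤ sg w (3 ^ m) D := by
  classical
  rw [Lw_eq hwy]
  have hS : ∀ p ∈ (PP y).filter (fun p => w < p), p.Prime ∧ w < p := fun p hp =>
    ⟨(mem_PP.1 (mem_filter.1 hp).1).1, (mem_filter.1 hp).2⟩
  calc ∏ p ∈ (PP y).filter (fun p => w < p), gl (zs w a u p) (tb a) p ≤
      ∏ p ∈ (PP y).filter (fun p => w < p), (if p ∣ D then (1 + (3 : ℝ) ^ m / p) else 1) := by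
        refine prod_le_prod (fun p hp => gl_nonneg w a u _ (hS p hp).1) fun p hp => ?_
        split_ifs with h1
        · exact gl_le _ (tb_le a) (hS p hp).1
        · rw [zs_eq a u (hS p hp).1 (hS p hp).2 (h p (hS p hp).1 (hS p hp).2 h1)]
          exact gl_le_one _ (hS p hp).1
    _ = ∏ p ∈ ((PP y).filter (fun p => w < p)).filter (fun p => p ∣ D), (1 + (3 : ℝ) ^ m / p) :=
        (prod_filter (fun p => p ∣ D) (fun p : ℕ => (1 + (3 : ℝ) ^ m / p))).symm
    _ ≤ _ := by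
        unfold sg
        refine prod_le_prod_of_subset_of_one_le ?_ (fun p _ => by positivity) fun p _ _ => ?_
        · intro p hp
          rw [mem_filter] at hp
          rw [mem_filter, Nat.mem_primeFactors]
          exact ⟨⟨(hS p hp.1).1, hp.2, hD⟩, (hS p hp.1).2⟩
        · have : (0 : ℝ) ≤ 3 ^ m / p := by positivity
          linarith

lemma Lw_ge {m : ℕ} {w y : ℕ} (hwy : w ≤ y) (hw : 1 ≤ w) (hm : m ≤ w) (a : Fin m → Bool) (u : Fin m → ℕ) :
    1 - (m : ℝ) ^ 2 / w ≤ Lw w y a u := by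
  rw [Lw_eq hwy]
  have hS : ∀ p ∈ (PP y).filter (fun p => w < p), p.Prime ∧ w < p ∧ p ≤ y := fun p hp =>
    ⟨(mem_PP.1 (mem_filter.1 hp).1).1, (mem_filter.1 hp).2, (mem_PP.1 (mem_filter.1 hp).1).2⟩
  set S := (PP y).filter (fun p => w < p) with hSdef
  have h1 : ∀ p ∈ S, (m : ℝ) ^ 2 * (1 / (p : ℝ) ^ 2) ≤ 1 := by
    intro p hp
    have hp0 : (0 : ℝ) < p := by exact_mod_cast (hS p hp).1.pos
    rw [mul_one_div, div_le_one (by positivity)]
    exact pow_le_pow_left₀ (Nat.cast_nonneg _) (by exact_mod_cast (hm.trans (hS p hp).2.1.le)) 2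
  calc 1 - (m : ℝ) ^ 2 / w ≤ 1 - ∑ p ∈ S, (m : ℝ) ^ 2 * (1 / (p : ℝ) ^ 2) := by
        rw [← mul_sum]
        have h2 : ∑ p ∈ S, (1 : ℝ) / (p : ℝ) ^ 2 ≤ 1 / w := by
          refine (sum_le_sum_of_subset_of_nonneg ?_ fun p _ _ => by positivity).trans (tele w y hw)
          intro p hp
          rw [mem_Ioc]
          exact (hS p hp).2
        have h3 := mul_le_mul_of_nonneg_left h2 (sq_nonneg (m : ℝ))
        have e : (m : ℝ) ^ 2 / w = (m : ℝ) ^ 2 * (1 / w) := by ring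
        rw [e]
        linarith
    _ ≤ ∏ p ∈ S, (1 - (m : ℝ) ^ 2 * (1 / (p : ℝ) ^ 2)) :=
        one_sub_sum_le' S _ (fun p _ => by positivity) h1
    _ ≤ _ := prod_le_prod (fun p hp => by linarith [h1 p hp]) fun p hp =>
        gl_ge (zs_le a u (hS p hp).1 (hS p hp).2.1) (tb_le a) (hm.trans (hS p hp).2.1.le) (hS p hp).1

lemma dsc_ne {m : ℕ} (r : Fin m → ℕ) : dsc r ≠ 0 := by
  unfold dsc
  exact prod_ne_zero_iff.2 fun i _ => prod_ne_zero_iff.2 fun j _ => ed_ne _ _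

lemma ed_dvd_dsc {m : ℕ} (r : Fin m → ℕ) (i j : Fin m) : ed (r i) (r j) ∣ dsc r := by
  unfold dsc
  exact (dvd_prod_of_mem (fun j => ed (r i) (r j)) (mem_univ j)).trans
      (dvd_prod_of_mem (fun i => ∏ j, ed (r i) (r j)) (mem_univ i))

/-- the mean values -/
theorem mean_ev (M : ℕ) : ∃ C : ℕ, 1 ≤ C ∧ ∀ b : ℕ, C ≤ b → (2 ≤ b) ∧ ∀ η : ℝ, 0 < η → ∀ w : ℕ,
    ∀ᶠ N : ℕ in atTop, w ≤ yx C b N ∧ ∀ m ≤ M, ∀ (a : Fin m → Bool) (u : Fin m → ℕ),
      |mean w N (ps w (yx C b N) a u) - Lw w (yx C b N) a u| ≤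
        4 * (1 / 2 : ℝ) ^ b * Lw w (yx C b N) a u + η := by
  choose C0 K0 hC0 hK0 h using fl_shift
  set C := ∑ m ∈ range (M + 1), C0 m + 2 with hC
  have hCm : ∀ m ≤ M, C0 m ≤ C := fun m hm =>
    (single_le_sum (f := C0) (fun _ _ => Nat.zero_le _) (mem_range.2 (by omega))).trans
      (Nat.le_add_right _ _)
  refine ⟨C, by omega, fun b hb => ⟨by omega, fun η hη w => ?_⟩⟩
  have hVw := Vv_pos w
  have h1 : ∀ m ∈ range (M + 1), ∀ᶠ N : ℕ in atTop, ∀ (a : Fin m → Bool) (u : Fin m → ℕ),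
      |mean w N (ps w (yx C b N) a u) - Lw w (yx C b N) a u| ≤
        4 * (1 / 2 : ℝ) ^ b * Lw w (yx C b N) a u + η := by
    intro m hm
    rw [mem_range] at hm
    have hlim := log_pow_div m (8 * (K0 m : ℝ) / Vv w)
    have hlim0 := log_pow_div 0 (8 * (K0 m : ℝ) / Vv w)
    have hVy := (yx_tendsto C b).eventually Vv_bounds
    filter_upwards [hlim.eventually (gt_mem_nhds hη), hlim0.eventually (gt_mem_nhds one_pos), hVy,
      yx_log C b, eventually_ge_atTop 3, (yx_tendsto C b).eventually_ge_atTop 3,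
      (yx_tendsto C b).eventually_ge_atTop w] with x hx hx0 hV hl hx2 hy3 hwy a u
    have hxp : (0 : ℝ) < x := by exact_mod_cast (by omega : 0 < x)
    have hx1 : (1 : ℝ) ≤ x := by exact_mod_cast (by omega : 1 ≤ x)
    set y := yx C b x with hy
    have hlog0 : 0 ≤ Real.log x := Real.log_nonneg hx1
    have hke1 : ke C b ≤ 1 := by
      unfold ke
      rw [div_le_one (by positivity)]
      have : (0 : ℝ) ≤ 4 * (C : ℝ) * b := by positivity
      linarith
    have k1 : (Vv w / Vv y) ^ m ≤ (4 * Real.log x) ^ m := by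
      refine pow_le_pow_left₀ (div_pos hVw (Vv_pos y)).le ?_ m
      have h5 : Vv w / Vv y ≤ (Vv y)⁻¹ := by
        rw [div_eq_mul_inv]
        have := mul_le_mul_of_nonneg_right (Vv_le_one w) (inv_nonneg.2 (Vv_pos y).le)
        rwa [one_mul] at this
      have : Real.log y ≤ Real.log x := hl.2.trans (by nlinarith)
      linarith [hV.2]
    have hy1 : (1 : ℝ) ≤ y := by exact_mod_cast (by omega : 1 ≤ y)
    have k2 : Er (C0 m) (K0 m) b y ≤ 2 * K0 m * (x : ℝ) ^ (1 / 2 : ℝ) := by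
      unfold Er
      have j1 : ((Pool.Agent.W41.JJ y : ℝ) + 2) ≤ 2 * y := by
        exact_mod_cast Pool.Agent.W41.JJ_small y hy3
      have j2 : (y : ℝ) ^ (2 * (C0 m * b)) ≤ (y : ℝ) ^ (2 * (C * b)) :=
        pow_le_pow_right₀ hy1 (Nat.mul_le_mul_left 2 (Nat.mul_le_mul_right b (hCm m (by omega))))
      have j3 : (y : ℝ) ^ (4 * (C * b) + 1) ≤ (x : ℝ) ^ (1 / 2 : ℝ) := by
        calc (y : ℝ) ^ (4 * (C * b) + 1) ≤ ((x : ℝ) ^ ke C b) ^ (4 * (C * b) + 1) :=
              pow_le_pow_left₀ (by linarith) yx_le _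
          _ = (x : ℝ) ^ (1 / 2 : ℝ) := by
              rw [← Real.rpow_natCast, ← Real.rpow_mul hxp.le]
              congr 1
              unfold ke
              push_cast
              field_simp
      calc _ ≤ (2 * y) * ((y : ℝ) ^ (2 * (C * b)) * (K0 m * (y : ℝ) ^ (2 * (C * b)))) := by
            gcongr
        _ = 2 * K0 m * (y : ℝ) ^ (4 * (C * b) + 1) := by
            rw [pow_succ, show 4 * (C * b) = 2 * (C * b) + 2 * (C * b) by ring, pow_add]
            ring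
        _ ≤ _ := mul_le_mul_of_nonneg_left j3 (by positivity)
    have k3 : Er (C0 m) (K0 m) b y ≤ x * Vv w / 4 := by
      rw [pow_zero, one_mul, div_lt_one hxp] at hx0
      have h6 : 8 * (K0 m : ℝ) / Vv w * (x : ℝ) ^ (1 / 2 : ℝ) * (Vv w / 4) ≤ x * (Vv w / 4) :=
        mul_le_mul_of_nonneg_right hx0.le (by positivity)
      have h7 : 8 * (K0 m : ℝ) / Vv w * (x : ℝ) ^ (1 / 2 : ℝ) * (Vv w / 4) =
          2 * K0 m * (x : ℝ) ^ (1 / 2 : ℝ) := by
        field_simp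
        ring
      rw [h7] at h6
      linarith
    have key := (h m b ((hCm m (by omega)).trans hb) (by omega) y (by omega) w hwy x (by omega) k3).2.2 a u
    refine key.trans (add_le_add le_rfl ?_)
    calc 4 * ((Vv w / Vv y) ^ m * (Er (C0 m) (K0 m) b y / (x * Vv w))) ≤
          4 * ((4 * Real.log x) ^ m * (2 * K0 m * (x : ℝ) ^ (1 / 2 : ℝ) / (x * Vv w))) := by
          refine mul_le_mul_of_nonneg_left ?_ (by norm_num)
          refine mul_le_mul k1 (div_le_div_of_nonneg_right k2 (by positivity)) ?_ (by positivity)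
          exact div_nonneg (Er_nonneg _ _ _ _) (by positivity)
      _ = (4 * Real.log x) ^ m * (8 * (K0 m : ℝ) / Vv w * (x : ℝ) ^ (1 / 2 : ℝ)) / x := by
          field_simp
          ring
      _ ≤ η := hx.le
  have h2 := (eventually_all_finset (range (M + 1))).2 h1
  filter_upwards [h2, (yx_tendsto C b).eventually_ge_atTop w] with x hx hxw
  exact ⟨hxw, fun m hm => hx m (mem_range.2 (by omega))⟩

theorem main : S_FLA := by
  intro M
  obtain ⟨C, hC, h⟩ := mean_ev M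
  refine ⟨C, hC, fun b hb η hη w hw => ?_⟩
  obtain ⟨hb2, h⟩ := h b hb
  have hθ : 4 * (1 / 2 : ℝ) ^ b ≤ 1 := by
    calc 4 * (1 / 2 : ℝ) ^ b ≤ 4 * (1 / 2 : ℝ) ^ 2 :=
          mul_le_mul_of_nonneg_left (pow_le_pow_of_le_one (by norm_num) (by norm_num) hb2) (by norm_num)
      _ = 1 := by norm_num
  have hθ0 : 0 ≤ 4 * (1 / 2 : ℝ) ^ b := by positivity
  filter_upwards [h η hη w] with N hN R pos hpos hdist m hm a u hu
  obtain ⟨hwy, hN⟩ := hN
  set y := yx C b N with hy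
  set θ := 4 * (1 / 2 : ℝ) ^ b with hθdef
  have hmean : 𝔼 q, pp (fun (s : Fin R) (q : kap w N) => gy w y ((q : ℕ) + Wn w * pos s))
      (fun _ _ => 1) a u q = mean w N (ps w y a (fun i => pos (u i))) := by
    rw [Fintype.expect_eq_sum_div_card, Fintype.card_coe]
    unfold mean
    congr 1
    rw [← sum_coe_sort (kap w N) (ps w y a (fun i => pos (u i)))]
    refine sum_congr rfl fun q _ => ?_
    unfold pp ps
    refine prod_congr rfl fun i _ => ?_
    cases a i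
    · rfl
    · rfl
  rw [hmean]
  have hm1 := hN m hm a (fun i => pos (u i))
  rw [abs_le] at hm1
  have hLw0 := Lw_nonneg w y a (fun i => pos (u i))
  have hX0 : 0 ≤ mean w N (ps w y a (fun i => pos (u i))) := by
    unfold mean
    refine div_nonneg (sum_nonneg fun n _ => ?_) (Nat.cast_nonneg _)
    unfold ps
    refine prod_nonneg fun i _ => ?_
    split_ifs
    exacts [gy_nonneg _ _ _, zero_le_one]
  constructor
  · rcases le_or_gt m w with hmw | hmw
    · have h1 := Lw_ge hwy hw hmw a (fun i => pos (u i))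
      have h2 : (1 - θ) * (1 - (m : ℝ) ^ 2 / w) ≤ (1 - θ) * Lw w y a (fun i => pos (u i)) :=
        mul_le_mul_of_nonneg_left h1 (by linarith)
      linarith [hm1.1]
    · have hwp : (0 : ℝ) < w := by exact_mod_cast hw
      have h1 : (1 : ℝ) ≤ (m : ℝ) ^ 2 / w := by
        rw [le_div_iff₀ hwp]
        have : (w : ℝ) ≤ m := by exact_mod_cast hmw.le
        have h3 : (1 : ℝ) ≤ m := by exact_mod_cast (by omega : 1 ≤ m)
        nlinarith
      have h2 : (1 - θ) * (1 - (m : ℝ) ^ 2 / w) ≤ 0 :=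
        mul_nonpos_of_nonneg_of_nonpos (by linarith) (by linarith)
      linarith
  · have h1 : Lw w y a (fun i => pos (u i)) ≤ sg w (3 ^ m) (dsc (fun i => vl (u i))) := by
      refine Lw_le hwy a _ (dsc_ne _) fun p hp hwp hpD i j hij hd => ?_
      apply hpD
      have h2 := hdist (u i) (u j) p hp hwp hd
      have h3 : vl (u i) ≠ vl (u j) := fun h4 => hij (hu (vl_inj h4))
      have h4 : ed (vl (u i)) (vl (u j)) = Nat.dist (vl (u i)) (vl (u j)) := by
        unfold ed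
        rw [if_neg h3]
      rw [← h4] at h2
      exact h2.trans (ed_dvd_dsc (fun i => vl (u i)) i j)
    have h2 : (1 + θ) * Lw w y a (fun i => pos (u i)) ≤
        (1 + θ) * sg w (3 ^ m) (dsc (fun i => vl (u i))) :=
      mul_le_mul_of_nonneg_left h1 (by linarith)
    linarith [hm1.2]

end Pool.Agent.NH16.SM.FLA
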