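import Pool.Agent.NH16.SM.Stm2
import Pool.Agent.NH16.DL.B8

set_option autoImplicit false

/-!
# Project SM: the normalised indicator function of the primes
-/

namespace Pool.Agent.NH16.SM.FP

open Finset Filter Topology
open scoped BigOperators
open Pool.Agent.NH16.DL
open Pool.Agent.NH16.SM

theorem sq_le {C b N : ℕ} (hC : 1 ≤ C) (hb : 1 ≤ b) (hN : 1 ≤ N) {n : ℕ} (h : n ≤ yx C b N) :
    n * n ≤ N := by
  have hN1 : (1 : ℝ) ≤ N := by exact_mod_cast hN
  have hNp : (0 : ℝ) < N := by linarith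
  have h1 : (n : ℝ) ≤ (N : ℝ) ^ ke C b := le_trans (by exact_mod_cast h) yx_le
  have hke : ke C b + ke C b ≤ 1 := by
    unfold ke
    have hC' : (1 : ℝ) ≤ C := by exact_mod_cast hC
    have hb' : (1 : ℝ) ≤ b := by exact_mod_cast hb
    have h2 : (1 : ℝ) ≤ 4 * (C : ℝ) * b + 1 := by nlinarith
    have h3 : (1 : ℝ) / (2 * (4 * (C : ℝ) * b + 1)) ≤ 1 / 2 := by
      apply one_div_le_one_div_of_le (by norm_num)
      linarith
    linarith
  have h2 : (n : ℝ) * n ≤ N := by
    calc (n : ℝ) * n ≤ (N : ℝ) ^ ke C b * (N : ℝ) ^ ke C b :=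
          mul_le_mul h1 h1 (Nat.cast_nonneg _) (by positivity)
      _ = (N : ℝ) ^ (ke C b + ke C b) := by rw [Real.rpow_add hNp]
      _ ≤ (N : ℝ) ^ (1 : ℝ) := Real.rpow_le_rpow_of_exponent_le hN1 hke
      _ = N := Real.rpow_one _
  exact_mod_cast h2

theorem main1 : S_FP1 := by
  intro C b hC hb w
  filter_upwards [(yx_tendsto C b).eventually Vv_bounds, yx_log C b, eventually_ge_atTop 2] with
    N hV hl hN2 n
  have hk := ke_pos C b
  have hVw := Vv_pos w
  unfold Fp gy
  split_ifs with h1 h2 h2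
  · calc Vv w * Real.log N = 2 / ke C b * (Vv w * (ke C b / 2 * Real.log N)) := by field_simp
      _ ≤ 2 / ke C b * (Vv w * (Vv (yx C b N))⁻¹) :=
          mul_le_mul_of_nonneg_left (mul_le_mul_of_nonneg_left (hl.1.trans hV.1) hVw.le)
            (by positivity)
      _ = 2 / ke C b * (Vv w / Vv (yx C b N)) := by rw [div_eq_mul_inv (Vv w)]
  · exfalso
    apply h2
    intro p hp hd
    rw [mem_filter, mem_PP] at hp
    have hpe : p = n := (Nat.prime_dvd_prime_iff_eq hp.1.1 h1.1).1 hd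
    have := sq_le hC hb (by omega : 1 ≤ N) (hpe ▸ hp.1.2)
    omega
  · exact mul_nonneg (by positivity) (div_pos hVw (Vv_pos _)).le
  · rw [mul_zero]

theorem cop_card (W : ℕ) (k : ℕ) :
    ((Ico 1 (1 + W * k)).filter W.Coprime).card = Nat.totient W * k := by
  induction k with
  | zero => simp
  | succ k ih =>
    have e : Ico 1 (1 + W * (k + 1)) = Ico 1 (1 + W * k) ∪ Ico (1 + W * k) (1 + W * k + W) := by
      rw [Ico_union_Ico_eq_Ico (by omega) (by omega)]
      congr 1
      ring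
    rw [e, filter_union, card_union_of_disjoint, ih, Nat.filter_coprime_Ico_eq_totient]
    · ring
    · exact disjoint_filter_filter (Ico_disjoint_Ico_consecutive _ _ _)

theorem kap_eq (w N : ℕ) : kap w N = (Ico 1 (1 + N)).filter (Wn w).Coprime := by
  unfold kap
  ext n
  rw [mem_filter, mem_filter, mem_Icc, mem_Ico, cop_iff, Nat.coprime_comm]
  constructor
  · rintro ⟨⟨h1, h2⟩, h3⟩
    exact ⟨⟨h1, by omega⟩, h3⟩
  · rintro ⟨⟨h1, h2⟩, h3⟩
    exact ⟨⟨h1, by omega⟩, h3⟩

theorem Vv_eq (w : ℕ) : Vv w * Wn w = Nat.totient (Wn w) := by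
  have := congrArg (fun x : ℚ => (x : ℝ)) (Nat.totient_eq_mul_prod_factors (Wn w))
  push_cast at this
  rw [this, primeFactors_Wn, mul_comm]
  congr 1
  unfold Vv
  exact prod_congr rfl fun p _ => by rw [one_div]

theorem kap_card (w N : ℕ) : |((kap w N).card : ℝ) - N * Vv w| ≤ Wn w := by
  have hW := Wn_pos w
  have hWr : (0 : ℝ) < Wn w := by exact_mod_cast hW
  set k := N / Wn w with hk
  have h1 : Nat.totient (Wn w) * k ≤ (kap w N).card := by
    rw [kap_eq, ← cop_card]
    apply card_le_card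
    apply filter_subset_filter
    apply Ico_subset_Ico_right
    have := Nat.mul_div_le N (Wn w)
    rw [← hk] at this
    omega
  have h2 : (kap w N).card ≤ Nat.totient (Wn w) * (k + 1) := by
    rw [kap_eq]
    exact Nat.Ico_filter_coprime_le 1 N hW.ne'
  have h1r : (Nat.totient (Wn w) : ℝ) * k ≤ ((kap w N).card : ℝ) := by exact_mod_cast h1
  have h2r : ((kap w N).card : ℝ) ≤ (Nat.totient (Wn w) : ℝ) * (k + 1) := by exact_mod_cast h2
  have h3 : (Wn w : ℝ) * k ≤ N := by exact_mod_cast Nat.mul_div_le N (Wn w)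
  have h4 : (N : ℝ) ≤ Wn w * (k + 1) := by
    have := (Nat.lt_mul_div_succ N hW).le
    exact_mod_cast this
  have h5 := Vv_eq w
  have hV := Vv_pos w
  have h6 : (Nat.totient (Wn w) : ℝ) ≤ Wn w := by exact_mod_cast Nat.totient_le _
  rw [← h5] at h1r h2r h6
  have h7 : (Wn w : ℝ) * k * Vv w ≤ N * Vv w := mul_le_mul_of_nonneg_right h3 hV.le
  have h8 : (N : ℝ) * Vv w ≤ Wn w * (k + 1) * Vv w := mul_le_mul_of_nonneg_right h4 hV.le
  rw [abs_le]
  constructor <;> nlinarith

theorem main3 : S_FP3 := by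
  intro w δ hδ
  have hV := Vv_pos w
  have hWr : (0 : ℝ) < Wn w := by exact_mod_cast Wn_pos w
  filter_upwards [(tendsto_natCast_atTop_atTop (R := ℝ)).eventually_ge_atTop (Wn w / (δ * Vv w)),
    eventually_ge_atTop 1] with N h1 hN
  have hNp : (0 : ℝ) < N := by exact_mod_cast hN
  have hNV : 0 < N * Vv w := mul_pos hNp hV
  have e : ((kap w N).card : ℝ) / (N * Vv w) - 1 = (((kap w N).card : ℝ) - N * Vv w) / (N * Vv w) := by
    rw [sub_div, div_self hNV.ne']
  rw [e, abs_div, abs_of_pos hNV, div_le_iff₀ hNV]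
  refine (kap_card w N).trans ?_
  rw [div_le_iff₀ (by positivity)] at h1
  linarith

/-- the primes above the square root -/
def qs (N : ℕ) : Finset ℕ := (Icc 1 N).filter (fun n => n.Prime ∧ N < n * n)

theorem qs_card (N : ℕ) : (H343E.pi1 N - Real.sqrt N ≤ ((qs N).card : ℝ)) ∧
    ((qs N).card : ℝ) ≤ H343E.pi1 N := by
  have hpi : H343E.pi1 N = (((Icc 1 N).filter Nat.Prime).card : ℝ) := rfl
  have h1 : ((Icc 1 N).filter Nat.Prime) ⊆ qs N ∪ Icc 1 (Nat.sqrt N) := by
    intro n hn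
    rw [mem_filter, mem_Icc] at hn
    rw [mem_union]
    unfold qs
    rw [mem_filter, mem_Icc, mem_Icc]
    by_cases h : N < n * n
    · exact Or.inl ⟨hn.1, hn.2, h⟩
    · exact Or.inr ⟨hn.1.1, Nat.le_sqrt.2 (not_lt.1 h)⟩
  have h2 := (card_le_card h1).trans (card_union_le _ _)
  rw [Nat.card_Icc, Nat.add_sub_cancel] at h2
  have h3 : (Nat.sqrt N : ℝ) ≤ Real.sqrt N := Real.nat_sqrt_le_real_sqrt
  have h4 : (qs N).card ≤ ((Icc 1 N).filter Nat.Prime).card := by
    apply card_le_card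
    unfold qs
    intro n hn
    rw [mem_filter] at hn ⊢
    exact ⟨hn.1, hn.2.1⟩
  rw [hpi]
  constructor
  · have : (((Icc 1 N).filter Nat.Prime).card : ℝ) ≤ (qs N).card + Nat.sqrt N := by
      exact_mod_cast h2
    linarith
  · exact_mod_cast h4

theorem sum_eq {w N : ℕ} (hN : w * w ≤ N) :
    ∑ n ∈ kap w N, Fp w N n = Vv w * Real.log N * ((qs N).card : ℝ) := by
  classical
  unfold Fp
  rw [← sum_filter, sum_const, nsmul_eq_mul, mul_comm]
  congr 2
  congr 1
  unfold kap qs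
  rw [filter_filter]
  ext n
  rw [mem_filter, mem_filter, mem_Icc]
  constructor
  · rintro ⟨h1, h2, h3⟩
    exact ⟨h1, h3⟩
  · rintro ⟨h1, h2, h3⟩
    refine ⟨h1, fun p hp hd => ?_, h2, h3⟩
    rw [mem_PP] at hp
    have hpe : p = n := (Nat.prime_dvd_prime_iff_eq hp.1 h2).1 hd
    have h4 : n ≤ w := hpe ▸ hp.2
    have h5 : n * n ≤ w * w := Nat.mul_le_mul h4 h4
    omega

theorem main2 : S_FP2 := by
  intro w δ hδ
  have hV := Vv_pos w
  set d := min δ 1 / 8 with hd
  have hd0 : 0 < d := by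
    have : 0 < min δ 1 := lt_min hδ one_pos
    positivity
  have hd1 : d ≤ 1 / 8 := by
    have : min δ 1 ≤ 1 := min_le_right _ _
    linarith
  have hdδ : 8 * d ≤ δ := by
    have : min δ 1 ≤ δ := min_le_left _ _
    linarith
  have hlim : Tendsto (fun x : ℕ => Real.sqrt x * Real.log x / x) atTop (𝓝 0) := by
    have h := log_pow_div 1 (1 / 4)
    refine h.congr fun x => ?_
    rw [Real.sqrt_eq_rpow, pow_one]
    ring
  filter_upwards [pnt hd0, main3 w d hd0, hlim.eventually (gt_mem_nhds hd0), eventually_ge_atTop 3,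
    eventually_ge_atTop (w * w)] with N h1 h2 h3 hN3 hNw
  have hNp : (0 : ℝ) < N := by exact_mod_cast (by omega : 0 < N)
  have hL : 0 < Real.log N := Real.log_pos (by exact_mod_cast (by omega : 1 < N))
  have hNV : 0 < N * Vv w := mul_pos hNp hV
  unfold mean
  rw [sum_eq hNw]
  obtain ⟨q1, q2⟩ := qs_card N
  set c : ℝ := ((qs N).card : ℝ) with hc
  set B : ℝ := ((kap w N).card : ℝ) with hB
  rw [abs_le] at h1 h2
  have hB1 : (1 - d) * (N * Vv w) ≤ B := by
    have := h2.1
    rw [neg_le_sub_iff_le_add, le_iff_lt_or_eq] at this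
    have h5 : 1 - d ≤ B / (N * Vv w) := by linarith [h2.1]
    rwa [le_div_iff₀ hNV] at h5
  have hB2 : B ≤ (1 + d) * (N * Vv w) := by
    have h5 : B / (N * Vv w) ≤ 1 + d := by linarith [h2.2]
    rwa [div_le_iff₀ hNV] at h5
  have hBp : 0 < B := lt_of_lt_of_le (mul_pos (by linarith) hNV) hB1
  have hcL1 : c * Real.log N ≤ (1 + d) * N := by
    have h5 : c ≤ (1 + d) * (N / Real.log N) := by linarith [h1.2]
    calc c * Real.log N ≤ (1 + d) * (N / Real.log N) * Real.log N :=
          mul_le_mul_of_nonneg_right h5 hL.le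
      _ = (1 + d) * N := by field_simp
  have hcL2 : (1 - 2 * d) * N ≤ c * Real.log N := by
    have h5 : (1 - d) * (N / Real.log N) - Real.sqrt N ≤ c := by linarith [h1.1]
    have h6 : Real.sqrt N * Real.log N ≤ d * N := by
      rw [div_lt_iff₀ hNp] at h3
      exact h3.le
    calc (1 - 2 * d) * N = (1 - d) * N - d * N := by ring
      _ ≤ (1 - d) * N - Real.sqrt N * Real.log N := by linarith
      _ = ((1 - d) * (N / Real.log N) - Real.sqrt N) * Real.log N := by field_simp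
      _ ≤ c * Real.log N := mul_le_mul_of_nonneg_right h5 hL.le
  have hA1 : Vv w * Real.log N * c ≤ (1 + d) * (N * Vv w) := by nlinarith
  have hA2 : (1 - 2 * d) * (N * Vv w) ≤ Vv w * Real.log N * c := by nlinarith
  rw [abs_le]
  constructor
  · rw [neg_le_sub_iff_le_add, ← sub_le_iff_le_add, le_div_iff₀ hBp]
    have h7 : (1 - δ) * B ≤ (1 - 8 * d) * B := mul_le_mul_of_nonneg_right (by linarith) hBp.le
    have h8 : (1 - 8 * d) * B ≤ (1 - 8 * d) * ((1 + d) * (N * Vv w)) :=
      mul_le_mul_of_nonneg_left hB2 (by linarith)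
    nlinarith
  · rw [sub_le_iff_le_add, div_le_iff₀ hBp]
    have h7 : (8 * d + 1) * ((1 - d) * (N * Vv w)) ≤ (δ + 1) * B :=
      mul_le_mul (by linarith) hB1 (mul_nonneg (by linarith) hNV.le) (by linarith)
    nlinarith

end Pool.Agent.NH16.SM.FP
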