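import Pool.Agent.NH16.SM.Stm2

set_option autoImplicit false

/-!
# Task SM13: the singular series of a tuple of multiples of a primorial
-/

namespace Pool.Agent.NH16.SM.SS

open Finset Filter Topology
open scoped BigOperators
open Pool.Agent.NH16.DL
open Pool.Agent.NH16.SM
open Pool.Agent.H386R2.HL (nu localFactor singularSeries nu_le_r nu_le_p localFactor_nonneg
  multipliable_localFactor localFactor_le_pow mod_eq_iff_dvd_dist)

/-- products over an initial segment of the primes converge to the infinite product -/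
lemma tendsto_PP' {F : ℕ → ℝ} {a : ℝ} (h : HasProd (fun p : Nat.Primes => F (p : ℕ)) a) :
    Tendsto (fun y : ℕ => ∏ p ∈ PP y, F p) atTop (𝓝 a) := by
  classical
  have h1 : Tendsto (fun y : ℕ => (Finset.subtype Nat.Prime (PP y) : Finset Nat.Primes)) atTop atTop := by
    refine tendsto_atTop_finset_of_monotone ?_ ?_
    · intro y y' hy p hp
      rw [Finset.mem_subtype, mem_PP] at hp ⊢
      exact ⟨hp.1, hp.2.trans hy⟩
    · intro p
      refine ⟨(p : ℕ), ?_⟩
      rw [Finset.mem_subtype, mem_PP]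
      exact ⟨p.2, le_rfl⟩
  have h2 := Tendsto.comp h h1
  refine h2.congr fun y => ?_
  simp only [Function.comp]
  exact prod_subtype_of_mem (f := F) fun p hp => (mem_PP.1 hp).1

lemma LF_le_one {m : ℕ} (a : Fin m → ℕ) {p : ℕ} (hp : p.Prime) (h : nu a p = m) :
    localFactor a p ≤ 1 := by
  have h0 := fac_pos hp
  unfold localFactor
  rw [h, inv_pow, mul_comm, ← div_eq_mul_inv, div_le_one (pow_pos h0 _)]
  have hp1 : (1 : ℝ) < p := by exact_mod_cast hp.one_lt
  have h1 : (1 : ℝ) / p ≤ 1 := by rw [div_le_one (by linarith)]; exact hp1.le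
  have := one_add_mul_le_pow (a := -(1 / (p : ℝ))) (by linarith) m
  have e : (1 : ℝ) + (m : ℝ) * -(1 / (p : ℝ)) = 1 - (m : ℝ) / p := by ring
  rw [e] at this
  have e2 : (1 : ℝ) + -(1 / (p : ℝ)) = 1 - 1 / p := by ring
  rw [e2] at this
  exact this

lemma LF_le {m : ℕ} (a : Fin m → ℕ) {p : ℕ} (hp : p.Prime) :
    localFactor a p ≤ 1 + 3 ^ m / p := by
  have hp2 : (2 : ℝ) ≤ p := by exact_mod_cast hp.two_le
  have hpp : (0 : ℝ) < p := by linarith
  have h1 : (1 : ℝ) / p ≤ 1 := by rw [div_le_one hpp]; linarith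
  have h0 : (0 : ℝ) ≤ 1 / p := by positivity
  have h2 : (1 - 1 / (p : ℝ))⁻¹ ≤ 1 + 2 * (1 / p) := by
    rw [inv_le_comm₀ (fac_pos hp) (by positivity), inv_le_iff_one_le_mul₀ (by positivity)]
    have : (1 : ℝ) / p ≤ 1 / 2 := by
      apply one_div_le_one_div_of_le <;> linarith
    nlinarith
  have h3 : localFactor a p ≤ (1 + 2 * (1 / (p : ℝ))) ^ m :=
    (localFactor_le_pow a hp).trans (pow_le_pow_left₀ (inv_nonneg.2 (fac_pos hp).le) h2 _)
  refine h3.trans ((one_add_pow_le zero_le_two h0 h1 m).trans ?_)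
  have : (1 + 2 : ℝ) = 3 := by norm_num
  rw [this, div_mul_eq_mul_div, one_mul]
  have : ((3 : ℝ) ^ m - 1) / p ≤ 3 ^ m / p := div_le_div_of_nonneg_right (by linarith) hpp.le
  linarith

lemma LF_ge {m : ℕ} (a : Fin m → ℕ) {p : ℕ} (hp : p.Prime) (hm : m ≤ p) :
    1 - (m : ℝ) ^ 2 * (1 / (p : ℝ) ^ 2) ≤ localFactor a p := by
  have h1 := Pool.Agent.W218.MU.abs_generic m hp hm
  have h2 : (1 - (m : ℝ) / p) / (1 - 1 / (p : ℝ)) ^ m ≤ localFactor a p := by
    unfold localFactor
    rw [div_eq_mul_inv, mul_comm, ← inv_pow]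
    refine mul_le_mul_of_nonneg_left ?_ (pow_nonneg (inv_nonneg.2 (fac_pos hp).le) _)
    have : (nu a p : ℝ) / p ≤ (m : ℝ) / p :=
      div_le_div_of_nonneg_right (by exact_mod_cast nu_le_r a p) (Nat.cast_nonneg _)
    linarith
  have := (abs_le.1 h1).1
  linarith

/-- `m` classes if `p` does not divide the discriminant -/
lemma nu_big {m w c : ℕ} {u : Fin m → ℕ} (hu : Function.Injective u) (hc : 1 ≤ c) (hcw : c ≤ w)
    {p : ℕ} (hp : p.Prime) (hpw : w < p) (hd : ¬ p ∣ dsc u) :
    nu (fun i => Wn w * (c * u i)) p = m := by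
  unfold nu
  rw [card_image_of_injective]
  · simp
  intro i j hij
  simp only at hij
  by_contra hne
  rw [mod_eq_iff_dvd_dist] at hij
  have e : Nat.dist (Wn w * (c * u i)) (Wn w * (c * u j)) = Wn w * (c * Nat.dist (u i) (u j)) := by
    rw [Nat.dist_mul_left, Nat.dist_mul_left]
  rw [e] at hij
  rcases hp.dvd_mul.1 hij with h | h
  · exact absurd ((dvd_Wn hp).1 h) (by omega)
  rcases hp.dvd_mul.1 h with h | h
  · exact absurd (Nat.le_of_dvd (by omega) h) (by omega)
  apply hd
  unfold dsc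
  have hne' : u i ≠ u j := fun h => hne (hu h)
  have h3 : p ∣ ed (u i) (u j) := by
    unfold ed
    rw [if_neg hne']
    exact h
  exact (h3.trans (dvd_prod_of_mem (fun j => ed (u i) (u j)) (mem_univ j))).trans
      (dvd_prod_of_mem (fun i => ∏ j, ed (u i) (u j)) (mem_univ i))

lemma dsc_ne {m : ℕ} (u : Fin m → ℕ) : dsc u ≠ 0 := by
  unfold dsc
  rw [prod_ne_zero_iff]
  intro i _
  rw [prod_ne_zero_iff]
  intro j _
  unfold ed
  split_ifs with h
  · exact one_ne_zero
  · exact fun h' => h (Nat.eq_of_dist_eq_zero h')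

/-- small primes -/
lemma LF_small {r w c : ℕ} (u : Fin (r + 1) → ℕ) {p : ℕ} (hp : p.Prime) (hpw : p ≤ w) :
    localFactor (fun i => Wn w * (c * u i)) p = ((1 - 1 / (p : ℝ))⁻¹) ^ r := by
  have h1 : nu (fun i => Wn w * (c * u i)) p = 1 := by
    unfold nu
    have e : (univ.image fun i : Fin (r + 1) => (Wn w * (c * u i)) % p) = {0} := by
      ext v
      rw [mem_image, mem_singleton]
      constructor
      · rintro ⟨i, _, rfl⟩
        exact Nat.mod_eq_zero_of_dvd (((dvd_Wn hp).2 hpw).mul_right _)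
      · rintro rfl
        exact ⟨0, mem_univ _, Nat.mod_eq_zero_of_dvd (((dvd_Wn hp).2 hpw).mul_right _)⟩
    rw [e, card_singleton]
  unfold localFactor
  rw [h1, pow_succ, mul_assoc, Nat.cast_one, inv_mul_cancel₀ (fac_pos hp).ne', mul_one]

theorem main : S_SS := by
  intro w r c u hrw hc hcw hu
  classical
  set a : Fin (r + 1) → ℕ := fun i => Wn w * (c * u i) with ha
  have hainj : Function.Injective a := by
    intro i j hij
    apply hu
    have h1 := Nat.eq_of_mul_eq_mul_left (Wn_pos w) hij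
    exact Nat.eq_of_mul_eq_mul_left (by omega) h1
  have hw1 : 1 ≤ w := by omega
  have hlim := tendsto_PP' (F := fun p => localFactor a p) (multipliable_localFactor a hainj).hasProd
  have hlim2 : Tendsto (fun y : ℕ => |Vv w ^ r * ∏ p ∈ PP y, localFactor a p - 1|) atTop
      (𝓝 |Vv w ^ r * singularSeries a - 1|) := ((hlim.const_mul (Vv w ^ r)).sub_const 1).abs
  refine le_of_tendsto hlim2 ?_
  filter_upwards [eventually_ge_atTop w] with y hwy
  have hsplit : PP y = PP w ∪ (PP y).filter (fun p => w < p) := by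
    ext p
    rw [mem_union, mem_filter, mem_PP, mem_PP]
    constructor
    · rintro ⟨h1, h2⟩
      by_cases h : p ≤ w
      · exact Or.inl ⟨h1, h⟩
      · exact Or.inr ⟨⟨h1, h2⟩, by omega⟩
    · rintro (⟨h1, h2⟩ | ⟨h1, _⟩)
      · exact ⟨h1, h2.trans hwy⟩
      · exact h1
  have hdisj : Disjoint (PP w) ((PP y).filter (fun p => w < p)) := by
    rw [disjoint_left]
    intro p hp hp'
    rw [mem_PP] at hp
    rw [mem_filter] at hp'
    omega
  set T := ∏ p ∈ (PP y).filter (fun p => w < p), localFactor a p with hT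
  have e1 : Vv w ^ r * ∏ p ∈ PP y, localFactor a p = T := by
    rw [hsplit, prod_union hdisj, ← hT, ← mul_assoc]
    have : Vv w ^ r * ∏ p ∈ PP w, localFactor a p = 1 := by
      unfold Vv
      rw [← prod_pow, ← prod_mul_distrib]
      refine prod_eq_one fun p hp => ?_
      rw [mem_PP] at hp
      rw [ha, LF_small u hp.1 hp.2, inv_pow, mul_inv_cancel₀ (pow_pos (fac_pos hp.1) _).ne']
    rw [this, one_mul]
  rw [e1]
  have hT1 : T ≤ sg w (3 ^ (r + 1)) (dsc u) := by
    calc T ≤ ∏ p ∈ (PP y).filter (fun p => w < p),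
          (if p ∣ dsc u then (1 + (3 : ℝ) ^ (r + 1) / p) else 1) := by
          refine prod_le_prod (fun p hp => ?_) fun p hp => ?_
          · rw [mem_filter, mem_PP] at hp
            exact localFactor_nonneg a hp.1.1
          · rw [mem_filter, mem_PP] at hp
            split_ifs with h
            · exact LF_le a hp.1.1
            · exact LF_le_one a hp.1.1 (nu_big hu hc hcw hp.1.1 hp.2 h)
      _ = ∏ p ∈ ((PP y).filter (fun p => w < p)).filter (fun p => p ∣ dsc u),
          (1 + (3 : ℝ) ^ (r + 1) / p) := by rw [prod_filter (fun p => p ∣ dsc u)]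
      _ ≤ _ := by
          unfold sg
          refine prod_le_prod_of_subset_of_one_le ?_ (fun p _ => by positivity) fun p _ _ => ?_
          · intro p hp
            rw [mem_filter, mem_filter, mem_PP] at hp
            rw [mem_filter, Nat.mem_primeFactors]
            exact ⟨⟨hp.1.1.1, hp.2, dsc_ne u⟩, hp.1.2⟩
          · have : (0 : ℝ) ≤ 3 ^ (r + 1) / p := by positivity
            linarith
  have hT2 : 1 - ((r : ℝ) + 1) ^ 2 / w ≤ T := by
    have h1 : ∀ p ∈ (PP y).filter (fun p => w < p), ((r : ℝ) + 1) ^ 2 * (1 / (p : ℝ) ^ 2) ≤ 1 := by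
      intro p hp
      rw [mem_filter, mem_PP] at hp
      have hp0 : (0 : ℝ) < p := by exact_mod_cast hp.1.1.pos
      rw [mul_one_div, div_le_one (by positivity)]
      refine pow_le_pow_left₀ (by positivity) ?_ 2
      exact_mod_cast hrw.trans hp.2.le
    calc 1 - ((r : ℝ) + 1) ^ 2 / w ≤
          1 - ∑ p ∈ (PP y).filter (fun p => w < p), ((r : ℝ) + 1) ^ 2 * (1 / (p : ℝ) ^ 2) := by
          rw [← mul_sum]
          have h2 : ∑ p ∈ (PP y).filter (fun p => w < p), (1 : ℝ) / (p : ℝ) ^ 2 ≤ 1 / w := by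
            refine (sum_le_sum_of_subset_of_nonneg ?_ fun p _ _ => by positivity).trans
              (tele w y hw1)
            intro p hp
            rw [mem_filter, mem_PP] at hp
            rw [mem_Ioc]
            exact ⟨hp.2, hp.1.2⟩
          have h3 := mul_le_mul_of_nonneg_left h2 (sq_nonneg ((r : ℝ) + 1))
          have e : ((r : ℝ) + 1) ^ 2 / w = ((r : ℝ) + 1) ^ 2 * (1 / w) := by ring
          rw [e]
          linarith
      _ ≤ ∏ p ∈ (PP y).filter (fun p => w < p), (1 - ((r : ℝ) + 1) ^ 2 * (1 / (p : ℝ) ^ 2)) :=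
          one_sub_sum_le' _ _ (fun p _ => by positivity) h1
      _ ≤ T := prod_le_prod (fun p hp => by linarith [h1 p hp]) fun p hp => by
          rw [mem_filter, mem_PP] at hp
          have h5 := LF_ge a hp.1.1 (hrw.trans hp.2.le)
          push_cast at h5
          exact h5
  have hs1 : 1 ≤ sg w (3 ^ (r + 1)) (dsc u) := sg_one_le (by positivity) _
  have hw0 : (0 : ℝ) ≤ ((r : ℝ) + 1) ^ 2 / w := by positivity
  rw [abs_le]
  constructor <;> linarith

end Pool.Agent.NH16.SM.SS
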