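import Pool.Agent.NH16.SM.Stm2

set_option autoImplicit false

/-!
# Windows of a cyclic group: transfer of the mean squares (S_WIN from S_OP)
-/

namespace Pool.Agent.NH16.SM.WIN

open Finset
open scoped BigOperators
open Pool.Agent.NH16.SM

variable {Q : ℕ} [NeZero Q]

/-- convolution with a weight -/
noncomputable def Aw (c φ : ZMod Q → ℝ) (n : ZMod Q) : ℝ := ∑ z, c z * φ (n + z)

variable {κt : Type} [Fintype κt] [Nonempty κt]

lemma exp_sq (c : ZMod Q → ℝ) (φ : κt → ZMod Q → ℝ) (n : ZMod Q) :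
    𝔼 q, Aw c (φ q) n ^ 2 = ∑ z, ∑ z', c z * c z' * 𝔼 q, φ q (n + z) * φ q (n + z') := by
  have h1 : ∀ q, Aw c (φ q) n ^ 2 = ∑ z, ∑ z', c z * c z' * (φ q (n + z) * φ q (n + z')) := by
    intro q
    unfold Aw
    rw [sq, Finset.sum_mul_sum]
    refine Finset.sum_congr rfl fun z _ => Finset.sum_congr rfl fun z' _ => ?_
    ring
  simp only [h1]
  rw [Finset.expect_sum_comm]
  refine Finset.sum_congr rfl fun z _ => ?_
  rw [Finset.expect_sum_comm]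
  refine Finset.sum_congr rfl fun z' _ => ?_
  rw [Finset.mul_expect]

/-- the transfer of mean squares -/
lemma transfer (c : ZMod Q → ℝ) (φ φ' : κt → ZMod Q → ℝ) {om c1 : ℝ} (hom : ∀ z, |c z| ≤ om)
    (hc1 : ∑ z, |c z| ≤ c1) :
    ∑ n, 𝔼 q, Aw c (φ q) n ^ 2 ≤ ∑ n, 𝔼 q, Aw c (φ' q) n ^ 2 +
      om * c1 * ∑ x, ∑ y, |𝔼 q, φ q x * φ q y - 𝔼 q, φ' q x * φ' q y| := by
  set D : ZMod Q → ZMod Q → ℝ := fun x y => 𝔼 q, φ q x * φ q y - 𝔼 q, φ' q x * φ' q y with hD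
  have hom0 : 0 ≤ om := (abs_nonneg _).trans (hom 0)
  have h1 : ∑ n, 𝔼 q, Aw c (φ q) n ^ 2 - ∑ n, 𝔼 q, Aw c (φ' q) n ^ 2 =
      ∑ n, ∑ z, ∑ z', c z * c z' * D (n + z) (n + z') := by
    rw [← Finset.sum_sub_distrib]
    refine Finset.sum_congr rfl fun n _ => ?_
    rw [exp_sq, exp_sq, ← Finset.sum_sub_distrib]
    refine Finset.sum_congr rfl fun z _ => ?_
    rw [← Finset.sum_sub_distrib]
    refine Finset.sum_congr rfl fun z' _ => ?_
    rw [hD]; ring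
  have h2 : ∑ n, ∑ z, ∑ z', c z * c z' * D (n + z) (n + z') ≤
      ∑ n, ∑ z, ∑ z', |c z| * (om * |D (n + z) (n + z')|) := by
    refine Finset.sum_le_sum fun n _ => Finset.sum_le_sum fun z _ => Finset.sum_le_sum fun z' _ => ?_
    refine (le_abs_self _).trans ?_
    rw [abs_mul, abs_mul, mul_assoc]
    gcongr
    exact hom z'
  have h3 : ∑ n, ∑ z, ∑ z', |c z| * (om * |D (n + z) (n + z')|) =
      (∑ z, |c z|) * (om * ∑ x, ∑ y, |D x y|) := by
    rw [Finset.sum_comm, Finset.sum_mul]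
    refine Finset.sum_congr rfl fun z _ => ?_
    have h4 : ∀ n : ZMod Q, ∑ z', |c z| * (om * |D (n + z) (n + z')|) =
        |c z| * (om * ∑ y, |D (n + z) y|) := by
      intro n
      rw [← Finset.mul_sum, ← Finset.mul_sum]
      congr 2
      exact Equiv.sum_comp (Equiv.addLeft n) (fun y => |D (n + z) y|)
    simp only [h4]
    rw [← Finset.mul_sum, ← Finset.mul_sum]
    congr 2
    exact Equiv.sum_comp (Equiv.addRight z) (fun x => ∑ y, |D x y|)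
  have h5 : (∑ z, |c z|) * (om * ∑ x, ∑ y, |D x y|) ≤ c1 * (om * ∑ x, ∑ y, |D x y|) := by
    apply mul_le_mul_of_nonneg_right hc1
    apply mul_nonneg hom0
    exact Finset.sum_nonneg fun x _ => Finset.sum_nonneg fun y _ => abs_nonneg _
  have h6 : c1 * (om * ∑ x, ∑ y, |D x y|) = om * c1 * ∑ x, ∑ y, |D x y| := by ring
  linarith

/-- the kernel -/
noncomputable def ck (H J μ k : ℕ) (b : ℕ → ℝ) (z : ZMod Q) : ℝ :=
  (1 / (H : ℝ)) * ∑ h ∈ Icc 1 H, b h * (if z = ((μ * k * h : ℕ) : ZMod Q) then 1 else 0) -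
    ((1 / (H : ℝ)) * ∑ h ∈ Icc 1 H, b h) * ((1 / (J : ℝ) ^ 2) * ∑ j ∈ range J, ∑ j' ∈ range J,
      (if z = ((μ * j : ℕ) : ZMod Q) - ((μ * j' : ℕ) : ZMod Q) then 1 else 0))

lemma Aw_ck (H J μ k : ℕ) (b : ℕ → ℝ) (φ : ZMod Q → ℝ) (n : ZMod Q) :
    Aw (ck H J μ k b) φ n =
      (1 / (H : ℝ)) * ∑ h ∈ Icc 1 H, b h * φ (n + ((μ * k * h : ℕ) : ZMod Q)) -
        ((1 / (H : ℝ)) * ∑ h ∈ Icc 1 H, b h) * Pf μ J φ n := by
  have e1 : ∀ a : ZMod Q, ∑ z, (if z = a then (1 : ℝ) else 0) * φ (n + z) = φ (n + a) := by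
    intro a
    simp
  unfold Aw ck Pf
  simp only [sub_mul, Finset.sum_sub_distrib]
  congr 1
  · simp only [mul_assoc, Finset.sum_mul, Finset.mul_sum]
    rw [Finset.sum_comm]
    refine Finset.sum_congr rfl fun h _ => ?_
    rw [← Finset.mul_sum, ← Finset.mul_sum, e1]
  · have e2 : ∀ z : ZMod Q, ((1 / (H : ℝ)) * ∑ h ∈ Icc 1 H, b h) * ((1 / (J : ℝ) ^ 2) *
        ∑ j ∈ range J, ∑ j' ∈ range J,
        (if z = ((μ * j : ℕ) : ZMod Q) - ((μ * j' : ℕ) : ZMod Q) then (1 : ℝ) else 0)) * φ (n + z) =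
        ((1 / (H : ℝ)) * ∑ h ∈ Icc 1 H, b h) * ((1 / (J : ℝ) ^ 2) * ∑ j ∈ range J, ∑ j' ∈ range J,
        (if z = ((μ * j : ℕ) : ZMod Q) - ((μ * j' : ℕ) : ZMod Q) then (1 : ℝ) else 0) * φ (n + z)) := by
      intro z
      rw [mul_assoc]
      congr 1
      rw [mul_assoc]
      congr 1
      rw [Finset.sum_mul]
      exact Finset.sum_congr rfl fun j _ => Finset.sum_mul _ _ _
    simp only [e2]
    rw [← Finset.mul_sum, ← Finset.mul_sum]
    congr 2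
    rw [Finset.sum_comm]
    refine Finset.sum_congr rfl fun j _ => ?_
    rw [Finset.sum_comm]
    refine Finset.sum_congr rfl fun j' _ => ?_
    rw [e1, add_sub_assoc]

lemma cast_inj {a a' : ℕ} (h : a < Q) (h' : a' < Q) (e : (a : ZMod Q) = (a' : ZMod Q)) : a = a' := by
  have := congrArg ZMod.val e
  rwa [ZMod.val_natCast_of_lt h, ZMod.val_natCast_of_lt h'] at this

lemma b'_le {H : ℕ} (hH : 1 ≤ H) {b : ℕ → ℝ} (hb : ∀ h, |b h| ≤ 1) :
    |(1 / (H : ℝ)) * ∑ h ∈ Icc 1 H, b h| ≤ 1 := by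
  have hHp : (0 : ℝ) < H := by exact_mod_cast hH
  rw [abs_mul, abs_of_pos (by positivity : (0 : ℝ) < 1 / H)]
  have : |∑ h ∈ Icc 1 H, b h| ≤ H := by
    refine (Finset.abs_sum_le_sum_abs _ _).trans ?_
    refine (Finset.sum_le_sum fun h _ => hb h).trans ?_
    simp
  calc 1 / (H : ℝ) * |∑ h ∈ Icc 1 H, b h| ≤ 1 / (H : ℝ) * H := by gcongr
    _ = 1 := by field_simp

lemma ck_le {H J μ k : ℕ} (hH : 1 ≤ H) (hJ : 1 ≤ J) (hHJ : H ≤ J) (hμ : 1 ≤ μ) (hk : 1 ≤ k)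
    (h1 : μ * k * H < Q) (h2 : μ * J < Q) {b : ℕ → ℝ} (hb : ∀ h, |b h| ≤ 1) (z : ZMod Q) :
    |ck H J μ k b z| ≤ 2 / (H : ℝ) := by
  have hHp : (0 : ℝ) < H := by exact_mod_cast hH
  have hJp : (0 : ℝ) < J := by exact_mod_cast hJ
  have hHJ' : (H : ℝ) ≤ J := by exact_mod_cast hHJ
  unfold ck
  have a1 : |(1 / (H : ℝ)) * ∑ h ∈ Icc 1 H, b h * (if z = ((μ * k * h : ℕ) : ZMod Q) then 1 else 0)| ≤
      1 / H := by
    rw [abs_mul, abs_of_pos (by positivity : (0 : ℝ) < 1 / H)]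
    have : |∑ h ∈ Icc 1 H, b h * (if z = ((μ * k * h : ℕ) : ZMod Q) then (1 : ℝ) else 0)| ≤ 1 := by
      by_cases hex : ∃ h0 ∈ Icc 1 H, z = ((μ * k * h0 : ℕ) : ZMod Q)
      · obtain ⟨h0, hh0, hz⟩ := hex
        rw [Finset.sum_eq_single h0]
        · rw [if_pos hz, mul_one]; exact hb h0
        · intro h hh hne
          rw [if_neg, mul_zero]
          intro hz'
          apply hne
          have e := hz'.symm.trans hz
          have l1 : μ * k * h < Q :=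
            lt_of_le_of_lt (Nat.mul_le_mul_left _ (mem_Icc.1 hh).2) h1
          have l2 : μ * k * h0 < Q :=
            lt_of_le_of_lt (Nat.mul_le_mul_left _ (mem_Icc.1 hh0).2) h1
          have := cast_inj l1 l2 e
          exact Nat.eq_of_mul_eq_mul_left (Nat.mul_pos hμ hk) this
        · intro h; exact absurd hh0 h
      · push Not at hex
        rw [Finset.sum_eq_zero]
        · simp
        · intro h hh
          rw [if_neg (hex h hh), mul_zero]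
    calc 1 / (H : ℝ) * _ ≤ 1 / (H : ℝ) * 1 := by gcongr
      _ = 1 / H := mul_one _
  have a2 : |((1 / (H : ℝ)) * ∑ h ∈ Icc 1 H, b h) * ((1 / (J : ℝ) ^ 2) * ∑ j ∈ range J, ∑ j' ∈ range J,
      (if z = ((μ * j : ℕ) : ZMod Q) - ((μ * j' : ℕ) : ZMod Q) then (1 : ℝ) else 0))| ≤ 1 / (H : ℝ) := by
    have s0 : 0 ≤ ∑ j ∈ range J, ∑ j' ∈ range J,
      (if z = ((μ * j : ℕ) : ZMod Q) - ((μ * j' : ℕ) : ZMod Q) then (1 : ℝ) else 0) :=
      Finset.sum_nonneg fun j _ => Finset.sum_nonneg fun j' _ => by split_ifs <;> norm_num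
    have s1 : ∑ j ∈ range J, ∑ j' ∈ range J,
      (if z = ((μ * j : ℕ) : ZMod Q) - ((μ * j' : ℕ) : ZMod Q) then (1 : ℝ) else 0) ≤ J := by
      rw [Finset.sum_comm]
      have : ∀ j' ∈ range J, ∑ j ∈ range J,
          (if z = ((μ * j : ℕ) : ZMod Q) - ((μ * j' : ℕ) : ZMod Q) then (1 : ℝ) else 0) ≤ 1 := by
        intro j' _
        by_cases hex : ∃ j0 ∈ range J, z = ((μ * j0 : ℕ) : ZMod Q) - ((μ * j' : ℕ) : ZMod Q)
        · obtain ⟨j0, hj0, hz⟩ := hex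
          rw [Finset.sum_eq_single j0]
          · rw [if_pos hz]
          · intro j hj hne
            rw [if_neg]
            intro hz'
            apply hne
            have e : ((μ * j : ℕ) : ZMod Q) = ((μ * j0 : ℕ) : ZMod Q) := by
              have := hz'.symm.trans hz
              exact sub_left_injective this
            have l1 : μ * j < Q := lt_of_le_of_lt (Nat.mul_le_mul_left _ (mem_range.1 hj).le) h2
            have l2 : μ * j0 < Q := lt_of_le_of_lt (Nat.mul_le_mul_left _ (mem_range.1 hj0).le) h2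
            exact Nat.eq_of_mul_eq_mul_left hμ (cast_inj l1 l2 e)
          · intro h; exact absurd hj0 h
        · push Not at hex
          rw [Finset.sum_eq_zero]
          · norm_num
          · intro j hj
            rw [if_neg (hex j hj)]
      refine (Finset.sum_le_sum this).trans ?_
      simp
    rw [abs_mul, abs_mul (1 / (J : ℝ) ^ 2), abs_of_pos (by positivity : (0 : ℝ) < 1 / (J : ℝ) ^ 2),
      abs_of_nonneg s0]
    have u1 := b'_le hH hb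
    calc _ ≤ 1 * (1 / (J : ℝ) ^ 2 * J) := by
          refine mul_le_mul u1 ?_ (mul_nonneg (by positivity) s0) zero_le_one
          exact mul_le_mul_of_nonneg_left s1 (by positivity)
      _ = 1 / (J : ℝ) := by field_simp
      _ ≤ 1 / (H : ℝ) := by gcongr
  calc _ ≤ 1 / (H : ℝ) + 1 / (H : ℝ) := (abs_sub _ _).trans (add_le_add a1 a2)
    _ = 2 / (H : ℝ) := by ring

lemma ck_sum {H J μ k : ℕ} (hH : 1 ≤ H) (hJ : 1 ≤ J) {b : ℕ → ℝ} (hb : ∀ h, |b h| ≤ 1) :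
    ∑ z : ZMod Q, |ck H J μ k b z| ≤ 2 := by
  have hHp : (0 : ℝ) < H := by exact_mod_cast hH
  have hJp : (0 : ℝ) < J := by exact_mod_cast hJ
  have e0 : ∀ a : ZMod Q, ∑ z, (if z = a then (1 : ℝ) else 0) = 1 := by intro a; simp
  have h1 : ∀ z : ZMod Q, |ck H J μ k b z| ≤
      (1 / (H : ℝ)) * ∑ h ∈ Icc 1 H, (if z = ((μ * k * h : ℕ) : ZMod Q) then (1 : ℝ) else 0) +
      (1 / (J : ℝ) ^ 2) * ∑ j ∈ range J, ∑ j' ∈ range J,
      (if z = ((μ * j : ℕ) : ZMod Q) - ((μ * j' : ℕ) : ZMod Q) then (1 : ℝ) else 0) := by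
    intro z
    unfold ck
    refine (abs_sub _ _).trans (add_le_add ?_ ?_)
    · rw [abs_mul, abs_of_pos (by positivity : (0 : ℝ) < 1 / H)]
      gcongr
      refine (Finset.abs_sum_le_sum_abs _ _).trans (Finset.sum_le_sum fun h _ => ?_)
      rw [abs_mul]
      split_ifs
      · rw [abs_one, mul_one]; exact hb h
      · simp
    · have s0 : 0 ≤ (1 / (J : ℝ) ^ 2) * ∑ j ∈ range J, ∑ j' ∈ range J,
        (if z = ((μ * j : ℕ) : ZMod Q) - ((μ * j' : ℕ) : ZMod Q) then (1 : ℝ) else 0) :=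
        mul_nonneg (by positivity)
          (Finset.sum_nonneg fun j _ => Finset.sum_nonneg fun j' _ => by split_ifs <;> norm_num)
      rw [abs_mul, abs_of_nonneg s0]
      calc _ ≤ 1 * _ := mul_le_mul_of_nonneg_right (b'_le hH hb) s0
        _ = _ := one_mul _
  refine (Finset.sum_le_sum fun z _ => h1 z).trans ?_
  rw [Finset.sum_add_distrib, ← Finset.mul_sum, ← Finset.mul_sum]
  have h2 : ∑ z : ZMod Q, ∑ h ∈ Icc 1 H, (if z = ((μ * k * h : ℕ) : ZMod Q) then (1 : ℝ) else 0) = H := by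
    rw [Finset.sum_comm]
    simp only [e0]
    simp
  have h3 : ∑ z : ZMod Q, ∑ j ∈ range J, ∑ j' ∈ range J,
      (if z = ((μ * j : ℕ) : ZMod Q) - ((μ * j' : ℕ) : ZMod Q) then (1 : ℝ) else 0) = J ^ 2 := by
    rw [Finset.sum_comm]
    have : ∀ j ∈ range J, ∑ z : ZMod Q, ∑ j' ∈ range J,
      (if z = ((μ * j : ℕ) : ZMod Q) - ((μ * j' : ℕ) : ZMod Q) then (1 : ℝ) else 0) = J := by
      intro j _
      rw [Finset.sum_comm]
      simp only [e0]
      simp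
    rw [Finset.sum_congr rfl this]
    simp [sq]
  rw [h2, h3]
  have e1 : 1 / (H : ℝ) * H = 1 := by field_simp
  have e2 : 1 / (J : ℝ) ^ 2 * (J : ℝ) ^ 2 = 1 := by field_simp
  rw [e1, e2]; norm_num

/-- sums over the cyclic group of functions supported on the window -/
lemma sum_ext {L : ℕ} (hLQ : L ≤ Q) (g : ℕ → ℝ) :
    ∑ x : ZMod Q, (if x.val < L then g x.val else 0) = ∑ s ∈ range L, g s := by
  rw [← Finset.sum_filter]
  refine Finset.sum_nbij' (fun x => x.val) (fun s => (s : ZMod Q)) ?_ ?_ ?_ ?_ ?_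
  · intro x hx
    exact mem_range.2 (mem_filter.1 hx).2
  · intro s hs
    rw [mem_filter]
    refine ⟨mem_univ _, ?_⟩
    rw [ZMod.val_natCast_of_lt (lt_of_lt_of_le (mem_range.1 hs) hLQ)]
    exact mem_range.1 hs
  · intro x _
    exact ZMod.natCast_zmod_val x
  · intro s hs
    exact ZMod.val_natCast_of_lt (lt_of_lt_of_le (mem_range.1 hs) hLQ)
  · intro x _; rfl

lemma sum_D {L : ℕ} (hLQ : L ≤ Q) (f f' : ℕ → κt → ℝ) :
    ∑ x : ZMod Q, ∑ y : ZMod Q, |𝔼 q, ext Q L f q x * ext Q L f q y -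
        𝔼 q, ext Q L f' q x * ext Q L f' q y| =
      ∑ s ∈ range L, ∑ s' ∈ range L, |𝔼 q, f s q * f s' q - 𝔼 q, f' s q * f' s' q| := by
  have h1 : ∀ x y : ZMod Q, |𝔼 q, ext Q L f q x * ext Q L f q y -
        𝔼 q, ext Q L f' q x * ext Q L f' q y| =
      if x.val < L then (if y.val < L then
        |𝔼 q, f x.val q * f y.val q - 𝔼 q, f' x.val q * f' y.val q| else 0) else 0 := by
    intro x y
    unfold ext
    by_cases hx : x.val < L <;> by_cases hy : y.val < L <;> simp [hx, hy]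
  simp only [h1]
  have h2 : ∀ x : ZMod Q, (∑ y : ZMod Q, if x.val < L then (if y.val < L then
        |𝔼 q, f x.val q * f y.val q - 𝔼 q, f' x.val q * f' y.val q| else 0) else 0) =
      if x.val < L then ∑ s' ∈ range L, |𝔼 q, f x.val q * f s' q - 𝔼 q, f' x.val q * f' s' q| else 0 := by
    intro x
    by_cases hx : x.val < L
    · simp only [hx, if_true]
      exact sum_ext hLQ (fun t => |𝔼 q, f x.val q * f t q - 𝔼 q, f' x.val q * f' t q|)
    · simp [hx]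
  simp only [h2]
  exact sum_ext hLQ (fun t => ∑ s' ∈ range L, |𝔼 q, f t q * f s' q - 𝔼 q, f' t q * f' s' q|)

lemma sum_sq {L : ℕ} (hLQ : L ≤ Q) (f : ℕ → κt → ℝ) :
    𝔼 q, ∑ x : ZMod Q, ext Q L f q x ^ 2 = ∑ s ∈ range L, 𝔼 q, f s q ^ 2 := by
  have h1 : ∀ q, ∑ x : ZMod Q, ext Q L f q x ^ 2 = ∑ s ∈ range L, f s q ^ 2 := by
    intro q
    rw [← sum_ext hLQ (fun t => f t q ^ 2)]
    refine Finset.sum_congr rfl fun x _ => ?_
    unfold ext
    split_ifs <;> simp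
  simp only [h1]
  rw [Finset.expect_sum_comm]

/-- the window terms are terms of the cyclic group -/
lemma window {L K H J μ k : ℕ} (hμ : 1 ≤ μ) (hk : k ∈ Icc 1 K) (hQ : L + μ * (2 * J + K * H) < Q)
    (b : ℕ → ℝ) (f : ℕ → κt → ℝ) :
    ∑ u ∈ Ico (μ * J) (L - μ * J - μ * K * H),
      𝔼 q, ((1 / (H : ℝ)) * ∑ h ∈ Icc 1 H, b h * f (u + μ * k * h) q -
        ((1 / (H : ℝ)) * ∑ h ∈ Icc 1 H, b h) *
          ((1 / (J : ℝ) ^ 2) * ∑ j ∈ range J, ∑ j' ∈ range J, f (u + μ * j - μ * j') q)) ^ 2 ≤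
    ∑ n, 𝔼 q, Aw (ck H J μ k b) (ext Q L f q) n ^ 2 := by
  have hQ' : L + 2 * (μ * J) + μ * K * H < Q := by
    have e : μ * (2 * J + K * H) = 2 * (μ * J) + μ * K * H := by ring
    omega
  have hkK : k ≤ K := (mem_Icc.1 hk).2
  have h1 : ∀ u ∈ Ico (μ * J) (L - μ * J - μ * K * H),
      𝔼 q, ((1 / (H : ℝ)) * ∑ h ∈ Icc 1 H, b h * f (u + μ * k * h) q -
        ((1 / (H : ℝ)) * ∑ h ∈ Icc 1 H, b h) *
          ((1 / (J : ℝ) ^ 2) * ∑ j ∈ range J, ∑ j' ∈ range J, f (u + μ * j - μ * j') q)) ^ 2 =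
      𝔼 q, Aw (ck H J μ k b) (ext Q L f q) (u : ZMod Q) ^ 2 := by
    intro u hu
    rw [mem_Ico] at hu
    obtain ⟨hu1, hu2⟩ := hu
    refine Finset.expect_congr rfl fun q _ => ?_
    rw [Aw_ck]
    have e1 : ∑ h ∈ Icc 1 H, b h * f (u + μ * k * h) q =
        ∑ h ∈ Icc 1 H, b h * ext Q L f q ((u : ZMod Q) + ((μ * k * h : ℕ) : ZMod Q)) := by
      refine Finset.sum_congr rfl fun h hh => ?_
      have l1 : μ * k * h ≤ μ * K * H :=
        Nat.mul_le_mul (Nat.mul_le_mul_left _ hkK) (mem_Icc.1 hh).2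
      have l2 : u + μ * k * h < L := by omega
      rw [← Nat.cast_add]
      unfold ext
      rw [ZMod.val_natCast_of_lt (by omega), if_pos l2]
    have e2 : ∑ j ∈ range J, ∑ j' ∈ range J, f (u + μ * j - μ * j') q =
        ∑ j ∈ range J, ∑ j' ∈ range J,
          ext Q L f q ((u : ZMod Q) + ((μ * j : ℕ) : ZMod Q) - ((μ * j' : ℕ) : ZMod Q)) := by
      refine Finset.sum_congr rfl fun j hj => Finset.sum_congr rfl fun j' hj' => ?_
      have l1 : μ * j ≤ μ * J := Nat.mul_le_mul_left _ (mem_range.1 hj).le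
      have l1' : μ * j' ≤ μ * J := Nat.mul_le_mul_left _ (mem_range.1 hj').le
      rw [← Nat.cast_add, ← Nat.cast_sub (by omega)]
      unfold ext
      rw [ZMod.val_natCast_of_lt (by omega), if_pos (by omega)]
    unfold Pf
    rw [e1, e2]
  rw [Finset.sum_congr rfl h1]
  have hinj : Set.InjOn (fun u : ℕ => (u : ZMod Q)) (Ico (μ * J) (L - μ * J - μ * K * H) : Finset ℕ) := by
    intro u hu u' hu' e
    rw [Finset.coe_Ico, Set.mem_Ico] at hu hu'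
    exact cast_inj (by omega) (by omega) e
  rw [← Finset.sum_image (f := fun n : ZMod Q => 𝔼 q, Aw (ck H J μ k b) (ext Q L f q) n ^ 2) hinj]
  refine Finset.sum_le_sum_of_subset_of_nonneg (Finset.subset_univ _) fun n _ _ => ?_
  exact Finset.expect_nonneg fun q _ => sq_nonneg _

theorem main (h : S_OP) : S_WIN := by
  intro κt _ _ Q _ L K H J J' m1 μ b κ c f f' hL hK hH hJ hJ' hμ hHJ hQ hb hP
  have hLp : (0 : ℝ) < L := by exact_mod_cast hL
  have hKp : (0 : ℝ) < K := by exact_mod_cast hK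
  have hHp : (0 : ℝ) < H := by exact_mod_cast hH
  have hQ' : L + 2 * (μ * J) + μ * K * H < Q := by
    have e : μ * (2 * J + K * H) = 2 * (μ * J) + μ * K * H := by ring
    omega
  have hLQ : L ≤ Q := by omega
  set EE : ℝ := ∑ s ∈ range L, ∑ s' ∈ range L,
        |𝔼 q, f s q * f s' q - 𝔼 q, f' s q * f' s' q| with hEE
  -- the operator inequality for `f'`
  have h4 : (1 / (K : ℝ)) * ∑ k ∈ Icc 1 K, ∑ n, 𝔼 q, Aw (ck H J μ k b) (ext Q L f' q) n ^ 2 ≤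
      κ * ∑ s ∈ range L, 𝔼 q, f' s q ^ 2 +
        c * (𝔼 q, ∑ n : ZMod Q, Pf (μ * m1) J' (ext Q L f' q) n ^ 2 -
          𝔼 q, ∑ n : ZMod Q, Pf μ J (ext Q L f' q) n ^ 2) := by
    have h5 : 𝔼 q, (1 / (K : ℝ)) * ∑ k ∈ Icc 1 K, ∑ n, Aw (ck H J μ k b) (ext Q L f' q) n ^ 2 ≤
        𝔼 q, (κ * ∑ n : ZMod Q, ext Q L f' q n ^ 2 +
          c * (∑ n : ZMod Q, Pf (μ * m1) J' (ext Q L f' q) n ^ 2 -
            ∑ n : ZMod Q, Pf μ J (ext Q L f' q) n ^ 2)) := by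
      refine Finset.expect_le_expect fun q _ => ?_
      have := h Q K H J J' m1 μ b κ c hK hH hJ hJ' hP (ext Q L f' q)
      simp only [Aw_ck]
      exact this
    have h6 : 𝔼 q, (1 / (K : ℝ)) * ∑ k ∈ Icc 1 K, ∑ n, Aw (ck H J μ k b) (ext Q L f' q) n ^ 2 =
        (1 / (K : ℝ)) * ∑ k ∈ Icc 1 K, ∑ n, 𝔼 q, Aw (ck H J μ k b) (ext Q L f' q) n ^ 2 := by
      rw [← Finset.mul_expect, Finset.expect_sum_comm]
      congr 1
      refine Finset.sum_congr rfl fun k _ => ?_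
      rw [Finset.expect_sum_comm]
    have h7 : 𝔼 q, (κ * ∑ n : ZMod Q, ext Q L f' q n ^ 2 +
          c * (∑ n : ZMod Q, Pf (μ * m1) J' (ext Q L f' q) n ^ 2 -
            ∑ n : ZMod Q, Pf μ J (ext Q L f' q) n ^ 2)) =
        κ * ∑ s ∈ range L, 𝔼 q, f' s q ^ 2 +
        c * (𝔼 q, ∑ n : ZMod Q, Pf (μ * m1) J' (ext Q L f' q) n ^ 2 -
          𝔼 q, ∑ n : ZMod Q, Pf μ J (ext Q L f' q) n ^ 2) := by
      rw [Finset.expect_add_distrib, ← Finset.mul_expect, ← Finset.mul_expect,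
        Finset.expect_sub_distrib, sum_sq hLQ]
    rw [h6, h7] at h5
    exact h5
  -- the transfer
  have h8 : ∀ k ∈ Icc 1 K, ∑ u ∈ Ico (μ * J) (L - μ * J - μ * K * H),
      𝔼 q, ((1 / (H : ℝ)) * ∑ h ∈ Icc 1 H, b h * f (u + μ * k * h) q -
        ((1 / (H : ℝ)) * ∑ h ∈ Icc 1 H, b h) *
          ((1 / (J : ℝ) ^ 2) * ∑ j ∈ range J, ∑ j' ∈ range J, f (u + μ * j - μ * j') q)) ^ 2 ≤
      ∑ n, 𝔼 q, Aw (ck H J μ k b) (ext Q L f' q) n ^ 2 + 4 / (H : ℝ) * EE := by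
    intro k hk
    refine (window hμ hk hQ b f).trans ?_
    have l1 : μ * k * H < Q := by
      have : μ * k * H ≤ μ * K * H := Nat.mul_le_mul_right _ (Nat.mul_le_mul_left _ (mem_Icc.1 hk).2)
      omega
    have := transfer (ck H J μ k b) (fun q => ext Q L f q) (fun q => ext Q L f' q)
      (ck_le hH hJ hHJ hμ (mem_Icc.1 hk).1 l1 (by omega) hb) (ck_sum hH hJ hb)
    refine this.trans (le_of_eq ?_)
    rw [sum_D hLQ]
    ring
  have h9 : (1 / (K : ℝ)) * ∑ k ∈ Icc 1 K, (1 / (L : ℝ)) * ∑ u ∈ Ico (μ * J) (L - μ * J - μ * K * H),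
      𝔼 q, ((1 / (H : ℝ)) * ∑ h ∈ Icc 1 H, b h * f (u + μ * k * h) q -
        ((1 / (H : ℝ)) * ∑ h ∈ Icc 1 H, b h) *
          ((1 / (J : ℝ) ^ 2) * ∑ j ∈ range J, ∑ j' ∈ range J, f (u + μ * j - μ * j') q)) ^ 2 ≤
      (1 / (K : ℝ)) * ∑ k ∈ Icc 1 K, (1 / (L : ℝ)) *
        (∑ n, 𝔼 q, Aw (ck H J μ k b) (ext Q L f' q) n ^ 2 + 4 / (H : ℝ) * EE) := by
    gcongr with k hk
    exact h8 k hk
  refine h9.trans ?_
  have h10 : (1 / (K : ℝ)) * ∑ k ∈ Icc 1 K, (1 / (L : ℝ)) *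
        (∑ n, 𝔼 q, Aw (ck H J μ k b) (ext Q L f' q) n ^ 2 + 4 / (H : ℝ) * EE) =
      (1 / (L : ℝ)) * ((1 / (K : ℝ)) * ∑ k ∈ Icc 1 K, ∑ n, 𝔼 q, Aw (ck H J μ k b) (ext Q L f' q) n ^ 2) +
        4 / (H : ℝ) * ((1 / (L : ℝ)) * EE) := by
    rw [← Finset.mul_sum, Finset.sum_add_distrib, Finset.sum_const, Nat.card_Icc, nsmul_eq_mul]
    have : ((K + 1 - 1 : ℕ) : ℝ) = K := by norm_num
    rw [this]
    field_simp
  rw [h10]
  have h11 : (1 / (L : ℝ)) * ((1 / (K : ℝ)) * ∑ k ∈ Icc 1 K, ∑ n, 𝔼 q, Aw (ck H J μ k b) (ext Q L f' q) n ^ 2) ≤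
      (1 / (L : ℝ)) * (κ * ∑ s ∈ range L, 𝔼 q, f' s q ^ 2 +
        c * (𝔼 q, ∑ n : ZMod Q, Pf (μ * m1) J' (ext Q L f' q) n ^ 2 -
          𝔼 q, ∑ n : ZMod Q, Pf μ J (ext Q L f' q) n ^ 2)) := by
    gcongr
  have h12 : (1 / (L : ℝ)) * (κ * ∑ s ∈ range L, 𝔼 q, f' s q ^ 2 +
        c * (𝔼 q, ∑ n : ZMod Q, Pf (μ * m1) J' (ext Q L f' q) n ^ 2 -
          𝔼 q, ∑ n : ZMod Q, Pf μ J (ext Q L f' q) n ^ 2)) =
      κ * ((1 / (L : ℝ)) * ∑ s ∈ range L, 𝔼 q, f' s q ^ 2) +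
      c * (En Q L (μ * m1) J' f' - En Q L μ J f') := by
    unfold En
    ring
  linarith

end Pool.Agent.NH16.SM.WIN
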