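import Pool.Agent.NH16.SM.Stm2

/-!
# Three short lemmas: primes along translates, translation of the mean, the energy of a window
-/

set_option autoImplicit false

namespace Pool.Agent.NH16.SM.CP

open Finset Filter
open scoped BigOperators
open Pool.Agent.NH16.DL

/-! ### translation -/

theorem main2 : S_TI := by
  intro w N v G Mx hG hM
  obtain ⟨a, ha⟩ : ∃ a, a = Wn w * v := ⟨_, rfl⟩
  have hMx : 0 ≤ Mx := (hG 0).trans (hM 0)
  obtain ⟨A', hA'⟩ : ∃ A' : Finset ℕ,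
    A' = (Icc (1 + a) (N + a)).filter (fun n => ∀ p ∈ PP w, ¬ p ∣ n) := ⟨_, rfl⟩
  have e1 : ∑ q ∈ kap w N, G (q + Wn w * v) = ∑ n ∈ A', G n := by
    rw [← ha]
    refine Finset.sum_nbij' (fun q => q + a) (fun n => n - a) ?_ ?_ ?_ ?_ ?_
    · intro q hq
      unfold kap at hq
      rw [mem_filter, mem_Icc] at hq
      rw [hA', mem_filter, mem_Icc]
      refine ⟨⟨by omega, by omega⟩, fun p hp hd => hq.2 p hp ?_⟩
      have hpa : p ∣ a := by
        rw [ha]
        exact ((dvd_Wn (mem_PP.1 hp).1).2 (mem_PP.1 hp).2).mul_right v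
      exact (Nat.dvd_add_left hpa).1 hd
    · intro n hn
      rw [hA', mem_filter, mem_Icc] at hn
      unfold kap
      rw [mem_filter, mem_Icc]
      refine ⟨⟨by omega, by omega⟩, fun p hp hd => hn.2 p hp ?_⟩
      have hpa : p ∣ a := by
        rw [ha]
        exact ((dvd_Wn (mem_PP.1 hp).1).2 (mem_PP.1 hp).2).mul_right v
      have : n = (n - a) + a := by omega
      rw [this]
      exact dvd_add hd hpa
    · intro q _
      simp
    · intro n hn
      rw [hA', mem_filter, mem_Icc] at hn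
      show n - a + a = n
      omega
    · intro q _
      rfl
  rw [e1]
  have e2 : ∑ n ∈ A', G n - ∑ q ∈ kap w N, G q =
      ∑ n ∈ A' \ kap w N, G n - ∑ n ∈ kap w N \ A', G n := by
    rw [Finset.sum_sdiff_sub_sum_sdiff]
  have c1 : (A' \ kap w N).card ≤ a := by
    have h : A' \ kap w N ⊆ Ioc N (N + a) := by
      intro n hn
      rw [Finset.mem_sdiff, hA', mem_filter, mem_Icc] at hn
      unfold kap at hn
      rw [mem_filter, mem_Icc] at hn
      rw [mem_Ioc]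
      refine ⟨?_, hn.1.1.2⟩
      by_contra hlt
      exact hn.2 ⟨⟨by omega, by omega⟩, hn.1.2⟩
    have := card_le_card h
    rw [Nat.card_Ioc] at this
    omega
  have c2 : (kap w N \ A').card ≤ a := by
    have h : kap w N \ A' ⊆ Icc 1 a := by
      intro n hn
      rw [Finset.mem_sdiff, hA', mem_filter, mem_Icc] at hn
      unfold kap at hn
      rw [mem_filter, mem_Icc] at hn
      rw [mem_Icc]
      refine ⟨hn.1.1.1, ?_⟩
      by_contra hlt
      exact hn.2 ⟨⟨by omega, by omega⟩, hn.1.2⟩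
    have := card_le_card h
    rw [Nat.card_Icc] at this
    omega
  have b1 : ∑ n ∈ A' \ kap w N, G n ≤ a * Mx := by
    calc ∑ n ∈ A' \ kap w N, G n ≤ ∑ _n ∈ A' \ kap w N, Mx := Finset.sum_le_sum fun n _ => hM n
      _ = (A' \ kap w N).card * Mx := by rw [sum_const, nsmul_eq_mul]
      _ ≤ a * Mx := by
        have : ((A' \ kap w N).card : ℝ) ≤ a := by exact_mod_cast c1
        exact mul_le_mul_of_nonneg_right this hMx
  have b2 : ∑ n ∈ kap w N \ A', G n ≤ a * Mx := by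
    calc ∑ n ∈ kap w N \ A', G n ≤ ∑ _n ∈ kap w N \ A', Mx := Finset.sum_le_sum fun n _ => hM n
      _ = (kap w N \ A').card * Mx := by rw [sum_const, nsmul_eq_mul]
      _ ≤ a * Mx := by
        have : ((kap w N \ A').card : ℝ) ≤ a := by exact_mod_cast c2
        exact mul_le_mul_of_nonneg_right this hMx
  have b3 : 0 ≤ ∑ n ∈ A' \ kap w N, G n := Finset.sum_nonneg fun n _ => hG n
  have b4 : 0 ≤ ∑ n ∈ kap w N \ A', G n := Finset.sum_nonneg fun n _ => hG n
  have e3 : (Wn w : ℝ) * v = a := by rw [ha]; push_cast; ring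
  rw [e2, e3, abs_le]
  constructor <;> linarith

/-! ### primes along translates -/

theorem main1 : S_CP := by
  classical
  intro w N r a hN ha hW
  obtain ⟨c, hc⟩ : ∃ c : ℝ, c = Vv w * Real.log N := ⟨_, rfl⟩
  have hc0 : 0 ≤ c := by
    rw [hc]
    exact mul_nonneg (Vv_pos w).le (Real.log_nonneg (by exact_mod_cast hN))
  rw [← hc]
  obtain ⟨S1, hS1⟩ : ∃ S1 : Finset ℕ, S1 = (kap w N).filter
    (fun q => ∀ i, (q + a i).Prime ∧ N < (q + a i) * (q + a i)) := ⟨_, rfl⟩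
  obtain ⟨S2, hS2⟩ : ∃ S2 : Finset ℕ, S2 = (Icc 1 N).filter
    (fun n => ∀ i, (n + a i).Prime) := ⟨_, rfl⟩
  have e1 : ∑ q ∈ kap w N, ∏ i, Fp w N (q + a i) = c ^ (r + 1) * S1.card := by
    have h1 : ∀ q, ∏ i, Fp w N (q + a i) =
        if ∀ i, (q + a i).Prime ∧ N < (q + a i) * (q + a i) then c ^ (r + 1) else 0 := by
      intro q
      split_ifs with h
      · have h2 : ∀ i, Fp w N (q + a i) = c := by
          intro i
          unfold Fp
          rw [if_pos (h i), hc]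
        rw [Finset.prod_congr rfl fun i _ => h2 i, prod_const, card_univ, Fintype.card_fin]
      · push Not at h
        obtain ⟨i, hi⟩ := h
        refine prod_eq_zero (mem_univ i) ?_
        unfold Fp
        rw [if_neg]
        rintro ⟨h3, h4⟩
        exact absurd h4 (not_lt.2 (hi h3))
    rw [Finset.sum_congr rfl fun q _ => h1 q, ← sum_filter, sum_const, ← hS1, nsmul_eq_mul]
    ring
  have e2 : pT a N = S2.card := by
    unfold pT
    rw [hS2]
  have hsub : S1 ⊆ S2 := by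
    intro n hn
    rw [hS1, mem_filter] at hn
    unfold kap at hn
    rw [mem_filter] at hn
    rw [hS2, mem_filter]
    exact ⟨hn.1.1, fun i => (hn.2 i).1⟩
  have hsd : S2 \ S1 ⊆ Icc 1 (Nat.sqrt N) := by
    intro n hn
    rw [Finset.mem_sdiff, hS2, mem_filter, mem_Icc, hS1, mem_filter] at hn
    obtain ⟨⟨⟨hn1, hnN⟩, hpr⟩, hnot⟩ := hn
    have hk : n ∈ kap w N := by
      unfold kap
      rw [mem_filter, mem_Icc]
      refine ⟨⟨hn1, hnN⟩, fun p hp hd => ?_⟩
      have hpp := (mem_PP.1 hp).1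
      have hpa : p ∣ a 0 := ((dvd_Wn hpp).2 (mem_PP.1 hp).2).trans (hW 0)
      have h1 : p ∣ n + a 0 := dvd_add hd hpa
      have h2 : p = n + a 0 := (Nat.prime_dvd_prime_iff_eq hpp (hpr 0)).1 h1
      have h3 := Nat.le_of_dvd (ha 0) hpa
      omega
    have h1 : ∃ i, ¬ N < (n + a i) * (n + a i) := by
      by_contra hcon
      push Not at hcon
      exact hnot ⟨hk, fun i => ⟨hpr i, hcon i⟩⟩
    obtain ⟨i, hi⟩ := h1
    rw [mem_Icc]
    refine ⟨hn1, ?_⟩
    rw [Nat.le_sqrt]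
    push Not at hi
    refine le_trans ?_ hi
    exact Nat.mul_le_mul (by omega) (by omega)
  have hcard : (S2.card : ℝ) - S1.card ≤ Real.sqrt N := by
    have h1 : S2.card - S1.card = (S2 \ S1).card := (card_sdiff_of_subset hsub).symm
    have h2 := card_le_card hsd
    rw [Nat.card_Icc] at h2
    have h3 := card_le_card hsub
    have h4 : S2.card ≤ S1.card + Nat.sqrt N := by omega
    have h5 : (S2.card : ℝ) ≤ S1.card + Nat.sqrt N := by exact_mod_cast h4
    have h6 : (Nat.sqrt N : ℝ) ≤ Real.sqrt N := Real.nat_sqrt_le_real_sqrt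
    linarith
  have hcard0 : (0 : ℝ) ≤ (S2.card : ℝ) - S1.card := by
    have : (S1.card : ℝ) ≤ S2.card := by exact_mod_cast card_le_card hsub
    linarith
  rw [e1, e2, abs_sub_comm, ← mul_sub, abs_mul, abs_of_nonneg (pow_nonneg hc0 _),
    abs_of_nonneg hcard0]
  exact mul_le_mul_of_nonneg_left (by linarith) (pow_nonneg hc0 _)

/-! ### the energy of a window -/

lemma sum_Pf_sq {Q : ℕ} [NeZero Q] (μ J : ℕ) (hJ : 1 ≤ J) (φ : ZMod Q → ℝ) :
    ∑ n : ZMod Q, Pf μ J φ n ^ 2 ≤ ∑ n : ZMod Q, φ n ^ 2 := by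
  have hJ' : (0 : ℝ) < J := by exact_mod_cast hJ
  have h1 : ∀ n : ZMod Q, Pf μ J φ n ^ 2 ≤ (1 / (J : ℝ) ^ 2) * ∑ x ∈ range J ×ˢ range J,
      φ (n + (((μ * x.1 : ℕ) : ZMod Q) - ((μ * x.2 : ℕ) : ZMod Q))) ^ 2 := by
    intro n
    have h2 : Pf μ J φ n = (1 / (J : ℝ) ^ 2) * ∑ x ∈ range J ×ˢ range J,
        φ (n + (((μ * x.1 : ℕ) : ZMod Q) - ((μ * x.2 : ℕ) : ZMod Q))) := by
      unfold Pf
      rw [sum_product]
      congr 1
      refine sum_congr rfl fun j _ => sum_congr rfl fun j' _ => ?_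
      rw [add_sub_assoc]
    rw [h2, mul_pow]
    have h3 := sq_sum_le_card_mul_sum_sq (s := range J ×ˢ range J)
      (f := fun x : ℕ × ℕ => φ (n + (((μ * x.1 : ℕ) : ZMod Q) - ((μ * x.2 : ℕ) : ZMod Q))))
    rw [card_product, card_range] at h3
    calc (1 / (J : ℝ) ^ 2) ^ 2 * (∑ x ∈ range J ×ˢ range J,
        φ (n + (((μ * x.1 : ℕ) : ZMod Q) - ((μ * x.2 : ℕ) : ZMod Q)))) ^ 2
        ≤ (1 / (J : ℝ) ^ 2) ^ 2 * (((J * J : ℕ) : ℝ) * ∑ x ∈ range J ×ˢ range J,
          φ (n + (((μ * x.1 : ℕ) : ZMod Q) - ((μ * x.2 : ℕ) : ZMod Q))) ^ 2) :=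
          mul_le_mul_of_nonneg_left h3 (by positivity)
      _ = _ := by
        push_cast
        field_simp
  have h4 : ∀ c : ZMod Q, ∑ n : ZMod Q, φ (n + c) ^ 2 = ∑ n : ZMod Q, φ n ^ 2 := fun c =>
    Fintype.sum_equiv (Equiv.addRight c) _ _ fun n => rfl
  calc ∑ n : ZMod Q, Pf μ J φ n ^ 2 ≤ ∑ n : ZMod Q, (1 / (J : ℝ) ^ 2) *
        ∑ x ∈ range J ×ˢ range J,
          φ (n + (((μ * x.1 : ℕ) : ZMod Q) - ((μ * x.2 : ℕ) : ZMod Q))) ^ 2 :=
        sum_le_sum fun n _ => h1 n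
    _ = (1 / (J : ℝ) ^ 2) * ∑ x ∈ range J ×ˢ range J, ∑ n : ZMod Q,
          φ (n + (((μ * x.1 : ℕ) : ZMod Q) - ((μ * x.2 : ℕ) : ZMod Q))) ^ 2 := by
        rw [← mul_sum, sum_comm]
    _ = (1 / (J : ℝ) ^ 2) * ∑ _x ∈ range J ×ˢ range J, ∑ n : ZMod Q, φ n ^ 2 := by
        congr 1
        exact sum_congr rfl fun x _ => h4 _
    _ = ∑ n : ZMod Q, φ n ^ 2 := by
        rw [sum_const, card_product, card_range, nsmul_eq_mul]
        push_cast
        field_simp

lemma sum_ext_sq {κ : Type} {Q L : ℕ} [NeZero Q] (hL : L ≤ Q) (f : ℕ → κ → ℝ) (q : κ) :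
    ∑ n : ZMod Q, ext Q L f q n ^ 2 = ∑ s ∈ range L, f s q ^ 2 := by
  have h1 : ∀ n : ZMod Q, ext Q L f q n ^ 2 = if n.val < L then f n.val q ^ 2 else 0 := by
    intro n
    unfold ext
    split_ifs
    · rfl
    · simp
  rw [sum_congr rfl fun n _ => h1 n, ← sum_filter]
  refine Finset.sum_nbij' (fun n : ZMod Q => n.val) (fun s : ℕ => (s : ZMod Q)) ?_ ?_ ?_ ?_ ?_
  · intro n hn
    rw [mem_filter] at hn
    exact mem_range.2 hn.2
  · intro s hs
    rw [mem_filter]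
    refine ⟨mem_univ _, ?_⟩
    rw [ZMod.val_cast_of_lt ((mem_range.1 hs).trans_le hL)]
    exact mem_range.1 hs
  · intro n _
    exact ZMod.natCast_zmod_val n
  · intro s hs
    exact ZMod.val_cast_of_lt ((mem_range.1 hs).trans_le hL)
  · intro n _
    rfl

theorem main3 : S_EL := by
  intro κ _ _ Q L μ J _ f hL hJ hLQ
  have hL' : (0 : ℝ) < L := by exact_mod_cast hL
  constructor
  · unfold En
    refine mul_nonneg (by positivity) ?_
    exact expect_nonneg fun q _ => sum_nonneg fun n _ => sq_nonneg _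
  · unfold En
    refine mul_le_mul_of_nonneg_left ?_ (by positivity)
    have h1 : ∑ s ∈ range L, 𝔼 q, f s q ^ 2 = 𝔼 q, ∑ s ∈ range L, f s q ^ 2 :=
      (expect_sum_comm _ _ _).symm
    rw [h1]
    refine expect_le_expect fun q _ => ?_
    rw [← sum_ext_sq (Q := Q) hLQ f q]
    exact sum_Pf_sq μ J hJ _

end Pool.Agent.NH16.SM.CP
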