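import Pool.Agent.NH16.SM.Stm2
import Pool.Agent.NH16.DL.A4

set_option autoImplicit false
set_option linter.unusedSectionVars false
set_option linter.unusedVariables false

/-!
# Project SM (helper16): the dense model
-/

namespace Pool.Agent.NH16.SM.DM

open Finset
open scoped BigOperators
open Pool.Agent.NH16.DL

/-- convex functions on the cube -/
lemma cube_max {ι : Type*} [Fintype ι] [DecidableEq ι] (Q : (ι → ℝ) → ℝ) (hQ : ConvexOn ℝ Set.univ Q) {c : ℝ}
    (h : ∀ A : Finset ι, Q (fun i => if i ∈ A then 1 else 0) ≤ c) (b : ι → ℝ) (hb : ∀ i, 0 ≤ b i ∧ b i ≤ 1) :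
    Q b ≤ c := by
  have hmem : b ∈ convexHull ℝ (Set.univ.pi fun _ : ι => ({0, 1} : Set ℝ)) := by
    rw [convexHull_pi]
    intro i _
    rw [convexHull_pair, segment_eq_Icc zero_le_one]
    exact hb i
  obtain ⟨z, hz, hzz⟩ := (hQ.subset (Set.subset_univ _) (convex_convexHull ℝ _)).exists_ge_of_mem_convexHull
    (subset_convexHull ℝ _) hmem
  refine hzz.trans ?_
  have e : z = fun i => if i ∈ univ.filter (fun i => z i = 1) then 1 else 0 := by
    funext i
    have := hz i (Set.mem_univ i)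
    rw [Set.mem_insert_iff, Set.mem_singleton_iff] at this
    rcases this with h0 | h0
    · rw [if_neg (by rw [mem_filter]; rintro ⟨_, h1⟩; rw [h0] at h1; exact zero_ne_one h1), h0]
    · rw [if_pos (by rw [mem_filter]; exact ⟨mem_univ _, h0⟩), h0]
  rw [e]
  exact h _

variable {ρ κ : Type*} [Fintype ρ] [Fintype κ]

lemma convex_sq (h : ρ → κ → ℝ) : ConvexOn ℝ Set.univ (fun b : ρ → ℝ => 𝔼 q, (𝔼 s, b s * h s q) ^ 2) := by
  refine ⟨convex_univ, fun u _ v _ a b ha hb hab => ?_⟩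
  simp only [smul_eq_mul, Pi.add_apply, Pi.smul_apply]
  rw [mul_expect, mul_expect, ← expect_add_distrib]
  refine expect_le_expect fun q _ => ?_
  have e : 𝔼 s, (a * u s + b * v s) * h s q = a * 𝔼 s, u s * h s q + b * 𝔼 s, v s * h s q := by
    rw [mul_expect, mul_expect, ← expect_add_distrib]
    exact expect_congr rfl fun s _ => by ring
  rw [e]
  have hb' : b = 1 - a := by linarith
  subst hb'
  nlinarith [mul_nonneg ha hb, sq_nonneg (𝔼 s, u s * h s q - 𝔼 s, v s * h s q)]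

/-- from the indicator functions to all weights -/
lemma cut_of_sets [DecidableEq ρ] (h : ρ → κ → ℝ) {c : ℝ}
    (hc : ∀ A : Finset ρ, 𝔼 q, (𝔼 s, (if s ∈ A then 1 else 0) * h s q) ^ 2 ≤ c) (b : ρ → ℝ) (hb : ∀ s, |b s| ≤ 1) :
    𝔼 q, (𝔼 s, b s * h s q) ^ 2 ≤ 4 * c := by
  have hp := cube_max (fun b : ρ → ℝ => 𝔼 q, (𝔼 s, b s * h s q) ^ 2) (convex_sq h) hc (fun s => max (b s) 0)
    (fun s => ⟨le_max_right _ _, max_le ((le_abs_self _).trans (hb s)) zero_le_one⟩)
  have hn := cube_max (fun b : ρ → ℝ => 𝔼 q, (𝔼 s, b s * h s q) ^ 2) (convex_sq h) hc (fun s => max (-b s) 0)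
    (fun s => ⟨le_max_right _ _, max_le ((neg_le_abs _).trans (hb s)) zero_le_one⟩)
  have e : ∀ q, 𝔼 s, b s * h s q = 𝔼 s, max (b s) 0 * h s q - 𝔼 s, max (-b s) 0 * h s q := by
    intro q
    rw [← expect_sub_distrib]
    refine expect_congr rfl fun s _ => ?_
    rw [← sub_mul]
    congr 1
    rcases le_total (b s) 0 with h0 | h0
    · rw [max_eq_right h0, max_eq_left (by linarith)]; ring
    · rw [max_eq_left h0, max_eq_right (by linarith)]; ring
  calc 𝔼 q, (𝔼 s, b s * h s q) ^ 2 ≤ 𝔼 q, (2 * (𝔼 s, max (b s) 0 * h s q) ^ 2 +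
        2 * (𝔼 s, max (-b s) 0 * h s q) ^ 2) := by
        refine expect_le_expect fun q _ => ?_
        rw [e]
        nlinarith [sq_nonneg (𝔼 s, max (b s) 0 * h s q + 𝔼 s, max (-b s) 0 * h s q)]
    _ = 2 * 𝔼 q, (𝔼 s, max (b s) 0 * h s q) ^ 2 + 2 * 𝔼 q, (𝔼 s, max (-b s) 0 * h s q) ^ 2 := by
        rw [expect_add_distrib, mul_expect, mul_expect]
    _ ≤ _ := by linarith

/-- the sum over a union of classes is not changed by averaging -/
lemma sum_av {γ : Type*} [DecidableEq γ] [DecidableEq ρ] (π : ρ → γ) (f : ρ → κ → ℝ) (S : Finset ρ)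
    (hS : ∀ s t, π t = π s → s ∈ S → t ∈ S) (q : κ) :
    ∑ s ∈ S, (∑ t ∈ univ.filter (fun t => π t = π s), f t q) /
      ((univ.filter (fun t => π t = π s)).card : ℝ) = ∑ s ∈ S, f s q := by
  have h1 : ∀ s ∈ S, (∑ t ∈ univ.filter (fun t => π t = π s), f t q) /
      ((univ.filter (fun t => π t = π s)).card : ℝ) =
      ∑ t ∈ S, if π t = π s then f t q / ((univ.filter (fun u => π u = π t)).card : ℝ) else 0 := by
    intro s hs
    rw [← sum_filter, Finset.sum_div]
    have e : univ.filter (fun t => π t = π s) = S.filter (fun t => π t = π s) := by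
      ext t
      rw [mem_filter, mem_filter]
      exact ⟨fun h => ⟨hS s t h.2 hs, h.2⟩, fun h => ⟨mem_univ _, h.2⟩⟩
    rw [e]
    refine sum_congr rfl fun t ht => ?_
    have ht2 := (mem_filter.mp ht).2
    rw [ht2, e]
  rw [sum_congr rfl h1, sum_comm]
  refine sum_congr rfl fun t ht => ?_
  rw [← sum_filter, sum_const, nsmul_eq_mul]
  have e : S.filter (fun s => π t = π s) = univ.filter (fun u => π u = π t) := by
    ext s
    rw [mem_filter, mem_filter]
    exact ⟨fun h => ⟨mem_univ _, h.2.symm⟩, fun h => ⟨hS t s h.2 ht, h.2.symm⟩⟩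
  rw [e]
  have hpos : (0 : ℝ) < ((univ.filter (fun u => π u = π t)).card : ℝ) := by
    have : 0 < (univ.filter (fun u => π u = π t)).card :=
      card_pos.mpr ⟨t, mem_filter.mpr ⟨mem_univ _, rfl⟩⟩
    exact_mod_cast this
  field_simp

variable [Nonempty ρ] [Nonempty κ]

lemma exp_sq_le {ι : Type*} [Fintype ι] [Nonempty ι] (b : ι → ℝ) : (𝔼 i, b i) ^ 2 ≤ 𝔼 i, b i ^ 2 := by
  have := expect_mul_sq_le_sq_mul_sq (univ : Finset ι) (fun _ => (1 : ℝ)) b
  simp only [one_mul, one_pow, Fintype.expect_const] at this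
  exact this

/-- the square over a set in terms of pairs -/
lemma sq_pairs (f : ρ → κ → ℝ) (b : ρ → ℝ) :
    𝔼 q, (𝔼 s, b s * f s q) ^ 2 = 𝔼 s, 𝔼 s', b s * b s' * 𝔼 q, f s q * f s' q := by
  have h1 : ∀ q, (𝔼 s, b s * f s q) ^ 2 = 𝔼 s, 𝔼 s', (b s * b s') * (f s q * f s' q) := by
    intro q
    rw [sq_exp]
    refine expect_congr rfl fun s _ => expect_congr rfl fun s' _ => by ring
  simp only [h1]
  rw [exp_comm]
  refine expect_congr rfl fun s _ => ?_
  rw [exp_comm]
  refine expect_congr rfl fun s' _ => ?_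
  rw [mul_expect]

lemma pairs_bound [DecidableEq ρ] (f : ρ → κ → ℝ) (Y : ρ → ρ → ℝ) (S : Finset ρ) {Ca t lam : ℝ}
    (hCa : 0 ≤ Ca) (ht : 0 ≤ t) (hlam : 0 ≤ lam) (hY : ∀ s s', 0 ≤ Y s s')
    (hpair : ∀ s s', s ≠ s' → 𝔼 q, f s q * f s' q ≤ Ca + Y s s')
    (hYt : 𝔼 s, 𝔼 s', Y s s' ^ 2 ≤ t ^ 2)
    (hdiag : ∀ s, 𝔼 q, f s q ^ 2 ≤ lam * (Fintype.card ρ : ℝ)) :
    𝔼 q, (𝔼 s, (if s ∈ S then (1 : ℝ) else 0) * f s q) ^ 2 ≤
      Ca * ((S.card : ℝ) / Fintype.card ρ) ^ 2 + t + lam := by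
  have hR : (0 : ℝ) < Fintype.card ρ := by exact_mod_cast Fintype.card_pos
  rw [sq_pairs f]
  have h1 : ∀ s s' : ρ, (if s ∈ S then (1 : ℝ) else 0) * (if s' ∈ S then (1 : ℝ) else 0) *
      𝔼 q, f s q * f s' q ≤ (if s ∈ S then (1 : ℝ) else 0) * (if s' ∈ S then (1 : ℝ) else 0) * Ca +
        Y s s' + (if s = s' then lam * (Fintype.card ρ : ℝ) else 0) := by
    intro s s'
    set I : ℝ := (if s ∈ S then (1 : ℝ) else 0) * (if s' ∈ S then (1 : ℝ) else 0) with hI
    have hI0 : 0 ≤ I := by rw [hI]; split_ifs <;> norm_num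
    have hI1 : I ≤ 1 := by rw [hI]; split_ifs <;> norm_num
    by_cases h : s = s'
    · subst h
      rw [if_pos rfl]
      have h2 : 𝔼 q, f s q * f s q ≤ lam * (Fintype.card ρ : ℝ) := by
        refine le_trans (le_of_eq ?_) (hdiag s)
        exact expect_congr rfl fun q _ => (sq _).symm
      have h3 : 0 ≤ 𝔼 q, f s q * f s q := expect_nonneg fun q _ => mul_self_nonneg _
      have h4 : I * 𝔼 q, f s q * f s q ≤ lam * (Fintype.card ρ : ℝ) :=
        (mul_le_of_le_one_left h3 hI1).trans h2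
      have h5 := hY s s
      have h6 : 0 ≤ I * Ca := mul_nonneg hI0 hCa
      linarith
    · rw [if_neg h, add_zero]
      have h2 := hpair s s' h
      have h3 : I * 𝔼 q, f s q * f s' q ≤ I * (Ca + Y s s') := mul_le_mul_of_nonneg_left h2 hI0
      have h4 : I * Y s s' ≤ Y s s' := mul_le_of_le_one_left (hY s s') hI1
      linarith
  refine (expect_le_expect fun s _ => expect_le_expect fun s' _ => h1 s s').trans ?_
  have e1 : 𝔼 s : ρ, 𝔼 s' : ρ, ((if s ∈ S then (1 : ℝ) else 0) * (if s' ∈ S then (1 : ℝ) else 0) * Ca +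
        Y s s' + (if s = s' then lam * (Fintype.card ρ : ℝ) else 0)) =
      𝔼 s : ρ, 𝔼 s' : ρ, (if s ∈ S then (1 : ℝ) else 0) * (if s' ∈ S then (1 : ℝ) else 0) * Ca +
      𝔼 s, 𝔼 s', Y s s' + 𝔼 s : ρ, 𝔼 s' : ρ, (if s = s' then lam * (Fintype.card ρ : ℝ) else 0) := by
    rw [← expect_add_distrib, ← expect_add_distrib]
    refine expect_congr rfl fun s _ => ?_
    rw [← expect_add_distrib, ← expect_add_distrib]
  rw [e1]
  have e0 : 𝔼 s : ρ, (if s ∈ S then (1 : ℝ) else 0) = (S.card : ℝ) / Fintype.card ρ := by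
    rw [expect_eq_sum_div_card, card_univ, Finset.sum_boole]
    simp
  have e2 : 𝔼 s : ρ, 𝔼 s' : ρ, (if s ∈ S then (1 : ℝ) else 0) * (if s' ∈ S then (1 : ℝ) else 0) * Ca =
      Ca * ((S.card : ℝ) / Fintype.card ρ) ^ 2 := by
    have : ∀ s : ρ, 𝔼 s' : ρ, (if s ∈ S then (1 : ℝ) else 0) * (if s' ∈ S then (1 : ℝ) else 0) * Ca =
        (if s ∈ S then (1 : ℝ) else 0) * (((S.card : ℝ) / Fintype.card ρ) * Ca) := by
      intro s
      rw [← e0, expect_mul, mul_expect]
      refine expect_congr rfl fun s' _ => by ring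
    simp only [this]
    rw [← expect_mul, e0]
    ring
  have e3 : 𝔼 s : ρ, 𝔼 s' : ρ, (if s = s' then lam * (Fintype.card ρ : ℝ) else 0) = lam := by
    have : ∀ s : ρ, 𝔼 s' : ρ, (if s = s' then lam * (Fintype.card ρ : ℝ) else 0) = lam := by
      intro s
      rw [expect_eq_sum_div_card, card_univ, Finset.sum_ite_eq, if_pos (mem_univ _)]
      field_simp
    simp only [this]
    exact Fintype.expect_const _
  have e4 : 𝔼 s, 𝔼 s', Y s s' ≤ t := by
    have h2 : (𝔼 s, 𝔼 s', Y s s') ^ 2 ≤ t ^ 2 := by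
      refine (exp_sq_le _).trans (le_trans ?_ hYt)
      exact expect_le_expect fun s _ => exp_sq_le _
    exact le_of_sq_le_sq' h2 ht
  rw [e2, e3]
  linarith
where
  le_of_sq_le_sq' {a b : ℝ} (h : a ^ 2 ≤ b ^ 2) (hb : 0 ≤ b) : a ≤ b := by
    by_contra hc
    push Not at hc
    nlinarith

/-- the classes with few elements contain few elements -/
lemma card_small {γ : Type*} [Fintype γ] [DecidableEq γ] (π : ρ → γ) (S : Finset ρ) {c : ℝ} (hc : 0 ≤ c)
    (hS : ∀ s ∈ S, ((univ.filter (fun t => π t = π s)).card : ℝ) ≤ c) :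
    (S.card : ℝ) ≤ Fintype.card γ * c := by
  classical
  rw [Finset.card_eq_sum_card_fiberwise (f := π) (t := univ) (fun s _ => mem_univ _)]
  push_cast
  calc ∑ x : γ, ((S.filter (fun s => π s = x)).card : ℝ) ≤ ∑ _x : γ, c := by
        refine sum_le_sum fun x _ => ?_
        rcases Finset.eq_empty_or_nonempty (S.filter (fun s => π s = x)) with h | ⟨s, hs⟩
        · rw [h]
          simpa using hc
        · obtain ⟨hs1, hs2⟩ := mem_filter.mp hs
          refine le_trans ?_ (hS s hs1)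
          have : (S.filter (fun s => π s = x)).card ≤ (univ.filter (fun t => π t = π s)).card :=
            card_le_card fun t ht => mem_filter.mpr ⟨mem_univ _, by rw [(mem_filter.mp ht).2, hs2]⟩
          exact_mod_cast this
    _ = _ := by rw [sum_const, card_univ, nsmul_eq_mul]

lemma trunc_sq {x K : ℝ} (hx : 0 ≤ x) (hK : 1 ≤ K) : (x - min x K) ^ 2 ≤ x ^ 6 / K ^ 4 := by
  have hK0 : 0 < K := by linarith
  rcases le_total x K with h | h
  · rw [min_eq_left h, sub_self]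
    have : 0 ≤ x ^ 6 / K ^ 4 := by positivity
    simpa using this
  · rw [min_eq_right h, le_div_iff₀ (by positivity)]
    have h1 : (x - K) ^ 2 ≤ x ^ 2 := by nlinarith
    have h2 : K ^ 4 ≤ x ^ 4 := pow_le_pow_left₀ hK0.le h 4
    calc (x - K) ^ 2 * K ^ 4 ≤ x ^ 2 * x ^ 4 := mul_le_mul h1 h2 (by positivity) (by positivity)
      _ = x ^ 6 := by ring

/-- the dense model -/
theorem main (h1 : S_EN) (h2 : S_WR) (h3 : S_MO) : S_DM := by
  intro ρ κ _ _ _ _ _ f ν0 ν Y K0 K Ca t lam t6 τ ηc σ B T hK0 hK hCa ht ht6 hτ hηc hσ hT hB hlam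
    hf0 hfν0 hfν hν hY hpair hYt hdiag hexc hMB1 hMB2 hPR hT1 hT2
  classical
  have hR : (0 : ℝ) < Fintype.card ρ := by exact_mod_cast Fintype.card_pos
  have hcard : (Fintype.card (Fin T → Bool) : ℝ) = 2 ^ T := by
    simp
  have hEN : ∀ π : ρ → (Fin T → Bool), 𝔼 s, 𝔼 q, av π f s q ^ 2 ≤ Ca + 1 := by
    intro π
    have := h1 ρ κ (Fin T → Bool) f Y Ca lam t π hCa ht hY hpair hYt hdiag
    rw [hcard] at this
    linarith
  obtain ⟨π, hπ⟩ := h2 ρ κ f ηc (Ca + 1) T hT hηc hT2 hEN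
  have hav0 : ∀ s q, 0 ≤ av π f s q := fun s q =>
    div_nonneg (sum_nonneg fun t _ => hf0 t q) (Nat.cast_nonneg _)
  set F0 : ρ → κ → ℝ := fun s q => if σ * (Fintype.card ρ : ℝ) ≤ cell π s then av π f s q else 0 with hF0
  set F' : ρ → κ → ℝ := fun s q => min (F0 s q) K with hF'
  have hF00 : ∀ s q, 0 ≤ F0 s q := by
    intro s q
    simp only [hF0]
    split_ifs
    exacts [hav0 s q, le_rfl]
  have hF0av : ∀ s q, F0 s q ≤ av π f s q := by
    intro s q
    simp only [hF0]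
    split_ifs
    exacts [le_rfl, hav0 s q]
  have hK00 : 0 ≤ K := by linarith
  have hF'0 : ∀ s q, 0 ≤ F' s q := fun s q => le_min (hF00 s q) hK00
  have hF'K : ∀ s q, F' s q ≤ K := fun s q => min_le_right _ _
  have hF'av : ∀ s q, F' s q ≤ av π f s q := fun s q => (min_le_left _ _).trans (hF0av s q)
  refine ⟨F', hF'0, hF'K, ?_, ?_⟩
  · refine le_trans (expect_le_expect fun s _ => expect_le_expect fun q _ => ?_) (hEN π)
    exact pow_le_pow_left₀ (hF'0 s q) (hF'av s q) 2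
  set E5 : ℝ := K0 ^ 6 * (2 + (1 / σ) ^ 6 * t6) / K ^ 4 with hE5
  set E4 : ℝ := Ca * (2 ^ T * σ) ^ 2 + t + lam with hE4
  -- the truncation of small classes
  set S : Finset ρ := univ.filter (fun s => ¬ (σ * (Fintype.card ρ : ℝ) ≤ cell π s)) with hS
  have hSc : (S.card : ℝ) ≤ 2 ^ T * (σ * (Fintype.card ρ : ℝ)) := by
    have := card_small π S (c := σ * (Fintype.card ρ : ℝ)) (by positivity) (by
      intro s hs
      have := (mem_filter.mp hs).2
      push Not at this
      exact this.le)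
    rwa [hcard] at this
  have hSu : ∀ s t, π t = π s → s ∈ S → t ∈ S := by
    intro s t hts hs
    rw [hS, mem_filter] at hs ⊢
    refine ⟨mem_univ _, ?_⟩
    have : cell π t = cell π s := by unfold cell; rw [hts]
    rw [this]
    exact hs.2
  have d1 : ∀ A : Finset ρ, 𝔼 q, (𝔼 s, (if s ∈ A then (1 : ℝ) else 0) * (av π f s q - F0 s q)) ^ 2 ≤ E4 := by
    intro A
    have hb : ∀ q, (𝔼 s, (if s ∈ A then (1 : ℝ) else 0) * (av π f s q - F0 s q)) ^ 2 ≤
        (𝔼 s, (if s ∈ S then (1 : ℝ) else 0) * f s q) ^ 2 := by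
      intro q
      have e1 : 𝔼 s, (if s ∈ S then (1 : ℝ) else 0) * f s q =
          𝔼 s, (if s ∈ S then (1 : ℝ) else 0) * av π f s q := by
        rw [expect_eq_sum_div_card, expect_eq_sum_div_card]
        congr 1
        simp only [ite_mul, one_mul, zero_mul]
        rw [sum_ite_mem, sum_ite_mem, univ_inter]
        exact (sum_av π f S hSu q).symm
      rw [e1]
      refine pow_le_pow_left₀ (expect_nonneg fun s _ => mul_nonneg (by split_ifs <;> norm_num)
        (sub_nonneg.mpr (hF0av s q))) (expect_le_expect fun s _ => ?_) 2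
      by_cases hs : s ∈ S
      · rw [if_pos hs, one_mul]
        have h5 : (if s ∈ A then (1 : ℝ) else 0) ≤ 1 := by split_ifs <;> norm_num
        have h6 : 0 ≤ av π f s q - F0 s q := sub_nonneg.mpr (hF0av s q)
        have h7 := mul_le_of_le_one_left h6 h5
        have h8 := hF00 s q
        linarith
      · rw [if_neg hs, zero_mul]
        have h5 : σ * (Fintype.card ρ : ℝ) ≤ cell π s := by
          by_contra hcon
          exact hs (mem_filter.mpr ⟨mem_univ _, hcon⟩)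
        have h6 : F0 s q = av π f s q := by
          simp only [hF0]
          rw [if_pos h5]
        rw [h6, sub_self, mul_zero]
    refine (expect_le_expect fun q _ => hb q).trans ?_
    refine (pairs_bound f Y S hCa ht hlam hY hpair hYt hdiag).trans ?_
    have h5 : (S.card : ℝ) / Fintype.card ρ ≤ 2 ^ T * σ := by
      rw [div_le_iff₀ hR]
      linarith
    have h6 : ((S.card : ℝ) / Fintype.card ρ) ^ 2 ≤ (2 ^ T * σ) ^ 2 :=
      pow_le_pow_left₀ (by positivity) h5 2
    have h7 := mul_le_mul_of_nonneg_left h6 hCa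
    rw [hE4]
    linarith
  -- the truncation of large values
  have d2 : ∀ A : Finset ρ, 𝔼 q, (𝔼 s, (if s ∈ A then (1 : ℝ) else 0) * (F0 s q - F' s q)) ^ 2 ≤ E5 := by
    intro A
    have hmo := h3 ρ κ (Fin T → Bool) f ν0 K0 σ t6 6 π (by linarith) hσ hf0 hfν0 hexc
    calc 𝔼 q, (𝔼 s, (if s ∈ A then (1 : ℝ) else 0) * (F0 s q - F' s q)) ^ 2 ≤
        𝔼 q, 𝔼 s, F0 s q ^ 6 / K ^ 4 := by
          refine expect_le_expect fun q _ => (exp_sq_le _).trans (expect_le_expect fun s _ => ?_)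
          have h5 := trunc_sq (hF00 s q) hK
          have h6 : ((if s ∈ A then (1 : ℝ) else 0) * (F0 s q - F' s q)) ^ 2 ≤ (F0 s q - F' s q) ^ 2 := by
            rw [mul_pow]
            refine mul_le_of_le_one_left (sq_nonneg _) ?_
            split_ifs <;> norm_num
          exact h6.trans h5
      _ = (𝔼 s, 𝔼 q, F0 s q ^ 6) / K ^ 4 := by
          rw [exp_comm, expect_div]
          refine expect_congr rfl fun s _ => ?_
          rw [expect_div]
      _ ≤ _ := by
          rw [hE5]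
          exact div_le_div_of_nonneg_right hmo (by positivity)
  -- all together
  have d3 : ∀ A : Finset ρ, 𝔼 q, (𝔼 s, (if s ∈ A then (1 : ℝ) else 0) * (f s q - F' s q)) ^ 2 ≤
      3 * (ηc + E4 + E5) := by
    intro A
    have e : ∀ q, 𝔼 s, (if s ∈ A then (1 : ℝ) else 0) * (f s q - F' s q) =
        𝔼 s, (if s ∈ A then (1 : ℝ) else 0) * (f s q - av π f s q) +
        𝔼 s, (if s ∈ A then (1 : ℝ) else 0) * (av π f s q - F0 s q) +
        𝔼 s, (if s ∈ A then (1 : ℝ) else 0) * (F0 s q - F' s q) := by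
      intro q
      rw [← expect_add_distrib, ← expect_add_distrib]
      exact expect_congr rfl fun s _ => by ring
    have h5 : 𝔼 q, (𝔼 s, (if s ∈ A then (1 : ℝ) else 0) * (f s q - F' s q)) ^ 2 ≤
        𝔼 q, (3 * (𝔼 s, (if s ∈ A then (1 : ℝ) else 0) * (f s q - av π f s q)) ^ 2 +
        3 * (𝔼 s, (if s ∈ A then (1 : ℝ) else 0) * (av π f s q - F0 s q)) ^ 2 +
        3 * (𝔼 s, (if s ∈ A then (1 : ℝ) else 0) * (F0 s q - F' s q)) ^ 2) := by
      refine expect_le_expect fun q _ => ?_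
      rw [e q]
      set a := 𝔼 s, (if s ∈ A then (1 : ℝ) else 0) * (f s q - av π f s q)
      set b := 𝔼 s, (if s ∈ A then (1 : ℝ) else 0) * (av π f s q - F0 s q)
      set c := 𝔼 s, (if s ∈ A then (1 : ℝ) else 0) * (F0 s q - F' s q)
      nlinarith [sq_nonneg (a - b), sq_nonneg (b - c), sq_nonneg (a - c)]
    rw [expect_add_distrib, expect_add_distrib, ← mul_expect, ← mul_expect, ← mul_expect] at h5
    have h6 := hπ A
    have h7 := d1 A
    have h8 := d2 A
    linarith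
  have hcount := counting (f := f) (F := F') (ν := ν) (g := fun _ _ => 1) (K := K) (A := 1) (B := B)
    (τ := τ) (ε := 4 * (3 * (ηc + E4 + E5))) (n := 1) hK00
    (fun s q => by rw [abs_of_nonneg (hf0 s q)]; exact hfν s q)
    (fun s q => by rw [abs_of_nonneg (hF'0 s q), mul_one]; exact hF'K s q)
    hν (fun _ _ => zero_le_one) (fun _ _ => le_rfl) hB hτ hMB1 hMB2 hPR
    (fun b hb => cut_of_sets (fun s q => f s q - F' s q) d3 b hb)
  have e1 : 𝔼 r : Fin (1 + 1) → ρ, |𝔼 q, ∏ i, f (r i) q - 𝔼 q, ∏ i, F' (r i) q| =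
      𝔼 s, 𝔼 s', |𝔼 q, f s q * f s' q - 𝔼 q, F' s q * F' s' q| := by
    rw [← exp_two (n := 1) 0 1 (by decide)
      (fun s s' => |𝔼 q, f s q * f s' q - 𝔼 q, F' s q * F' s' q|)]
    refine expect_congr rfl fun r _ => ?_
    have e2 : ∀ g : ρ → κ → ℝ, 𝔼 q, ∏ i : Fin (1 + 1), g (r i) q = 𝔼 q, g (r 0) q * g (r 1) q :=
      fun g => expect_congr rfl fun q _ => Fin.prod_univ_two (fun i => g (r i) q)
    rw [e2 f, e2 F']
  rw [e1] at hcount
  refine hcount.trans (le_of_eq ?_)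
  rw [hE4, hE5]
  norm_num

end Pool.Agent.NH16.SM.DM
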