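import Pool.Agent.NH16.SM.Stm

/-!
# Project SM: the Diophantine lemma on mean squares over multiples (helper73 for helper16)
-/

set_option autoImplicit false

namespace Pool.Agent.NH16.SM.Dio

open Finset
open scoped BigOperators
open Pool.Agent.Helper602.MK Pool.Agent.Helper602.MK.N_J5b

/-- the normalised sum over the multiples -/
noncomputable def EK (K : ℕ) (t : ℝ) : ℂ := (1 / (K : ℂ)) * ∑ k ∈ Icc 1 K, ee ((k : ℝ) * t)

lemma norm_EK_le_one (K : ℕ) (t : ℝ) : ‖EK K t‖ ≤ 1 := by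
  unfold EK
  rw [norm_mul]
  have h1 : ‖∑ k ∈ Icc 1 K, ee ((k : ℝ) * t)‖ ≤ K := by
    refine (norm_sum_le _ _).trans ?_
    simp [norm_ee]
  rcases Nat.eq_zero_or_pos K with h | h
  · subst h; simp
  · have hK : (0 : ℝ) < K := by exact_mod_cast h
    rw [norm_div, norm_one, Complex.norm_natCast]
    calc 1 / (K : ℝ) * ‖∑ k ∈ Icc 1 K, ee ((k : ℝ) * t)‖ ≤ 1 / (K : ℝ) * K := by gcongr
      _ = 1 := by field_simp

lemma norm_one_sub_ee_ge (t : ℝ) : 4 * |t - round t| ≤ ‖1 - ee t‖ := by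
  have h1 : ee t = ee (t - round t) := by
    have := ee_add_int (t - round t) (round t)
    rw [← this]; congr 1; ring
  rw [h1, norm_one_sub_ee]
  have h2 : |Real.pi * (t - round t)| ≤ Real.pi / 2 := by
    rw [abs_mul, abs_of_pos Real.pi_pos]
    have := abs_sub_round t
    nlinarith [Real.pi_pos]
  have h3 := Real.mul_abs_le_abs_sin h2
  rw [abs_mul, abs_of_pos Real.pi_pos] at h3
  have h4 : 2 / Real.pi * (Real.pi * |t - round t|) = 2 * |t - round t| := by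
    field_simp
  linarith

lemma norm_EK_le (K : ℕ) (t : ℝ) (hK : 1 ≤ K) : ‖EK K t‖ * (2 * K * |t - round t|) ≤ 1 := by
  have hK' : (0 : ℝ) < K := by exact_mod_cast hK
  have h1 : (1 - ee t) * ∑ k ∈ Icc 1 K, ee ((k : ℝ) * t) = ee t - ee t ^ (K + 1) := by
    have : ∑ k ∈ Icc 1 K, ee ((k : ℝ) * t) = ∑ k ∈ Icc 1 K, ee t ^ k :=
      Finset.sum_congr rfl fun k _ => ee_nat_mul k t
    rw [this]
    clear this hK hK'
    induction K with
    | zero => simp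
    | succ n ih =>
      rw [Finset.sum_Icc_succ_top (by omega), mul_add, ih]
      ring
  have h2 : ‖1 - ee t‖ * ‖∑ k ∈ Icc 1 K, ee ((k : ℝ) * t)‖ ≤ 2 := by
    rw [← norm_mul, h1]
    refine (norm_sub_le _ _).trans ?_
    rw [norm_pow, norm_ee, one_pow]; norm_num
  have h3 := norm_one_sub_ee_ge t
  have h4 : ‖EK K t‖ = 1 / K * ‖∑ k ∈ Icc 1 K, ee ((k : ℝ) * t)‖ := by
    unfold EK
    rw [norm_mul, norm_div, norm_one, Complex.norm_natCast]
  rw [h4]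
  have h6 : 4 * |t - round t| * ‖∑ k ∈ Icc 1 K, ee ((k : ℝ) * t)‖ ≤ 2 :=
    (mul_le_mul_of_nonneg_right h3 (norm_nonneg _)).trans h2
  generalize ‖∑ k ∈ Icc 1 K, ee ((k : ℝ) * t)‖ = S at h6
  have h5 : 1 / (K : ℝ) * S * (2 * K * |t - round t|) = (4 * |t - round t| * S) / 2 := by
    field_simp
    ring
  rw [h5]
  linarith

lemma Sb_eq (K H : ℕ) (b : ℕ → ℝ) (α : ℝ) :
    ((Sb K H b α : ℝ) : ℂ) = (1 / (H : ℂ) ^ 2) * ∑ h ∈ Icc 1 H, ∑ h' ∈ Icc 1 H,
      (b h : ℂ) * (b h' : ℂ) * EK K (((h : ℝ) - h') * α) := by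
  unfold Sb EK
  push_cast
  have h1 : ∀ k : ℕ, ((‖(1 / (H : ℂ)) * ∑ h ∈ Icc 1 H, (b h : ℂ) * ee ((k : ℝ) * h * α)‖ : ℂ)) ^ 2 =
      (1 / (H : ℂ) ^ 2) * ∑ h ∈ Icc 1 H, ∑ h' ∈ Icc 1 H,
        (b h : ℂ) * (b h' : ℂ) * ee ((k : ℝ) * (((h : ℝ) - h') * α)) := by
    intro k
    rw [← Complex.mul_conj', map_mul, map_sum]
    have h2 : (starRingEnd ℂ) (1 / (H : ℂ)) = 1 / (H : ℂ) := by simp
    rw [h2]
    have h3 : (1 / (H : ℂ)) * (∑ h ∈ Icc 1 H, (b h : ℂ) * ee ((k : ℝ) * h * α)) *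
        ((1 / (H : ℂ)) * ∑ x ∈ Icc 1 H, (starRingEnd ℂ) ((b x : ℂ) * ee ((k : ℝ) * x * α))) =
        (1 / (H : ℂ) ^ 2) * ((∑ h ∈ Icc 1 H, (b h : ℂ) * ee ((k : ℝ) * h * α)) *
          ∑ x ∈ Icc 1 H, (starRingEnd ℂ) ((b x : ℂ) * ee ((k : ℝ) * x * α))) := by ring
    rw [h3, Finset.sum_mul_sum]
    congr 1
    refine Finset.sum_congr rfl fun h _ => Finset.sum_congr rfl fun h' _ => ?_
    rw [map_mul, ee_conj, Complex.conj_ofReal]
    have h4 : ee ((k : ℝ) * (((h : ℝ) - h') * α)) = ee ((k : ℝ) * h * α) * ee (-((k : ℝ) * h' * α)) := by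
      rw [← ee_add]; congr 1; ring
    rw [h4]; ring
  rw [Finset.sum_congr rfl fun k _ => h1 k, ← Finset.mul_sum, Finset.sum_comm]
  have h5 : ∀ h ∈ Icc 1 H, ∑ k ∈ Icc 1 K, ∑ h' ∈ Icc 1 H, (b h : ℂ) * (b h' : ℂ) *
      ee ((k : ℝ) * (((h : ℝ) - h') * α)) = ∑ h' ∈ Icc 1 H, (b h : ℂ) * (b h' : ℂ) *
      ∑ k ∈ Icc 1 K, ee ((k : ℝ) * (((h : ℝ) - h') * α)) := by
    intro h _
    rw [Finset.sum_comm]
    refine Finset.sum_congr rfl fun h' _ => ?_
    rw [Finset.mul_sum]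
  rw [Finset.sum_congr rfl h5]
  rw [mul_left_comm, Finset.mul_sum]
  congr 1
  refine Finset.sum_congr rfl fun h _ => ?_
  rw [Finset.mul_sum]
  refine Finset.sum_congr rfl fun h' _ => ?_
  ring

lemma Sb_le (K H : ℕ) (b : ℕ → ℝ) (hb : ∀ h, |b h| ≤ 1) (α : ℝ) :
    Sb K H b α ≤ (1 / (H : ℝ) ^ 2) * ∑ h ∈ Icc 1 H, ∑ h' ∈ Icc 1 H,
      ‖EK K (((h : ℝ) - h') * α)‖ := by
  have h0 : Sb K H b α ≤ ‖((Sb K H b α : ℝ) : ℂ)‖ := by
    rw [Complex.norm_real]; exact le_abs_self _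
  refine h0.trans ?_
  rw [Sb_eq, norm_mul]
  have h1 : ‖(1 : ℂ) / (H : ℂ) ^ 2‖ = 1 / (H : ℝ) ^ 2 := by
    rw [norm_div, norm_one, norm_pow, Complex.norm_natCast]
  rw [h1]
  refine mul_le_mul_of_nonneg_left ?_ (by positivity)
  refine (norm_sum_le _ _).trans (Finset.sum_le_sum fun h _ => ?_)
  refine (norm_sum_le _ _).trans (Finset.sum_le_sum fun h' _ => ?_)
  rw [norm_mul, norm_mul, Complex.norm_real, Complex.norm_real]
  have h2 := hb h
  have h3 := hb h'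
  have h4 : ‖b h‖ * ‖b h'‖ ≤ 1 := by
    rw [Real.norm_eq_abs, Real.norm_eq_abs]
    calc |b h| * |b h'| ≤ 1 * 1 := mul_le_mul h2 h3 (abs_nonneg _) zero_le_one
      _ = 1 := one_mul 1
  calc ‖b h‖ * ‖b h'‖ * ‖EK K (((h : ℝ) - h') * α)‖ ≤ 1 * ‖EK K (((h : ℝ) - h') * α)‖ :=
        mul_le_mul_of_nonneg_right h4 (norm_nonneg _)
    _ = _ := one_mul _

/-! ### distance to the nearest integer -/

/-- distance to the nearest integer -/
noncomputable def nn (x : ℝ) : ℝ := |x - round x|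

lemma nn_le (x : ℝ) (z : ℤ) : nn x ≤ |x - z| := round_le x z

lemma nn_nonneg (x : ℝ) : 0 ≤ nn x := abs_nonneg _

lemma nn_sub (x y : ℝ) : nn (x - y) ≤ nn x + nn y := by
  refine (nn_le _ (round x - round y)).trans ?_
  have h1 : x - y - ((round x - round y : ℤ) : ℝ) = (x - round x) - (y - round y) := by
    push_cast; ring
  rw [h1]
  exact abs_sub _ _

lemma nn_neg_le (x : ℝ) : nn (-x) ≤ nn x := by
  refine (nn_le _ (-round x)).trans ?_
  have h1 : -x - ((-round x : ℤ) : ℝ) = -(x - round x) := by push_cast; ring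
  rw [h1, abs_neg]
  exact le_rfl

lemma nn_sub_int_le (x : ℝ) (n : ℤ) : nn (x - n) ≤ nn x := by
  refine (nn_le _ (round x - n)).trans ?_
  have h1 : x - n - ((round x - n : ℤ) : ℝ) = (x - round x) := by push_cast; ring
  rw [h1]
  exact le_rfl

lemma card_interval (S : Finset ℕ) (ℓ : ℝ) (h : ∀ i ∈ S, ∀ j ∈ S, (j : ℝ) - i ≤ ℓ) :
    S.card ≤ ⌊ℓ⌋₊ + 1 := by
  rcases S.eq_empty_or_nonempty with h0 | h0
  · subst h0; simp
  · have h1 : S ⊆ Icc (S.min' h0) (S.min' h0 + ⌊ℓ⌋₊) := by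
      intro j hj
      rw [mem_Icc]
      refine ⟨S.min'_le j hj, ?_⟩
      have h2 := h _ (S.min'_mem h0) j hj
      have h3 : S.min' h0 ≤ j := S.min'_le j hj
      have h4 : ((j - S.min' h0 : ℕ) : ℝ) ≤ ℓ := by
        rw [Nat.cast_sub h3]; exact h2
      have h5 := Nat.le_floor h4
      omega
    refine (card_le_card h1).trans ?_
    rw [Nat.card_Icc]
    omega

lemma count (S : Finset ℕ) (M t δ : ℝ) (ht : 0 < t) (hδ : 0 ≤ δ) (hM : 0 ≤ M)
    (h1 : ∀ j ∈ S, (j : ℝ) ≤ M) (h2 : ∀ j ∈ S, nn ((j : ℝ) * t) ≤ δ) :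
    (S.card : ℝ) ≤ (M * t + 2) * (2 * δ / t + 1) := by
  have h3 : ∀ j ∈ S, round ((j : ℝ) * t) ∈ Icc (0 : ℤ) ⌊M * t + 1 / 2⌋ := by
    intro j hj
    rw [mem_Icc]
    constructor
    · rw [round_eq]
      apply Int.floor_nonneg.mpr
      positivity
    · rw [round_eq]
      apply Int.floor_le_floor
      have := mul_le_mul_of_nonneg_right (h1 j hj) ht.le
      linarith
  have h4 := Finset.card_le_mul_card_image_of_maps_to h3 (⌊2 * δ / t⌋₊ + 1) (by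
    intro c _
    apply card_interval
    intro i hi j hj
    rw [mem_filter] at hi hj
    have hi2 := h2 i hi.1
    have hj2 := h2 j hj.1
    unfold nn at hi2 hj2
    rw [hi.2] at hi2
    rw [hj.2] at hj2
    rw [abs_le] at hi2 hj2
    rw [le_div_iff₀ ht]
    nlinarith [hi2.1, hj2.2])
  have h5 : ((⌊2 * δ / t⌋₊ + 1 : ℕ) : ℝ) ≤ 2 * δ / t + 1 := by
    push_cast
    have := Nat.floor_le (show 0 ≤ 2 * δ / t by positivity)
    linarith
  have h6 : ((Icc (0 : ℤ) ⌊M * t + 1 / 2⌋).card : ℝ) ≤ M * t + 2 := by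
    rw [Int.card_Icc]
    have h7 : 0 ≤ ⌊M * t + 1 / 2⌋ := Int.floor_nonneg.mpr (by positivity)
    have h8 : ((⌊M * t + 1 / 2⌋ + 1 - 0).toNat : ℝ) = ((⌊M * t + 1 / 2⌋ + 1 - 0 : ℤ) : ℝ) := by
      rw [← Int.cast_natCast, Int.toNat_of_nonneg (by omega)]
    rw [h8]
    push_cast
    have := Int.floor_le (M * t + 1 / 2)
    linarith
  calc (S.card : ℝ) ≤ ((⌊2 * δ / t⌋₊ + 1 : ℕ) : ℝ) * ((Icc (0 : ℤ) ⌊M * t + 1 / 2⌋).card : ℝ) := by
        exact_mod_cast h4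
    _ ≤ (2 * δ / t + 1) * (M * t + 2) := by
        apply mul_le_mul h5 h6 (by positivity) (by positivity)
    _ = _ := by ring

lemma step2 (K H : ℕ) (b : ℕ → ℝ) (hb : ∀ h, |b h| ≤ 1) (α τ : ℝ) (hτ : 0 < τ) (hK : 1 ≤ K)
    (hH : 1 ≤ H) (h : τ ^ 2 < Sb K H b α) :
    ∃ DD : Finset ℕ, DD ⊆ Icc 1 H ∧ τ ^ 2 / 2 * H < DD.card ∧
      ∀ x ∈ DD, ∀ y ∈ DD, nn (((x : ℝ) - y) * α) ≤ 2 / (K * τ ^ 2) := by
  have hK' : (0 : ℝ) < K := by exact_mod_cast hK
  have hH' : (0 : ℝ) < H := by exact_mod_cast hH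
  have h1 := h.trans_le (Sb_le K H b hb α)
  have h2 : ∑ _h ∈ Icc 1 H, τ ^ 2 * H < ∑ h ∈ Icc 1 H, ∑ h' ∈ Icc 1 H,
      ‖EK K (((h : ℝ) - h') * α)‖ := by
    rw [Finset.sum_const, Nat.card_Icc, nsmul_eq_mul]
    rw [one_div, inv_mul_eq_div, lt_div_iff₀ (by positivity)] at h1
    have : ((H + 1 - 1 : ℕ) : ℝ) = H := by simp
    rw [this]
    linarith
  obtain ⟨h0, _, h3⟩ := Finset.exists_lt_of_sum_lt h2
  refine ⟨(Icc 1 H).filter (fun h' : ℕ => τ ^ 2 / 2 ≤ ‖EK K (((h0 : ℝ) - h') * α)‖),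
    filter_subset _ _, ?_, ?_⟩
  · have h4 : ∑ h' ∈ Icc 1 H, ‖EK K (((h0 : ℝ) - h') * α)‖ ≤
        ∑ h' ∈ Icc 1 H, ((if τ ^ 2 / 2 ≤ ‖EK K (((h0 : ℝ) - h') * α)‖ then (1 : ℝ) else 0) +
          τ ^ 2 / 2) := by
      refine Finset.sum_le_sum fun h' _ => ?_
      split_ifs with h5
      · have := norm_EK_le_one K (((h0 : ℝ) - h') * α)
        have : 0 < τ ^ 2 / 2 := by positivity
        linarith
      · push Not at h5
        linarith
    rw [Finset.sum_add_distrib, Finset.sum_boole, Finset.sum_const, Nat.card_Icc,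
      nsmul_eq_mul] at h4
    have : ((H + 1 - 1 : ℕ) : ℝ) = H := by simp
    rw [this] at h4
    linarith
  · have h5 : ∀ x ∈ (Icc 1 H).filter (fun h' : ℕ => τ ^ 2 / 2 ≤ ‖EK K (((h0 : ℝ) - h') * α)‖),
        nn (((h0 : ℝ) - x) * α) ≤ 1 / (K * τ ^ 2) := by
      intro x hx
      rw [mem_filter] at hx
      have h6 := norm_EK_le K (((h0 : ℝ) - x) * α) hK
      rw [le_div_iff₀ (by positivity)]
      have h7 := nn_nonneg (((h0 : ℝ) - x) * α)
      change ‖EK K (((h0 : ℝ) - x) * α)‖ * (2 * K * nn (((h0 : ℝ) - x) * α)) ≤ 1 at h6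
      have h8 : τ ^ 2 / 2 * (2 * K * nn (((h0 : ℝ) - x) * α)) ≤
          ‖EK K (((h0 : ℝ) - x) * α)‖ * (2 * K * nn (((h0 : ℝ) - x) * α)) :=
        mul_le_mul_of_nonneg_right hx.2 (by positivity)
      linarith
    intro x hx y hy
    have h9 : ((x : ℝ) - y) * α = ((h0 : ℝ) - y) * α - ((h0 : ℝ) - x) * α := by ring
    rw [h9]
    refine (nn_sub _ _).trans ?_
    have := h5 x hx
    have := h5 y hy
    have h10 : 2 / (K * τ ^ 2) = 1 / (K * τ ^ 2) + 1 / (K * τ ^ 2) := by ring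
    rw [h10]
    linarith

lemma step3 (K H Q0 : ℕ) (α τ : ℝ) (hτ : 0 < τ) (hτ' : τ ≤ 1 / 2) (hK : 48 / τ ^ 4 ≤ K)
    (hQ0 : 4 / τ ^ 2 ≤ Q0) (hH : 16 * Q0 / τ ^ 2 ≤ H) (DD : Finset ℕ) (hD : DD ⊆ Icc 1 H)
    (hc : τ ^ 2 / 2 * H < DD.card)
    (hDD : ∀ x ∈ DD, ∀ y ∈ DD, nn (((x : ℝ) - y) * α) ≤ 2 / (K * τ ^ 2)) :
    ∃ q : ℕ, 1 ≤ q ∧ q ≤ Q0 ∧ ∃ a : ℤ, |(q : ℝ) * α - a| ≤ 32 * q / (τ ^ 4 * K * H) := by
  have hτ2 : 0 < τ ^ 2 := by positivity
  have hτ4 : 0 < τ ^ 4 := by positivity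
  have hK' : (0 : ℝ) < K := lt_of_lt_of_le (by positivity) hK
  have hQ' : (0 : ℝ) < Q0 := lt_of_lt_of_le (by positivity) hQ0
  have hH' : (0 : ℝ) < H := lt_of_lt_of_le (by positivity) hH
  have hQn : 0 < Q0 := by exact_mod_cast hQ'
  have hK2 : 48 ≤ K * τ ^ 4 := by rwa [div_le_iff₀ hτ4] at hK
  have hQ2 : 4 ≤ Q0 * τ ^ 2 := by rwa [div_le_iff₀ hτ2] at hQ0
  have hH2 : 16 * Q0 ≤ H * τ ^ 2 := by rwa [div_le_iff₀ hτ2] at hH
  -- two elements close to each other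
  have p1 : ∃ q : ℕ, 1 ≤ q ∧ q ≤ Q0 ∧ nn ((q : ℝ) * α) ≤ 2 / (K * τ ^ 2) := by
    have h1 : ∀ x ∈ DD, x / Q0 ∈ range (H / Q0 + 1) := by
      intro x hx
      have := mem_Icc.mp (hD hx)
      rw [mem_range, Nat.lt_succ_iff]
      exact Nat.div_le_div_right this.2
    have h2 : (range (H / Q0 + 1)).card < DD.card := by
      rw [card_range]
      have h3 : ((H / Q0 + 1 : ℕ) : ℝ) < DD.card := by
        refine lt_of_le_of_lt ?_ hc
        push_cast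
        have h4 : ((H / Q0 : ℕ) : ℝ) ≤ (H : ℝ) / Q0 := Nat.cast_div_le
        have h5 : (H : ℝ) / Q0 ≤ τ ^ 2 / 4 * H := by
          rw [div_le_iff₀ hQ']
          nlinarith
        have h6 : (1 : ℝ) ≤ τ ^ 2 / 4 * H := by
          have : (1 : ℝ) ≤ Q0 := by exact_mod_cast hQn
          linarith
        linarith
      exact_mod_cast h3
    obtain ⟨x, hx, y, hy, hne, he⟩ := Finset.exists_ne_map_eq_of_card_lt_of_maps_to h2 h1
    have key : ∀ x ∈ DD, ∀ y ∈ DD, x < y → x / Q0 = y / Q0 →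
        ∃ q : ℕ, 1 ≤ q ∧ q ≤ Q0 ∧ nn ((q : ℝ) * α) ≤ 2 / (K * τ ^ 2) := by
      intro x hx y hy hlt he
      refine ⟨y - x, by omega, ?_, ?_⟩
      · have h7 := Nat.div_add_mod x Q0
        have h8 := Nat.div_add_mod y Q0
        rw [he] at h7
        have h9 := Nat.mod_lt y hQn
        omega
      · rw [Nat.cast_sub hlt.le]
        exact hDD y hy x hx
    rcases lt_or_gt_of_ne hne with hlt | hlt
    · exact key x hx y hy hlt he
    · exact key y hy x hx hlt he.symm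
  obtain ⟨q, hq1, hq2, hq3⟩ := p1
  refine ⟨q, hq1, hq2, round ((q : ℝ) * α), ?_⟩
  have hq' : (0 : ℝ) < q := by exact_mod_cast hq1
  -- a class mod q with many elements
  have p2 : ∃ r ∈ range q, DD.card ≤ q * (DD.filter (fun x => x % q = r)).card := by
    apply Finset.exists_le_of_sum_le (f := fun _ => DD.card)
    · exact ⟨0, mem_range.mpr (by omega)⟩
    · rw [Finset.sum_const, card_range, ← Finset.mul_sum, smul_eq_mul]
      apply Nat.mul_le_mul_left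
      exact (Finset.card_eq_sum_card_fiberwise
        (fun x _ => mem_coe.mpr (mem_range.mpr (Nat.mod_lt x (by omega))))).le
  obtain ⟨r, _, hr⟩ := p2
  set F := DD.filter (fun x => x % q = r) with hF
  have hcpos : (0 : ℝ) < DD.card := lt_of_le_of_lt (by positivity) hc
  have hFn : F.Nonempty := by
    rw [← card_pos]
    have : 0 < DD.card := by exact_mod_cast hcpos
    rcases Nat.eq_zero_or_pos F.card with h | h
    · rw [h] at hr; omega
    · exact h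
  set x0 := F.min' hFn with hx0
  have hx0F : x0 ∈ F := F.min'_mem hFn
  have hdiv : ∀ x ∈ F, x = x0 + q * ((x - x0) / q) := by
    intro x hx
    have h1 : x0 ≤ x := F.min'_le x hx
    have h2 : x % q = r := (mem_filter.mp hx).2
    have h3 : x0 % q = r := (mem_filter.mp hx0F).2
    have h4 : q ∣ x - x0 := (Nat.modEq_iff_dvd' h1).mp (by rw [Nat.ModEq, h2, h3])
    have h5 := Nat.mul_div_cancel' h4
    omega
  set S := F.image (fun x => (x - x0) / q) with hS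
  have hScard : S.card = F.card := by
    apply card_image_of_injOn
    intro x hx y hy hxy
    rw [hdiv x hx, hdiv y hy]
    simp only at hxy
    rw [hxy]
  set t := nn ((q : ℝ) * α) with ht
  have ht0 : 0 ≤ t := nn_nonneg _
  change t ≤ _
  rcases ht0.eq_or_lt with h0 | h0
  · rw [← h0]; positivity
  have hcnt := count S ((H : ℝ) / q) t (2 / (K * τ ^ 2)) h0 (by positivity) (by positivity)
    (by
      intro j hj
      rw [hS, mem_image] at hj
      obtain ⟨x, hx, rfl⟩ := hj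
      have h1 := hdiv x hx
      have h2 := (mem_Icc.mp (hD (mem_filter.mp hx).1)).2
      rw [le_div_iff₀ hq']
      have h3 : (x - x0) / q * q ≤ H := by
        calc (x - x0) / q * q = q * ((x - x0) / q) := mul_comm _ _
          _ ≤ x0 + q * ((x - x0) / q) := Nat.le_add_left _ _
          _ = x := h1.symm
          _ ≤ H := h2
      exact_mod_cast h3)
    (by
      intro j hj
      rw [hS, mem_image] at hj
      obtain ⟨x, hx, rfl⟩ := hj
      have h1 := hdiv x hx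
      have h2 := hDD x (mem_filter.mp hx).1 x0 (mem_filter.mp hx0F).1
      generalize (x - x0) / q = j at h1
      have h3 : ((x : ℝ) - x0) = q * j := by
        rw [h1]; push_cast; ring
      rw [h3] at h2
      have h4 : nn ((j : ℝ) * ((q : ℝ) * α - round ((q : ℝ) * α))) ≤ 2 / (K * τ ^ 2) := by
        have h5 := nn_sub_int_le ((q : ℝ) * j * α) ((j : ℤ) * round ((q : ℝ) * α))
        have h6 : (q : ℝ) * j * α - (((j : ℤ) * round ((q : ℝ) * α) : ℤ) : ℝ) =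
            (j : ℝ) * ((q : ℝ) * α - round ((q : ℝ) * α)) := by
          push_cast; ring
        rw [h6] at h5
        exact h5.trans h2
      rw [ht]
      unfold nn at h4 ⊢
      rcases abs_cases ((q : ℝ) * α - round ((q : ℝ) * α)) with ⟨h7, _⟩ | ⟨h7, _⟩
      · rw [h7]; exact h4
      · rw [h7]
        have h8 := nn_neg_le ((j : ℝ) * ((q : ℝ) * α - round ((q : ℝ) * α)))
        rw [← mul_neg] at h8
        exact h8.trans h4)
  -- the final computation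
  have h1 : τ ^ 2 / 2 * H < q * (S.card : ℝ) := by
    refine hc.trans_le ?_
    rw [hScard]
    exact_mod_cast hr
  have h2 : q * (S.card : ℝ) ≤ q * (((H : ℝ) / q * t + 2) * (2 * (2 / (K * τ ^ 2)) / t + 1)) :=
    mul_le_mul_of_nonneg_left hcnt hq'.le
  have h3 : q * (((H : ℝ) / q * t + 2) * (2 * (2 / (K * τ ^ 2)) / t + 1)) =
      4 * H / (K * τ ^ 2) + H * t + 8 * q / (K * τ ^ 2 * t) + 2 * q := by
    field_simp
    ring
  rw [h3] at h2
  have h4 : 4 * H / (K * τ ^ 2) ≤ τ ^ 2 * H / 12 := by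
    rw [div_le_iff₀ (by positivity)]
    nlinarith
  have h5 : H * t ≤ τ ^ 2 * H / 24 := by
    have : t ≤ τ ^ 2 / 24 := by
      refine hq3.trans ?_
      rw [div_le_iff₀ (by positivity)]
      nlinarith
    nlinarith
  have h6 : 2 * (q : ℝ) ≤ τ ^ 2 * H / 8 := by
    have : (q : ℝ) ≤ Q0 := by exact_mod_cast hq2
    linarith
  have h7 : τ ^ 2 * H / 4 < 8 * q / (K * τ ^ 2 * t) := by linarith
  rw [lt_div_iff₀ (by positivity)] at h7
  rw [le_div_iff₀ (by positivity)]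
  nlinarith

lemma Dk_close (J : ℕ) (hJ : 1 ≤ J) (x : ℝ) (a : ℤ) :
    1 - ‖Dk J x‖ ^ 2 ≤ 4 * Real.pi * J * |x - a| := by
  have hJ' : (0 : ℝ) < J := by exact_mod_cast hJ
  have h1 : Dk J x - 1 = (1 / (J : ℂ)) * ∑ j ∈ range J, (ee ((j : ℝ) * x) - 1) := by
    unfold Dk
    rw [Finset.sum_sub_distrib, Finset.sum_const, card_range, nsmul_eq_mul, mul_one, mul_sub]
    have : (1 / (J : ℂ)) * (J : ℂ) = 1 := by
      have : (J : ℂ) ≠ 0 := by exact_mod_cast (show J ≠ 0 by omega)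
      field_simp
    rw [this]
  have h2 : ‖Dk J x - 1‖ ≤ 2 * Real.pi * J * |x - a| := by
    rw [h1, norm_mul, norm_div, norm_one, Complex.norm_natCast]
    have h3 : ‖∑ j ∈ range J, (ee ((j : ℝ) * x) - 1)‖ ≤ ∑ _j ∈ range J, 2 * Real.pi * J * |x - a| := by
      refine (norm_sum_le _ _).trans (Finset.sum_le_sum fun j hj => ?_)
      have h4 : ee ((j : ℝ) * x) = ee ((j : ℝ) * (x - a)) := by
        have := ee_add_int ((j : ℝ) * (x - a)) ((j : ℤ) * a)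
        rw [← this]; congr 1; push_cast; ring
      rw [h4, ← norm_neg, neg_sub, norm_one_sub_ee]
      have h5 : |Real.sin (Real.pi * ((j : ℝ) * (x - a)))| ≤ |Real.pi * ((j : ℝ) * (x - a))| :=
        Real.abs_sin_le_abs
      rw [abs_mul, abs_mul, abs_of_pos Real.pi_pos, Nat.abs_cast] at h5
      have h6 : (j : ℝ) ≤ J := by
        exact_mod_cast (mem_range.mp hj).le
      have h7 : (j : ℝ) * |x - a| ≤ J * |x - a| := mul_le_mul_of_nonneg_right h6 (abs_nonneg _)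
      nlinarith [Real.pi_pos]
    rw [Finset.sum_const, card_range, nsmul_eq_mul] at h3
    calc 1 / (J : ℝ) * ‖∑ j ∈ range J, (ee ((j : ℝ) * x) - 1)‖ ≤
        1 / (J : ℝ) * (J * (2 * Real.pi * J * |x - a|)) :=
          mul_le_mul_of_nonneg_left h3 (by positivity)
      _ = _ := by field_simp
  have h8 : 1 - ‖Dk J x‖ ≤ ‖Dk J x - 1‖ := by
    have := norm_sub_norm_le (1 : ℂ) (Dk J x)
    rw [norm_one, norm_sub_rev] at this
    exact this
  have h9 := norm_nonneg (Dk J x)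
  nlinarith [sq_nonneg (1 - ‖Dk J x‖)]

theorem main : S_DIO := by
  intro τ hτ hτ'
  obtain ⟨Q0, hQ0⟩ := exists_nat_ge (4 / τ ^ 2)
  have hτ2 : 0 < τ ^ 2 := by positivity
  have hτ4 : 0 < τ ^ 4 := by positivity
  have hQ' : (0 : ℝ) < Q0 := lt_of_lt_of_le (by positivity) hQ0
  obtain ⟨G, hG⟩ := exists_nat_gt (128 * Real.pi * (Nat.factorial Q0 : ℕ) / τ ^ 5)
  obtain ⟨K0, hK0⟩ := exists_nat_ge (48 / τ ^ 4)
  obtain ⟨H0, hH0⟩ := exists_nat_ge (16 * Q0 / τ ^ 2)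
  have hGpos : (0 : ℝ) < G := lt_of_le_of_lt (by have := Real.pi_pos; positivity) hG
  refine ⟨Nat.factorial Q0, G, K0, H0, Nat.factorial_pos Q0, by exact_mod_cast hGpos, ?_⟩
  intro K H J' hK hH hK1 hH1 hJ' hGJ b hb α hS
  have hKr : 48 / τ ^ 4 ≤ (K : ℝ) := hK0.trans (by exact_mod_cast hK)
  have hHr : 16 * Q0 / τ ^ 2 ≤ (H : ℝ) := hH0.trans (by exact_mod_cast hH)
  have hKp : (0 : ℝ) < K := by exact_mod_cast hK1
  have hHp : (0 : ℝ) < H := by exact_mod_cast hH1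
  obtain ⟨DD, hD1, hD2, hD3⟩ := step2 K H b hb α τ hτ hK1 hH1 hS
  obtain ⟨q, hq1, hq2, a, ha⟩ := step3 K H Q0 α τ hτ hτ' hKr hQ0 hHr DD hD1 hD2 hD3
  obtain ⟨m', hm'⟩ := Nat.dvd_factorial (by omega : 0 < q) hq2
  have hq' : (0 : ℝ) < q := by exact_mod_cast hq1
  have h1 := Dk_close J' hJ' ((Nat.factorial Q0 : ℕ) * α) (m' * a)
  have h2 : ((Nat.factorial Q0 : ℕ) : ℝ) * α - ((m' * a : ℤ) : ℝ) = m' * ((q : ℝ) * α - a) := by
    rw [hm']; push_cast; ring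
  rw [h2, abs_mul, Nat.abs_cast] at h1
  refine lt_of_le_of_lt h1 ?_
  have h3 : (m' : ℝ) * |(q : ℝ) * α - a| ≤ 32 * (Nat.factorial Q0 : ℕ) / (τ ^ 4 * K * H) := by
    calc (m' : ℝ) * |(q : ℝ) * α - a| ≤ m' * (32 * q / (τ ^ 4 * K * H)) :=
          mul_le_mul_of_nonneg_left ha (by positivity)
      _ = _ := by rw [hm']; push_cast; ring
  have hJp : (0 : ℝ) < J' := by exact_mod_cast hJ'
  have h4 : 4 * Real.pi * J' * (m' * |(q : ℝ) * α - a|) ≤
      4 * Real.pi * J' * (32 * (Nat.factorial Q0 : ℕ) / (τ ^ 4 * K * H)) :=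
    mul_le_mul_of_nonneg_left h3 (by have := Real.pi_pos; positivity)
  refine lt_of_le_of_lt h4 ?_
  have h5 : (G : ℝ) * J' ≤ K * H := by exact_mod_cast hGJ
  have h6 : 4 * Real.pi * J' * (32 * (Nat.factorial Q0 : ℕ) / (τ ^ 4 * K * H)) =
      (128 * Real.pi * (Nat.factorial Q0 : ℕ)) * J' / (τ ^ 4 * (K * H)) := by
    field_simp
    ring
  rw [h6, div_lt_iff₀ (by positivity)]
  rw [div_lt_iff₀ (by positivity)] at hG
  have h7 : 128 * Real.pi * (Nat.factorial Q0 : ℕ) * J' < G * τ ^ 5 * J' :=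
    mul_lt_mul_of_pos_right hG hJp
  have h8 : G * τ ^ 5 * J' = τ ^ 5 * (G * J') := by ring
  have h9 : τ ^ 5 * (G * J') ≤ τ ^ 5 * (K * H) := mul_le_mul_of_nonneg_left h5 (by positivity)
  have h10 : τ * (τ ^ 4 * (K * H)) = τ ^ 5 * (K * H) := by ring
  linarith

end Pool.Agent.NH16.SM.Dio
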