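import Pool.Agent.NH16.SM.Stm

set_option autoImplicit false

/-!
# Project SM: the energy of a partition (S_EN)
-/

namespace Pool.Agent.NH16.SM.EN

open Finset
open scoped BigOperators

section
variable {ρ κ γ : Type} [Fintype ρ] [Fintype κ] [DecidableEq γ]

/-- the classes of the colouring -/
def P (π : ρ → γ) (i : γ) : Finset ρ := univ.filter (fun t => π t = i)

omit [Fintype κ] in
theorem av_eq (π : ρ → γ) (f : ρ → κ → ℝ) (s : ρ) (q : κ) :
    av π f s q = (∑ t ∈ P π (π s), f t q) / ((P π (π s)).card : ℝ) := rfl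

theorem expect_sum' (F : κ → ℝ) : 𝔼 q, F q = (∑ q, F q) / (Fintype.card κ : ℝ) :=
  Fintype.expect_eq_sum_div_card F

theorem expect_av_sq (π : ρ → γ) (f : ρ → κ → ℝ) (s : ρ) :
    𝔼 q, av π f s q ^ 2 =
      (∑ t ∈ P π (π s), ∑ t' ∈ P π (π s), 𝔼 q, f t q * f t' q) / ((P π (π s)).card : ℝ) ^ 2 := by
  have h1 : ∀ q, av π f s q ^ 2 =
      (∑ t ∈ P π (π s), ∑ t' ∈ P π (π s), f t q * f t' q) / ((P π (π s)).card : ℝ) ^ 2 := by
    intro q
    rw [av_eq, div_pow, sq (∑ t ∈ P π (π s), f t q), Finset.sum_mul_sum]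
  simp_rw [h1]
  rw [← Finset.expect_div]
  congr 1
  rw [Finset.expect_sum_comm]
  apply Finset.sum_congr rfl
  intro t _
  rw [Finset.expect_sum_comm]

end

theorem main : S_EN := by
  classical
  intro ρ κ γ _ _ _ _ _ _ _ f Y Ca lam t π hCa ht hY hc hY2 hd
  set N : ℝ := (Fintype.card ρ : ℝ) with hN
  have hNpos : 0 < N := by
    rw [hN]; exact_mod_cast Fintype.card_pos
  have hlam : 0 ≤ lam := by
    obtain ⟨s⟩ := (inferInstance : Nonempty ρ)
    have h1 := hd s
    have h2 : (0 : ℝ) ≤ 𝔼 q, f s q ^ 2 := Finset.expect_nonneg (fun q _ => sq_nonneg _)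
    by_contra hcon
    push Not at hcon
    have : lam * N < 0 := mul_neg_of_neg_of_pos hcon hNpos
    linarith
  -- bound for all pairs
  have hcc : ∀ s s', 𝔼 q, f s q * f s' q ≤ Ca + Y s s' + (if s = s' then lam * N else 0) := by
    intro s s'
    by_cases h : s = s'
    · subst h
      simp only [if_true]
      have h1 := hd s
      have h2 : 𝔼 q, f s q * f s q = 𝔼 q, f s q ^ 2 := by
        congr 1; funext q; ring
      rw [h2]
      have := hY s s
      linarith
    · simp only [if_neg h]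
      have := hc s s' h
      linarith
  -- each class
  set B : γ → ℝ := fun i => ∑ s ∈ P π i, ∑ s' ∈ P π i, Y s s' ^ 2 with hB
  have hB0 : ∀ i, 0 ≤ B i := fun i => Finset.sum_nonneg (fun s _ => Finset.sum_nonneg (fun s' _ => sq_nonneg _))
  set A : γ → ℝ := fun i => ∑ s ∈ P π i, ∑ s' ∈ P π i, 𝔼 q, f s q * f s' q with hA
  have hAi : ∀ i, ((P π i).card : ℝ) * (A i / ((P π i).card : ℝ) ^ 2) ≤
      Ca * ((P π i).card : ℝ) + lam * N + Real.sqrt (B i) := by
    intro i
    set n : ℝ := ((P π i).card : ℝ) with hn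
    have hn0 : 0 ≤ n := by rw [hn]; positivity
    rcases hn0.eq_or_lt with h0 | hpos
    · rw [← h0]
      have := Real.sqrt_nonneg (B i)
      have := mul_nonneg hlam hNpos.le
      simp only [zero_mul, mul_zero]
      linarith
    · have h1 : A i ≤ Ca * n ^ 2 + n * (lam * N) + ∑ s ∈ P π i, ∑ s' ∈ P π i, Y s s' := by
        calc A i ≤ ∑ s ∈ P π i, ∑ s' ∈ P π i, (Ca + Y s s' + (if s = s' then lam * N else 0)) :=
              Finset.sum_le_sum (fun s _ => Finset.sum_le_sum (fun s' _ => hcc s s'))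
          _ = Ca * n ^ 2 + n * (lam * N) + ∑ s ∈ P π i, ∑ s' ∈ P π i, Y s s' := by
              simp only [Finset.sum_add_distrib, Finset.sum_const, nsmul_eq_mul, Finset.sum_ite_eq]
              have : ∑ x ∈ P π i, (if x ∈ P π i then lam * N else 0) = n * (lam * N) := by
                rw [Finset.sum_congr rfl (fun x hx => if_pos hx), Finset.sum_const, nsmul_eq_mul]
              rw [this]
              ring
      have h2 : ∑ s ∈ P π i, ∑ s' ∈ P π i, Y s s' ≤ n * Real.sqrt (B i) := by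
        have h3 : (∑ s ∈ P π i, ∑ s' ∈ P π i, Y s s') ^ 2 ≤ n ^ 2 * B i := by
          rw [← Finset.sum_product', hB]
          simp only
          rw [← Finset.sum_product' (P π i) (P π i) (fun s s' => Y s s' ^ 2)]
          have := sq_sum_le_card_mul_sum_sq (s := P π i ×ˢ P π i) (f := fun x : ρ × ρ => Y x.1 x.2)
          rw [Finset.card_product] at this
          push_cast at this
          rw [← hn] at this
          rw [sq n]
          exact this
        have h4 : (∑ s ∈ P π i, ∑ s' ∈ P π i, Y s s') ≤ Real.sqrt (n ^ 2 * B i) :=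
          Real.le_sqrt_of_sq_le h3
        rwa [Real.sqrt_mul (sq_nonneg n), Real.sqrt_sq hn0] at h4
      have h5 : n * (A i / n ^ 2) = A i / n := by
        field_simp
      rw [h5, div_le_iff₀ hpos]
      nlinarith
  -- sum over the classes
  have hsum : ∀ g : γ → ℝ, ∑ s, g (π s) = ∑ i, ((P π i).card : ℝ) * g i := by
    intro g
    rw [← Finset.sum_fiberwise_of_maps_to (s := univ) (t := univ) (g := π) (fun _ _ => mem_univ _)]
    apply Finset.sum_congr rfl
    intro i _
    rw [Finset.sum_congr rfl (g := fun _ => g i)]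
    · rw [Finset.sum_const, nsmul_eq_mul]; rfl
    · intro x hx
      rw [(Finset.mem_filter.mp hx).2]
  have hcard : ∑ i, ((P π i).card : ℝ) = N := by
    have := hsum (fun _ => 1)
    simp only [mul_one, Finset.sum_const, nsmul_eq_mul] at this
    rw [← this, hN]
    simp
  have hBsum : ∑ i, B i ≤ t ^ 2 * N ^ 2 := by
    have h1 : ∑ i, B i ≤ ∑ s, ∑ s', Y s s' ^ 2 := by
      have h2 : ∀ i, B i ≤ ∑ s ∈ P π i, ∑ s', Y s s' ^ 2 := by
        intro i
        apply Finset.sum_le_sum
        intro s _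
        exact Finset.sum_le_sum_of_subset_of_nonneg (Finset.subset_univ _) (fun _ _ _ => sq_nonneg _)
      calc ∑ i, B i ≤ ∑ i, ∑ s ∈ P π i, ∑ s', Y s s' ^ 2 := Finset.sum_le_sum (fun i _ => h2 i)
        _ = ∑ s, ∑ s', Y s s' ^ 2 :=
            Finset.sum_fiberwise_of_maps_to (s := univ) (t := univ) (g := π) (fun _ _ => mem_univ _) _
    have h3 : ∑ s, ∑ s', Y s s' ^ 2 ≤ t ^ 2 * N ^ 2 := by
      have h4 := hY2
      rw [expect_sum'] at h4
      simp_rw [expect_sum'] at h4
      rw [← Finset.sum_div, div_div, ← hN, div_le_iff₀ (by positivity)] at h4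
      nlinarith
    exact h1.trans h3
  have hsq : ∑ i, Real.sqrt (B i) ≤ Real.sqrt (Fintype.card γ) * t * N := by
    have h1 : (∑ i, Real.sqrt (B i)) ^ 2 ≤ (Fintype.card γ : ℝ) * ∑ i, B i := by
      have := sq_sum_le_card_mul_sum_sq (s := (univ : Finset γ)) (f := fun i => Real.sqrt (B i))
      simp_rw [Real.sq_sqrt (hB0 _)] at this
      exact this
    have h2 : (∑ i, Real.sqrt (B i)) ^ 2 ≤ (Fintype.card γ : ℝ) * (t * N) ^ 2 := by
      refine h1.trans ?_
      apply mul_le_mul_of_nonneg_left _ (Nat.cast_nonneg _)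
      rw [mul_pow]; exact hBsum
    have h3 := Real.le_sqrt_of_sq_le h2
    rw [Real.sqrt_mul (Nat.cast_nonneg _), Real.sqrt_sq (mul_nonneg ht hNpos.le)] at h3
    linarith
  have htot : ∑ s, 𝔼 q, av π f s q ^ 2 ≤
      Ca * N + (Fintype.card γ : ℝ) * (lam * N) + Real.sqrt (Fintype.card γ) * t * N := by
    have h1 : ∑ s, 𝔼 q, av π f s q ^ 2 = ∑ s, (fun i => A i / ((P π i).card : ℝ) ^ 2) (π s) := by
      apply Finset.sum_congr rfl
      intro s _
      rw [expect_av_sq]
    rw [h1, hsum (fun i => A i / ((P π i).card : ℝ) ^ 2)]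
    calc ∑ i, ((P π i).card : ℝ) * (A i / ((P π i).card : ℝ) ^ 2)
        ≤ ∑ i, (Ca * ((P π i).card : ℝ) + lam * N + Real.sqrt (B i)) :=
          Finset.sum_le_sum (fun i _ => hAi i)
      _ = Ca * N + (Fintype.card γ : ℝ) * (lam * N) + ∑ i, Real.sqrt (B i) := by
          rw [Finset.sum_add_distrib, Finset.sum_add_distrib, ← Finset.mul_sum, hcard,
            Finset.sum_const, nsmul_eq_mul, Finset.card_univ]
      _ ≤ _ := by linarith
  rw [expect_sum', ← hN, div_le_iff₀ hNpos]
  linarith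

end Pool.Agent.NH16.SM.EN
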