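import Pool.Agent.NH16.SM.Stm

set_option autoImplicit false

/-!
# Project SM: the moments of the averages over large classes
-/

namespace Pool.Agent.NH16.SM.MO

open Finset
open scoped BigOperators
open Pool.Agent.NH16.SM

theorem main : S_MO := by
  intro ρ κ γ _ _ _ _ _ _ f ν K σ t j π hK hσ hf hfν ht
  set exc : (Fin j → ρ) → ℝ := fun r => max 0 (𝔼 q, ∏ i, ν (r i) q - 2) with hexc
  have hexc0 : ∀ r, 0 ≤ exc r := fun r => le_max_left _ _
  have hexc2 : ∀ r, 𝔼 q, ∏ i, ν (r i) q ≤ 2 + exc r := by
    intro r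
    have := le_max_right 0 (𝔼 q, ∏ i, ν (r i) q - 2)
    have h2 : 𝔼 q, ∏ i, ν (r i) q - 2 ≤ exc r := this
    linarith
  have ht0 : 0 ≤ t := le_trans (Finset.expect_nonneg fun r _ => hexc0 r) ht
  have hcard : (0 : ℝ) < Fintype.card ρ := by
    have := Fintype.card_pos (α := ρ)
    exact_mod_cast this
  have hsum : ∑ r, exc r ≤ (Fintype.card ρ : ℝ) ^ j * t := by
    have h1 : (Fintype.card (Fin j → ρ) : ℝ) * 𝔼 r, exc r = ∑ r, exc r := Fintype.card_mul_expect exc
    rw [← h1, Fintype.card_fun, Fintype.card_fin]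
    push_cast
    exact mul_le_mul_of_nonneg_left ht (by positivity)
  have key : ∀ s : ρ, 𝔼 q, (if σ * (Fintype.card ρ : ℝ) ≤ cell π s then av π f s q else 0) ^ j ≤
      K ^ j * (2 + (1 / σ) ^ j * t) := by
    intro s
    by_cases hs : σ * (Fintype.card ρ : ℝ) ≤ cell π s
    · simp only [hs, if_true]
      set P : Finset ρ := univ.filter (fun t => π t = π s) with hP
      set n : ℝ := (cell π s : ℝ) with hn
      have hnP : n = (P.card : ℝ) := rfl
      have hn0 : 0 < n := lt_of_lt_of_le (mul_pos hσ hcard) hs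
      have e1 : ∀ q, (av π f s q) ^ j = (n ^ j)⁻¹ * ∑ r ∈ Fintype.piFinset (fun _ : Fin j => P), ∏ i, f (r i) q := by
        intro q
        have : av π f s q = (∑ t ∈ P, f t q) / n := rfl
        rw [this, div_pow, Finset.sum_pow', div_eq_inv_mul]
      have e2 : 𝔼 q, (av π f s q) ^ j =
          (n ^ j)⁻¹ * ∑ r ∈ Fintype.piFinset (fun _ : Fin j => P), 𝔼 q, ∏ i, f (r i) q := by
        rw [← Finset.expect_sum_comm, Finset.mul_expect]
        exact Finset.expect_congr rfl fun q _ => e1 q
      have e3 : ∀ r : Fin j → ρ, 𝔼 q, ∏ i, f (r i) q ≤ K ^ j * (2 + exc r) := by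
        intro r
        calc 𝔼 q, ∏ i, f (r i) q ≤ 𝔼 q, K ^ j * ∏ i, ν (r i) q := by
              refine Finset.expect_le_expect fun q _ => ?_
              have := Finset.prod_le_prod (s := (univ : Finset (Fin j))) (f := fun i => f (r i) q)
                (g := fun i => K * ν (r i) q) (fun i _ => hf _ _) (fun i _ => hfν _ _)
              rw [Finset.prod_mul_distrib, Finset.prod_const, Finset.card_univ, Fintype.card_fin] at this
              exact this
          _ = K ^ j * 𝔼 q, ∏ i, ν (r i) q := by rw [Finset.mul_expect]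
          _ ≤ K ^ j * (2 + exc r) := mul_le_mul_of_nonneg_left (hexc2 r) (by positivity)
      have hcardP : ((Fintype.piFinset (fun _ : Fin j => P)).card : ℝ) = n ^ j := by
        rw [Fintype.card_piFinset, Finset.prod_const, Finset.card_univ, Fintype.card_fin]
        push_cast
        rw [hnP]
      have e4 : ∑ r ∈ Fintype.piFinset (fun _ : Fin j => P), 𝔼 q, ∏ i, f (r i) q ≤
          K ^ j * (2 * n ^ j + (Fintype.card ρ : ℝ) ^ j * t) := by
        calc ∑ r ∈ Fintype.piFinset (fun _ : Fin j => P), 𝔼 q, ∏ i, f (r i) q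
            ≤ ∑ r ∈ Fintype.piFinset (fun _ : Fin j => P), K ^ j * (2 + exc r) :=
              Finset.sum_le_sum fun r _ => e3 r
          _ = K ^ j * (2 * n ^ j + ∑ r ∈ Fintype.piFinset (fun _ : Fin j => P), exc r) := by
              rw [← Finset.mul_sum, Finset.sum_add_distrib, Finset.sum_const, nsmul_eq_mul, hcardP]
              ring
          _ ≤ K ^ j * (2 * n ^ j + (Fintype.card ρ : ℝ) ^ j * t) := by
              apply mul_le_mul_of_nonneg_left _ (by positivity)
              have : ∑ r ∈ Fintype.piFinset (fun _ : Fin j => P), exc r ≤ ∑ r, exc r :=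
                Finset.sum_le_sum_of_subset_of_nonneg (Finset.subset_univ _) fun r _ _ => hexc0 r
              linarith
      rw [e2]
      have hnj : 0 < n ^ j := by positivity
      calc (n ^ j)⁻¹ * ∑ r ∈ Fintype.piFinset (fun _ : Fin j => P), 𝔼 q, ∏ i, f (r i) q
          ≤ (n ^ j)⁻¹ * (K ^ j * (2 * n ^ j + (Fintype.card ρ : ℝ) ^ j * t)) :=
            mul_le_mul_of_nonneg_left e4 (by positivity)
        _ = K ^ j * (2 + ((Fintype.card ρ : ℝ) / n) ^ j * t) := by
            rw [div_pow]
            field_simp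
        _ ≤ K ^ j * (2 + (1 / σ) ^ j * t) := by
            apply mul_le_mul_of_nonneg_left _ (by positivity)
            have h5 : (Fintype.card ρ : ℝ) / n ≤ 1 / σ := by
              rw [div_le_div_iff₀ hn0 hσ]
              linarith
            have h6 : ((Fintype.card ρ : ℝ) / n) ^ j ≤ (1 / σ) ^ j := pow_le_pow_left₀ (by positivity) h5 j
            nlinarith
    · simp only [hs, if_false]
      rw [Fintype.expect_const]
      rcases Nat.eq_zero_or_pos j with hj | hj
      · subst hj
        simp only [pow_zero, one_mul]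
        linarith
      · rw [zero_pow hj.ne']
        positivity
  exact Finset.expect_le univ_nonempty fun s _ => key s

end Pool.Agent.NH16.SM.MO
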