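import Pool.Agent.NH16.SM.Stm
import Pool.Agent.NH16.Zft

/-!
# Plancherel on the cyclic group (helper78, job SM3)
-/

set_option autoImplicit false

namespace Pool.Agent.NH16.SM.Op

open Finset
open Pool.Agent.NH16
open Pool.Agent.Helper602.MK
open Pool.Agent.Helper602.MK.N_J5b

variable {Q : ℕ} [NeZero Q]

/-- Fourier transform -/
private noncomputable def hat (ψ : ZMod Q → ℝ) (ξ : ZMod Q) : ℂ :=
  ∑ n : ZMod Q, (ψ n : ℂ) * ch (-(n * ξ))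

private lemma planch (ψ : ZMod Q → ℝ) :
    ∑ n : ZMod Q, ψ n ^ 2 = (1 / (Q : ℝ)) * ∑ ξ : ZMod Q, ‖hat ψ ξ‖ ^ 2 := by
  have hQ : (Q : ℂ) ≠ 0 := by exact_mod_cast NeZero.ne Q
  have h1 : ∀ ξ : ZMod Q, ((‖hat ψ ξ‖ ^ 2 : ℝ) : ℂ) =
      ∑ n : ZMod Q, ∑ m : ZMod Q, (ψ n : ℂ) * (ψ m : ℂ) * ch (ξ * (m - n)) := by
    intro ξ
    unfold hat
    rw [normsq_sum]
    refine sum_congr rfl fun n _ => sum_congr rfl fun m _ => ?_
    rw [map_mul, conj_ch, Complex.conj_ofReal]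
    have : ξ * (m - n) = -(n * ξ) + - -(m * ξ) := by ring
    rw [this, ch_add]
    ring
  have h2 : ((∑ ξ : ZMod Q, ‖hat ψ ξ‖ ^ 2 : ℝ) : ℂ) = (Q : ℂ) * ((∑ n : ZMod Q, ψ n ^ 2 : ℝ) : ℂ) := by
    rw [Complex.ofReal_sum]
    simp only [h1]
    rw [sum_comm, Complex.ofReal_sum, mul_sum]
    refine sum_congr rfl fun n _ => ?_
    rw [sum_comm]
    have h3 : ∀ m : ZMod Q, ∑ ξ : ZMod Q, (ψ n : ℂ) * (ψ m : ℂ) * ch (ξ * (m - n)) =
        if n = m then (Q : ℂ) * (ψ n : ℂ) ^ 2 else 0 := by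
      intro m
      rw [← mul_sum, orth_z]
      by_cases h : n = m
      · subst h
        rw [if_pos (sub_self _), if_pos rfl]
        ring
      · rw [if_neg h, if_neg, mul_zero]
        intro h'
        exact h (sub_eq_zero.mp h').symm
    simp only [h3]
    rw [sum_ite_eq, if_pos (mem_univ _)]
    push_cast
    ring
  have h4 : (∑ ξ : ZMod Q, ‖hat ψ ξ‖ ^ 2) = (Q : ℝ) * ∑ n : ZMod Q, ψ n ^ 2 := by
    have : ((∑ ξ : ZMod Q, ‖hat ψ ξ‖ ^ 2 : ℝ) : ℂ) = (((Q : ℝ) * ∑ n : ZMod Q, ψ n ^ 2 : ℝ) : ℂ) := by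
      rw [h2]
      push_cast
      ring
    exact_mod_cast this
  have hQ' : (Q : ℝ) ≠ 0 := by exact_mod_cast NeZero.ne Q
  rw [h4]
  field_simp

private lemma hat_shift (φ : ZMod Q → ℝ) (a ξ : ZMod Q) :
    hat (fun n => φ (n + a)) ξ = ch (a * ξ) * hat φ ξ := by
  unfold hat
  rw [mul_sum]
  refine Fintype.sum_equiv (Equiv.addRight a) _ _ fun n => ?_
  rw [Equiv.coe_addRight]
  have : -(n * ξ) = a * ξ + -((n + a) * ξ) := by ring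
  rw [this, ch_add]
  ring

private lemma hat_sum {ι : Type} (s : Finset ι) (c : ι → ℝ) (ψ : ι → ZMod Q → ℝ) (ξ : ZMod Q) :
    hat (fun n => ∑ i ∈ s, c i * ψ i n) ξ = ∑ i ∈ s, (c i : ℂ) * hat (ψ i) ξ := by
  unfold hat
  simp only [mul_sum]
  rw [sum_comm]
  refine sum_congr rfl fun n _ => ?_
  push_cast
  rw [sum_mul]
  refine sum_congr rfl fun i _ => ?_
  ring

private lemma hat_smul (c : ℝ) (ψ : ZMod Q → ℝ) (ξ : ZMod Q) :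
    hat (fun n => c * ψ n) ξ = (c : ℂ) * hat ψ ξ := by
  unfold hat
  rw [mul_sum]
  refine sum_congr rfl fun n _ => ?_
  push_cast
  ring

private lemma hat_sub (ψ χ : ZMod Q → ℝ) (ξ : ZMod Q) :
    hat (fun n => ψ n - χ n) ξ = hat ψ ξ - hat χ ξ := by
  unfold hat
  rw [← sum_sub_distrib]
  refine sum_congr rfl fun n _ => ?_
  push_cast
  ring

private lemma ch_nat (a : ℕ) (ξ : ZMod Q) : ch ((a : ZMod Q) * ξ) = ee ((a : ℝ) * (ξ.val / Q)) := by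
  have h := ch_mul_int ξ (a : ℤ)
  rw [mul_comm, show ((a : ℕ) : ZMod Q) = ((a : ℤ) : ZMod Q) by push_cast; rfl, h]
  congr 1
  push_cast
  ring

private lemma hat_Pf (μ J : ℕ) (φ : ZMod Q → ℝ) (ξ : ZMod Q) :
    hat (Pf μ J φ) ξ = ((‖Dk J ((μ : ℝ) * (ξ.val / Q))‖ ^ 2 : ℝ) : ℂ) * hat φ ξ := by
  have h1 : ((‖Dk J ((μ : ℝ) * (ξ.val / Q))‖ ^ 2 : ℝ) : ℂ) =
      (1 / (J : ℂ) ^ 2) * ∑ j ∈ range J, ∑ j' ∈ range J,
        ch ((((μ * j : ℕ) : ZMod Q) - ((μ * j' : ℕ) : ZMod Q)) * ξ) := by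
    unfold Dk
    rw [norm_mul, mul_pow, Complex.ofReal_mul, normsq_sum]
    congr 1
    · rw [norm_div, norm_one, Complex.norm_natCast]
      push_cast
      ring
    · refine sum_congr rfl fun j _ => sum_congr rfl fun j' _ => ?_
      have e1 : ((((μ * j : ℕ) : ZMod Q) - ((μ * j' : ℕ) : ZMod Q)) * ξ) =
          ((μ * j : ℕ) : ZMod Q) * ξ + -(((μ * j' : ℕ) : ZMod Q) * ξ) := by ring
      rw [e1, ch_add, ← conj_ch, ch_nat, ch_nat]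
      congr 2
      · push_cast; ring
      · congr 1
        push_cast; ring
  have h2 : hat (Pf μ J φ) ξ = (1 / (J : ℂ) ^ 2) * ∑ j ∈ range J, ∑ j' ∈ range J,
      ch ((((μ * j : ℕ) : ZMod Q) - ((μ * j' : ℕ) : ZMod Q)) * ξ) * hat φ ξ := by
    have e1 : Pf μ J φ = fun n => (1 / (J : ℝ) ^ 2) * ∑ j ∈ range J, 1 * ∑ j' ∈ range J,
        1 * φ (n + (((μ * j : ℕ) : ZMod Q) - ((μ * j' : ℕ) : ZMod Q))) := by
      funext n
      unfold Pf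
      congr 1
      refine sum_congr rfl fun j _ => ?_
      rw [one_mul]
      refine sum_congr rfl fun j' _ => ?_
      rw [one_mul, add_sub_assoc]
    rw [e1, hat_smul, hat_sum]
    congr 1
    · push_cast; ring
    · refine sum_congr rfl fun j _ => ?_
      rw [hat_sum, Complex.ofReal_one, one_mul]
      refine sum_congr rfl fun j' _ => ?_
      rw [hat_shift, one_mul]
  rw [h1, h2, mul_assoc, sum_mul]
  congr 1
  refine sum_congr rfl fun j _ => ?_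
  rw [sum_mul]

theorem main : S_OP := by
  intro Q _ K H J J' m1 μ b κ c hK hH hJ hJ' hP φ
  have hQ0 : (0 : ℝ) < Q := by exact_mod_cast Nat.pos_of_ne_zero (NeZero.ne Q)
  have hA : ∀ k : ℕ, ∑ n : ZMod Q,
      ((1 / (H : ℝ)) * ∑ h ∈ Icc 1 H, b h * φ (n + ((μ * k * h : ℕ) : ZMod Q)) -
        ((1 / (H : ℝ)) * ∑ h ∈ Icc 1 H, b h) * Pf μ J φ n) ^ 2 =
      (1 / (Q : ℝ)) * ∑ ξ : ZMod Q, ‖(1 / (H : ℂ)) * ∑ h ∈ Icc 1 H, (b h : ℂ) *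
        ee ((k : ℝ) * h * ((μ : ℝ) * (ξ.val / Q))) -
        ((1 / (H : ℂ)) * ∑ h ∈ Icc 1 H, (b h : ℂ)) *
          ((‖Dk J ((μ : ℝ) * (ξ.val / Q))‖ ^ 2 : ℝ) : ℂ)‖ ^ 2 * ‖hat φ ξ‖ ^ 2 := by
    intro k
    rw [planch]
    congr 1
    refine sum_congr rfl fun ξ _ => ?_
    rw [← mul_pow, ← norm_mul]
    congr 2
    rw [hat_sub, hat_smul, hat_smul, hat_Pf, hat_sum]
    simp only [hat_shift, ch_nat]
    rw [sub_mul, mul_assoc, sum_mul, mul_assoc]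
    congr 1
    · congr 1
      · push_cast; ring
      · refine sum_congr rfl fun h _ => ?_
        have e2 : (((μ * k * h : ℕ) : ℕ) : ℝ) * ((ξ.val : ℝ) / Q) =
            (k : ℝ) * h * ((μ : ℝ) * (ξ.val / Q)) := by
          push_cast; ring
        rw [e2]
        ring
    · congr 1
      push_cast; ring
  have hB : ∀ μ' J₁ : ℕ, ∑ n : ZMod Q, Pf μ' J₁ φ n ^ 2 = (1 / (Q : ℝ)) * ∑ ξ : ZMod Q,
      ‖Dk J₁ ((μ' : ℝ) * (ξ.val / Q))‖ ^ 4 * ‖hat φ ξ‖ ^ 2 := by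
    intro μ' J₁
    rw [planch]
    congr 1
    refine sum_congr rfl fun ξ _ => ?_
    rw [hat_Pf, norm_mul, mul_pow, Complex.norm_real, Real.norm_of_nonneg (by positivity),
      ← pow_mul]
  rw [sum_congr rfl fun k _ => hA k, hB, hB, planch φ, ← mul_sum, sum_comm]
  have h1 : ∀ ξ : ZMod Q, (1 / (K : ℝ)) * ∑ k ∈ Icc 1 K, ‖(1 / (H : ℂ)) * ∑ h ∈ Icc 1 H, (b h : ℂ) *
        ee ((k : ℝ) * h * ((μ : ℝ) * (ξ.val / Q))) -
        ((1 / (H : ℂ)) * ∑ h ∈ Icc 1 H, (b h : ℂ)) *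
          ((‖Dk J ((μ : ℝ) * (ξ.val / Q))‖ ^ 2 : ℝ) : ℂ)‖ ^ 2 * ‖hat φ ξ‖ ^ 2 ≤
      κ * ‖hat φ ξ‖ ^ 2 + c * (‖Dk J' (((μ * m1 : ℕ) : ℝ) * (ξ.val / Q))‖ ^ 4 * ‖hat φ ξ‖ ^ 2 -
        ‖Dk J ((μ : ℝ) * (ξ.val / Q))‖ ^ 4 * ‖hat φ ξ‖ ^ 2) := by
    intro ξ
    have h2 := hP ((μ : ℝ) * (ξ.val / Q))
    have h3 : (m1 : ℝ) * ((μ : ℝ) * (ξ.val / Q)) = ((μ * m1 : ℕ) : ℝ) * (ξ.val / Q) := by
      push_cast; ring
    rw [h3] at h2
    have h4 := mul_le_mul_of_nonneg_right h2 (by positivity : (0 : ℝ) ≤ ‖hat φ ξ‖ ^ 2)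
    rw [← sum_mul, ← mul_assoc]
    refine h4.trans (le_of_eq ?_)
    ring
  have h5 := sum_le_sum fun ξ (_ : ξ ∈ (univ : Finset (ZMod Q))) => h1 ξ
  have h6 := mul_le_mul_of_nonneg_left h5 (by positivity : (0 : ℝ) ≤ 1 / (Q : ℝ))
  refine le_trans (le_of_eq ?_) (h6.trans (le_of_eq ?_))
  · rw [← mul_sum]
    ring
  · rw [sum_add_distrib, ← mul_sum, ← mul_sum, sum_sub_distrib]
    ring

end Pool.Agent.NH16.SM.Op
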