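import Pool.Agent.NH16.SM.Stm

/-!
# The pointwise inequality between the Fourier transforms
-/

set_option autoImplicit false

namespace Pool.Agent.NH16.SM.PI

open Finset
open scoped BigOperators
open Pool.Agent.Helper602.MK Pool.Agent.Helper602.MK.N_J5b

lemma ee_near (t : ℝ) : ‖ee t - 1‖ ≤ 2 * Real.pi * |t| := by
  rw [norm_sub_rev, norm_one_sub_ee]
  have h1 : |Real.sin (Real.pi * t)| ≤ |Real.pi * t| := Real.abs_sin_le_abs
  rw [abs_mul, abs_of_pos Real.pi_pos] at h1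
  linarith

lemma ee_far {x : ℝ} (hx : |x| ≤ 1 / 2) : 4 * |x| ≤ ‖ee x - 1‖ := by
  rw [norm_sub_rev, norm_one_sub_ee]
  have h1 : 2 / Real.pi * |Real.pi * x| ≤ |Real.sin (Real.pi * x)| := by
    refine Real.mul_abs_le_abs_sin ?_
    rw [abs_mul, abs_of_pos Real.pi_pos]
    nlinarith [Real.pi_pos]
  rw [abs_mul, abs_of_pos Real.pi_pos] at h1
  have h2 : 2 / Real.pi * (Real.pi * |x|) = 2 * |x| := by
    field_simp
  rw [h2] at h1
  linarith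

lemma Dk_add_int (J : ℕ) (θ : ℝ) (n : ℤ) : Dk J (θ + n) = Dk J θ := by
  unfold Dk
  congr 1
  refine Finset.sum_congr rfl fun j _ => ?_
  have : (j : ℝ) * (θ + n) = j * θ + ((j * n : ℤ) : ℝ) := by push_cast; ring
  rw [this, ee_add_int]

lemma Dk_le (J : ℕ) (θ : ℝ) : ‖Dk J θ‖ ≤ 1 := by
  unfold Dk
  rcases Nat.eq_zero_or_pos J with rfl | hJ
  · simp
  have hJ' : (0 : ℝ) < J := by exact_mod_cast hJ
  rw [norm_mul, norm_div, norm_one, Complex.norm_natCast]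
  have h1 : ‖∑ j ∈ range J, ee ((j : ℝ) * θ)‖ ≤ J := by
    calc ‖∑ j ∈ range J, ee ((j : ℝ) * θ)‖ ≤ ∑ j ∈ range J, ‖ee ((j : ℝ) * θ)‖ := norm_sum_le _ _
      _ = J := by simp [norm_ee]
  calc 1 / (J : ℝ) * ‖∑ j ∈ range J, ee ((j : ℝ) * θ)‖ ≤ 1 / (J : ℝ) * J := by gcongr
    _ = 1 := by field_simp

lemma Dk_near {J : ℕ} (hJ : 1 ≤ J) (x : ℝ) : ‖Dk J x - 1‖ ≤ 2 * Real.pi * (J * |x|) := by
  have hJ' : (0 : ℝ) < J := by exact_mod_cast hJ
  have hJc : (J : ℂ) ≠ 0 := by exact_mod_cast hJ'.ne'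
  have h1 : Dk J x - 1 = (1 / (J : ℂ)) * ∑ j ∈ range J, (ee ((j : ℝ) * x) - 1) := by
    unfold Dk
    rw [Finset.sum_sub_distrib, mul_sub]
    simp only [Finset.sum_const, Finset.card_range, nsmul_eq_mul, mul_one]
    rw [one_div_mul_cancel hJc]
  rw [h1, norm_mul, norm_div, norm_one, Complex.norm_natCast]
  have h2 : ‖∑ j ∈ range J, (ee ((j : ℝ) * x) - 1)‖ ≤ J * (2 * Real.pi * (J * |x|)) := by
    calc ‖∑ j ∈ range J, (ee ((j : ℝ) * x) - 1)‖ ≤ ∑ j ∈ range J, ‖ee ((j : ℝ) * x) - 1‖ :=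
        norm_sum_le _ _
      _ ≤ ∑ _j ∈ range J, (2 * Real.pi * (J * |x|)) := by
        refine Finset.sum_le_sum fun j hj => ?_
        refine (ee_near _).trans ?_
        rw [abs_mul, Nat.abs_cast]
        have hj' : (j : ℝ) ≤ J := by exact_mod_cast (Finset.mem_range.1 hj).le
        have := Real.pi_pos
        gcongr
      _ = J * (2 * Real.pi * (J * |x|)) := by
        rw [Finset.sum_const, Finset.card_range, nsmul_eq_mul]
  calc 1 / (J : ℝ) * ‖∑ j ∈ range J, (ee ((j : ℝ) * x) - 1)‖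
      ≤ 1 / (J : ℝ) * (J * (2 * Real.pi * (J * |x|))) := by gcongr
    _ = 2 * Real.pi * (J * |x|) := by field_simp

lemma Dk_far {J : ℕ} {x : ℝ} (hx : |x| ≤ 1 / 2) : ‖Dk J x‖ * (2 * (J * |x|)) ≤ 1 := by
  rcases Nat.eq_zero_or_pos J with rfl | hJ
  · simp
  have hJ' : (0 : ℝ) < J := by exact_mod_cast hJ
  have h1 : (∑ j ∈ range J, ee ((j : ℝ) * x)) * (ee x - 1) = ee x ^ J - 1 := by
    have e : ∑ j ∈ range J, ee ((j : ℝ) * x) = ∑ j ∈ range J, ee x ^ j :=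
      Finset.sum_congr rfl fun j _ => ee_nat_mul j x
    rw [e, geom_sum_mul]
  have h2 : ‖ee x ^ J - 1‖ ≤ 2 := by
    calc ‖ee x ^ J - 1‖ ≤ ‖ee x ^ J‖ + ‖(1 : ℂ)‖ := norm_sub_le _ _
      _ = 2 := by rw [norm_pow, norm_ee, one_pow, norm_one]; norm_num
  rw [← h1, norm_mul] at h2
  have h3 := ee_far hx
  have h4 : ‖∑ j ∈ range J, ee ((j : ℝ) * x)‖ * (4 * |x|) ≤ 2 :=
    (mul_le_mul_of_nonneg_left h3 (norm_nonneg _)).trans h2
  unfold Dk
  rw [norm_mul, norm_div, norm_one, Complex.norm_natCast]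
  generalize ‖∑ j ∈ range J, ee ((j : ℝ) * x)‖ = Z at h4 ⊢
  have h5 : 1 / (J : ℝ) * Z * (2 * (J * |x|)) = Z * (4 * |x|) / 2 := by
    field_simp
    ring
  rw [h5]
  linarith

lemma avg_le {K : ℕ} (hK : 1 ≤ K) (X : ℕ → ℝ) (M : ℝ) (hX : ∀ k ∈ Icc 1 K, X k ≤ M) :
    (1 / (K : ℝ)) * ∑ k ∈ Icc 1 K, X k ≤ M := by
  have hK' : (0 : ℝ) < K := by exact_mod_cast hK
  have h1 : ∑ k ∈ Icc 1 K, X k ≤ K * M := by
    calc ∑ k ∈ Icc 1 K, X k ≤ ∑ _k ∈ Icc 1 K, M := Finset.sum_le_sum hX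
      _ = K * M := by rw [Finset.sum_const, Nat.card_Icc, nsmul_eq_mul]; simp
  calc (1 / (K : ℝ)) * ∑ k ∈ Icc 1 K, X k ≤ (1 / (K : ℝ)) * (K * M) := by gcongr
    _ = M := by field_simp

lemma norm_avg_le {H : ℕ} (hH : 1 ≤ H) (X : ℕ → ℂ) (M : ℝ) (hX : ∀ h ∈ Icc 1 H, ‖X h‖ ≤ M) :
    ‖(1 / (H : ℂ)) * ∑ h ∈ Icc 1 H, X h‖ ≤ M := by
  rw [norm_mul, norm_div, norm_one, Complex.norm_natCast]
  have hH' : (0 : ℝ) < H := by exact_mod_cast hH
  calc 1 / (H : ℝ) * ‖∑ h ∈ Icc 1 H, X h‖ ≤ 1 / (H : ℝ) * ∑ h ∈ Icc 1 H, ‖X h‖ := by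
        gcongr
        exact norm_sum_le _ _
    _ ≤ M := avg_le hH _ _ hX

lemma avg_sq {K : ℕ} (hK : 1 ≤ K) (A : ℕ → ℂ) (c : ℂ) (q : ℝ) (hc : ‖c‖ ≤ q) :
    (1 / (K : ℝ)) * ∑ k ∈ Icc 1 K, ‖A k - c‖ ^ 2 ≤
      2 * ((1 / (K : ℝ)) * ∑ k ∈ Icc 1 K, ‖A k‖ ^ 2) + 2 * q ^ 2 := by
  have hK' : (0 : ℝ) < K := by exact_mod_cast hK
  have g1 : ∀ k : ℕ, ‖A k - c‖ ^ 2 ≤ 2 * ‖A k‖ ^ 2 + 2 * q ^ 2 := by
    intro k
    have g2 := norm_sub_le (A k) c
    have g6 : ‖A k - c‖ ≤ ‖A k‖ + q := by linarith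
    have g7 : ‖A k - c‖ ^ 2 ≤ (‖A k‖ + q) ^ 2 := pow_le_pow_left₀ (norm_nonneg _) g6 2
    nlinarith [sq_nonneg (‖A k‖ - q)]
  have g9 : ∑ k ∈ Icc 1 K, ‖A k - c‖ ^ 2 ≤ ∑ k ∈ Icc 1 K, (2 * ‖A k‖ ^ 2 + 2 * q ^ 2) :=
    Finset.sum_le_sum fun k _ => g1 k
  have g10 : ∑ k ∈ Icc 1 K, (2 * ‖A k‖ ^ 2 + 2 * q ^ 2) =
      2 * (∑ k ∈ Icc 1 K, ‖A k‖ ^ 2) + K * (2 * q ^ 2) := by
    rw [Finset.sum_add_distrib, ← Finset.mul_sum, Finset.sum_const, Nat.card_Icc, nsmul_eq_mul]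
    simp
  rw [g10] at g9
  calc (1 / (K : ℝ)) * ∑ k ∈ Icc 1 K, ‖A k - c‖ ^ 2
      ≤ (1 / (K : ℝ)) * (2 * (∑ k ∈ Icc 1 K, ‖A k‖ ^ 2) + K * (2 * q ^ 2)) :=
        mul_le_mul_of_nonneg_left g9 (by positivity)
    _ = 2 * ((1 / (K : ℝ)) * ∑ k ∈ Icc 1 K, ‖A k‖ ^ 2) + 2 * q ^ 2 := by field_simp

/-- the inequality for `|x| ≤ 1 / 2` -/
lemma core {s : ℝ} (hs : 0 < s) (hs1 : s ≤ 1) {D m1 G K H J' : ℕ} (hD : 100 / s ≤ D)
    (hK1 : 1 ≤ K) (hH1 : 1 ≤ H) (hJ' : 1 ≤ J')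
    (hG : 4 * m1 / (s ^ 3 / 1000) ^ 2 ≤ (G : ℝ)) (hGJ : G * J' = K * H) {b : ℕ → ℝ}
    (hb : ∀ h, |b h| ≤ 1)
    {x : ℝ} (hx : |x| ≤ 1 / 2)
    (hdio : (s ^ 3 / 1000) ^ 2 < Sb K H b x → 1 - ‖Dk J' ((m1 : ℝ) * x)‖ ^ 2 < s ^ 3 / 1000) :
    (1 / (K : ℝ)) * ∑ k ∈ Icc 1 K,
      ‖(1 / (H : ℂ)) * ∑ h ∈ Icc 1 H, (b h : ℂ) * ee ((k : ℝ) * h * x) -
      ((1 / (H : ℂ)) * ∑ h ∈ Icc 1 H, (b h : ℂ)) * ((‖Dk (D * K * H) x‖ ^ 2 : ℝ) : ℂ)‖ ^ 2 ≤
    s ^ 2 + 32 / s * (‖Dk J' ((m1 : ℝ) * x)‖ ^ 4 - ‖Dk (D * K * H) x‖ ^ 4) := by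
  set τ : ℝ := s ^ 3 / 1000 with hτ
  set J : ℕ := D * K * H with hJ
  set d : ℝ := ‖Dk J x‖ with hd
  set d' : ℝ := ‖Dk J' ((m1 : ℝ) * x)‖ with hd'
  have hd0 : 0 ≤ d := norm_nonneg _
  have hd1 : d ≤ 1 := Dk_le _ _
  have hd0' : 0 ≤ d' := norm_nonneg _
  have hd1' : d' ≤ 1 := Dk_le _ _
  have hτ0 : 0 < τ := by positivity
  have hs2 : s ^ 2 ≤ 1 := by nlinarith
  have hs3 : s ^ 3 ≤ s := by nlinarith
  have hDpos : (0 : ℝ) < D := lt_of_lt_of_le (by positivity) hD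
  have hD1 : 1 ≤ D := by exact_mod_cast hDpos
  have hKpos : (0 : ℝ) < K := by exact_mod_cast hK1
  have hHpos : (0 : ℝ) < H := by exact_mod_cast hH1
  have hJ'pos : (0 : ℝ) < J' := by exact_mod_cast hJ'
  set bb : ℂ := (1 / (H : ℂ)) * ∑ h ∈ Icc 1 H, (b h : ℂ) with hbb
  have hbb1 : ‖bb‖ ≤ 1 := norm_avg_le hH1 _ _ fun h _ => by
    rw [Complex.norm_real, Real.norm_eq_abs]
    exact hb h
  have hB1 : ∀ k : ℕ, ‖(1 / (H : ℂ)) * ∑ h ∈ Icc 1 H, (b h : ℂ) * ee ((k : ℝ) * h * x)‖ ≤ 1 :=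
    fun k => norm_avg_le hH1 _ _ fun h _ => by
      rw [norm_mul, norm_ee, mul_one, Complex.norm_real, Real.norm_eq_abs]
      exact hb h
  have hc : 32 / s * τ = 32 / 1000 * s ^ 2 := by
    rw [hτ]
    field_simp
  have hc0 : 0 < 32 / s := by positivity
  have hP1 : ‖((d ^ 2 : ℝ) : ℂ)‖ = d ^ 2 := by
    rw [Complex.norm_real, Real.norm_eq_abs, abs_of_nonneg (by positivity)]
  by_cases hcase : 1 - d' ^ 2 < τ
  · have e1 : 1 - 2 * τ ≤ d' ^ 4 := by nlinarith [sq_nonneg (1 - d' ^ 2), sq_nonneg d']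
    have e2 : 32 / s * (1 - 2 * τ - 1) ≤ 32 / s * (d' ^ 4 - 1) :=
      mul_le_mul_of_nonneg_left (by linarith) hc0.le
    have e3 : 32 / s * (1 - 2 * τ - 1) = -(64 / 1000) * s ^ 2 := by linear_combination -2 * hc
    by_cases hcase2 : 1 - s / 4 ≤ d ^ 4
    · -- case B1
      have hdh : 1 / 2 ≤ d := by
        by_contra hlt
        push Not at hlt
        have h1 : d ^ 2 ≤ 1 / 4 := by nlinarith
        have h2 : d ^ 4 ≤ 1 / 16 := by nlinarith [sq_nonneg d]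
        linarith
      have hJx : (J : ℝ) * |x| ≤ 1 := by
        have h1 := Dk_far (J := J) hx
        have h2 : 0 ≤ (J : ℝ) * |x| := by positivity
        nlinarith
      have hKH : (K : ℝ) * H * |x| ≤ 1 / D := by
        rw [le_div_iff₀ hDpos]
        have h1 : (J : ℝ) = D * K * H := by rw [hJ]; push_cast; ring
        rw [h1] at hJx
        nlinarith
      have hb1 : ∀ k ∈ Icc 1 K, ‖(1 / (H : ℂ)) * ∑ h ∈ Icc 1 H, (b h : ℂ) * ee ((k : ℝ) * h * x) -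
          bb * ((d ^ 2 : ℝ) : ℂ)‖ ^ 2 ≤ s ^ 2 / 2 := by
        intro k hk
        have hkK : (k : ℝ) ≤ K := by exact_mod_cast (Finset.mem_Icc.1 hk).2
        have g1 : (1 / (H : ℂ)) * ∑ h ∈ Icc 1 H, (b h : ℂ) * ee ((k : ℝ) * h * x) -
            bb * ((d ^ 2 : ℝ) : ℂ) =
            (1 / (H : ℂ)) * ∑ h ∈ Icc 1 H, (b h : ℂ) * (ee ((k : ℝ) * h * x) - 1) +
              bb * (((1 - d ^ 2 : ℝ)) : ℂ) := by
          have : ∑ h ∈ Icc 1 H, (b h : ℂ) * (ee ((k : ℝ) * h * x) - 1) =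
              ∑ h ∈ Icc 1 H, (b h : ℂ) * ee ((k : ℝ) * h * x) - ∑ h ∈ Icc 1 H, (b h : ℂ) := by
            rw [← Finset.sum_sub_distrib]
            exact Finset.sum_congr rfl fun h _ => by ring
          rw [this, mul_sub, ← hbb]
          push_cast
          ring
        have g2 : ‖(1 / (H : ℂ)) * ∑ h ∈ Icc 1 H, (b h : ℂ) * (ee ((k : ℝ) * h * x) - 1)‖ ≤
            2 * Real.pi * (1 / D) := by
          refine norm_avg_le hH1 _ _ fun h hh => ?_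
          have hhH : (h : ℝ) ≤ H := by exact_mod_cast (Finset.mem_Icc.1 hh).2
          rw [norm_mul, Complex.norm_real, Real.norm_eq_abs]
          have h3 : ‖ee ((k : ℝ) * h * x) - 1‖ ≤ 2 * Real.pi * (1 / D) := by
            refine (ee_near _).trans ?_
            rw [abs_mul, abs_mul, Nat.abs_cast, Nat.abs_cast]
            have h4 : (k : ℝ) * h * |x| ≤ K * H * |x| := by gcongr
            have := Real.pi_pos
            have h5 : (k : ℝ) * h * |x| ≤ 1 / D := h4.trans hKH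
            gcongr
          calc |b h| * ‖ee ((k : ℝ) * h * x) - 1‖ ≤ 1 * (2 * Real.pi * (1 / D)) := by
                gcongr
                exact hb h
            _ = _ := one_mul _
        have g3 : ‖bb * (((1 - d ^ 2 : ℝ)) : ℂ)‖ ≤ s / 4 := by
          rw [norm_mul, Complex.norm_real, Real.norm_eq_abs]
          have h3 : |1 - d ^ 2| ≤ s / 4 := by
            rw [abs_of_nonneg (by nlinarith)]
            nlinarith [sq_nonneg (1 - d ^ 2), sq_nonneg d]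
          calc ‖bb‖ * |1 - d ^ 2| ≤ 1 * (s / 4) := by gcongr
            _ = _ := one_mul _
        have g4 : 2 * Real.pi * (1 / D) ≤ 7 / 100 * s := by
          have h3 : 1 / (D : ℝ) ≤ s / 100 := by
            rw [div_le_iff₀ hDpos]
            rw [div_le_iff₀ hs] at hD
            linarith
          have h4 := Real.pi_lt_d2
          have h5 := Real.pi_pos
          calc 2 * Real.pi * (1 / D) ≤ 2 * Real.pi * (s / 100) := by gcongr
            _ ≤ 7 / 100 * s := by nlinarith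
        have g5 : ‖(1 / (H : ℂ)) * ∑ h ∈ Icc 1 H, (b h : ℂ) * ee ((k : ℝ) * h * x) -
            bb * ((d ^ 2 : ℝ) : ℂ)‖ ≤ 32 / 100 * s := by
          rw [g1]
          refine (norm_add_le _ _).trans ?_
          linarith
        have g6 := norm_nonneg ((1 / (H : ℂ)) * ∑ h ∈ Icc 1 H, (b h : ℂ) * ee ((k : ℝ) * h * x) -
            bb * ((d ^ 2 : ℝ) : ℂ))
        nlinarith
      have h1 := avg_le hK1 _ _ hb1
      have h2 : d ^ 4 ≤ 1 := by nlinarith [sq_nonneg d, pow_le_one₀ (n := 4) hd0 hd1]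
      have h3 : 32 / s * (d' ^ 4 - 1) ≤ 32 / s * (d' ^ 4 - d ^ 4) :=
        mul_le_mul_of_nonneg_left (by linarith) hc0.le
      have h4 : 0 ≤ s ^ 2 := sq_nonneg s
      linarith
    · -- case B2
      push Not at hcase2
      have hb1 : ∀ k ∈ Icc 1 K, ‖(1 / (H : ℂ)) * ∑ h ∈ Icc 1 H, (b h : ℂ) * ee ((k : ℝ) * h * x) -
          bb * ((d ^ 2 : ℝ) : ℂ)‖ ^ 2 ≤ 4 := by
        intro k _
        have g1 : ‖(1 / (H : ℂ)) * ∑ h ∈ Icc 1 H, (b h : ℂ) * ee ((k : ℝ) * h * x) -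
            bb * ((d ^ 2 : ℝ) : ℂ)‖ ≤ 2 := by
          refine (norm_sub_le _ _).trans ?_
          rw [norm_mul bb, hP1]
          have h1 : ‖bb‖ * d ^ 2 ≤ 1 * 1 := by
            gcongr
            nlinarith
          linarith [hB1 k]
        have g6 := norm_nonneg ((1 / (H : ℂ)) * ∑ h ∈ Icc 1 H, (b h : ℂ) * ee ((k : ℝ) * h * x) -
            bb * ((d ^ 2 : ℝ) : ℂ))
        nlinarith
      have h1 := avg_le hK1 _ _ hb1
      have h3 : 32 / s * (d' ^ 4 - 1 + s / 4) ≤ 32 / s * (d' ^ 4 - d ^ 4) :=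
        mul_le_mul_of_nonneg_left (by linarith) hc0.le
      have h4 : 32 / s * (d' ^ 4 - 1 + s / 4) = 32 / s * (d' ^ 4 - 1) + 8 := by
        field_simp
        ring
      have h5 : 0 ≤ s ^ 2 := sq_nonneg s
      linarith
  · -- case A
    have hSb : Sb K H b x ≤ τ ^ 2 := by
      by_contra hlt
      exact hcase (hdio (lt_of_not_ge hlt))
    push Not at hcase
    -- `|x|` is not small
    have hm1x : τ ≤ 4 * Real.pi * (J' * (m1 * |x|)) := by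
      have h1 := Dk_near hJ' ((m1 : ℝ) * x)
      rw [abs_mul, Nat.abs_cast] at h1
      have h2 : 1 - d' ≤ ‖Dk J' ((m1 : ℝ) * x) - 1‖ := by
        have := norm_sub_norm_le (1 : ℂ) (Dk J' ((m1 : ℝ) * x))
        rw [norm_one, norm_sub_rev] at this
        exact this
      have h3 : 1 - d' ^ 2 ≤ 2 * (1 - d') := by nlinarith
      linarith
    have hm1 : (0 : ℝ) < m1 := by
      by_contra hlt
      have h1 : (m1 : ℝ) = 0 := le_antisymm (not_lt.1 hlt) (Nat.cast_nonneg _)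
      rw [h1] at hm1x
      simp only [zero_mul, mul_zero] at hm1x
      linarith
    have hJG : (J : ℝ) = D * (G * J') := by
      have h1 : ((G * J' : ℕ) : ℝ) = ((K * H : ℕ) : ℝ) := by rw [hGJ]
      push_cast at h1
      rw [hJ]
      push_cast
      rw [h1]
      ring
    have hG' : 4 * (m1 : ℝ) ≤ G * τ ^ 2 := by
      rwa [div_le_iff₀ (by positivity)] at hG
    have hdτ : d ≤ Real.pi * τ / 2 := by
      have h1 := Dk_far (J := J) hx
      -- `d * 2 J |x| ≤ 1`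
      have h2 : d * (2 * (J * |x|)) ≤ 1 := h1
      have hxpos : 0 < |x| := by
        by_contra hlt
        have h3 : |x| = 0 := le_antisymm (not_lt.1 hlt) (abs_nonneg _)
        rw [h3, mul_zero, mul_zero, mul_zero] at hm1x
        linarith
      rw [hJG] at h2
      -- `8 m1 J' |x| ≤ 2 G τ² J' |x|`
      have hDge : (1 : ℝ) ≤ D := by exact_mod_cast hD1
      have hy : 0 < J' * |x| := by positivity
      have h4 : τ ≤ 4 * Real.pi * m1 * (J' * |x|) := by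
        calc τ ≤ 4 * Real.pi * (J' * (m1 * |x|)) := hm1x
          _ = 4 * Real.pi * m1 * (J' * |x|) := by ring
      have h5 : 4 * Real.pi * m1 * (J' * |x|) ≤ Real.pi * (G * τ ^ 2) * (J' * |x|) := by
        have := Real.pi_pos
        have h6 : 4 * Real.pi * m1 ≤ Real.pi * (G * τ ^ 2) := by nlinarith
        exact mul_le_mul_of_nonneg_right h6 hy.le
      have h6 : τ ≤ (Real.pi * τ ^ 2) * (G * (J' * |x|)) := by linarith
      have h7 : 1 ≤ Real.pi * τ * (G * (J' * |x|)) := by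
        have : τ * 1 ≤ τ * (Real.pi * τ * (G * (J' * |x|))) := by linarith
        exact le_of_mul_le_mul_left this hτ0
      have h8 : d * (2 * (G * (J' * |x|))) ≤ 1 := by
        have h9 : 0 ≤ d * (2 * (G * (J' * |x|))) := by positivity
        calc d * (2 * (G * (J' * |x|))) ≤ D * (d * (2 * (G * (J' * |x|)))) := by nlinarith
          _ = d * (2 * (D * (G * J') * |x|)) := by ring
          _ ≤ 1 := h2
      have hpi := Real.pi_lt_d2
      have hpi0 := Real.pi_pos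
      set g : ℝ := G * (J' * |x|) with hg
      have hg0 : 0 < g := by
        by_contra hlt
        push Not at hlt
        have : Real.pi * τ * g ≤ 0 := mul_nonpos_of_nonneg_of_nonpos (by positivity) hlt
        linarith
      -- `d ≤ 1/(2g) ≤ π τ / 2`
      have h10 : d ≤ Real.pi * τ / 2 := by
        by_contra hlt
        push Not at hlt
        have : Real.pi * τ / 2 * (2 * g) < d * (2 * g) := mul_lt_mul_of_pos_right hlt (by positivity)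
        nlinarith
      exact h10
    have hpi := Real.pi_lt_d2
    have hpi0 := Real.pi_pos
    have hd2τ : d ≤ 2 * τ := by nlinarith
    have hd4 : d ^ 4 ≤ (2 * τ) ^ 4 := pow_le_pow_left₀ hd0 hd2τ 4
    -- the left hand side
    have g3 : ‖bb * ((d ^ 2 : ℝ) : ℂ)‖ ≤ d ^ 2 := by
      rw [norm_mul, hP1]
      calc ‖bb‖ * d ^ 2 ≤ 1 * d ^ 2 := by gcongr
        _ = d ^ 2 := one_mul _
    have hL : (1 / (K : ℝ)) * ∑ k ∈ Icc 1 K,
        ‖(1 / (H : ℂ)) * ∑ h ∈ Icc 1 H, (b h : ℂ) * ee ((k : ℝ) * h * x) -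
          bb * ((d ^ 2 : ℝ) : ℂ)‖ ^ 2 ≤ 2 * Sb K H b x + 2 * (d ^ 2) ^ 2 :=
      avg_sq hK1 (fun k => (1 / (H : ℂ)) * ∑ h ∈ Icc 1 H, (b h : ℂ) * ee ((k : ℝ) * h * x)) _ _ g3
    have hd22 : (d ^ 2) ^ 2 = d ^ 4 := by ring
    rw [hd22] at hL
    have h1 : 32 / s * (0 - d ^ 4) ≤ 32 / s * (d' ^ 4 - d ^ 4) :=
      mul_le_mul_of_nonneg_left (by linarith [pow_nonneg hd0' 4]) hc0.le
    have h2 : 32 / s * (0 - (2 * τ) ^ 4) ≤ 32 / s * (0 - d ^ 4) :=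
      mul_le_mul_of_nonneg_left (by linarith) hc0.le
    have h3 : 32 / s * (0 - (2 * τ) ^ 4) = -(16 * (32 / 1000) * s ^ 2 * τ ^ 3) := by
      linear_combination -(16 * τ ^ 3) * hc
    have hτs : τ ≤ s / 1000 := by rw [hτ]; linarith
    have hτ1 : τ ≤ 1 / 1000 := by linarith
    have hτ2 : τ ^ 2 ≤ s ^ 2 / 1000 := by nlinarith
    have hτ3 : τ ^ 3 ≤ 1 / 1000 := by
      calc τ ^ 3 ≤ (1 / 1000) ^ 3 := pow_le_pow_left₀ hτ0.le hτ1 3
        _ ≤ 1 / 1000 := by norm_num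
    have hτ4 : (2 * τ) ^ 4 ≤ τ ^ 2 := by nlinarith
    have h5 : s ^ 2 * τ ^ 3 ≤ s ^ 2 * (1 / 1000) :=
      mul_le_mul_of_nonneg_left hτ3 (sq_nonneg s)
    have h6 : 0 ≤ s ^ 2 := sq_nonneg s
    have h7 : s ^ 2 - 16 * (32 / 1000) * (s ^ 2 * (1 / 1000)) ≤
        s ^ 2 + 32 / s * (d' ^ 4 - d ^ 4) := by linarith
    have h8 : 2 * Sb K H b x + 2 * d ^ 4 ≤ 4 * (s ^ 2 / 1000) := by linarith
    refine hL.trans (h8.trans (le_trans ?_ h7))
    linarith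

theorem main (h : S_DIO) : S_PI := by
  intro κ0 hκ0
  set κ : ℝ := min κ0 1 with hκ
  have hκpos : 0 < κ := lt_min hκ0 one_pos
  have hκ1 : κ ≤ 1 := min_le_right _ _
  have hκκ : κ ≤ κ0 := min_le_left _ _
  set s : ℝ := Real.sqrt κ with hs
  have hs0 : 0 < s := Real.sqrt_pos.2 hκpos
  have hss : s ^ 2 = κ := Real.sq_sqrt hκpos.le
  have hs1 : s ≤ 1 := by nlinarith
  have hτ0 : 0 < s ^ 3 / 1000 := by positivity
  have hτ1 : s ^ 3 / 1000 ≤ 1 / 2 := by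
    have : s ^ 3 ≤ 1 := pow_le_one₀ hs0.le hs1
    linarith
  obtain ⟨m1, G', K0, H0, hm1, hG', hdio⟩ := h _ hτ0 hτ1
  obtain ⟨D, hD⟩ := exists_nat_ge (100 / s)
  obtain ⟨G2, hG2⟩ := exists_nat_ge (4 * (m1 : ℝ) / (s ^ 3 / 1000) ^ 2)
  have hDpos : (0 : ℝ) < D := lt_of_lt_of_le (by positivity) hD
  refine ⟨32 / s, by positivity, m1, D, G' + G2, K0, H0, hm1, by exact_mod_cast hDpos, by omega, ?_⟩
  intro K H J' hK hH hK1 hH1 hJ' hGJ b hb α
  -- reduction to `|x| ≤ 1/2`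
  set x : ℝ := α - round α with hx
  have hx2 : |x| ≤ 1 / 2 := abs_sub_round α
  have hα : α = x + ((round α : ℤ) : ℝ) := by rw [hx]; ring
  have e1 : ∀ J : ℕ, Dk J α = Dk J x := by
    intro J
    conv_lhs => rw [hα]
    rw [Dk_add_int]
  have e2 : ∀ J : ℕ, Dk J ((m1 : ℝ) * α) = Dk J ((m1 : ℝ) * x) := by
    intro J
    have : (m1 : ℝ) * α = (m1 : ℝ) * x + ((m1 * round α : ℤ) : ℝ) := by
      rw [hx]
      push_cast
      ring
    rw [this, Dk_add_int]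
  have e3 : ∀ k h : ℕ, ee ((k : ℝ) * h * α) = ee ((k : ℝ) * h * x) := by
    intro k h
    have : (k : ℝ) * h * α = (k : ℝ) * h * x + ((k * h * round α : ℤ) : ℝ) := by
      rw [hx]
      push_cast
      ring
    rw [this, ee_add_int]
  have hc := core hs0 hs1 (D := D) (m1 := m1) (G := G' + G2) hD hK1 hH1 hJ'
    (by push_cast; linarith [(Nat.cast_nonneg G' : (0 : ℝ) ≤ G')]) hGJ hb hx2
    (hdio K H J' hK hH hK1 hH1 hJ' (by rw [← hGJ]; exact Nat.mul_le_mul_right _ (by omega)) b hb x)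
  simp only [e1, e2, e3]
  refine hc.trans ?_
  rw [hss]
  linarith

end Pool.Agent.NH16.SM.PI
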