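import Pool.Agent.NH16.SM.Stm2

set_option autoImplicit false
set_option linter.unusedSectionVars false
set_option linter.unusedVariables false

/-!
# Consequences of the pseudorandomness
-/

namespace Pool.Agent.NH16.SM.PS

open Finset Filter
open scoped BigOperators
open Pool.Agent.NH16.DL
open Pool.Agent.NH16.SM

lemma dsc_ne {m : ℕ} (r : Fin m → ℕ) : dsc r ≠ 0 :=
  prod_ne_zero_iff.2 fun _ _ => prod_ne_zero_iff.2 fun _ _ => ed_ne _ _

lemma sg_mono_w {w w' : ℕ} {c : ℝ} (hc : 0 ≤ c) (h : w ≤ w') (n : ℕ) : sg w' c n ≤ sg w c n := by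
  unfold sg
  refine prod_le_prod_of_subset_of_one_le ?_ (fun p _ => by positivity) ?_
  · intro p hp
    rw [mem_filter] at hp ⊢
    exact ⟨hp.1, by omega⟩
  · intro p _ _
    have : 0 ≤ c / (p : ℝ) := by positivity
    linarith

lemma sg_dvd {w : ℕ} {c : ℝ} (hc : 0 ≤ c) {a b : ℕ} (h : a ∣ b) (hb : b ≠ 0) : sg w c a ≤ sg w c b := by
  unfold sg
  refine prod_le_prod_of_subset_of_one_le ?_ (fun p _ => by positivity) ?_
  · intro p hp
    rw [mem_filter] at hp ⊢
    exact ⟨Nat.primeFactors_mono h hb hp.1, hp.2⟩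
  · intro p _ _
    have : 0 ≤ c / (p : ℝ) := by positivity
    linarith

lemma sg_dsc_le {R m w : ℕ} {c : ℝ} (hc : 0 ≤ c) (r : Fin m → Fin R) :
    sg w c (dsc (fun i => vl (r i))) ≤ sg w c (disc (fun i => vl (r i))) :=
  sg_dvd hc (Dvd.intro_left _ rfl) (disc_ne (vl_ne r))

lemma exp_sg_dsc {R m w : ℕ} (hR : 1 ≤ R) (hw : 1 ≤ w) :
    𝔼 r : Fin m → Fin R, (sg w (3 ^ m) (dsc (fun i => vl (r i))) - 1) ≤ XA m w := by
  have h := avg_disc (R := R) (m := m) (M := m + m * m) (w := w) hR le_rfl hw (c := 3 ^ m) (by positivity)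
  refine le_trans (expect_le_expect fun r _ => ?_) h
  exact sub_le_sub_right (sg_dsc_le (by positivity) r) 1

lemma exp_sg_dsc' {R m w : ℕ} (hR : 1 ≤ R) (hw : 1 ≤ w) :
    𝔼 r : Fin m → Fin R, sg w (3 ^ m) (dsc (fun i => vl (r i))) ≤ c1 m := by
  refine le_trans (expect_le_expect fun r _ => ?_) (exp_sg (R := R) (m := m) hR)
  exact (sg_mono_w (by positivity) hw _).trans (sg_dsc_le (by positivity) r)

section
variable {R : ℕ} {κ : Type} [Fintype κ] [Nonempty κ] {ν : Fin R → κ → ℝ}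

/-- the constant function -/
def oo : Fin R → κ → ℝ := fun _ _ => 1

/-- the mean value of a product -/
noncomputable def EX (ν : Fin R → κ → ℝ) {m : ℕ} (a : Fin m → Bool) (r : Fin m → Fin R) : ℝ :=
  𝔼 q, pp ν (fun _ _ => 1) a r q

lemma EX_nonneg (h0 : ∀ s q, 0 ≤ ν s q) {m : ℕ} (a : Fin m → Bool) (r : Fin m → Fin R) : 0 ≤ EX ν a r :=
  expect_nonneg fun q _ => pp_nonneg h0 (fun _ _ => zero_le_one) a r q

lemma EX_false {m : ℕ} (r : Fin m → Fin R) : EX ν (fun _ => false) r = 1 := by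
  unfold EX
  have : ∀ q, pp ν (fun _ _ => 1) (fun _ => false) r q = 1 := by
    intro q
    unfold pp
    simp [pt_false]
  simp only [this]
  exact Fintype.expect_const _

lemma pt_le {Λ : ℝ} (hΛ1 : 1 ≤ Λ) (hΛ : ∀ s q, ν s q ≤ Λ) (b : Bool) (s : Fin R) (q : κ) :
    pt ν (fun _ _ => 1) b s q ≤ Λ := by
  cases b
  · exact hΛ1
  · exact hΛ s q

/-- coincidences -/
lemma coincA (hR : 1 ≤ R) {Λ : ℝ} (hΛ1 : 1 ≤ Λ) (h0 : ∀ s q, 0 ≤ ν s q) (hΛ : ∀ s q, ν s q ≤ Λ) {m : ℕ}
    (a : Fin (m + 1) → Bool) (i : Fin (m + 1)) (k : Fin m) {B : ℝ}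
    (hB : 𝔼 u : Fin m → Fin R, EX ν (fun k => a (i.succAbove k)) u ≤ B) :
    𝔼 r : Fin (m + 1) → Fin R, (if r i = r (i.succAbove k) then EX ν a r else 0) ≤ Λ / R * B := by
  have hne : Nonempty (Fin R) := ⟨⟨0, hR⟩⟩
  have hRp : (0 : ℝ) < R := by exact_mod_cast hR
  have hV : 0 < Λ := by linarith
  set a' : Fin m → Bool := fun k => a (i.succAbove k) with ha'
  rw [exp_insertNth i, exp_comm]
  have h1 : ∀ u : Fin m → Fin R, 𝔼 s, (if (i.insertNth s u : Fin (m + 1) → Fin R) i =
      (i.insertNth s u : Fin (m + 1) → Fin R) (i.succAbove k) then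
      EX ν a (i.insertNth s u : Fin (m + 1) → Fin R) else 0) ≤ Λ / R * EX ν a' u := by
    intro u
    simp only [Fin.insertNth_apply_same, Fin.insertNth_apply_succAbove]
    have h2 : ∀ s, (if s = u k then EX ν a (i.insertNth s u : Fin (m + 1) → Fin R) else 0) ≤
        if s = u k then Λ * EX ν a' u else 0 := by
      intro s
      split_ifs with h
      · unfold EX
        rw [mul_expect]
        refine expect_le_expect fun q _ => ?_
        rw [pp_insert]
        exact mul_le_mul_of_nonneg_right (pt_le hΛ1 hΛ _ _ _) (pp_nonneg h0 (fun _ _ => zero_le_one) _ _ _)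
      · exact le_rfl
    refine (expect_le_expect fun s _ => h2 s).trans (le_of_eq ?_)
    rw [Fintype.expect_eq_sum_div_card, sum_ite_eq', if_pos (mem_univ _), Fintype.card_fin]
    ring
  refine (expect_le_expect fun u _ => h1 u).trans ?_
  rw [← mul_expect]
  exact mul_le_mul_of_nonneg_left hB (by positivity)

/-- the sum over all coincidences -/
lemma coinc_sum (hR : 1 ≤ R) {Λ lam : ℝ} (hΛ1 : 1 ≤ Λ) (h0 : ∀ s q, 0 ≤ ν s q) (hΛ : ∀ s q, ν s q ≤ Λ)
    (hlam : Λ / R ≤ lam) {m : ℕ} (a : Fin (m + 1) → Bool) {B : ℝ} (hB0 : 0 ≤ B)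
    (hB : ∀ a' : Fin m → Bool, (a = (fun _ => false) → a' = fun _ => false) →
      𝔼 u : Fin m → Fin R, EX ν a' u ≤ B) :
    𝔼 r : Fin (m + 1) → Fin R, ∑ i, ∑ k : Fin m, (if r i = r (i.succAbove k) then EX ν a r else 0) ≤
      (m + 1) * m * (lam * B) := by
  rw [expect_sum_comm]
  calc _ ≤ ∑ _i : Fin (m + 1), ∑ _k : Fin m, lam * B := by
        refine sum_le_sum fun i _ => ?_
        rw [expect_sum_comm]
        refine sum_le_sum fun k _ => (coincA hR hΛ1 h0 hΛ a i k
          (hB (fun k => a (i.succAbove k)) (fun h => by rw [h]))).trans ?_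
        exact mul_le_mul_of_nonneg_right hlam hB0
    _ = _ := by
        simp only [sum_const, card_univ, Fintype.card_fin, nsmul_eq_mul]
        push_cast
        ring

theorem MB_all (hR : 1 ≤ R) {Λ lam θ η : ℝ} {w M : ℕ} (hw : 1 ≤ w) (hΛ1 : 1 ≤ Λ) (h0 : ∀ s q, 0 ≤ ν s q)
    (hΛ : ∀ s q, ν s q ≤ Λ) (hlam : Λ / R ≤ lam) (hlam1 : lam ≤ 1) (hθ0 : 0 ≤ θ) (hθ : θ ≤ 1) (hη0 : 0 ≤ η)
    (hη : η ≤ 1) (hFL : ∀ m ≤ M, FLa ν w θ η m) :
    ∀ m ≤ M, ∀ a : Fin m → Bool, 𝔼 r : Fin m → Fin R, EX ν a r ≤ BB m := by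
  have hne : Nonempty (Fin R) := ⟨⟨0, hR⟩⟩
  intro m
  induction m with
  | zero =>
    intro _ a
    have : ∀ (r : Fin 0 → Fin R), EX ν a r = 1 := by
      intro r
      have e : a = fun _ => false := Subsingleton.elim _ _
      rw [e]
      exact EX_false r
    simp only [this]
    rw [Fintype.expect_const, BB]
  | succ m ih =>
    intro hm a
    have ihm := ih (by omega)
    have hB0 : 0 ≤ BB m := zero_le_one.trans (one_le_BB m)
    have h1 : ∀ r : Fin (m + 1) → Fin R, EX ν a r ≤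
        (2 * sg w (3 ^ (m + 1)) (dsc (fun i => vl (r i))) + 1) +
        ∑ i, ∑ k : Fin m, (if r i = r (i.succAbove k) then EX ν a r else 0) := by
      intro r
      have hsg := sg_one_le (w := w) (c := 3 ^ (m + 1)) (by positivity) (dsc (fun i => vl (r i)))
      refine le_coinc r (EX_nonneg h0 a r) (by linarith) fun hinj => ?_
      have h2 := (hFL (m + 1) hm a r hinj).2
      change EX ν a r ≤ _ at h2
      nlinarith
    refine (expect_le_expect fun r _ => h1 r).trans ?_
    rw [expect_add_distrib, expect_add_distrib, ← mul_expect, Fintype.expect_const, BB]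
    refine add_le_add (add_le_add (mul_le_mul_of_nonneg_left (exp_sg_dsc' hR hw) zero_le_two) le_rfl) ?_
    refine (coinc_sum hR hΛ1 h0 hΛ hlam a hB0 (fun a' _ => ihm a')).trans ?_
    have h3 : lam * BB m ≤ BB m := by nlinarith
    have h4 : (0 : ℝ) ≤ ((m : ℝ) + 1) * m := by positivity
    calc ((m : ℝ) + 1) * m * (lam * BB m) ≤ ((m : ℝ) + 1) * m * BB m := mul_le_mul_of_nonneg_left h3 h4
      _ = _ := by ring

end

theorem main1 : S_PS1 := by
  intro R κ _ _ ν Λ lam θ η w M hR hw hΛ1 h0 hΛ hlam hlam1 hθ0 hθ hη0 hη hFL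
  have hne : Nonempty (Fin R) := ⟨⟨0, hR⟩⟩
  have hRp : (0 : ℝ) < R := by exact_mod_cast hR
  have hMB := MB_all hR hw hΛ1 h0 hΛ hlam hlam1 hθ0 hθ hη0 hη hFL
  have hlam0 : 0 ≤ lam := le_trans (by positivity) hlam
  refine ⟨fun m hm a => hMB m hm a, fun m hm hm1 a => ?_, fun m hm hm1 hθη => ?_⟩
  · -- pseudorandomness
    obtain ⟨m, rfl⟩ : ∃ n, m = n + 1 := ⟨m - 1, by omega⟩
    have hB0 : 0 ≤ BB m := zero_le_one.trans (one_le_BB m)
    have h1 : ∀ r : Fin (m + 1) → Fin R, |𝔼 q, pp ν (fun _ _ => 1) a r q -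
        𝔼 q, pp ν (fun _ _ => 1) (fun _ => false) r q| ≤
        ((sg w (3 ^ (m + 1)) (dsc (fun i => vl (r i))) - 1) +
          θ * sg w (3 ^ (m + 1)) (dsc (fun i => vl (r i))) + (η + ((m + 1 : ℕ) : ℝ) ^ 2 / w)) +
        (∑ i, ∑ k : Fin m, (if r i = r (i.succAbove k) then EX ν a r else 0) +
        ∑ i, ∑ k : Fin m, (if r i = r (i.succAbove k) then EX ν (fun _ => false) r else 0)) := by
      intro r
      change |EX ν a r - EX ν (fun _ => false) r| ≤ _
      have hX0 := EX_nonneg h0 a r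
      have hF0 : 0 ≤ EX ν (fun _ => false) r := EX_nonneg h0 _ r
      have hsg := sg_one_le (w := w) (c := 3 ^ (m + 1)) (by positivity) (dsc (fun i => vl (r i)))
      have hmw0 : (0 : ℝ) ≤ ((m + 1 : ℕ) : ℝ) ^ 2 / w := by positivity
      have hθsg : θ ≤ θ * sg w (3 ^ (m + 1)) (dsc (fun i => vl (r i))) := by nlinarith
      by_cases hinj : Function.Injective r
      · obtain ⟨h2, h3⟩ := hFL (m + 1) hm a r hinj
        change _ ≤ EX ν a r at h2
        change EX ν a r ≤ _ at h3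
        have hs : 0 ≤ ∑ i, ∑ k : Fin m, (if r i = r (i.succAbove k) then EX ν a r else 0) +
            ∑ i, ∑ k : Fin m, (if r i = r (i.succAbove k) then EX ν (fun _ => false) r else 0) :=
          add_nonneg (sum_nonneg fun i _ => sum_nonneg fun k _ => by split_ifs; exacts [hX0, le_rfl])
            (sum_nonneg fun i _ => sum_nonneg fun k _ => by split_ifs; exacts [hF0, le_rfl])
        rw [EX_false r] at *
        have h4 : |EX ν a r - 1| ≤ (sg w (3 ^ (m + 1)) (dsc (fun i => vl (r i))) - 1) +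
          θ * sg w (3 ^ (m + 1)) (dsc (fun i => vl (r i))) + (η + ((m + 1 : ℕ) : ℝ) ^ 2 / w) := by
          rw [abs_le]
          constructor
          · nlinarith [mul_nonneg hθ0 hmw0]
          · nlinarith
        linarith
      · have k1 := le_coinc r hX0 le_rfl (fun h => absurd h hinj)
        have k2 := le_coinc r hF0 le_rfl (fun h => absurd h hinj)
        refine (abs_sub _ _).trans ?_
        rw [abs_of_nonneg hX0, abs_of_nonneg hF0]
        have : 0 ≤ (sg w (3 ^ (m + 1)) (dsc (fun i => vl (r i))) - 1) +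
          θ * sg w (3 ^ (m + 1)) (dsc (fun i => vl (r i))) + (η + ((m + 1 : ℕ) : ℝ) ^ 2 / w) := by
          linarith
        linarith
    refine (expect_le_expect fun r _ => h1 r).trans ?_
    have e1 := coinc_sum hR hΛ1 h0 hΛ hlam a hB0 (fun a' _ => hMB m (by omega) a')
    have e2 := coinc_sum hR hΛ1 h0 hΛ hlam (fun _ : Fin (m + 1) => false) zero_le_one
      (fun a' h => by
        rw [h rfl]
        simp only [EX_false]
        rw [Fintype.expect_const])
    have e3 := exp_sg_dsc (R := R) (m := m + 1) hR hw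
    have e4 := exp_sg_dsc' (R := R) (m := m + 1) hR hw
    simp only [expect_add_distrib, ← mul_expect, Fintype.expect_const]
    have e5 : θ * 𝔼 r : Fin (m + 1) → Fin R, sg w (3 ^ (m + 1)) (dsc (fun i => vl (r i))) ≤ θ * c1 (m + 1) :=
      mul_le_mul_of_nonneg_left e4 hθ0
    unfold tauA
    rw [Nat.add_sub_cancel]
    have e6 : 0 ≤ θ * c1 (m + 1) := mul_nonneg hθ0 (zero_le_one.trans (one_le_c1 _))
    have e7 : ((m : ℝ) + 1) * m * (lam * BB m) + ((m : ℝ) + 1) * m * (lam * 1) ≤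
        ((m + 1 : ℕ) : ℝ) ^ 2 * lam * (BB m + 1) := by
      have : 0 ≤ lam * (BB m + 1) := by positivity
      push_cast
      have hm0 : (0 : ℝ) ≤ m := Nat.cast_nonneg _
      nlinarith
    linarith
  · -- exceptional tuples
    obtain ⟨m, rfl⟩ : ∃ n, m = n + 1 := ⟨m - 1, by omega⟩
    have hB0 : 0 ≤ BB m := zero_le_one.trans (one_le_BB m)
    have h1 : ∀ r : Fin (m + 1) → Fin R, max 0 (𝔼 q, ∏ i, ν (r i) q - 2) ≤
        2 * (sg w (3 ^ (m + 1)) (dsc (fun i => vl (r i))) - 1) +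
        ∑ i, ∑ k : Fin m, (if r i = r (i.succAbove k) then EX ν (fun _ => true) r else 0) := by
      intro r
      have e : 𝔼 q, ∏ i, ν (r i) q = EX ν (fun _ => true) r := rfl
      rw [e]
      have hX0 := EX_nonneg h0 (fun _ => true) r
      have hsg := sg_one_le (w := w) (c := 3 ^ (m + 1)) (by positivity) (dsc (fun i => vl (r i)))
      by_cases hinj : Function.Injective r
      · have h3 := (hFL (m + 1) hm (fun _ => true) r hinj).2
        change EX ν (fun _ => true) r ≤ _ at h3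
        have hs : 0 ≤ ∑ i, ∑ k : Fin m, (if r i = r (i.succAbove k) then EX ν (fun _ => true) r else 0) :=
          sum_nonneg fun i _ => sum_nonneg fun k _ => by split_ifs; exacts [hX0, le_rfl]
        refine max_le (by linarith) ?_
        nlinarith
      · have k1 := le_coinc r hX0 le_rfl (fun h => absurd h hinj)
        refine max_le ?_ ?_
        · linarith
        · linarith
    refine (expect_le_expect fun r _ => h1 r).trans ?_
    have e1 := coinc_sum hR hΛ1 h0 hΛ hlam (fun _ : Fin (m + 1) => true) hB0 (fun a' _ => hMB m (by omega) a')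
    have e3 := exp_sg_dsc (R := R) (m := m + 1) hR hw
    rw [expect_add_distrib, ← mul_expect]
    unfold excA
    rw [Nat.add_sub_cancel]
    have e7 : ((m : ℝ) + 1) * m * (lam * BB m) ≤ ((m + 1 : ℕ) : ℝ) ^ 2 * lam * BB m := by
      have : 0 ≤ lam * BB m := by positivity
      push_cast
      have hm0 : (0 : ℝ) ≤ m := Nat.cast_nonneg _
      nlinarith
    linarith

theorem main2 : S_PS2 := by
  intro R κ _ _ f ν K Λ θ η w hR hw h0 hΛ hK hf0 hf hθ0 hθ hη0 hη hθη hFL1 hFL2
  have hne : Nonempty (Fin R) := ⟨⟨0, hR⟩⟩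
  have hsg1 : ∀ n : ℕ, 1 ≤ sg w 9 n := fun n => sg_one_le (by norm_num) n
  refine ⟨fun s t => ?_, fun s t hst => ?_, ?_, fun s => ?_⟩
  · unfold YY
    have := hsg1 (dsc ![vl s, vl t])
    have hK2 : 0 ≤ 2 * K ^ 2 := by positivity
    exact mul_nonneg hK2 (by linarith)
  · have hinj : Function.Injective ![s, t] := by
      intro i j h
      fin_cases i <;> fin_cases j <;> simp_all
    have h1 := (hFL2 (fun _ => true) ![s, t] hinj).2
    have e1 : ∀ q, pp ν (fun _ _ => 1) (fun _ => true) ![s, t] q = ν s q * ν t q := by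
      intro q
      unfold pp
      rw [Fin.prod_univ_two]
      rfl
    have e2 : (fun i : Fin 2 => vl (![s, t] i)) = ![vl s, vl t] := by
      funext i
      fin_cases i <;> rfl
    simp only [e1] at h1
    rw [e2] at h1
    have e3 : ((3 : ℝ) ^ 2) = 9 := by norm_num
    rw [e3] at h1
    have h2 : 𝔼 q, f s q * f t q ≤ K ^ 2 * 𝔼 q, ν s q * ν t q := by
      rw [mul_expect]
      refine expect_le_expect fun q _ => ?_
      calc f s q * f t q ≤ (K * ν s q) * (K * ν t q) :=
            mul_le_mul (hf s q) (hf t q) (hf0 t q) (mul_nonneg hK (h0 s q))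
        _ = _ := by ring
    refine h2.trans ?_
    unfold YY
    have h3 := hsg1 (dsc ![vl s, vl t])
    have h4 : 𝔼 q, ν s q * ν t q ≤ 2 * sg w 9 (dsc ![vl s, vl t]) := by nlinarith
    calc K ^ 2 * 𝔼 q, ν s q * ν t q ≤ K ^ 2 * (2 * sg w 9 (dsc ![vl s, vl t])) :=
          mul_le_mul_of_nonneg_left h4 (by positivity)
      _ = _ := by ring
  · have e1 : ∀ s t : Fin R, YY K w s t ^ 2 ≤ 4 * K ^ 4 * (sg w 100 (disc (fun i : Fin 2 => vl (![s, t] i))) - 1) := by
      intro s t
      unfold YY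
      have e2 : (fun i : Fin 2 => vl (![s, t] i)) = ![vl s, vl t] := by
        funext i
        fin_cases i <;> rfl
      have h1 := hsg1 (dsc ![vl s, vl t])
      have h2 := sg_pow (w := w) (c := 9) (by norm_num) 2 (dsc ![vl s, vl t])
      have e3 : ((1 : ℝ) + 9) ^ 2 = 100 := by norm_num
      rw [e3] at h2
      have h3 := sg_dsc_le (w := w) (c := 100) (by norm_num) ![s, t]
      rw [e2] at h3 ⊢
      have h4 : (sg w 9 (dsc ![vl s, vl t]) - 1) ^ 2 ≤ sg w 100 (disc ![vl s, vl t]) - 1 := by nlinarith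
      calc (2 * K ^ 2 * (sg w 9 (dsc ![vl s, vl t]) - 1)) ^ 2 =
          4 * K ^ 4 * (sg w 9 (dsc ![vl s, vl t]) - 1) ^ 2 := by ring
        _ ≤ _ := mul_le_mul_of_nonneg_left h4 (by positivity)
    have h1 := avg_disc (R := R) (m := 2) (M := 6) (w := w) hR (by norm_num) hw (c := 100) (by norm_num)
    have h2 : 𝔼 s : Fin R, 𝔼 t : Fin R, (sg w 100 (disc (fun i : Fin 2 => vl (![s, t] i))) - 1) ≤
        10 * (Real.exp (101 ^ 6 / w) - 1) := by
      have h3 := exp_two (ρ := Fin R) (n := 1) 0 1 (by decide)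
        (fun s t => sg w 100 (disc (fun i : Fin 2 => vl (![s, t] i))) - 1)
      rw [← h3]
      have e4 : ∀ r : Fin (1 + 1) → Fin R, (fun i : Fin 2 => vl (![r 0, r 1] i)) = fun i => vl (r i) := by
        intro r
        funext i
        fin_cases i <;> rfl
      simp only [e4]
      refine h1.trans (le_of_eq ?_)
      norm_num
    calc 𝔼 s : Fin R, 𝔼 t : Fin R, YY K w s t ^ 2 ≤ 𝔼 s : Fin R, 𝔼 t : Fin R,
        4 * K ^ 4 * (sg w 100 (disc (fun i : Fin 2 => vl (![s, t] i))) - 1) :=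
          expect_le_expect fun s _ => expect_le_expect fun t _ => e1 s t
      _ = 4 * K ^ 4 * 𝔼 s : Fin R, 𝔼 t : Fin R, (sg w 100 (disc (fun i : Fin 2 => vl (![s, t] i))) - 1) := by
          simp only [← mul_expect]
      _ ≤ _ := mul_le_mul_of_nonneg_left h2 (by positivity)
  · have hinj : Function.Injective (fun _ : Fin 1 => s) := fun i j _ => Subsingleton.elim _ _
    have h1 := (hFL1 (fun _ => true) (fun _ => s) hinj).2
    have e1 : ∀ q, pp ν (fun _ _ => 1) (fun _ => true) (fun _ : Fin 1 => s) q = ν s q := by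
      intro q
      unfold pp
      rw [Fin.prod_univ_one]
      rfl
    have e2 : dsc (fun _ : Fin 1 => vl s) = 1 := by
      unfold dsc
      rw [Fin.prod_univ_one, Fin.prod_univ_one]
      unfold ed
      rw [if_pos rfl]
    simp only [e1] at h1
    rw [e2, sg_one] at h1
    have hΛ0 : 0 ≤ Λ := by
      obtain ⟨q⟩ := ‹Nonempty κ›
      exact (h0 s q).trans (hΛ s q)
    have h2 : 𝔼 q, f s q ^ 2 ≤ K ^ 2 * Λ * 𝔼 q, ν s q := by
      rw [mul_expect]
      refine expect_le_expect fun q _ => ?_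
      have h3 := h0 s q
      calc f s q ^ 2 ≤ (K * ν s q) ^ 2 := pow_le_pow_left₀ (hf0 s q) (hf s q) 2
        _ = K ^ 2 * (ν s q * ν s q) := by ring
        _ ≤ K ^ 2 * (Λ * ν s q) := by
            gcongr
            exact hΛ s q
        _ = _ := by ring
    refine h2.trans ?_
    calc K ^ 2 * Λ * 𝔼 q, ν s q ≤ K ^ 2 * Λ * 3 := by
          gcongr
          linarith
      _ = _ := by ring

end Pool.Agent.NH16.SM.PS
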