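import Pool.Agent.NH16.SM.Stm

/-!
# Project SM: weak regularity by energy increments
-/

set_option autoImplicit false
set_option linter.unusedSectionVars false

namespace Pool.Agent.NH16.SM.WR

open Finset
open scoped BigOperators

section
variable {ρ κ γ γ' : Type} [Fintype ρ] [Fintype κ] [DecidableEq γ] [DecidableEq γ']

/-- averages against a function which is constant on the cells -/
theorem sum_av_mul (π : ρ → γ) (f : ρ → κ → ℝ) (q : κ) (h : ρ → ℝ)
    (hh : ∀ s t, π s = π t → h s = h t) :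
    ∑ s, av π f s q * h s = ∑ s, f s q * h s := by
  have hc : ∀ s, (0 : ℝ) < cell π s := by
    intro s
    have : 0 < cell π s := by
      unfold cell
      exact card_pos.mpr ⟨s, by simp⟩
    exact_mod_cast this
  have h1 : ∀ s, av π f s q * h s = ∑ t, if π t = π s then f t q * (h t / cell π t) else 0 := by
    intro s
    unfold av
    rw [← sum_filter, div_mul_eq_mul_div, sum_mul, sum_div]
    refine sum_congr rfl fun t ht => ?_
    have ht' : π t = π s := (mem_filter.mp ht).2
    have e1 : cell π t = cell π s := by unfold cell; rw [ht']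
    rw [hh t s ht', e1]
    ring
  rw [sum_congr rfl fun s _ => h1 s, sum_comm]
  refine sum_congr rfl fun t _ => ?_
  have h2 : ∑ s, (if π t = π s then f t q * (h t / cell π t) else 0) =
      (cell π t : ℝ) * (f t q * (h t / cell π t)) := by
    rw [← sum_filter, sum_const, nsmul_eq_mul]
    congr 2
    unfold cell
    congr 1
    ext s
    simp [eq_comm]
  rw [h2]
  have := (hc t).ne'
  field_simp

theorem av_const (π : ρ → γ) (f : ρ → κ → ℝ) (q : κ) (s t : ρ) (h : π s = π t) :
    av π f s q = av π f t q := by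
  unfold av cell
  rw [h]

/-- the energy increment of a refinement -/
theorem energy_step [Nonempty ρ] [DecidableEq ρ] (f : ρ → κ → ℝ) (π : ρ → γ) (π' : ρ → γ')
    (A : Finset ρ)
    (hπ : ∀ s s', π' s = π' s' → π s = π s' ∧ (s ∈ A ↔ s' ∈ A)) (q : κ) :
    (𝔼 s, (if s ∈ A then (1 : ℝ) else 0) * (f s q - av π f s q)) ^ 2 + 𝔼 s, av π f s q ^ 2 ≤
      𝔼 s, av π' f s q ^ 2 := by
  set a : ρ → ℝ := fun s => av π f s q with ha
  set a' : ρ → ℝ := fun s => av π' f s q with ha'
  set w : ρ → ℝ := fun s => if s ∈ A then (1 : ℝ) else 0 with hw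
  have e1 : ∑ s, a' s * a s = ∑ s, f s q * a s :=
    sum_av_mul π' f q a fun s t h => av_const π f q s t (hπ s t h).1
  have e2 : ∑ s, a s * a s = ∑ s, f s q * a s :=
    sum_av_mul π f q a fun s t h => av_const π f q s t h
  have e3 : ∑ s, a' s * w s = ∑ s, f s q * w s := by
    refine sum_av_mul π' f q w fun s t h => ?_
    simp only [hw, (hπ s t h).2]
  have hn : (0 : ℝ) < Fintype.card ρ := by exact_mod_cast Fintype.card_pos
  set n : ℝ := (Fintype.card ρ : ℝ) with hndef
  have e4 : ∑ s, w s * (f s q - a s) = ∑ s, w s * (a' s - a s) := by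
    simp only [mul_sub, sum_sub_distrib]
    congr 1
    simp only [mul_comm (w _)]
    exact e3.symm
  have e5 : ∑ s, (a' s - a s) ^ 2 = ∑ s, a' s ^ 2 - ∑ s, a s ^ 2 := by
    have : ∀ s, (a' s - a s) ^ 2 = a' s ^ 2 - 2 * (a' s * a s) + a s * a s := fun s => by ring
    rw [sum_congr rfl fun s _ => this s, sum_add_distrib, sum_sub_distrib, ← mul_sum, e1, ← e2]
    have : ∑ s, a s ^ 2 = ∑ s, a s * a s := sum_congr rfl fun s _ => by ring
    rw [this]
    ring
  have e6 : (∑ s, w s * (a' s - a s)) ^ 2 ≤ n * ∑ s, (a' s - a s) ^ 2 := by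
    refine (sum_mul_sq_le_sq_mul_sq univ w (fun s => a' s - a s)).trans ?_
    refine mul_le_mul_of_nonneg_right ?_ (sum_nonneg fun s _ => sq_nonneg _)
    calc ∑ s, w s ^ 2 ≤ ∑ _s : ρ, (1 : ℝ) := by
          refine sum_le_sum fun s _ => ?_
          simp only [hw]
          split_ifs <;> norm_num
      _ = n := by rw [sum_const, card_univ, nsmul_eq_mul, mul_one]
  rw [Fintype.expect_eq_sum_div_card, Fintype.expect_eq_sum_div_card,
    Fintype.expect_eq_sum_div_card, e4, div_pow, ← hndef]
  have e7 : (∑ s, w s * (a' s - a s)) ^ 2 / n ^ 2 ≤ (∑ s, a' s ^ 2 - ∑ s, a s ^ 2) / n := by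
    rw [← e5, div_le_div_iff₀ (by positivity) hn]
    nlinarith [e6]
  calc (∑ s, w s * (a' s - a s)) ^ 2 / n ^ 2 + (∑ s, a s ^ 2) / n
      ≤ (∑ s, a' s ^ 2 - ∑ s, a s ^ 2) / n + (∑ s, a s ^ 2) / n := by linarith
    _ = (∑ s, a' s ^ 2) / n := by ring

theorem energy_incr [Nonempty ρ] [DecidableEq ρ] (f : ρ → κ → ℝ) (π : ρ → γ) (π' : ρ → γ')
    (A : Finset ρ)
    (hπ : ∀ s s', π' s = π' s' → π s = π s' ∧ (s ∈ A ↔ s' ∈ A)) :
    (𝔼 q, (𝔼 s, (if s ∈ A then (1 : ℝ) else 0) * (f s q - av π f s q)) ^ 2) +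
      𝔼 s, 𝔼 q, av π f s q ^ 2 ≤ 𝔼 s, 𝔼 q, av π' f s q ^ 2 := by
  rw [expect_comm (f := fun s q => av π f s q ^ 2), expect_comm (f := fun s q => av π' f s q ^ 2),
    ← expect_add_distrib]
  exact expect_le_expect fun q _ => energy_step f π π' A hπ q

end

theorem main : S_WR := by
  intro ρ κ _ _ _ _ _ f η C T hT hη hC hen
  classical
  by_contra hcon
  push Not at hcon
  choose A hA using hcon
  -- the sequence of colourings
  let step : (ρ → Fin T → Bool) → ℕ → (ρ → Fin T → Bool) := fun π t s i =>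
    if (i : ℕ) = t then decide (s ∈ A π) else π s i
  let P : ℕ → (ρ → Fin T → Bool) := fun t => Nat.rec (fun _ _ => false) (fun t π => step π t) t
  have hP0 : P 0 = fun _ _ => false := rfl
  have hPs : ∀ t, P (t + 1) = step (P t) t := fun t => rfl
  have hfalse : ∀ t s (i : Fin T), t ≤ (i : ℕ) → P t s i = false := by
    intro t
    induction t with
    | zero => intro s i _; rfl
    | succ t ih =>
      intro s i hi
      rw [hPs]
      show (if (i : ℕ) = t then decide (s ∈ A (P t)) else P t s i) = false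
      rw [if_neg (by omega)]
      exact ih s i (by omega)
  have href : ∀ t, t < T → ∀ s s', P (t + 1) s = P (t + 1) s' →
      P t s = P t s' ∧ (s ∈ A (P t) ↔ s' ∈ A (P t)) := by
    intro t ht s s' h
    have hi : ∀ i : Fin T, (if (i : ℕ) = t then decide (s ∈ A (P t)) else P t s i) =
        (if (i : ℕ) = t then decide (s' ∈ A (P t)) else P t s' i) := fun i => congrFun h i
    refine ⟨?_, ?_⟩
    · funext i
      by_cases hit : (i : ℕ) = t
      · rw [hfalse t s i hit.ge, hfalse t s' i hit.ge]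
      · have := hi i
        rwa [if_neg hit, if_neg hit] at this
    · have := hi ⟨t, ht⟩
      rw [if_pos rfl, if_pos rfl] at this
      exact decide_eq_decide.mp this
  have hgrow : ∀ t, t ≤ T → (t : ℝ) * η ≤ 𝔼 s, 𝔼 q, av (P t) f s q ^ 2 ∧
      (1 ≤ t → (t : ℝ) * η < 𝔼 s, 𝔼 q, av (P t) f s q ^ 2) := by
    intro t
    induction t with
    | zero =>
      intro _
      refine ⟨?_, fun h => absurd h (by norm_num)⟩
      rw [Nat.cast_zero, zero_mul]
      exact expect_nonneg fun s _ => expect_nonneg fun q _ => sq_nonneg _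
    | succ t ih =>
      intro ht
      have h1 := (ih (by omega)).1
      have h2 := energy_incr f (P t) (P (t + 1)) (A (P t)) (href t (by omega))
      have h3 := hA (P t)
      have h4 : ((t + 1 : ℕ) : ℝ) * η < 𝔼 s, 𝔼 q, av (P (t + 1)) f s q ^ 2 := by
        push_cast
        linarith
      exact ⟨h4.le, fun _ => h4⟩
  have h5 := (hgrow T le_rfl).2 hT
  have h6 := hen (P T)
  linarith

end Pool.Agent.NH16.SM.WR
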