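import Pool.Agent.NH16.SM.C8
import Pool.Agent.NH16.SM.Dio
import Pool.Agent.NH16.SM.PI
import Pool.Agent.NH16.SM.Op
import Pool.Agent.NH16.SM.WR
import Pool.Agent.NH16.SM.EN
import Pool.Agent.NH16.SM.MO
import Pool.Agent.NH16.SM.DM
import Pool.Agent.NH16.SM.WIN
import Pool.Agent.NH16.SM.PS
import Pool.Agent.NH16.SM.FLA
import Pool.Agent.NH16.SM.FP
import Pool.Agent.NH16.SM.CP
import Pool.Agent.NH16.SM.SS

set_option autoImplicit false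

/-!
# Prime tuples and bounded multiples of the shifts: assembly
-/

namespace Pool.Agent.NH16.SM.Main

open Finset Filter
open Pool.Agent.NH16.DL
open Pool.Agent.H386R2.HL (singularSeries)

theorem main (R : ℕ) : ∃ Cs : ℝ, 0 ≤ Cs ∧ ∀ δ : ℝ, 0 < δ → ∃ (B : ℕ) (b : ℝ), ∀ ε : ℝ, 0 < ε →
      ∀ᶠ N : ℕ in atTop, ∀ H : ℕ, b * Real.log N ≤ H → (H : ℝ) ≤ (N : ℝ) ^ (1 - ε) →
      ∃ (m K T : ℕ) (X : Fin T → ℝ), 1 ≤ m ∧ m ≤ B ∧ 1 ≤ K ∧ K ≤ B ∧ 1 ≤ T ∧ (∀ j, 0 ≤ X j) ∧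
        |(∑ j, X j) / T - 1| ≤ δ ∧ ∀ n ≤ R, (∑ j, X j ^ (n + 1)) / T ≤ Cs ∧
        (((Fintype.piFinset (fun _ : Fin (n + 1) => Icc 1 H)).filter (fun h =>
          δ * ∑ k ∈ Icc 1 K, (N / Real.log N ^ (n + 1)) * singularSeries (fun i => m * k * h i) <
          |∑ k ∈ Icc 1 K, (pT (fun i => m * k * h i) N : ℝ) - (∑ j, X j ^ (n + 1)) / T *
            ∑ k ∈ Icc 1 K, (N / Real.log N ^ (n + 1)) * singularSeries (fun i => m * k * h i)|)).card : ℝ) ≤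
          δ * (H : ℝ) ^ (n + 1) := by
  have hDM : S_DM := DM.main EN.main WR.main MO.main
  have hWIN : S_WIN := WIN.main Op.main
  have hPI : S_PI := PI.main Dio.main
  have hFP3 : S_FP3 := FP.main3
  obtain ⟨C, hC, hLV⟩ := LV_ev FLA.main FP.main1 (2 * R + 6)
  have hD : DenseHyp C := fun δ hδ => dense hDM PS.main1 PS.main2 (M := 2 * R + 6) (by omega) hC hLV hδ
  have hCut : CutHyp := fun εc hεc => cutN hPI hWIN CP.main2 CP.main3 hFP3 hD hεc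
  exact final PS.main1 CP.main2 FP.main2 hFP3 CP.main1 SS.main hC hLV hCut

end Pool.Agent.NH16.SM.Main
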