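import Pool.Agent.NH16.DL.B7

set_option autoImplicit false
set_option linter.unusedSectionVars false
set_option linter.unusedVariables false

/-!
# The fundamental lemma for products of shifts by multiples of a primorial
-/

namespace Pool.Agent.NH16.SM

open Finset
open scoped BigOperators
open Pool.Agent.NH16.DL

/-- the integers `1 ≤ n ≤ N` without prime factors up to `w` -/
def kap (w N : ℕ) : Finset ℕ := (Icc 1 N).filter (fun n => ∀ p ∈ PP w, ¬ p ∣ n)

/-- normalised indicator function of the numbers without prime factors in `(w, y]` -/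
noncomputable def gy (w y n : ℕ) : ℝ :=
  if ∀ p ∈ (PP y).filter (fun p => w < p), ¬ p ∣ n then Vv w / Vv y else 0

lemma gy_nonneg (w y n : ℕ) : 0 ≤ gy w y n := by
  unfold gy
  split_ifs
  · exact (div_pos (Vv_pos w) (Vv_pos y)).le
  · exact le_rfl

lemma gy_le (w y n : ℕ) : gy w y n ≤ Vv w / Vv y := by
  unfold gy
  split_ifs
  · exact le_rfl
  · exact (div_pos (Vv_pos w) (Vv_pos y)).le

/-- the number of true bits -/
def tb {m : ℕ} (a : Fin m → Bool) : ℕ := (univ.filter (fun i => a i = true)).card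

lemma tb_le {m : ℕ} (a : Fin m → Bool) : tb a ≤ m :=
  (card_filter_le _ _).trans (by rw [card_univ, Fintype.card_fin])

/-- the classes to be avoided -/
def Rs {m : ℕ} (w : ℕ) (a : Fin m → Bool) (u : Fin m → ℕ) (p t : ℕ) : Prop :=
  if p ≤ w then p ∣ t else ∃ i, a i = true ∧ p ∣ t + Wn w * u i

lemma mod_dvd_add (p t c : ℕ) : p ∣ t % p + c ↔ p ∣ t + c := by
  rw [← Nat.modEq_zero_iff_dvd, ← Nat.modEq_zero_iff_dvd]
  have h : t % p + c ≡ t + c [MOD p] := (Nat.mod_modEq t p).add_right _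
  exact ⟨fun h1 => h.symm.trans h1, fun h1 => h.trans h1⟩

lemma Rs_mod {m : ℕ} (w : ℕ) (a : Fin m → Bool) (u : Fin m → ℕ) (p t : ℕ) :
    Rs w a u p (t % p) ↔ Rs w a u p t := by
  unfold Rs
  split_ifs with h
  · rw [Nat.dvd_mod_iff (dvd_refl p)]
  · exact exists_congr fun i => and_congr_right fun _ => mod_dvd_add _ _ _

open Classical in
/-- number of classes to be avoided -/
noncomputable def zs {m : ℕ} (w : ℕ) (a : Fin m → Bool) (u : Fin m → ℕ) (p : ℕ) : ℕ :=
  ((range p).filter (fun t => Rs w a u p t)).card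

lemma zs_small {m : ℕ} {w : ℕ} (a : Fin m → Bool) (u : Fin m → ℕ) {p : ℕ} (hp : p.Prime) (h : p ≤ w) :
    zs w a u p = 1 := by
  classical
  unfold zs
  rw [card_eq_one]
  refine ⟨0, ?_⟩
  ext t
  have e : Rs w a u p t ↔ p ∣ t := by unfold Rs; rw [if_pos h]
  simp only [mem_filter, mem_range, mem_singleton, e]
  constructor
  · rintro ⟨h1, h2⟩
    exact Nat.eq_zero_of_dvd_of_lt h2 h1
  · rintro rfl
    exact ⟨hp.pos, dvd_zero _⟩

lemma class_le (c : ℕ) {p : ℕ} (hp : p.Prime) : ((range p).filter (fun t => p ∣ t + c)).card ≤ 1 := by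
  rw [card_le_one]
  intro x hx y hy
  rw [mem_filter, mem_range] at hx hy
  have h : x + c ≡ y + c [MOD p] :=
    ((Nat.modEq_zero_iff_dvd).2 hx.2).trans ((Nat.modEq_zero_iff_dvd).2 hy.2).symm
  have h2 : x ≡ y [MOD p] := Nat.ModEq.add_right_cancel' c h
  exact h2.eq_of_lt_of_lt hx.1 hy.1

lemma zs_le {m : ℕ} {w : ℕ} (a : Fin m → Bool) (u : Fin m → ℕ) {p : ℕ} (hp : p.Prime) (h : w < p) :
    zs w a u p ≤ tb a := by
  classical
  unfold zs tb
  have h1 : (range p).filter (fun t => Rs w a u p t) ⊆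
      (univ.filter (fun i => a i = true)).biUnion (fun i => (range p).filter (fun t => p ∣ t + Wn w * u i)) := by
    intro t ht
    rw [mem_filter] at ht
    obtain ⟨h1, h2⟩ := ht
    unfold Rs at h2
    rw [if_neg (by omega)] at h2
    obtain ⟨i, h3, h4⟩ := h2
    rw [mem_biUnion]
    exact ⟨i, by rw [mem_filter]; exact ⟨mem_univ _, h3⟩, by rw [mem_filter]; exact ⟨h1, h4⟩⟩
  refine (card_le_card h1).trans (card_biUnion_le.trans ?_)
  calc _ ≤ ∑ _i ∈ univ.filter (fun i => a i = true), 1 := sum_le_sum fun i _ => class_le _ hp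
    _ = _ := by simp

lemma not_dvd_Wn {w p : ℕ} (hp : p.Prime) (h : w < p) : ¬ p ∣ Wn w := by
  rw [dvd_Wn hp]
  omega

lemma zs_eq {m : ℕ} {w : ℕ} (a : Fin m → Bool) (u : Fin m → ℕ) {p : ℕ} (hp : p.Prime) (h : w < p)
    (hd : ∀ i j, i ≠ j → ¬ p ∣ Nat.dist (u i) (u j)) : zs w a u p = tb a := by
  classical
  refine le_antisymm (zs_le a u hp h) ?_
  have hne : NeZero p := ⟨hp.ne_zero⟩
  have hroot : ∀ i, ∃ t, t < p ∧ p ∣ t + Wn w * u i := by
    intro i
    refine ⟨(-((Wn w * u i : ℕ) : ZMod p)).val, ZMod.val_lt _, ?_⟩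
    rw [← ZMod.natCast_eq_zero_iff]
    push_cast
    rw [ZMod.natCast_zmod_val]
    ring
  choose t ht1 ht2 using hroot
  unfold zs tb
  refine card_le_card_of_injOn t ?_ ?_
  · intro i hi
    rw [coe_filter, Set.mem_ofPred_eq] at hi
    rw [coe_filter, Set.mem_ofPred_eq, mem_range]
    refine ⟨ht1 i, ?_⟩
    unfold Rs
    rw [if_neg (by omega)]
    exact ⟨i, hi.2, ht2 i⟩
  · intro i _ j _ hij
    by_contra hne'
    have h1 := ht2 i
    have h2 := ht2 j
    rw [← hij] at h2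
    have h3 : p ∣ Wn w * Nat.dist (u i) (u j) := by
      rcases le_total (u i) (u j) with hle | hle
      · rw [Nat.dist_eq_sub_of_le hle, Nat.mul_sub]
        have := Nat.dvd_sub h2 h1
        have e : t i + Wn w * u j - (t i + Wn w * u i) = Wn w * u j - Wn w * u i := by omega
        rwa [e] at this
      · rw [Nat.dist_eq_sub_of_le_right hle, Nat.mul_sub]
        have := Nat.dvd_sub h1 h2
        have e : t i + Wn w * u i - (t i + Wn w * u j) = Wn w * u i - Wn w * u j := by omega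
        rwa [e] at this
    rcases hp.dvd_mul.1 h3 with h4 | h4
    · exact not_dvd_Wn hp h h4
    · exact hd i j hne' h4

/-- the local product -/
noncomputable def Lw {m : ℕ} (w y : ℕ) (a : Fin m → Bool) (u : Fin m → ℕ) : ℝ :=
  (Vv w / Vv y) ^ tb a * ∏ p ∈ (PP y).filter (fun p => w < p), (1 - (zs w a u p : ℝ) / p)

lemma fac_zs_nonneg {m : ℕ} (w : ℕ) (a : Fin m → Bool) (u : Fin m → ℕ) (p : ℕ) :
    0 ≤ 1 - (zs w a u p : ℝ) / p := by
  classical
  rw [sub_nonneg]
  refine div_le_one_of_le₀ ?_ (Nat.cast_nonneg _)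
  have : zs w a u p ≤ p := (card_filter_le _ _).trans (card_range p).le
  exact_mod_cast this

lemma Lw_nonneg {m : ℕ} (w y : ℕ) (a : Fin m → Bool) (u : Fin m → ℕ) : 0 ≤ Lw w y a u :=
  mul_nonneg (pow_nonneg (div_pos (Vv_pos w) (Vv_pos y)).le _) (prod_nonneg fun p _ => fac_zs_nonneg w a u p)

/-- the product over the true bits -/
noncomputable def ps {m : ℕ} (w y : ℕ) (a : Fin m → Bool) (u : Fin m → ℕ) (n : ℕ) : ℝ :=
  ∏ i, if a i = true then gy w y (n + Wn w * u i) else 1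

lemma ps_eq {m : ℕ} {w y : ℕ} (a : Fin m → Bool) (u : Fin m → ℕ) (n : ℕ) :
    ps w y a u n = (Vv w / Vv y) ^ tb a *
      (open Classical in if ∀ p ∈ (PP y).filter (fun p => w < p), ¬ Rs w a u p n then 1 else 0) := by
  classical
  have hps : ps w y a u n = ∏ i ∈ univ.filter (fun i => a i = true), gy w y (n + Wn w * u i) := by
    unfold ps
    rw [prod_filter]
  by_cases h : ∀ p ∈ (PP y).filter (fun p => w < p), ¬ Rs w a u p n
  · rw [if_pos h, mul_one, hps]
    unfold tb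
    rw [← prod_const]
    refine prod_congr rfl fun i hi => ?_
    unfold gy
    rw [if_pos]
    intro p hp hd
    refine h p hp ?_
    unfold Rs
    rw [if_neg (by rw [mem_filter] at hp; omega)]
    exact ⟨i, (mem_filter.1 hi).2, hd⟩
  · rw [if_neg h, mul_zero, hps]
    push Not at h
    obtain ⟨p, hp, hR⟩ := h
    unfold Rs at hR
    rw [if_neg (by rw [mem_filter] at hp; omega)] at hR
    obtain ⟨i, h1, h2⟩ := hR
    refine prod_eq_zero (mem_filter.2 ⟨mem_univ i, h1⟩) ?_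
    unfold gy
    rw [if_neg]
    intro hcon
    exact hcon p hp h2

/-- the mean of `φ` over `kap w N` -/
noncomputable def mean (w N : ℕ) (φ : ℕ → ℝ) : ℝ := (∑ n ∈ kap w N, φ n) / ((kap w N).card : ℝ)

lemma split_PP {w y : ℕ} (hwy : w ≤ y) (φ : ℕ → ℝ) :
    ∏ p ∈ PP y, φ p = (∏ p ∈ PP w, φ p) * ∏ p ∈ (PP y).filter (fun p => w < p), φ p := by
  rw [← prod_filter_mul_prod_filter_not (PP y) (fun p => w < p), mul_comm]
  congr 1
  refine prod_congr ?_ fun _ _ => rfl
  ext p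
  rw [mem_filter, mem_PP, mem_PP]
  constructor
  · rintro ⟨⟨h1, _⟩, h3⟩
    exact ⟨h1, not_lt.1 h3⟩
  · rintro ⟨h1, h2⟩
    exact ⟨⟨h1, h2.trans hwy⟩, not_lt.2 h2⟩

theorem fl_shift (m : ℕ) : ∃ C0 K0 : ℕ, 1 ≤ C0 ∧ 1 ≤ K0 ∧ ∀ b : ℕ, C0 ≤ b → 2 ≤ b → ∀ y : ℕ, 2 ≤ y →
    ∀ w : ℕ, w ≤ y → ∀ N : ℕ, 1 ≤ N → Er C0 K0 b y ≤ N * Vv w / 4 →
    (N * Vv w / 2 ≤ ((kap w N).card : ℝ)) ∧ (|((kap w N).card : ℝ) - N * Vv w| ≤ (1 / 2 : ℝ) ^ b * (N * Vv w) +
      Er C0 K0 b y) ∧
    ∀ (a : Fin m → Bool) (u : Fin m → ℕ), |mean w N (ps w y a u) - Lw w y a u| ≤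
      4 * (1 / 2 : ℝ) ^ b * Lw w y a u + 4 * ((Vv w / Vv y) ^ m * (Er C0 K0 b y / (N * Vv w))) := by
  classical
  obtain ⟨C0, K0, hC0, hK0, h⟩ := Pool.Agent.TH892.SW.fl_set (m + 1)
  refine ⟨C0, K0, hC0, hK0, fun b hb hb2 y hy w hwy N hN hEr => ?_⟩
  have hNp : (0 : ℝ) < N := by exact_mod_cast hN
  have hVw := Vv_pos w
  have hNV : 0 < N * Vv w := mul_pos hNp hVw
  have hθ : (1 / 2 : ℝ) ^ b ≤ 1 / 4 := by
    calc (1 / 2 : ℝ) ^ b ≤ (1 / 2 : ℝ) ^ 2 := pow_le_pow_of_le_one (by norm_num) (by norm_num) hb2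
      _ = 1 / 4 := by norm_num
  have hE0 := Er_nonneg C0 K0 b y
  have key : ∀ (a : Fin m → Bool) (u : Fin m → ℕ),
      |(((Icc 1 N).filter (fun n => ∀ p ∈ PP y, ¬ Rs w a u p n)).card : ℝ) -
        N * (Vv w * ∏ p ∈ (PP y).filter (fun p => w < p), (1 - (zs w a u p : ℝ) / p))| ≤
      (1 / 2 : ℝ) ^ b * (N * (Vv w * ∏ p ∈ (PP y).filter (fun p => w < p), (1 - (zs w a u p : ℝ) / p))) +
        Er C0 K0 b y := by
    intro a u
    have h1 := h b hb y hy N (PP y) (fun p t => Rs w a u p t) (fun p hp => by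
      rw [mem_PP] at hp
      refine ⟨hp.1, hp.2, ?_⟩
      have : zs w a u p ≤ m + 1 := by
        rcases le_or_gt p w with h2 | h2
        · rw [zs_small a u hp.1 h2]; omega
        · have := (zs_le a u hp.1 h2).trans (tb_le a)
          omega
      unfold zs at this
      convert this)
    have e1 : (Icc 1 N).filter (fun n => ∀ p ∈ PP y, ¬ Rs w a u p n) =
        (Icc 1 N).filter (fun n => ∀ p ∈ PP y, ¬ Rs w a u p (n % p)) := by
      refine filter_congr fun n _ => ?_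
      simp only [Rs_mod]
    have e2 : Vv w * ∏ p ∈ (PP y).filter (fun p => w < p), (1 - (zs w a u p : ℝ) / p) =
        ∏ p ∈ PP y, (1 - (((range p).filter (fun t => Rs w a u p t)).card : ℝ) / p) := by
      rw [split_PP hwy]
      congr 1
      · unfold Vv
        refine prod_congr rfl fun p hp => ?_
        have := zs_small a u (mem_PP.1 hp).1 (mem_PP.1 hp).2
        unfold zs at this
        have h3 : (((range p).filter (fun t => Rs w a u p t)).card : ℝ) = 1 := by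
          exact_mod_cast (by convert this)
        rw [h3]
    rw [e1, e2]
    unfold Er
    convert h1
  -- the case without bits
  have hk : (kap w N) = (Icc 1 N).filter (fun n => ∀ p ∈ PP y, ¬ Rs w (fun _ : Fin m => false) (fun _ => 0) p n) := by
    unfold kap
    refine filter_congr fun n _ => ?_
    constructor
    · intro h1 p hp hR
      unfold Rs at hR
      split_ifs at hR with h2
      · exact h1 p (mem_PP.2 ⟨(mem_PP.1 hp).1, h2⟩) hR
      · obtain ⟨i, h3, _⟩ := hR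
        exact absurd h3 (by simp)
    · intro h1 p hp hd
      have hp' := mem_PP.1 hp
      refine h1 p (mem_PP.2 ⟨hp'.1, hp'.2.trans hwy⟩) ?_
      unfold Rs
      rw [if_pos hp'.2]
      exact hd
  have hone : ∏ p ∈ (PP y).filter (fun p => w < p),
      (1 - (zs w (fun _ : Fin m => false) (fun _ => 0) p : ℝ) / p) = 1 := by
    refine prod_eq_one fun p hp => ?_
    rw [mem_filter, mem_PP] at hp
    have h1 := zs_le (fun _ : Fin m => false) (fun _ => 0) hp.1.1 hp.2
    have h2 : tb (fun _ : Fin m => false) = 0 := by unfold tb; simp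
    rw [h2] at h1
    rw [Nat.le_zero.1 h1]
    simp
  have k0 := key (fun _ => false) (fun _ => 0)
  rw [← hk, hone, mul_one] at k0
  have hcard : N * Vv w / 2 ≤ ((kap w N).card : ℝ) := by
    have := (abs_le.1 k0).1
    have h2 : (1 / 2 : ℝ) ^ b * (N * Vv w) ≤ 1 / 4 * (N * Vv w) := mul_le_mul_of_nonneg_right hθ hNV.le
    linarith
  have hcp : 0 < ((kap w N).card : ℝ) := lt_of_lt_of_le (by positivity) hcard
  refine ⟨hcard, k0, fun a u => ?_⟩
  set Pr : ℝ := ∏ p ∈ (PP y).filter (fun p => w < p), (1 - (zs w a u p : ℝ) / p) with hPr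
  set Λ : ℝ := (Vv w / Vv y) ^ tb a with hΛ
  have hr1 : 1 ≤ Vv w / Vv y := by
    rw [one_le_div (Vv_pos y)]
    exact Vv_anti hwy
  have hΛ0 : 0 ≤ Λ := by positivity
  have hΛm : Λ ≤ (Vv w / Vv y) ^ m := pow_le_pow_right₀ hr1 (tb_le a)
  have hP0 : 0 ≤ Pr := prod_nonneg fun p _ => fac_zs_nonneg w a u p
  have hP1 : Pr ≤ 1 := prod_le_one (fun p _ => fac_zs_nonneg w a u p) fun p _ => by
    have : (0 : ℝ) ≤ (zs w a u p : ℝ) / p := by positivity
    linarith
  have k1 := key a u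
  rw [← hPr] at k1
  set C : ℝ := (((Icc 1 N).filter (fun n => ∀ p ∈ PP y, ¬ Rs w a u p n)).card : ℝ) with hC
  set A : ℝ := ((kap w N).card : ℝ) with hA
  have hmean : mean w N (ps w y a u) = Λ * C / A := by
    unfold mean
    congr 1
    have e1 : ∑ n ∈ kap w N, ps w y a u n = ∑ n ∈ kap w N,
        Λ * (if ∀ p ∈ (PP y).filter (fun p => w < p), ¬ Rs w a u p n then 1 else 0) :=
      sum_congr rfl fun n _ => ps_eq a u n
    rw [e1, ← mul_sum, ← sum_filter, sum_const, nsmul_eq_mul, mul_one]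
    congr 2
    unfold kap
    rw [filter_filter]
    congr 1
    refine filter_congr fun n _ => ?_
    constructor
    · rintro ⟨h1, h2⟩ p hp
      rcases le_or_gt p w with h3 | h3
      · unfold Rs
        rw [if_pos h3]
        exact h1 p (mem_PP.2 ⟨(mem_PP.1 hp).1, h3⟩)
      · exact h2 p (mem_filter.2 ⟨hp, h3⟩)
    · intro h1
      refine ⟨fun p hp => ?_, fun p hp => h1 p (mem_filter.1 hp).1⟩
      have hp' := mem_PP.1 hp
      have h2 := h1 p (mem_PP.2 ⟨hp'.1, hp'.2.trans hwy⟩)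
      unfold Rs at h2
      rwa [if_pos hp'.2] at h2
  have hL : Lw w y a u = Λ * Pr := rfl
  rw [hmean, hL]
  have e : Λ * C / A - Λ * Pr = Λ * (C - Pr * A) / A := by field_simp
  rw [e, abs_div, abs_mul, abs_of_nonneg hΛ0, abs_of_pos hcp]
  have i1 : |C - Pr * A| ≤ 2 * ((1 / 2 : ℝ) ^ b * (Pr * (N * Vv w))) + 2 * Er C0 K0 b y := by
    have e2 : C - Pr * A = (C - N * (Vv w * Pr)) - Pr * (A - N * Vv w) := by ring
    rw [e2]
    refine (abs_sub _ _).trans ?_
    rw [abs_mul, abs_of_nonneg hP0]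
    have i2 := mul_le_mul_of_nonneg_left k0 hP0
    have i3 : Pr * ((1 / 2 : ℝ) ^ b * (N * Vv w) + Er C0 K0 b y) ≤
        (1 / 2 : ℝ) ^ b * (Pr * (N * Vv w)) + Er C0 K0 b y := by
      have : Pr * Er C0 K0 b y ≤ 1 * Er C0 K0 b y := mul_le_mul_of_nonneg_right hP1 hE0
      nlinarith
    have i4 : (1 / 2 : ℝ) ^ b * (N * (Vv w * Pr)) = (1 / 2 : ℝ) ^ b * (Pr * (N * Vv w)) := by ring
    rw [i4] at k1
    linarith
  calc Λ * |C - Pr * A| / A ≤ Λ * (2 * ((1 / 2 : ℝ) ^ b * (Pr * (N * Vv w))) + 2 * Er C0 K0 b y) / (N * Vv w / 2) := by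
        refine div_le_div₀ (by positivity) (mul_le_mul_of_nonneg_left i1 hΛ0) (by positivity) hcard
    _ = 4 * (1 / 2 : ℝ) ^ b * (Λ * Pr) + 4 * (Λ * (Er C0 K0 b y / (N * Vv w))) := by
        field_simp
        ring
    _ ≤ _ := by
        have h4 : Λ * (Er C0 K0 b y / (N * Vv w)) ≤ (Vv w / Vv y) ^ m * (Er C0 K0 b y / (N * Vv w)) :=
          mul_le_mul_of_nonneg_right hΛm (by positivity)
        linarith

end Pool.Agent.NH16.SM
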