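import Pool.Agent.NH16.SM.Stm2
import Pool.Agent.NH16.DL.C2

set_option autoImplicit false
set_option linter.unusedSectionVars false
set_option linter.unusedVariables false

/-!
# The primes and their majorants along positions: one level of the majorant
-/

namespace Pool.Agent.NH16.SM

open Finset Filter Topology
open scoped BigOperators
open Pool.Agent.NH16.DL

/-- the majorant at a position -/
noncomputable def nuP (w y N : ℕ) (u : ℕ) (q : kap w N) : ℝ := gy w y ((q : ℕ) + Wn w * u)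

/-- the primes at a position -/
noncomputable def fP (w N : ℕ) (u : ℕ) (q : kap w N) : ℝ := Fp w N ((q : ℕ) + Wn w * u)

/-- the condition for the positions -/
def PosOK {R : ℕ} (w : ℕ) (pos : Fin R → ℕ) : Prop := Function.Injective pos ∧
  ∀ s t : Fin R, ∀ p : ℕ, p.Prime → w < p → p ∣ Nat.dist (pos s) (pos t) → p ∣ Nat.dist (vl s) (vl t)

structure LV (M C b w N : ℕ) (η : ℝ) : Prop where
  fl : ∀ (R : ℕ) (pos : Fin R → ℕ), PosOK w pos → ∀ m ≤ M,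
    FLa (fun (s : Fin R) (q : kap w N) => nuP w (yx C b N) N (pos s) q) w (4 * (1 / 2 : ℝ) ^ b) η m
  fp : ∀ n : ℕ, Fp w N n ≤ 2 / ke C b * gy w (yx C b N) n
  l1 : 1 ≤ Vv w / Vv (yx C b N)
  l2 : Vv w / Vv (yx C b N) ≤ 4 * Real.log N

lemma Fp_nonneg (w N n : ℕ) : 0 ≤ Fp w N n := by
  unfold Fp
  split_ifs
  · exact mul_nonneg (Vv_pos w).le (Real.log_natCast_nonneg N)
  · exact le_rfl

lemma Fp_le (w N n : ℕ) : Fp w N n ≤ Real.log N := by
  unfold Fp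
  split_ifs
  · exact mul_le_of_le_one_left (Real.log_natCast_nonneg N) (Vv_le_one w)
  · exact Real.log_natCast_nonneg N

theorem LV_ev (h1 : S_FLA) (h2 : S_FP1) (M : ℕ) : ∃ C : ℕ, 1 ≤ C ∧ ∀ b : ℕ, C ≤ b → ∀ η : ℝ, 0 < η →
    ∀ w : ℕ, 1 ≤ w → ∀ᶠ N : ℕ in atTop, LV M C b w N η := by
  obtain ⟨C, hC1, hC⟩ := h1 M
  refine ⟨C, hC1, fun b hb η hη w hw => ?_⟩
  have e1 := hC b hb η hη w hw
  have e2 := h2 C b hC1 (hC1.trans hb) w
  have e3 := (yx_tendsto C b).eventually Vv_bounds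
  have e4 := (yx_tendsto C b).eventually_ge_atTop w
  have e5 := yx_log C b
  filter_upwards [e1, e2, e3, e4, e5, eventually_ge_atTop 1] with N g1 g2 g3 g4 g5 g6
  refine ⟨fun R pos hpos m hm => g1 R pos hpos.1 hpos.2 m hm, g2, ?_, ?_⟩
  · rw [one_le_div (Vv_pos _)]
    exact Vv_anti g4
  · rw [div_eq_mul_inv]
    have hlog : 0 ≤ Real.log N := Real.log_natCast_nonneg N
    have hke : ke C b ≤ 1 := by
      unfold ke
      rw [div_le_one (by positivity)]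
      have : (0 : ℝ) ≤ 4 * (C : ℝ) * b := by positivity
      linarith
    have h6 : ke C b * Real.log N ≤ Real.log N := mul_le_of_le_one_left hlog hke
    calc Vv w * (Vv (yx C b N))⁻¹ ≤ 1 * (Vv (yx C b N))⁻¹ :=
          mul_le_mul_of_nonneg_right (Vv_le_one w) (inv_nonneg.2 (Vv_pos _).le)
      _ ≤ 4 * Real.log N := by linarith [g3.2, g5.2]

lemma kap_nonempty {w N : ℕ} (hN : 1 ≤ N) : Nonempty (kap w N) := by
  refine ⟨⟨1, ?_⟩⟩
  unfold kap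
  rw [mem_filter, mem_Icc]
  refine ⟨⟨le_rfl, hN⟩, fun p hp hd => ?_⟩
  exact (mem_PP.1 hp).1.one_lt.not_ge (Nat.le_of_dvd one_pos hd)

/-- consequences -/
lemma LV.ps {M C b w N : ℕ} {η : ℝ} (h : LV M C b w N η) (hp : S_PS1) (hN : 1 ≤ N) (hw : 1 ≤ w)
    (hb : 4 * (1 / 2 : ℝ) ^ b ≤ 1) (hη0 : 0 ≤ η) (hη : η ≤ 1) {R : ℕ} {pos : Fin R → ℕ} (hpos : PosOK w pos)
    {lam : ℝ} (hR : 1 ≤ R) (hlam : 4 * Real.log N ≤ lam * R) (hl1 : lam ≤ 1) :
    (∀ m ≤ M, MB (fun (s : Fin R) (q : kap w N) => nuP w (yx C b N) N (pos s) q) (fun _ _ => 1) (BB m) m) ∧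
    (∀ m ≤ M, 1 ≤ m → PR (fun (s : Fin R) (q : kap w N) => nuP w (yx C b N) N (pos s) q) (fun _ _ => 1)
      (tauA m w (4 * (1 / 2 : ℝ) ^ b) η lam) m) ∧
    (∀ m ≤ M, 1 ≤ m → 4 * (1 / 2 : ℝ) ^ b + η ≤ 1 →
      𝔼 r : Fin m → Fin R, max 0 (𝔼 q, ∏ i, nuP w (yx C b N) N (pos (r i)) q - 2) ≤ excA m w lam) := by
  have := kap_nonempty (w := w) hN
  have hRp : (0 : ℝ) < R := by exact_mod_cast hR
  exact hp R (kap w N) (fun (s : Fin R) (q : kap w N) => nuP w (yx C b N) N (pos s) q)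
    (Vv w / Vv (yx C b N)) lam (4 * (1 / 2 : ℝ) ^ b) η w M hR hw h.l1 (fun s q => gy_nonneg _ _ _)
    (fun s q => gy_le _ _ _) (by rw [div_le_iff₀ hRp]; exact h.l2.trans hlam) hl1 (by positivity) hb hη0 hη
    (fun m hm => h.fl R pos hpos m hm)

lemma LV.ps2 {M C b w N : ℕ} {η : ℝ} (h : LV M C b w N η) (hp : S_PS2) (hN : 1 ≤ N) (hw : 1 ≤ w) (hM : 2 ≤ M)
    (hb : 4 * (1 / 2 : ℝ) ^ b ≤ 1) (hη0 : 0 ≤ η) (hη : η ≤ 1) (hbη : 4 * (1 / 2 : ℝ) ^ b + η ≤ 1)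
    {R : ℕ} {pos : Fin R → ℕ} (hpos : PosOK w pos)
    {lam : ℝ} (hR : 1 ≤ R) (hlam : 4 * Real.log N ≤ lam * R) :
    (∀ s t : Fin R, 0 ≤ YY (2 / ke C b) w s t) ∧
    (∀ s t, s ≠ t → 𝔼 q, fP w N (pos s) q * fP w N (pos t) q ≤ 2 * (2 / ke C b) ^ 2 + YY (2 / ke C b) w s t) ∧
    𝔼 s : Fin R, 𝔼 t : Fin R, YY (2 / ke C b) w s t ^ 2 ≤
      4 * (2 / ke C b) ^ 4 * (10 * (Real.exp (101 ^ 6 / w) - 1)) ∧
    (∀ s, 𝔼 q, fP w N (pos s) q ^ 2 ≤ (3 * (2 / ke C b) ^ 2 * lam) * R) := by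
  have := kap_nonempty (w := w) hN
  have hK : 0 ≤ 2 / ke C b := (div_pos two_pos (ke_pos C b)).le
  obtain ⟨h1, h2, h3, h4⟩ := hp R (kap w N) (fun (s : Fin R) (q : kap w N) => fP w N (pos s) q)
    (fun (s : Fin R) (q : kap w N) => nuP w (yx C b N) N (pos s) q) (2 / ke C b)
    (Vv w / Vv (yx C b N)) (4 * (1 / 2 : ℝ) ^ b) η w hR hw (fun s q => gy_nonneg _ _ _)
    (fun s q => gy_le _ _ _) hK (fun s q => Fp_nonneg _ _ _) (fun s q => h.fp _) (by positivity) hb hη0 hη hbη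
    (h.fl R pos hpos 1 (by omega)) (h.fl R pos hpos 2 hM)
  refine ⟨h1, h2, h3, fun s => (h4 s).trans ?_⟩
  have : Vv w / Vv (yx C b N) ≤ lam * R := h.l2.trans hlam
  have h5 : 0 ≤ 3 * (2 / ke C b) ^ 2 := by positivity
  calc 3 * (2 / ke C b) ^ 2 * (Vv w / Vv (yx C b N)) ≤ 3 * (2 / ke C b) ^ 2 * (lam * R) :=
        mul_le_mul_of_nonneg_left this h5
    _ = _ := by ring

/-! ### positions -/

lemma PosOK_window (w L : ℕ) : PosOK (R := L) w (fun s => s.val) := by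
  refine ⟨fun a b h => Fin.ext h, fun s t p hp hw hd => ?_⟩
  unfold vl
  have e : Nat.dist (s.val + 1) (t.val + 1) = Nat.dist s.val t.val := by
    unfold Nat.dist
    omega
  rw [e]
  exact hd

lemma PosOK_mul {w R c o : ℕ} (hc : 1 ≤ c) (hcw : ∀ p : ℕ, p.Prime → w < p → ¬ p ∣ c) :
    PosOK (R := R) w (fun s => o + c * vl s) := by
  refine ⟨fun a b h => ?_, fun s t p hp hw hd => ?_⟩
  · have h' : o + c * vl a = o + c * vl b := h
    have : c * vl a = c * vl b := by omega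
    exact vl_inj (Nat.eq_of_mul_eq_mul_left hc this)
  · have e : Nat.dist (o + c * vl s) (o + c * vl t) = c * Nat.dist (vl s) (vl t) := by
      rw [Nat.dist_add_add_left, Nat.dist_mul_left]
    have hd' : p ∣ Nat.dist (o + c * vl s) (o + c * vl t) := hd
    rw [e] at hd'
    rcases hp.dvd_mul.1 hd' with h1 | h1
    · exact absurd h1 (hcw p hp hw)
    · exact h1

lemma PosOK_mul' {w R c : ℕ} (hc : 1 ≤ c) (hcw : ∀ p : ℕ, p.Prime → w < p → ¬ p ∣ c) :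
    PosOK (R := R) w (fun s => c * s.val) := by
  refine ⟨fun a b h => ?_, fun s t p hp hw hd => ?_⟩
  · exact Fin.ext (Nat.eq_of_mul_eq_mul_left hc h)
  · have hd' : p ∣ Nat.dist (c * s.val) (c * t.val) := hd
    rw [Nat.dist_mul_left] at hd'
    have e : Nat.dist (s.val + 1) (t.val + 1) = Nat.dist s.val t.val := by
      unfold Nat.dist
      omega
    unfold vl
    rw [e]
    rcases hp.dvd_mul.1 hd' with h1 | h1
    · exact absurd h1 (hcw p hp hw)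
    · exact h1

/-! ### averages over `k` -/

section
variable {ρ κ : Type} [Fintype ρ] [Fintype κ] [Nonempty κ] {Kt : ℕ}

lemma MB_avg (hK : 1 ≤ Kt) {ν : Fin Kt → ρ → κ → ℝ} {B : ℝ} {m : ℕ}
    (h : ∀ k, MB (ν k) (fun _ _ => 1) B m) :
    MB (κ := Fin Kt × κ) (fun s z => ν z.1 s z.2) (fun _ _ => 1) B m := by
  intro a
  have : Nonempty (Fin Kt) := ⟨⟨0, hK⟩⟩
  have e : ∀ r : Fin m → ρ, 𝔼 z : Fin Kt × κ, pp (fun s z => ν z.1 s z.2) (fun _ _ => 1) a r z =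
      𝔼 k, 𝔼 q, pp (ν k) (fun _ _ => 1) a r q := by
    intro r
    rw [exp_prod]
    refine expect_congr rfl fun k _ => expect_congr rfl fun q _ => ?_
    unfold pp pt
    refine prod_congr rfl fun i _ => ?_
    split_ifs <;> rfl
  rw [expect_congr rfl fun r _ => e r, expect_comm]
  exact expect_le univ_nonempty fun k _ => h k a

lemma PR_avg (hK : 1 ≤ Kt) {ν : Fin Kt → ρ → κ → ℝ} {τ : ℝ} {m : ℕ}
    (h : ∀ k, PR (ν k) (fun _ _ => 1) τ m) :
    PR (κ := Fin Kt × κ) (fun s z => ν z.1 s z.2) (fun _ _ => 1) τ m := by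
  intro a
  have : Nonempty (Fin Kt) := ⟨⟨0, hK⟩⟩
  have e : ∀ (a : Fin m → Bool) (r : Fin m → ρ), 𝔼 z : Fin Kt × κ, pp (fun s z => ν z.1 s z.2) (fun _ _ => 1) a r z =
      𝔼 k, 𝔼 q, pp (ν k) (fun _ _ => 1) a r q := by
    intro a r
    rw [exp_prod]
    refine expect_congr rfl fun k _ => expect_congr rfl fun q _ => ?_
    unfold pp pt
    refine prod_congr rfl fun i _ => ?_
    split_ifs <;> rfl
  calc 𝔼 r : Fin m → ρ, |𝔼 z : Fin Kt × κ, pp (fun s z => ν z.1 s z.2) (fun _ _ => 1) a r z -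
        𝔼 z : Fin Kt × κ, pp (fun s z => ν z.1 s z.2) (fun _ _ => 1) (fun _ => false) r z| ≤
        𝔼 r : Fin m → ρ, 𝔼 k, |𝔼 q, pp (ν k) (fun _ _ => 1) a r q -
          𝔼 q, pp (ν k) (fun _ _ => 1) (fun _ => false) r q| := by
        refine expect_le_expect fun r _ => ?_
        rw [e, e, ← expect_sub_distrib]
        exact abs_expect_le _ _
    _ = 𝔼 k, 𝔼 r : Fin m → ρ, |𝔼 q, pp (ν k) (fun _ _ => 1) a r q -
          𝔼 q, pp (ν k) (fun _ _ => 1) (fun _ => false) r q| := expect_comm _ _ _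
    _ ≤ τ := expect_le univ_nonempty fun k _ => h k a

end

end Pool.Agent.NH16.SM
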