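import Pool.Agent.NH16.SM.C2

set_option autoImplicit false
set_option linter.unusedSectionVars false
set_option linter.unusedVariables false

/-!
# Counting with a truncated model; the model function of the primes
-/

namespace Pool.Agent.NH16.SM

open Finset Filter Topology
open scoped BigOperators
open Pool.Agent.NH16.DL

section
variable {ρ κ : Type} [Fintype ρ] [Fintype κ] [Nonempty ρ] [Nonempty κ]

lemma trunc_sq {x K : ℝ} (hx : 0 ≤ x) (hK : 1 ≤ K) (j : ℕ) : (x - min x K) ^ 2 ≤ x ^ (j + 2) / K ^ j := by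
  have hK0 : 0 < K := by linarith
  rcases le_total x K with h | h
  · rw [min_eq_left h, sub_self, zero_pow two_ne_zero]
    positivity
  · rw [min_eq_right h, le_div_iff₀ (by positivity), pow_add, mul_comm]
    exact mul_le_mul (pow_le_pow_left₀ hK0.le h j) (pow_le_pow_left₀ (by linarith) (by linarith) 2)
      (by positivity) (by positivity)

lemma trunc_one {x K : ℝ} (hx : 0 ≤ x) (hK : 1 ≤ K) (j : ℕ) : x - min x K ≤ x ^ (j + 2) / K ^ (j + 1) := by
  have hK0 : 0 < K := by linarith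
  rcases le_total x K with h | h
  · rw [min_eq_left h, sub_self]
    positivity
  · rw [min_eq_right h, le_div_iff₀ (by positivity)]
    have h1 : K ^ (j + 1) ≤ x ^ (j + 1) := pow_le_pow_left₀ hK0.le h _
    calc (x - K) * K ^ (j + 1) ≤ x * x ^ (j + 1) := mul_le_mul (by linarith) h1 (by positivity) hx
      _ = x ^ (j + 2) := by ring

theorem cnt {n j : ℕ} {K B τ ε Mj : ℝ} (f ν : ρ → κ → ℝ) (Ψ : κ → ℝ) (hK : 1 ≤ K)
    (hf0 : ∀ s q, 0 ≤ f s q) (hf : ∀ s q, f s q ≤ K * ν s q) (hν : ∀ s q, 0 ≤ ν s q)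
    (hΨ : ∀ q, 0 ≤ Ψ q) (hmom : 𝔼 q, Ψ q ^ (j + 2) ≤ Mj) (hB : 0 ≤ B) (hτ : 0 ≤ τ)
    (hMB : MB ν (fun _ _ => 1) B n) (hMB2 : MB ν (fun _ _ => 1) B 2)
    (hPR : PR ν (fun _ _ => 1) τ (n + n + 1 + 1))
    (hcut : ∀ b : ρ → ℝ, (∀ s, |b s| ≤ 1) → 𝔼 q, (𝔼 s, b s * (f s q - Ψ q)) ^ 2 ≤ ε) :
    𝔼 r : Fin (n + 1) → ρ, |𝔼 q, ∏ i, f (r i) q - 𝔼 q, (min (Ψ q) K) ^ (n + 1)| ≤
      (n + 1) * (K ^ n * Real.sqrt (B * ((2 * ε + 2 * (Mj / K ^ j)) + 8 * K ^ 2 * Real.sqrt (B * τ)))) := by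
  have hK0 : 0 < K := by linarith
  have h := counting (ρ := ρ) (κ := κ) (f := f) (F := fun _ q => min (Ψ q) K) (ν := ν) (g := fun _ _ => 1)
    (K := K) (A := 1) (B := B) (τ := τ) (ε := 2 * ε + 2 * (Mj / K ^ j)) (n := n) hK0.le
    (fun s q => by rw [abs_of_nonneg (hf0 s q)]; exact hf s q)
    (fun s q => by
      rw [mul_one, abs_of_nonneg (le_min (hΨ q) hK0.le)]
      exact min_le_right _ _)
    hν (fun _ _ => zero_le_one) (fun _ _ => le_rfl) hB hτ hMB hMB2 hPR (by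
      intro b hb
      have e1 : ∀ q, 𝔼 s, b s * (f s q - min (Ψ q) K) = 𝔼 s, b s * (f s q - Ψ q) +
          (𝔼 s, b s) * (Ψ q - min (Ψ q) K) := by
        intro q
        rw [expect_mul, ← expect_add_distrib]
        exact expect_congr rfl fun s _ => by ring
      have e2 : ∀ q, (𝔼 s, b s * (f s q - min (Ψ q) K)) ^ 2 ≤ 2 * (𝔼 s, b s * (f s q - Ψ q)) ^ 2 +
          2 * (Ψ q ^ (j + 2) / K ^ j) := by
        intro q
        rw [e1]
        have hb1 : |𝔼 s, b s| ≤ 1 := (abs_expect_le _ _).trans (expect_le univ_nonempty fun s _ => hb s)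
        have hb2 : (𝔼 s, b s) ^ 2 ≤ 1 := by
          rw [← sq_abs]
          exact pow_le_one₀ (abs_nonneg _) hb1
        have h3 := trunc_sq (hΨ q) hK j
        have h4 : ((𝔼 s, b s) * (Ψ q - min (Ψ q) K)) ^ 2 ≤ Ψ q ^ (j + 2) / K ^ j := by
          rw [mul_pow]
          calc (𝔼 s, b s) ^ 2 * (Ψ q - min (Ψ q) K) ^ 2 ≤ 1 * (Ψ q - min (Ψ q) K) ^ 2 :=
                mul_le_mul_of_nonneg_right hb2 (sq_nonneg _)
            _ ≤ _ := by rw [one_mul]; exact h3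
        nlinarith [sq_nonneg (𝔼 s, b s * (f s q - Ψ q) - (𝔼 s, b s) * (Ψ q - min (Ψ q) K))]
      refine (expect_le_expect fun q _ => e2 q).trans ?_
      rw [expect_add_distrib, ← mul_expect, ← mul_expect, ← expect_div]
      have h5 : (𝔼 q, Ψ q ^ (j + 2)) / K ^ j ≤ Mj / K ^ j := div_le_div_of_nonneg_right hmom (by positivity)
      linarith [hcut b hb])
  rw [one_pow, one_mul] at h
  have e : 𝔼 q, (min (Ψ q) K) ^ (n + 1) = 𝔼 q, ∏ _i : Fin (n + 1), min (Ψ q) K :=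
    expect_congr rfl fun q _ => by rw [prod_const, card_univ, Fintype.card_fin]
  rw [e]
  exact h

/-- Jensen -/
lemma jensen {x : κ → ℝ} (hx : ∀ q, 0 ≤ x q) (m : ℕ) : (𝔼 q, x q) ^ m ≤ 𝔼 q, x q ^ m := by
  have hc : (0 : ℝ) < Fintype.card κ := by exact_mod_cast Fintype.card_pos
  have h := Real.pow_arith_mean_le_arith_mean_pow (univ : Finset κ) (fun _ => (1 / (Fintype.card κ : ℝ))) x
    (fun _ _ => by positivity) (by
      rw [sum_const, card_univ, nsmul_eq_mul, mul_one_div, div_self hc.ne']) (fun i _ => hx i) m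
  rw [← mul_sum, ← mul_sum] at h
  rw [Fintype.expect_eq_sum_div_card, Fintype.expect_eq_sum_div_card, div_eq_inv_mul, div_eq_inv_mul, ← one_div]
  exact h

lemma M_low {j m : ℕ} {K δ Mj : ℝ} (Ψ : κ → ℝ) (hK : 1 ≤ K) (hΨ : ∀ q, 0 ≤ Ψ q)
    (hmom : 𝔼 q, Ψ q ^ (j + 2) ≤ Mj) (hmean : 1 - δ ≤ 𝔼 q, Ψ q) (hpos : 0 ≤ 1 - δ - Mj / K ^ (j + 1)) :
    (1 - δ - Mj / K ^ (j + 1)) ^ m ≤ 𝔼 q, (min (Ψ q) K) ^ m := by
  refine le_trans (pow_le_pow_left₀ hpos ?_ m) (jensen (fun q => le_min (hΨ q) (by linarith)) m)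
  have h1 : 𝔼 q, Ψ q - 𝔼 q, min (Ψ q) K ≤ Mj / K ^ (j + 1) := by
    rw [← expect_sub_distrib]
    refine (expect_le_expect fun q _ => trunc_one (hΨ q) hK j).trans ?_
    rw [← expect_div]
    exact div_le_div_of_nonneg_right hmom (by positivity)
  linarith

end

/-! ### the model function -/

/-- the average of the primes over a progression (with the weights of Fejer's kernel) -/
noncomputable def PsiN (w N μ J : ℕ) (x : ℕ) : ℝ :=
  (1 / (J : ℝ) ^ 2) * ∑ j ∈ range J, ∑ j' ∈ range J, Fp w N (x + Wn w * (μ * J + μ * j - μ * j'))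

lemma PsiN_nonneg (w N μ J x : ℕ) : 0 ≤ PsiN w N μ J x :=
  mul_nonneg (by positivity) (sum_nonneg fun _ _ => sum_nonneg fun _ _ => Fp_nonneg _ _ _)

lemma PsiN_le (w N μ J x : ℕ) : PsiN w N μ J x ≤ Real.log N := by
  unfold PsiN
  have hlog := Real.log_natCast_nonneg N
  have h1 : ∑ j ∈ range J, ∑ j' ∈ range J, Fp w N (x + Wn w * (μ * J + μ * j - μ * j')) ≤
      (J : ℝ) ^ 2 * Real.log N := by
    calc _ ≤ ∑ j ∈ range J, ∑ j' ∈ range J, Real.log N :=
          sum_le_sum fun _ _ => sum_le_sum fun _ _ => Fp_le _ _ _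
      _ = _ := by
          rw [sum_const, sum_const, card_range, nsmul_eq_mul, nsmul_eq_mul]
          ring
  rcases Nat.eq_zero_or_pos J with h0 | h0
  · subst h0
    simp [hlog]
  · have hJ : (0 : ℝ) < J := by exact_mod_cast h0
    calc (1 / (J : ℝ) ^ 2) * ∑ j ∈ range J, ∑ j' ∈ range J, Fp w N (x + Wn w * (μ * J + μ * j - μ * j')) ≤
          (1 / (J : ℝ) ^ 2) * ((J : ℝ) ^ 2 * Real.log N) := mul_le_mul_of_nonneg_left h1 (by positivity)
      _ = Real.log N := by field_simp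

lemma shift_sum (J μ : ℕ) (g : ℕ → ℝ) (hg : ∀ n, 0 ≤ g n) :
    ∑ j ∈ range J, ∑ j' ∈ range J, g (μ * J + μ * j - μ * j') ≤ J * ∑ t ∈ range (2 * J), g (μ * t) := by
  rw [sum_comm]
  have h1 : ∀ j' ∈ range J, ∑ j ∈ range J, g (μ * J + μ * j - μ * j') ≤ ∑ t ∈ range (2 * J), g (μ * t) := by
    intro j' hj'
    rw [mem_range] at hj'
    have e : ∀ j ∈ range J, g (μ * J + μ * j - μ * j') = g (μ * (J + j - j')) := by
      intro j _
      congr 1
      rw [← mul_add, ← Nat.mul_sub]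
    rw [sum_congr rfl e]
    rw [← sum_image (f := fun t => g (μ * t)) (g := fun j => J + j - j') (s := range J) (by
      intro a _ b _ hab
      have : J + a - j' = J + b - j' := hab
      omega)]
    refine sum_le_sum_of_subset_of_nonneg ?_ fun t _ _ => hg _
    intro t ht
    rw [mem_image] at ht
    obtain ⟨a, ha, rfl⟩ := ht
    rw [mem_range] at ha ⊢
    omega
  calc _ ≤ ∑ _j' ∈ range J, ∑ t ∈ range (2 * J), g (μ * t) := sum_le_sum h1
    _ = _ := by rw [sum_const, card_range, nsmul_eq_mul]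

lemma PsiN_le_mean {w N μ J : ℕ} (hJ : 1 ≤ J) (q : kap w N) :
    PsiN w N μ J q ≤ 2 * 𝔼 t : Fin (2 * J), fP w N (μ * t.val) q := by
  unfold PsiN
  have hJp : (0 : ℝ) < J := by exact_mod_cast hJ
  have h1 := shift_sum J μ (fun u => Fp w N (q + Wn w * u)) (fun _ => Fp_nonneg _ _ _)
  rw [Fintype.expect_eq_sum_div_card, Fintype.card_fin, ← sum_range (fun t => fP w N (μ * t) q)]
  calc (1 / (J : ℝ) ^ 2) * ∑ j ∈ range J, ∑ j' ∈ range J, Fp w N (q + Wn w * (μ * J + μ * j - μ * j')) ≤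
        (1 / (J : ℝ) ^ 2) * (J * ∑ t ∈ range (2 * J), fP w N (μ * t) q) :=
        mul_le_mul_of_nonneg_left h1 (by positivity)
    _ = _ := by
        push_cast
        field_simp

theorem PsiN_moment {M C w N μ J : ℕ} {η : ℝ} (h : LV M C (C + 3) w N η) (hp : S_PS1) (hN : 1 ≤ N) (hw : 1 ≤ w)
    (hη0 : 0 ≤ η) (hη : η ≤ 1) (hJ : 1 ≤ J) (hμ : 1 ≤ μ) (hμw : ∀ p : ℕ, p.Prime → w < p → ¬ p ∣ μ)
    (hlam : 4 * Real.log N ≤ J) {m : ℕ} (hm : m ≤ M) :
    𝔼 q : kap w N, PsiN w N μ J q ^ m ≤ 2 ^ m * K0c C ^ m * BB m := by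
  have hne := kap_nonempty (w := w) hN
  have hLe : Nonempty (Fin (2 * J)) := ⟨⟨0, by omega⟩⟩
  have hJp : (0 : ℝ) < J := by exact_mod_cast hJ
  have hth0 := theta0 C
  have hK0 : 0 ≤ K0c C := by
    have := two_le_K C (C + 3)
    unfold K0c
    linarith
  obtain ⟨p1, -, -⟩ := h.ps hp hN hw (by linarith [theta0 C]) hη0 hη (PosOK_mul' (R := 2 * J) hμ hμw)
    (lam := 1) (by omega) (by push_cast; linarith) le_rfl
  have h1 : ∀ q : kap w N, PsiN w N μ J q ^ m ≤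
      2 ^ m * (K0c C ^ m * 𝔼 r : Fin m → Fin (2 * J), ∏ i, nuP w (yx C (C + 3) N) N (μ * (r i).val) q) := by
    intro q
    have i1 := PsiN_le_mean (w := w) (N := N) (μ := μ) hJ q
    have i2 : 𝔼 t : Fin (2 * J), fP w N (μ * t.val) q ≤
        K0c C * 𝔼 t : Fin (2 * J), nuP w (yx C (C + 3) N) N (μ * t.val) q := by
      rw [mul_expect]
      exact expect_le_expect fun t _ => h.fp _
    have i3 : (𝔼 t : Fin (2 * J), nuP w (yx C (C + 3) N) N (μ * t.val) q) ^ m =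
        𝔼 r : Fin m → Fin (2 * J), ∏ i, nuP w (yx C (C + 3) N) N (μ * (r i).val) q := by
      rw [Fintype.expect_eq_sum_div_card, Fintype.expect_eq_sum_div_card, div_pow, Finset.sum_pow',
        Fintype.card_fun, Fintype.card_fin]
      push_cast
      rw [Fintype.piFinset_univ, Fintype.card_fin]
    calc PsiN w N μ J q ^ m ≤ (2 * (K0c C * 𝔼 t : Fin (2 * J), nuP w (yx C (C + 3) N) N (μ * t.val) q)) ^ m :=
          pow_le_pow_left₀ (PsiN_nonneg _ _ _ _ _) (i1.trans (mul_le_mul_of_nonneg_left i2 two_pos.le)) m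
      _ = _ := by rw [mul_pow, mul_pow, i3]
  refine (expect_le_expect fun q _ => h1 q).trans ?_
  rw [← mul_expect, ← mul_expect, expect_comm]
  have h2 : 𝔼 r : Fin m → Fin (2 * J), 𝔼 q : kap w N, ∏ i, nuP w (yx C (C + 3) N) N (μ * (r i).val) q ≤ BB m :=
    p1 m hm (fun _ => true)
  calc (2 : ℝ) ^ m * (K0c C ^ m * _) ≤ 2 ^ m * (K0c C ^ m * BB m) :=
        mul_le_mul_of_nonneg_left (mul_le_mul_of_nonneg_left h2 (by positivity)) (by positivity)
    _ = _ := by ring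

/-! ### translation -/

lemma exp_kap (w N : ℕ) (φ : ℕ → ℝ) : 𝔼 q : kap w N, φ q = mean w N φ := by
  unfold mean
  rw [Fintype.expect_eq_sum_div_card, Fintype.card_coe, Finset.sum_coe_sort (kap w N) φ]

/-- the error of a translation -/
noncomputable def trE (w N v : ℕ) (Mx : ℝ) : ℝ := Wn w * v * Mx / ((kap w N).card : ℝ)

lemma exp_shift (h : S_TI) (w N v : ℕ) (G : ℕ → ℝ) (Mx : ℝ) (h0 : ∀ n, 0 ≤ G n) (h1 : ∀ n, G n ≤ Mx) :
    |𝔼 q : kap w N, G (q + Wn w * v) - 𝔼 q : kap w N, G q| ≤ trE w N v Mx := by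
  have e1 : 𝔼 q : kap w N, G (q + Wn w * v) = mean w N (fun n => G (n + Wn w * v)) :=
    exp_kap w N (fun n => G (n + Wn w * v))
  have e2 : 𝔼 q : kap w N, G q = mean w N G := exp_kap w N G
  rw [e1, e2]
  unfold mean trE
  rw [← sub_div, abs_div, abs_of_nonneg (Nat.cast_nonneg (α := ℝ) (kap w N).card)]
  exact div_le_div_of_nonneg_right (h w N v G Mx h0 h1) (Nat.cast_nonneg _)

lemma PsiN_mean (h : S_TI) {w N μ J : ℕ} (hJ : 1 ≤ J) :
    |𝔼 q : kap w N, PsiN w N μ J q - mean w N (Fp w N)| ≤ trE w N (2 * μ * J) (Real.log N) := by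
  have hJp : (0 : ℝ) < J := by exact_mod_cast hJ
  have hlog := Real.log_natCast_nonneg N
  have e1 : 𝔼 q : kap w N, PsiN w N μ J q = (1 / (J : ℝ) ^ 2) * ∑ j ∈ range J, ∑ j' ∈ range J,
      𝔼 q : kap w N, Fp w N (q + Wn w * (μ * J + μ * j - μ * j')) := by
    unfold PsiN
    rw [← mul_expect, expect_sum_comm]
    congr 1
    refine sum_congr rfl fun j _ => ?_
    rw [expect_sum_comm]
  have e2 : mean w N (Fp w N) = (1 / (J : ℝ) ^ 2) * ∑ j ∈ range J, ∑ j' ∈ range J, mean w N (Fp w N) := by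
    rw [sum_const, sum_const, card_range, nsmul_eq_mul, nsmul_eq_mul]
    field_simp
  rw [e1, e2, ← mul_sub, ← sum_sub_distrib, abs_mul, abs_of_nonneg (by positivity)]
  have h1 : |∑ j ∈ range J, (∑ j' ∈ range J, 𝔼 q : kap w N, Fp w N (q + Wn w * (μ * J + μ * j - μ * j')) -
      ∑ j' ∈ range J, mean w N (Fp w N))| ≤ ∑ j ∈ range J, ∑ j' ∈ range J, trE w N (2 * μ * J) (Real.log N) := by
    refine (abs_sum_le_sum_abs _ _).trans (sum_le_sum fun j hj => ?_)
    rw [← sum_sub_distrib]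
    refine (abs_sum_le_sum_abs _ _).trans (sum_le_sum fun j' hj' => ?_)
    have h2 := exp_shift h w N (μ * J + μ * j - μ * j') (Fp w N) (Real.log N) (Fp_nonneg w N) (Fp_le w N)
    rw [exp_kap w N (Fp w N)] at h2
    refine h2.trans ?_
    unfold trE
    refine div_le_div_of_nonneg_right ?_ (Nat.cast_nonneg _)
    refine mul_le_mul_of_nonneg_right (mul_le_mul_of_nonneg_left ?_ (Nat.cast_nonneg _)) hlog
    rw [mem_range] at hj hj'
    have : μ * J + μ * j - μ * j' ≤ 2 * μ * J := by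
      have : μ * j ≤ μ * J := Nat.mul_le_mul_left _ hj.le
      have e : 2 * μ * J = μ * J + μ * J := by ring
      omega
    exact_mod_cast this
  calc _ ≤ (1 / (J : ℝ) ^ 2) * ∑ j ∈ range J, ∑ j' ∈ range J, trE w N (2 * μ * J) (Real.log N) :=
        mul_le_mul_of_nonneg_left h1 (by positivity)
    _ = _ := by
        rw [sum_const, sum_const, card_range, nsmul_eq_mul, nsmul_eq_mul]
        field_simp

end Pool.Agent.NH16.SM
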