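import Pool.Agent.NH16.SM.C3

set_option autoImplicit false
set_option linter.unusedSectionVars false
set_option linter.unusedVariables false

/-!
# The cut norm of the difference of the primes and their model
-/

namespace Pool.Agent.NH16.SM

open Finset Filter Topology
open scoped BigOperators
open Pool.Agent.NH16.DL

/-- the function whose mean value is estimated -/
noncomputable def GG {H : ℕ} (w N μ J k : ℕ) (b : Fin H → ℝ) (x : ℕ) : ℝ :=
  (𝔼 s, b s * (Fp w N (x + Wn w * (μ * J + μ * k * vl s)) - PsiN w N μ J x)) ^ 2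

lemma GG_le {H : ℕ} (hH : 1 ≤ H) (w N μ J k : ℕ) (b : Fin H → ℝ) (hb : ∀ s, |b s| ≤ 1) (x : ℕ) :
    GG w N μ J k b x ≤ Real.log N ^ 2 := by
  have hne : Nonempty (Fin H) := ⟨⟨0, hH⟩⟩
  unfold GG
  rw [← sq_abs]
  refine pow_le_pow_left₀ (abs_nonneg _) ?_ 2
  refine (abs_expect_le _ _).trans (expect_le univ_nonempty fun s _ => ?_)
  rw [abs_mul]
  have h1 : |Fp w N (x + Wn w * (μ * J + μ * k * vl s)) - PsiN w N μ J x| ≤ Real.log N := by
    rw [abs_le]
    constructor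
    · linarith [Fp_nonneg w N (x + Wn w * (μ * J + μ * k * vl s)), PsiN_le w N μ J x]
    · linarith [Fp_le w N (x + Wn w * (μ * J + μ * k * vl s)), PsiN_nonneg w N μ J x]
  calc |b s| * |Fp w N (x + Wn w * (μ * J + μ * k * vl s)) - PsiN w N μ J x| ≤ 1 * Real.log N :=
        mul_le_mul (hb s) h1 (abs_nonneg _) zero_le_one
    _ = _ := one_mul _

/-- extension of a weight to the natural numbers -/
noncomputable def bx {H : ℕ} (b : Fin H → ℝ) (h : ℕ) : ℝ := if hh : 1 ≤ h ∧ h ≤ H then b ⟨h - 1, by omega⟩ else 0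

lemma bx_vl {H : ℕ} (b : Fin H → ℝ) (s : Fin H) : bx b (vl s) = b s := by
  unfold bx
  rw [dif_pos ⟨vl_pos s, vl_le s⟩]
  congr 1

lemma bx_le {H : ℕ} (b : Fin H → ℝ) (hb : ∀ s, |b s| ≤ 1) (h : ℕ) : |bx b h| ≤ 1 := by
  unfold bx
  split_ifs with hh
  · exact hb _
  · rw [abs_zero]; exact zero_le_one

theorem cut_level (hWIN : S_WIN) (hTI : S_TI) {w N Q L K H J J' m1 μ : ℕ} [NeZero Q] {κ c : ℝ}
    {F' : ℕ → kap w N → ℝ} (hN : 1 ≤ N) (hL : 1 ≤ L) (hK : 1 ≤ K) (hH : 1 ≤ H) (hJ : 1 ≤ J) (hJ' : 1 ≤ J')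
    (hμ : 1 ≤ μ) (hHJ : H ≤ J) (hQ : L + μ * (2 * J + K * H) < Q)
    (hP : ∀ b : ℕ → ℝ, (∀ h, |b h| ≤ 1) → PIneq K H J J' m1 b κ c) (hLJ : 4 * μ * J + 2 * μ * K * H ≤ L)
    (b : Fin H → ℝ) (hb : ∀ s, |b s| ≤ 1) :
    𝔼 z : Fin K × kap w N, (𝔼 s, b s * (fP w N (μ * J + μ * vl z.1 * vl s) z.2 - PsiN w N μ J z.2)) ^ 2 ≤
      2 * (κ * ((1 / (L : ℝ)) * ∑ s ∈ range L, 𝔼 q, F' s q ^ 2) +
        c * (En Q L (μ * m1) J' F' - En Q L μ J F') +
        4 * ((L : ℝ) / H) * ((1 / (L : ℝ)) * ((1 / (L : ℝ)) * ∑ s ∈ range L, ∑ s' ∈ range L,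
          |𝔼 q, fP w N s q * fP w N s' q - 𝔼 q, F' s q * F' s' q|))) + trE w N L (Real.log N ^ 2) := by
  have hne := kap_nonempty (w := w) hN
  have hHe : Nonempty (Fin H) := ⟨⟨0, hH⟩⟩
  have hKe : Nonempty (Fin K) := ⟨⟨0, hK⟩⟩
  have hLp : (0 : ℝ) < L := by exact_mod_cast hL
  have hHp : (0 : ℝ) < H := by exact_mod_cast hH
  have hKp : (0 : ℝ) < K := by exact_mod_cast hK
  have h := hWIN (kap w N) Q L K H J J' m1 μ (bx b) κ c (fP w N) F' hL hK hH hJ hJ' hμ hHJ hQ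
    (bx_le b hb) (hP _ (bx_le b hb))
  set e : ℝ := trE w N L (Real.log N ^ 2) with he
  have he0 : 0 ≤ e := by
    rw [he]
    unfold trE
    positivity
  -- the last term
  have e3 : 4 / (H : ℝ) * ((1 / (L : ℝ)) * ∑ s ∈ range L, ∑ s' ∈ range L,
        |𝔼 q, fP w N s q * fP w N s' q - 𝔼 q, F' s q * F' s' q|) =
      4 * ((L : ℝ) / H) * ((1 / (L : ℝ)) * ((1 / (L : ℝ)) * ∑ s ∈ range L, ∑ s' ∈ range L,
          |𝔼 q, fP w N s q * fP w N s' q - 𝔼 q, F' s q * F' s' q|)) := by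
    field_simp
  rw [e3] at h
  set RHS : ℝ := κ * ((1 / (L : ℝ)) * ∑ s ∈ range L, 𝔼 q, F' s q ^ 2) +
        c * (En Q L (μ * m1) J' F' - En Q L μ J F') +
        4 * ((L : ℝ) / H) * ((1 / (L : ℝ)) * ((1 / (L : ℝ)) * ∑ s ∈ range L, ∑ s' ∈ range L,
          |𝔼 q, fP w N s q * fP w N s' q - 𝔼 q, F' s q * F' s' q|)) with hRHS
  -- the terms on the left
  have e1 : ∀ k : ℕ, ∀ u ∈ Ico (μ * J) (L - μ * J - μ * K * H),
      𝔼 q, ((1 / (H : ℝ)) * ∑ h ∈ Icc 1 H, bx b h * fP w N (u + μ * k * h) q -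
        ((1 / (H : ℝ)) * ∑ h ∈ Icc 1 H, bx b h) *
          ((1 / (J : ℝ) ^ 2) * ∑ j ∈ range J, ∑ j' ∈ range J, fP w N (u + μ * j - μ * j') q)) ^ 2 =
      𝔼 q : kap w N, GG w N μ J k b (q + Wn w * (u - μ * J)) := by
    intro k u hu
    rw [mem_Ico] at hu
    refine expect_congr rfl fun q _ => ?_
    unfold GG
    congr 1
    have a1 : (1 / (H : ℝ)) * ∑ h ∈ Icc 1 H, bx b h * fP w N (u + μ * k * h) q =
        𝔼 s, b s * Fp w N (q + Wn w * (u - μ * J) + Wn w * (μ * J + μ * k * vl s)) := by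
      rw [← sum_vl (fun h => bx b h * fP w N (u + μ * k * h) q), Fintype.expect_eq_sum_div_card, Fintype.card_fin,
        one_div, inv_mul_eq_div]
      congr 1
      refine sum_congr rfl fun s _ => ?_
      rw [bx_vl]
      congr 1
      unfold fP
      congr 1
      rw [add_assoc, ← mul_add]
      congr 2
      omega
    have a2 : (1 / (H : ℝ)) * ∑ h ∈ Icc 1 H, bx b h = 𝔼 s, b s := by
      rw [← sum_vl (fun h => bx b h), Fintype.expect_eq_sum_div_card, Fintype.card_fin,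
        one_div, inv_mul_eq_div]
      congr 1
      exact sum_congr rfl fun s _ => bx_vl b s
    have a3 : (1 / (J : ℝ) ^ 2) * ∑ j ∈ range J, ∑ j' ∈ range J, fP w N (u + μ * j - μ * j') q =
        PsiN w N μ J (q + Wn w * (u - μ * J)) := by
      unfold PsiN
      congr 1
      refine sum_congr rfl fun j _ => sum_congr rfl fun j' hj' => ?_
      rw [mem_range] at hj'
      unfold fP
      congr 1
      rw [add_assoc, ← mul_add]
      congr 2
      have : μ * j' ≤ μ * J := Nat.mul_le_mul_left _ hj'.le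
      omega
    rw [a1, a2, a3]
    simp only [mul_sub]
    rw [expect_sub_distrib, expect_mul]
  -- lower bound
  have e2 : ∀ k : ℕ, ∀ u ∈ Ico (μ * J) (L - μ * J - μ * K * H),
      𝔼 q : kap w N, GG w N μ J k b q - e ≤ 𝔼 q : kap w N, GG w N μ J k b (q + Wn w * (u - μ * J)) := by
    intro k u hu
    rw [mem_Ico] at hu
    have a1 := (abs_le.1 (exp_shift hTI w N (u - μ * J) (GG w N μ J k b) (Real.log N ^ 2)
      (fun n => sq_nonneg _) (GG_le hH w N μ J k b hb))).1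
    have a2 : trE w N (u - μ * J) (Real.log N ^ 2) ≤ e := by
      rw [he]
      unfold trE
      refine div_le_div_of_nonneg_right ?_ (Nat.cast_nonneg _)
      refine mul_le_mul_of_nonneg_right (mul_le_mul_of_nonneg_left ?_ (Nat.cast_nonneg _)) (sq_nonneg _)
      have : u - μ * J ≤ L := by omega
      exact_mod_cast this
    linarith
  set X : ℝ := (1 / (K : ℝ)) * ∑ k ∈ Icc 1 K, 𝔼 q : kap w N, GG w N μ J k b q with hX
  have hXeq : 𝔼 z : Fin K × kap w N, (𝔼 s, b s * (fP w N (μ * J + μ * vl z.1 * vl s) z.2 -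
      PsiN w N μ J z.2)) ^ 2 = X := by
    rw [exp_prod, Fintype.expect_eq_sum_div_card, Fintype.card_fin, hX,
      ← sum_vl (fun k => 𝔼 q : kap w N, GG w N μ J k b q), one_div, inv_mul_eq_div]
    rfl
  rw [hXeq]
  have hX0 : 0 ≤ X := by
    rw [hX]
    exact mul_nonneg (by positivity) (sum_nonneg fun k _ => expect_nonneg fun q _ => sq_nonneg _)
  set nI : ℝ := ((Ico (μ * J) (L - μ * J - μ * K * H)).card : ℝ) with hnI
  have hnI2 : (L : ℝ) / 2 ≤ nI := by
    rw [hnI, Nat.card_Ico]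
    have h1 : L ≤ 2 * (L - μ * J - μ * K * H - μ * J) := by
      have a : 4 * μ * J = 4 * (μ * J) := by ring
      have b' : 2 * μ * K * H = 2 * (μ * K * H) := by ring
      omega
    have h2 : (L : ℝ) ≤ 2 * ((L - μ * J - μ * K * H - μ * J : ℕ) : ℝ) := by exact_mod_cast h1
    linarith
  have key : nI / L * (X - e) ≤ RHS := by
    refine le_trans ?_ h
    have b1 : (1 / (K : ℝ)) * ∑ k ∈ Icc 1 K, (1 / (L : ℝ)) * ∑ u ∈ Ico (μ * J) (L - μ * J - μ * K * H),
        (𝔼 q : kap w N, GG w N μ J k b q - e) = nI / L * (X - e) := by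
      simp only [sum_const, nsmul_eq_mul]
      rw [← hnI, hX]
      rw [← mul_sum, ← mul_sum, sum_sub_distrib, sum_const, Nat.card_Icc, nsmul_eq_mul]
      have : ((K + 1 - 1 : ℕ) : ℝ) = K := by norm_num
      rw [this]
      field_simp
    rw [← b1]
    refine mul_le_mul_of_nonneg_left (sum_le_sum fun k _ => mul_le_mul_of_nonneg_left
      (sum_le_sum fun u hu => ?_) (by positivity)) (by positivity)
    rw [e1 k u hu]
    exact e2 k u hu
  have hRHS0 : 0 ≤ RHS := by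
    refine le_trans ?_ h
    exact mul_nonneg (by positivity) (sum_nonneg fun k _ => mul_nonneg (by positivity)
      (sum_nonneg fun u _ => expect_nonneg fun q _ => sq_nonneg _))
  rcases le_total X e with h1 | h1
  · linarith
  · have h2 : (1 / 2 : ℝ) * (X - e) ≤ nI / L * (X - e) := by
      refine mul_le_mul_of_nonneg_right ?_ (by linarith)
      rw [le_div_iff₀ hLp]
      linarith
    linarith

end Pool.Agent.NH16.SM
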