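import Pool.Agent.NH16.SM.C4

set_option autoImplicit false
set_option linter.unusedSectionVars false
set_option linter.unusedVariables false

/-!
# A level with small cut norm
-/

namespace Pool.Agent.NH16.SM

open Finset Filter Topology
open scoped BigOperators
open Pool.Agent.NH16.DL

lemma log_pow_rpow (j : ℕ) {ε : ℝ} (hε : 0 < ε) (c : ℝ) :
    Tendsto (fun N : ℕ => c * (Real.log N ^ j * (N : ℝ) ^ (-ε))) atTop (𝓝 0) := by
  have h1 := isLittleO_log_rpow_rpow_atTop (j : ℝ) hε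
  have h2 : Tendsto (fun x : ℝ => Real.log x ^ (j : ℝ) / x ^ ε) atTop (𝓝 0) := h1.tendsto_div_nhds_zero
  have h3 := (h2.comp (tendsto_natCast_atTop_atTop (R := ℝ))).const_mul c
  rw [mul_zero] at h3
  refine h3.congr fun N => ?_
  simp only [Function.comp]
  rw [Real.rpow_natCast, Real.rpow_neg (Nat.cast_nonneg N), div_eq_mul_inv]

lemma kap_card_ge (h : S_FP3) (w : ℕ) : ∀ᶠ N : ℕ in atTop, (N : ℝ) * Vv w / 2 ≤ ((kap w N).card : ℝ) := by
  filter_upwards [h w (1 / 2) (by norm_num), eventually_ge_atTop 1] with N h1 h2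
  have hN : (0 : ℝ) < N := by exact_mod_cast h2
  have hp : 0 < (N : ℝ) * Vv w := mul_pos hN (Vv_pos w)
  have h3 := (abs_le.1 h1).1
  have h4 : (1 : ℝ) / 2 ≤ ((kap w N).card : ℝ) / (N * Vv w) := by linarith
  rw [le_div_iff₀ hp] at h4
  linarith

theorem trE_small (h : S_FP3) (w : ℕ) {ε : ℝ} (hε : 0 < ε) (l j : ℕ) {t : ℝ} (ht : 0 < t) :
    ∀ᶠ N : ℕ in atTop, ∀ v : ℕ, (v : ℝ) ≤ l * (N : ℝ) ^ (1 - ε) → trE w N v (Real.log N ^ j) ≤ t := by
  have hV := Vv_pos w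
  filter_upwards [kap_card_ge h w, eventually_ge_atTop 1,
    le_of_ev (log_pow_rpow j hε (2 * Wn w * l / Vv w)) ht] with N h1 h2 h3 v hv
  have hN : (0 : ℝ) < N := by exact_mod_cast h2
  have hp : 0 < (N : ℝ) * Vv w / 2 := by positivity
  unfold trE
  have hlog : 0 ≤ Real.log N ^ j := pow_nonneg (Real.log_natCast_nonneg N) j
  calc (Wn w : ℝ) * v * Real.log N ^ j / ((kap w N).card : ℝ) ≤
        (Wn w : ℝ) * (l * (N : ℝ) ^ (1 - ε)) * Real.log N ^ j / (N * Vv w / 2) := by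
        refine div_le_div₀ (by positivity) ?_ hp h1
        exact mul_le_mul_of_nonneg_right (mul_le_mul_of_nonneg_left hv (Nat.cast_nonneg _)) hlog
    _ = 2 * Wn w * l / Vv w * (Real.log N ^ j * (N : ℝ) ^ (-ε)) := by
        have e : (N : ℝ) ^ (1 - ε) = N * (N : ℝ) ^ (-ε) := by
          rw [sub_eq_add_neg, Real.rpow_add hN, Real.rpow_one]
        rw [e]
        field_simp
    _ ≤ t := h3

/-- the conclusion of `dense` -/
def DenseHyp (C : ℕ) : Prop := ∀ δ : ℝ, 0 < δ →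
    ∃ lam0 : ℝ, 0 < lam0 ∧ lam0 ≤ 1 ∧ ∃ w0 : ℕ, ∀ w : ℕ, w0 ≤ w → ∀ᶠ N : ℕ in atTop, ∀ L : ℕ,
      4 * Real.log N ≤ lam0 * L → ∃ F' : ℕ → kap w N → ℝ,
        (1 / (L : ℝ)) * ∑ s ∈ range L, 𝔼 q, F' s q ^ 2 ≤ 2 * K0c C ^ 2 + 1 ∧
        (1 / (L : ℝ)) * ((1 / (L : ℝ)) * ∑ s ∈ range L, ∑ s' ∈ range L,
          |𝔼 q, fP w N s q * fP w N s' q - 𝔼 q, F' s q * F' s' q|) ≤ δ

theorem cutN (hPI : S_PI) (hWIN : S_WIN) (hTI : S_TI) (hEL : S_EL) (hFP3 : S_FP3) {C : ℕ} (hD : DenseHyp C)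
    {εc : ℝ} (hεc : 0 < εc) : ∃ Bd : ℕ, ∃ lam0 : ℝ, 0 < lam0 ∧ lam0 ≤ 1 ∧ ∃ H0 : ℕ, ∃ w0 : ℕ, ∀ w : ℕ, w0 ≤ w →
    ∀ ε : ℝ, 0 < ε → ∀ᶠ N : ℕ in atTop, ∀ H : ℕ, H0 ≤ H → 4 * Real.log N ≤ lam0 * H → (H : ℝ) ≤ (N : ℝ) ^ (1 - ε) →
      ∃ μ K J : ℕ, 1 ≤ μ ∧ μ ≤ Bd ∧ 1 ≤ K ∧ K ≤ Bd ∧ H ≤ J ∧ J ≤ Bd * H ∧
        ∀ b : Fin H → ℝ, (∀ s, |b s| ≤ 1) →
          𝔼 z : Fin K × kap w N, (𝔼 s, b s * (fP w N (μ * J + μ * vl z.1 * vl s) z.2 -
            PsiN w N μ J z.2)) ^ 2 ≤ εc := by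
  set A : ℝ := 2 * K0c C ^ 2 + 1 with hA
  have hA0 : 0 < A := by positivity
  set κ : ℝ := εc / (16 * A) with hκ
  have hκ0 : 0 < κ := by positivity
  obtain ⟨c, hc, m1, D, G, K0, H0, hm1, hD1, hG1, hP⟩ := hPI κ hκ0
  obtain ⟨I0, hI0⟩ := exists_nat_ge (16 * c * A / εc)
  set I : ℕ := I0 + 1 with hI
  have hIp : (0 : ℝ) < I := by rw [hI]; positivity
  have hIle : 2 * (c * (A / I)) ≤ εc / 8 := by
    have h1 : 16 * c * A / εc ≤ I := hI0.trans (by rw [hI]; push_cast; linarith)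
    rw [div_le_iff₀ hεc] at h1
    have h2 : 2 * (c * (A / I)) = (16 * c * A) / (8 * I) := by field_simp; ring
    rw [h2, div_le_div_iff₀ (by positivity) (by norm_num)]
    linarith
  set Km : ℕ := K0 + 1 with hKm
  set Kf : ℕ → ℕ := fun i => (D * G) ^ (I - i) * Km with hKf
  set Kx : ℕ := (D * G) ^ I * Km with hKx
  have hDG : 1 ≤ D * G := Nat.mul_pos hD1 hG1
  have hKf1 : ∀ i, 1 ≤ Kf i := fun i => Nat.mul_pos (Nat.pos_of_ne_zero (pow_ne_zero _ (by omega))) (by omega)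
  have hKfx : ∀ i, Kf i ≤ Kx := fun i => Nat.mul_le_mul_right _ (Nat.pow_le_pow_right hDG (Nat.sub_le _ _))
  have hKf0 : ∀ i, K0 ≤ Kf i := fun i => by
    have : 1 * Km ≤ (D * G) ^ (I - i) * Km := Nat.mul_le_mul_right _ (Nat.pos_of_ne_zero (pow_ne_zero _ (by omega)))
    have h2 : Kf i = (D * G) ^ (I - i) * Km := rfl
    omega
  have hKs : ∀ i, i < I → Kf i = D * G * Kf (i + 1) := fun i hi => by
    have : I - i = (I - (i + 1)) + 1 := by omega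
    show (D * G) ^ (I - i) * Km = D * G * ((D * G) ^ (I - (i + 1)) * Km)
    rw [this, pow_succ]
    ring
  set l : ℕ := 4 * m1 ^ I * (D * Kx) + 2 * m1 ^ I * Kx with hl
  have hKx1 : 1 ≤ Kx := (hKf1 0).trans (hKfx 0)
  have hmI : 1 ≤ m1 ^ I := Nat.pos_of_ne_zero (pow_ne_zero _ (by omega))
  have hl1 : 1 ≤ l := by
    have : 1 ≤ 2 * m1 ^ I * Kx := Nat.mul_pos (by omega) hKx1
    omega
  have hlp : (0 : ℝ) < l := by exact_mod_cast hl1
  obtain ⟨lam0, hlam0, hlam1, w0, hw0⟩ := hD (εc / (64 * l)) (by positivity)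
  refine ⟨m1 ^ I + Kx + D * Kx, lam0, hlam0, hlam1, H0 + 1, w0, fun w hw ε hε => ?_⟩
  filter_upwards [hw0 w hw, trE_small hFP3 w hε l 2 (t := εc / 8) (by positivity), eventually_ge_atTop 3]
    with N hN1 hN2 hN3 H hH hHlog hHN
  have hH1 : 1 ≤ H := by omega
  have hHp : (0 : ℝ) < H := by exact_mod_cast hH1
  have hNe : Nonempty (kap w N) := kap_nonempty (by omega)
  set L : ℕ := l * H with hL
  have hLH : H ≤ L := Nat.le_mul_of_pos_left H hl1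
  have hL1 : 1 ≤ L := hH1.trans hLH
  have hLlog : 4 * Real.log N ≤ lam0 * L := by
    have : (H : ℝ) ≤ L := by exact_mod_cast hLH
    nlinarith
  obtain ⟨F', hF1, hF2⟩ := hN1 L hLlog
  set Q : ℕ := L + m1 ^ I * (2 * (D * Kx * H) + Kx * H) + 1 with hQ
  haveI : NeZero Q := ⟨by omega⟩
  set E : ℕ → ℝ := fun i => En Q L (m1 ^ i) (D * Kf i * H) F' with hE
  have hJ1 : ∀ i, 1 ≤ D * Kf i * H := fun i => Nat.mul_pos (Nat.mul_pos hD1 (hKf1 i)) hH1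
  have hE0 : ∀ i, 0 ≤ E i := fun i => (hEL (kap w N) Q L (m1 ^ i) (D * Kf i * H) F' hL1 (hJ1 i) (by omega)).1
  have hEA : ∀ i, E i ≤ A := fun i =>
    ((hEL (kap w N) Q L (m1 ^ i) (D * Kf i * H) F' hL1 (hJ1 i) (by omega)).2).trans hF1
  have hex : ∃ i ∈ range I, E (i + 1) - E i ≤ A / I := by
    refine exists_le_of_sum_le (s := range I) ⟨0, by rw [mem_range]; omega⟩ ?_
    rw [sum_range_sub, sum_const, card_range, nsmul_eq_mul, mul_div_cancel₀ _ hIp.ne']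
    linarith [hE0 0, hEA I]
  obtain ⟨i, hi, hEi⟩ := hex
  rw [mem_range] at hi
  have hmi : m1 ^ i ≤ m1 ^ I := Nat.pow_le_pow_right (by omega) hi.le
  have hmi1 : 1 ≤ m1 ^ i := Nat.pos_of_ne_zero (pow_ne_zero _ (by omega))
  refine ⟨m1 ^ i, Kf i, D * Kf i * H, hmi1, by omega, hKf1 i, by have := hKfx i; omega, ?_, ?_, ?_⟩
  · exact Nat.le_mul_of_pos_left H (Nat.mul_pos hD1 (hKf1 i))
  · refine Nat.mul_le_mul_right _ ?_
    have : D * Kf i ≤ D * Kx := Nat.mul_le_mul_left _ (hKfx i)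
    omega
  · intro b hb
    have hKH : Kf i * H ≤ Kx * H := Nat.mul_le_mul_right _ (hKfx i)
    have hDK : D * Kf i * H ≤ D * Kx * H := Nat.mul_le_mul_right _ (Nat.mul_le_mul_left _ (hKfx i))
    have hcl := cut_level hWIN hTI (w := w) (N := N) (Q := Q) (L := L) (K := Kf i) (H := H)
      (J := D * Kf i * H) (J' := D * Kf (i + 1) * H) (m1 := m1) (μ := m1 ^ i) (κ := κ) (c := c) (F' := F')
      (by omega) hL1 (hKf1 i) hH1 (hJ1 i) (hJ1 (i + 1)) hmi1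
      (Nat.le_mul_of_pos_left H (Nat.mul_pos hD1 (hKf1 i)))
      (by
        have h1 : m1 ^ i * (2 * (D * Kf i * H) + Kf i * H) ≤ m1 ^ I * (2 * (D * Kx * H) + Kx * H) :=
          Nat.mul_le_mul hmi (by omega)
        omega)
      (fun b' hb' => hP (Kf i) H (D * Kf (i + 1) * H) (hKf0 i) (by omega) (hKf1 i) hH1 (hJ1 (i + 1))
        (by rw [hKs i hi]; ring) b' hb')
      (by
        have h1 : 4 * m1 ^ i * (D * Kf i * H) ≤ 4 * m1 ^ I * (D * Kx * H) :=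
          Nat.mul_le_mul (Nat.mul_le_mul_left _ hmi) hDK
        have h2 : 2 * m1 ^ i * Kf i * H ≤ 2 * m1 ^ I * Kx * H :=
          Nat.mul_le_mul_right _ (Nat.mul_le_mul (Nat.mul_le_mul_left _ hmi) (hKfx i))
        have h3 : L = 4 * m1 ^ I * (D * Kx * H) + 2 * m1 ^ I * Kx * H := by
          rw [hL, hl]; ring
        omega) b hb
    refine hcl.trans ?_
    have t1 : trE w N L (Real.log N ^ 2) ≤ εc / 8 := by
      refine hN2 L ?_
      rw [hL]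
      push_cast
      exact mul_le_mul_of_nonneg_left hHN (Nat.cast_nonneg _)
    have t2 : κ * ((1 / (L : ℝ)) * ∑ s ∈ range L, 𝔼 q, F' s q ^ 2) ≤ εc / 16 := by
      calc _ ≤ κ * A := mul_le_mul_of_nonneg_left hF1 hκ0.le
        _ = εc / 16 := by rw [hκ]; field_simp
    have t3 : c * (En Q L (m1 ^ i * m1) (D * Kf (i + 1) * H) F' - En Q L (m1 ^ i) (D * Kf i * H) F') ≤ εc / 16 := by
      have e : En Q L (m1 ^ i * m1) (D * Kf (i + 1) * H) F' = E (i + 1) := by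
        rw [hE, ← pow_succ]
      rw [e]
      have : c * (E (i + 1) - E i) ≤ c * (A / I) := mul_le_mul_of_nonneg_left hEi hc.le
      have e2 : En Q L (m1 ^ i) (D * Kf i * H) F' = E i := rfl
      rw [e2]
      linarith
    have t4 : 4 * ((L : ℝ) / H) * ((1 / (L : ℝ)) * ((1 / (L : ℝ)) * ∑ s ∈ range L, ∑ s' ∈ range L,
          |𝔼 q, fP w N s q * fP w N s' q - 𝔼 q, F' s q * F' s' q|)) ≤ εc / 16 := by
      have e : (L : ℝ) / H = l := by
        rw [hL]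
        push_cast
        field_simp
      rw [e]
      calc _ ≤ 4 * (l : ℝ) * (εc / (64 * l)) := mul_le_mul_of_nonneg_left hF2 (by positivity)
        _ = εc / 16 := by field_simp; norm_num
    linarith

end Pool.Agent.NH16.SM
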