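import Pool.Agent.NH16.SM.C5

set_option autoImplicit false
set_option linter.unusedSectionVars false
set_option linter.unusedVariables false

/-!
# The counting theorem for a bounded multiple
-/

namespace Pool.Agent.NH16.SM

open Finset Filter Topology
open scoped BigOperators
open Pool.Agent.NH16.DL

/-- the conclusion of `cutN` -/
def CutHyp : Prop := ∀ εc : ℝ, 0 < εc → ∃ Bd : ℕ, ∃ lam0 : ℝ, 0 < lam0 ∧ lam0 ≤ 1 ∧ ∃ H0 : ℕ, ∃ w0 : ℕ,
    ∀ w : ℕ, w0 ≤ w →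
    ∀ ε : ℝ, 0 < ε → ∀ᶠ N : ℕ in atTop, ∀ H : ℕ, H0 ≤ H → 4 * Real.log N ≤ lam0 * H → (H : ℝ) ≤ (N : ℝ) ^ (1 - ε) →
      ∃ μ K J : ℕ, 1 ≤ μ ∧ μ ≤ Bd ∧ 1 ≤ K ∧ K ≤ Bd ∧ H ≤ J ∧ J ≤ Bd * H ∧
        ∀ b : Fin H → ℝ, (∀ s, |b s| ≤ 1) →
          𝔼 z : Fin K × kap w N, (𝔼 s, b s * (fP w N (μ * J + μ * vl z.1 * vl s) z.2 -
            PsiN w N μ J z.2)) ^ 2 ≤ εc

/-- the numerical estimate -/
lemma num_est {R : ℕ} {P K B Mj εc θ cR δ : ℝ} {b : ℕ} (hδ : 0 < δ) (hP1 : 1 ≤ P) (hK2 : 2 ≤ K) (hB0 : 0 < B)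
    (hMj0 : 0 < Mj) (hcR : 1 ≤ cR) (hθ : θ = 4 * (1 / 2 : ℝ) ^ b)
    (hb1 : (8 * P ^ 2 * B) ^ 2 * B * 4 * 4 * cR * (K ^ (4 * R + 4) * (1 / 2 : ℝ) ^ b) ≤ δ ^ 4 / 9)
    (hb2 : 6 * P ^ 2 * B * Mj / δ ^ 2 ≤ K) (hεc : εc = δ ^ 2 / (6 * (P ^ 2 * K ^ (2 * R) * B))) :
    P * (K ^ R * Real.sqrt (B * ((2 * εc + 2 * (Mj / K ^ (2 * R + 2))) + 8 * K ^ 2 * Real.sqrt (B * (4 * (θ * cR)))))) ≤ δ := by
  have hθ0 : 0 < θ := by rw [hθ]; positivity
  have hεc0 : 0 < εc := by rw [hεc]; positivity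
  have h1 : P * (K ^ R * Real.sqrt (B * ((2 * εc + 2 * (Mj / K ^ (2 * R + 2))) + 8 * K ^ 2 * Real.sqrt (B * (4 * (θ * cR)))))) =
      Real.sqrt ((P * K ^ R) ^ 2 * (B * ((2 * εc + 2 * (Mj / K ^ (2 * R + 2))) + 8 * K ^ 2 * Real.sqrt (B * (4 * (θ * cR)))))) := by
    rw [← mul_sqrt' (by positivity)]
    ring
  rw [h1]
  have hA1 : P ^ 2 * K ^ (2 * R) * B * (2 * εc) = δ ^ 2 / 3 := by
    rw [hεc]
    field_simp
    norm_num
  have hA2 : P ^ 2 * K ^ (2 * R) * B * (2 * (Mj / K ^ (2 * R + 2))) ≤ δ ^ 2 / 3 := by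
    have e : P ^ 2 * K ^ (2 * R) * B * (2 * (Mj / K ^ (2 * R + 2))) = 2 * P ^ 2 * B * Mj / K ^ 2 := by
      rw [pow_add]
      field_simp
    rw [e, div_le_div_iff₀ (by positivity) (by norm_num)]
    have h2 : 6 * P ^ 2 * B * Mj / δ ^ 2 ≤ K ^ 2 := hb2.trans (by nlinarith)
    rw [div_le_iff₀ (by positivity)] at h2
    linarith
  have hA3 : P ^ 2 * K ^ (2 * R) * B * (8 * K ^ 2 * Real.sqrt (B * (4 * (θ * cR)))) ≤ δ ^ 2 / 3 := by
    have e : P ^ 2 * K ^ (2 * R) * B * (8 * K ^ 2 * Real.sqrt (B * (4 * (θ * cR)))) =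
        Real.sqrt ((8 * P ^ 2 * B * K ^ (2 * R + 2)) ^ 2 * (B * (4 * (θ * cR)))) := by
      rw [← mul_sqrt' (by positivity)]
      ring
    rw [e]
    refine Real.sqrt_le_iff.2 ⟨by positivity, ?_⟩
    have h2 : (8 * P ^ 2 * B * K ^ (2 * R + 2)) ^ 2 * (B * (4 * (θ * cR))) =
        (8 * P ^ 2 * B) ^ 2 * B * 4 * 4 * cR * (K ^ (4 * R + 4) * (1 / 2 : ℝ) ^ b) := by
      rw [hθ]
      ring
    rw [h2]
    have h3 : (δ ^ 2 / 3) ^ 2 = δ ^ 4 / 9 := by ring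
    rw [h3]
    exact hb1
  calc Real.sqrt ((P * K ^ R) ^ 2 * (B * ((2 * εc + 2 * (Mj / K ^ (2 * R + 2))) + 8 * K ^ 2 * Real.sqrt (B * (4 * (θ * cR)))))) ≤
        Real.sqrt (δ ^ 2) := by
        refine Real.sqrt_le_sqrt ?_
        have e : (P * K ^ R) ^ 2 * (B * ((2 * εc + 2 * (Mj / K ^ (2 * R + 2))) + 8 * K ^ 2 * Real.sqrt (B * (4 * (θ * cR))))) =
            P ^ 2 * K ^ (2 * R) * B * (2 * εc) + P ^ 2 * K ^ (2 * R) * B * (2 * (Mj / K ^ (2 * R + 2))) +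
            P ^ 2 * K ^ (2 * R) * B * (8 * K ^ 2 * Real.sqrt (B * (4 * (θ * cR)))) := by
          ring
        rw [e]
        linarith
    _ = δ := Real.sqrt_sq hδ.le

theorem core (hPS1 : S_PS1) (hTI : S_TI) (hFP2 : S_FP2) (hFP3 : S_FP3) {R C : ℕ} (hC : 1 ≤ C)
    (hLV : ∀ b : ℕ, C ≤ b → ∀ η : ℝ, 0 < η → ∀ w : ℕ, 1 ≤ w → ∀ᶠ N : ℕ in atTop, LV (2 * R + 6) C b w N η)
    (hCut : CutHyp) :
    ∀ δ : ℝ, 0 < δ → ∃ Bd : ℕ, ∃ lam0 : ℝ, 0 < lam0 ∧ lam0 ≤ 1 ∧ ∃ H0 : ℕ, ∃ w0 : ℕ,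
    ∀ w : ℕ, w0 ≤ w → ∀ ε : ℝ, 0 < ε → ∀ᶠ N : ℕ in atTop, ∀ H : ℕ, H0 ≤ H → 4 * Real.log N ≤ lam0 * H →
      (H : ℝ) ≤ (N : ℝ) ^ (1 - ε) → ∃ (μ K J : ℕ) (Kc : ℝ), 1 ≤ μ ∧ μ ≤ Bd ∧ 1 ≤ K ∧ K ≤ Bd ∧ J ≤ Bd * H ∧ 1 ≤ Kc ∧
        |𝔼 q : kap w N, min (PsiN w N μ J q) Kc - 1| ≤ δ ∧ ∀ n ≤ R,
        𝔼 q : kap w N, (min (PsiN w N μ J q) Kc) ^ (n + 1) ≤ 2 ^ (n + 1) * K0c C ^ (n + 1) * BB (n + 1) ∧
        𝔼 r : Fin (n + 1) → Fin H, |𝔼 z : Fin K × kap w N, ∏ i, fP w N (μ * J + μ * vl z.1 * vl (r i)) z.2 -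
          𝔼 q : kap w N, (min (PsiN w N μ J q) Kc) ^ (n + 1)| ≤ δ := by
  intro δ hδ
  set m : ℕ := 2 * R + 2 with hm
  set Mj : ℝ := 2 ^ (m + 2) * K0c C ^ (m + 2) * BB (m + 2) with hMj
  have hK02 : 2 ≤ K0c C := two_le_K C (C + 3)
  have hBBm : 1 ≤ BB (m + 2) := one_le_BB _
  have hMj0 : 0 < Mj := by positivity
  set B : ℝ := ∑ n ∈ range (R + 1), BB n + BB 2 with hB
  have hB2 : 1 ≤ BB 2 := one_le_BB 2
  have hBn : ∀ n ≤ R, BB n ≤ B := by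
    intro n hn
    have : BB n ≤ ∑ n ∈ range (R + 1), BB n :=
      single_le_sum (f := BB) (fun i _ => by linarith [one_le_BB i]) (mem_range.2 (by omega))
    linarith
  have hBB2 : BB 2 ≤ B := by
    have : 0 ≤ ∑ n ∈ range (R + 1), BB n := sum_nonneg fun i _ => by linarith [one_le_BB i]
    linarith
  have hB0 : 0 < B := by linarith
  set cR : ℝ := ∑ n ∈ range (R + 1), c1 (2 * n + 2) with hcRdef
  have hcn : ∀ n ≤ R, c1 (2 * n + 2) ≤ cR := by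
    intro n hn
    exact single_le_sum (f := fun n => c1 (2 * n + 2)) (fun i _ => by
      have := one_le_c1 (2 * i + 2)
      show (0 : ℝ) ≤ c1 (2 * i + 2)
      linarith) (mem_range.2 (by omega))
  have hcR : 1 ≤ cR := (one_le_c1 _).trans (hcn 0 (Nat.zero_le _))
  set SB : ℝ := ∑ i ∈ range (2 * R + 2), BB i with hSB
  have hSBi : ∀ i < 2 * R + 2, BB i ≤ SB := fun i hi =>
    single_le_sum (f := BB) (fun i _ => by linarith [one_le_BB i]) (mem_range.2 hi)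
  have hSB0 : 0 ≤ SB := by linarith [one_le_BB 0, hSBi 0 (by omega)]
  set P : ℝ := (R + 1 : ℝ) with hP
  have hP1 : 1 ≤ P := by rw [hP]; have := Nat.cast_nonneg (α := ℝ) R; linarith
  -- choice of b
  have t1 : Tendsto (fun b : ℕ => (8 * P ^ 2 * B) ^ 2 * B * 4 * 4 * cR * ((2 / ke C b) ^ (4 * R + 4) * (1 / 2 : ℝ) ^ b))
      atTop (𝓝 0) := by
    have h := (Kpow C (4 * R + 4) hC).const_mul ((8 * P ^ 2 * B) ^ 2 * B * 4 * 4 * cR)
    rwa [mul_zero] at h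
  have t2 : Tendsto (fun b : ℕ => (2 / ke C b)) atTop atTop :=
    tendsto_atTop_mono (fun b => K_ge_b C b hC) tendsto_natCast_atTop_atTop
  obtain ⟨b, hb1, hb2, hb3, hb4, hb5⟩ := ((le_of_ev t1 (t := δ ^ 4 / 9) (by positivity)).and
    ((t2.eventually_ge_atTop (6 * P ^ 2 * B * Mj / δ ^ 2)).and ((t2.eventually_ge_atTop (2 * Mj / δ)).and
    ((eventually_ge_atTop C).and (eventually_ge_atTop 3))))).exists
  set K : ℝ := 2 / ke C b with hK
  have hK2 : 2 ≤ K := two_le_K C b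
  set θ : ℝ := 4 * (1 / 2 : ℝ) ^ b with hθ
  have hθ0 : 0 < θ := by positivity
  have hθ1 : θ ≤ 1 / 2 := by
    have : (1 / 2 : ℝ) ^ b ≤ (1 / 2 : ℝ) ^ 3 := pow_le_pow_of_le_one (by norm_num) (by norm_num) hb5
    rw [hθ]
    norm_num at this ⊢
    linarith
  set εc : ℝ := δ ^ 2 / (6 * (P ^ 2 * K ^ (2 * R) * B)) with hεc
  have hεc0 : 0 < εc := by positivity
  obtain ⟨Bd, lamc, hlamc0, hlamc1, H0, wc, hcut⟩ := hCut εc hεc0
  have hm0 : (0 : ℝ) < m := by rw [hm]; positivity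
  set lam0 : ℝ := min lamc (θ / (2 * ((m : ℝ) ^ 2 * (SB + 1)))) with hlam0
  have hlam0p : 0 < lam0 := lt_min hlamc0 (by positivity)
  have hl5 : (m : ℝ) ^ 2 * lam0 * (SB + 1) ≤ θ / 2 := by
    have : lam0 ≤ θ / (2 * ((m : ℝ) ^ 2 * (SB + 1))) := min_le_right _ _
    rw [le_div_iff₀ (by positivity)] at this
    linarith
  have e3 : ∀ᶠ w : ℕ in atTop, ∀ n ∈ range (R + 1), XA (2 * n + 2) w ≤ θ / 2 :=
    (eventually_all_finset _).2 fun n _ => le_of_ev (XA_tendsto _) (by positivity)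
  have e4 : ∀ᶠ w : ℕ in atTop, (m : ℝ) ^ 2 / w ≤ θ / 2 :=
    le_of_ev (tendsto_const_div_atTop_nhds_zero_nat _) (by positivity)
  obtain ⟨w0, hw0⟩ := eventually_atTop.1 (e3.and (e4.and ((eventually_ge_atTop 1).and
    ((eventually_ge_atTop Bd).and (eventually_ge_atTop wc)))))
  refine ⟨Bd, lam0, hlam0p, (min_le_left _ _).trans hlamc1, H0 + 1, w0, fun w hw ε hε => ?_⟩
  obtain ⟨g3, g4, g5, g6, g7⟩ := hw0 w hw
  set η : ℝ := min (1 / 2) (θ / 2) with hη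
  have hηp : 0 < η := lt_min (by norm_num) (by positivity)
  have hη1 : η ≤ 1 / 2 := min_le_left _ _
  have hη2 : η ≤ θ / 2 := min_le_right _ _
  filter_upwards [hLV (C + 3) (by omega) (1 / 2) (by norm_num) w g5, hLV b hb4 η hηp w g5,
    eventually_ge_atTop 3, hcut w g7 ε hε, hFP2 w (δ / 4) (by positivity),
    trE_small hFP3 w hε (2 * Bd * Bd) 1 (t := δ / 4) (by positivity)]
    with N hV0 hV1 hN hcN hmean htr H hH hHlog hHN
  have hlogN : 1 ≤ Real.log N := by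
    rw [Real.le_log_iff_exp_le (by positivity)]
    have h3 : (3 : ℝ) ≤ N := by exact_mod_cast hN
    linarith [Real.exp_one_lt_d9]
  have hH1 : 1 ≤ H := by omega
  have hHp : (0 : ℝ) < H := by exact_mod_cast hH1
  obtain ⟨μ, Kt, J, hμ1, hμB, hK1, hKB, hHJ, hJB, hcutb⟩ := hcN H (by omega)
    (hHlog.trans (mul_le_mul_of_nonneg_right (min_le_left _ _) hHp.le)) hHN
  have hJ1 : 1 ≤ J := hH1.trans hHJ
  have hNe : Nonempty (kap w N) := kap_nonempty (by omega)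
  have hHe : Nonempty (Fin H) := ⟨⟨0, hH1⟩⟩
  have hKe : Nonempty (Fin Kt) := ⟨⟨0, hK1⟩⟩
  have hlam1 : lam0 ≤ 1 := (min_le_left _ _).trans hlamc1
  have hnd : ∀ a : ℕ, 1 ≤ a → a ≤ Bd → ∀ p : ℕ, p.Prime → w < p → ¬ p ∣ a := by
    intro a ha1 ha2 p hp hwp hd
    have := Nat.le_of_dvd ha1 hd
    omega
  -- the ensembles
  have hens : ∀ k : Fin Kt,
      (∀ m' ≤ 2 * R + 6, MB (fun (s : Fin H) (q : kap w N) => nuP w (yx C b N) N (μ * J + μ * vl k * vl s) q)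
        (fun _ _ => 1) (BB m') m') ∧
      (∀ m' ≤ 2 * R + 6, 1 ≤ m' → PR (fun (s : Fin H) (q : kap w N) => nuP w (yx C b N) N (μ * J + μ * vl k * vl s) q)
        (fun _ _ => 1) (tauA m' w θ η lam0) m') := by
    intro k
    have hck : 1 ≤ μ * vl k := Nat.mul_pos hμ1 (vl_pos k)
    have hpk : ∀ p : ℕ, p.Prime → w < p → ¬ p ∣ μ * vl k := by
      intro p hp hwp hd
      rcases hp.dvd_mul.1 hd with h1 | h1
      · exact hnd μ hμ1 hμB p hp hwp h1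
      · exact hnd (vl k) (vl_pos k) ((vl_le k).trans hKB) p hp hwp h1
    obtain ⟨p1, p2, -⟩ := hV1.ps hPS1 (by omega) g5 (by linarith) hηp.le (by linarith)
      (PosOK_mul (R := H) (o := μ * J) hck hpk) hH1 hHlog hlam1
    exact ⟨p1, p2⟩
  have hMB2 : MB (ρ := Fin H) (κ := Fin Kt × kap w N)
      (fun s z => nuP w (yx C b N) N (μ * J + μ * vl z.1 * vl s) z.2) (fun _ _ => 1) B 2 :=
    MB_avg (ρ := Fin H) (κ := kap w N) hK1
      (ν := fun k s q => nuP w (yx C b N) N (μ * J + μ * vl k * vl s) q)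
      (fun k a => ((hens k).1 2 (by omega) a).trans hBB2)
  -- moments
  have hJlog : 4 * Real.log N ≤ J := by
    have h1 : (H : ℝ) ≤ J := by exact_mod_cast hHJ
    have h2 : lam0 * H ≤ 1 * H := mul_le_mul_of_nonneg_right hlam1 hHp.le
    linarith
  have hmomq : ∀ m' ≤ 2 * R + 6, 𝔼 q : kap w N, PsiN w N μ J q ^ m' ≤ 2 ^ m' * K0c C ^ m' * BB m' :=
    fun m' hm' => PsiN_moment hV0 hPS1 (by omega) g5 (by norm_num) (by norm_num) hJ1 hμ1 (hnd μ hμ1 hμB) hJlog hm'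
  have hmom : 𝔼 z : Fin Kt × kap w N, PsiN w N μ J z.2 ^ (m + 2) ≤ Mj := by
    rw [exp_prod]
    exact expect_le univ_nonempty fun _ _ => hmomq (m + 2) (by omega)
  refine ⟨μ, Kt, J, K, hμ1, hμB, hK1, hKB, hJB, by linarith, ?_, fun n hn => ⟨?_, ?_⟩⟩
  · -- the mean
    have i1 := abs_le.1 (PsiN_mean hTI (w := w) (N := N) (μ := μ) hJ1)
    have i2 := abs_le.1 hmean
    have i3 : trE w N (2 * μ * J) (Real.log N) ≤ δ / 4 := by
      have := htr (2 * μ * J) (by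
        have h1 : 2 * μ * J ≤ 2 * Bd * Bd * H := by
          calc 2 * μ * J ≤ 2 * Bd * (Bd * H) := Nat.mul_le_mul (Nat.mul_le_mul_left _ hμB) hJB
            _ = _ := by ring
        calc ((2 * μ * J : ℕ) : ℝ) ≤ ((2 * Bd * Bd * H : ℕ) : ℝ) := by exact_mod_cast h1
          _ = ((2 * Bd * Bd : ℕ) : ℝ) * H := by push_cast; ring
          _ ≤ _ := mul_le_mul_of_nonneg_left hHN (Nat.cast_nonneg _))
      rwa [pow_one] at this
    have hmom' : 𝔼 q : kap w N, PsiN w N μ J q ^ (m + 2) ≤ Mj := hmomq (m + 2) (by omega)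
    have hx : Mj / K ^ (m + 1) ≤ δ / 2 := by
      have h1 : K ≤ K ^ (m + 1) := le_self_pow₀ (by linarith) (by omega)
      have h2 : 2 * Mj / δ ≤ K ^ (m + 1) := hb3.trans h1
      rw [div_le_iff₀ hδ] at h2
      rw [div_le_div_iff₀ (by positivity) (by positivity)]
      linarith
    have hlo : 𝔼 q : kap w N, PsiN w N μ J q - 𝔼 q : kap w N, min (PsiN w N μ J q) K ≤ Mj / K ^ (m + 1) := by
      rw [← expect_sub_distrib]
      refine (expect_le_expect fun q _ => trunc_one (PsiN_nonneg _ _ _ _ _) (by linarith) m).trans ?_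
      rw [← expect_div]
      exact div_le_div_of_nonneg_right hmom' (by positivity)
    have hup : 𝔼 q : kap w N, min (PsiN w N μ J q) K ≤ 𝔼 q : kap w N, PsiN w N μ J q :=
      expect_le_expect fun q _ => min_le_left _ _
    rw [abs_le]
    constructor <;> linarith [i1.1, i1.2, i2.1, i2.2]
  · refine (expect_le_expect fun q _ => ?_).trans (hmomq (n + 1) (by omega))
    exact pow_le_pow_left₀ (le_min (PsiN_nonneg _ _ _ _ _) (by linarith)) (min_le_left _ _) _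
  · have hMBn : MB (ρ := Fin H) (κ := Fin Kt × kap w N)
        (fun s z => nuP w (yx C b N) N (μ * J + μ * vl z.1 * vl s) z.2) (fun _ _ => 1) B n :=
      MB_avg (ρ := Fin H) (κ := kap w N) hK1
        (ν := fun k s q => nuP w (yx C b N) N (μ * J + μ * vl k * vl s) q)
        (fun k a => ((hens k).1 n (by omega) a).trans (hBn n hn))
    have htau : tauA (2 * n + 2) w θ η lam0 ≤ 4 * (θ * cR) := by
      unfold tauA
      have a1 := g3 n (mem_range.2 (by omega))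
      have a2 : 2 * θ * c1 (2 * n + 2) ≤ 2 * θ * cR := mul_le_mul_of_nonneg_left (hcn n hn) (by positivity)
      have hcast : (((2 * n + 2 : ℕ) : ℝ)) ≤ (m : ℝ) := by exact_mod_cast (by omega : 2 * n + 2 ≤ m)
      have a3 : (((2 * n + 2 : ℕ) : ℝ)) ^ 2 ≤ (m : ℝ) ^ 2 := pow_le_pow_left₀ (Nat.cast_nonneg _) hcast 2
      have a4 : (((2 * n + 2 : ℕ) : ℝ)) ^ 2 / w ≤ θ / 2 := (div_le_div_of_nonneg_right a3 (Nat.cast_nonneg _)).trans g4
      have a5 : (((2 * n + 2 : ℕ) : ℝ)) ^ 2 * lam0 * (BB (2 * n + 2 - 1) + 1) ≤ θ / 2 := by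
        refine le_trans ?_ hl5
        have h1 := hSBi (2 * n + 2 - 1) (by omega)
        have h2 := one_le_BB (2 * n + 2 - 1)
        exact mul_le_mul (mul_le_mul_of_nonneg_right a3 hlam0p.le) (by linarith) (by linarith) (by positivity)
      have a6 : θ * 1 ≤ θ * cR := mul_le_mul_of_nonneg_left hcR hθ0.le
      linarith
    have hPR : PR (ρ := Fin H) (κ := Fin Kt × kap w N)
        (fun s z => nuP w (yx C b N) N (μ * J + μ * vl z.1 * vl s) z.2) (fun _ _ => 1) (4 * (θ * cR)) (n + n + 1 + 1) := by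
      have hmn : n + n + 1 + 1 = 2 * n + 2 := by ring
      rw [hmn]
      exact PR_avg (ρ := Fin H) (κ := kap w N) hK1
        (ν := fun k s q => nuP w (yx C b N) N (μ * J + μ * vl k * vl s) q)
        (fun k a => ((hens k).2 (2 * n + 2) (by omega) (by omega) a).trans htau)
    have hcount := cnt (ρ := Fin H) (κ := Fin Kt × kap w N) (n := n) (j := m) (K := K) (B := B)
      (τ := 4 * (θ * cR)) (ε := εc) (Mj := Mj)
      (fun s z => fP w N (μ * J + μ * vl z.1 * vl s) z.2)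
      (fun s z => nuP w (yx C b N) N (μ * J + μ * vl z.1 * vl s) z.2)
      (fun z => PsiN w N μ J z.2) (by linarith) (fun s z => Fp_nonneg _ _ _) (fun s z => hV1.fp _)
      (fun s z => gy_nonneg _ _ _) (fun z => PsiN_nonneg _ _ _ _ _) hmom hB0.le (by positivity) hMBn hMB2 hPR hcutb
    have e : 𝔼 z : Fin Kt × kap w N, (min (PsiN w N μ J z.2) K) ^ (n + 1) =
        𝔼 q : kap w N, (min (PsiN w N μ J q) K) ^ (n + 1) := by
      rw [exp_prod]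
      exact expect_const (univ_nonempty (α := Fin Kt)) (𝔼 q : kap w N, (min (PsiN w N μ J q) K) ^ (n + 1))
    rw [e] at hcount
    have hnum := num_est (R := R) hδ hP1 hK2 hB0 hMj0 hcR hθ hb1 hb2 hεc
    rw [← hm] at hnum
    refine le_trans hcount (le_trans ?_ hnum)
    have hn' : (n : ℝ) + 1 ≤ P := by rw [hP]; have : (n : ℝ) ≤ R := by exact_mod_cast hn
                                     linarith
    exact mul_le_mul hn' (mul_le_mul_of_nonneg_right (pow_le_pow_right₀ (by linarith) hn) (Real.sqrt_nonneg _))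
      (by positivity) (by linarith)

end Pool.Agent.NH16.SM
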