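import Pool.Agent.NH16.SM.C6
import Pool.Agent.NH16.SM.PS

set_option autoImplicit false
set_option linter.unusedSectionVars false
set_option linter.unusedVariables false

/-!
# From the counting theorem to the prime tuples
-/

namespace Pool.Agent.NH16.SM

open Finset Filter Topology
open scoped BigOperators
open Pool.Agent.NH16.DL
open Pool.Agent.H386R2.HL (singularSeries)

/-- deterministic part -/
lemma det {K : ℕ} {Z M t e2 : ℝ} {X S P : ℕ → ℝ} (hK : 1 ≤ K) (hZ : 0 < Z) (ht0 : 0 < t) (ht : t ≤ 1 / 2) (hM : 0 ≤ M)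
    (h1 : |(1 / (K : ℝ)) * ∑ k ∈ Icc 1 K, X k - M| ≤ 2 * t)
    (h2 : ∀ k ∈ Icc 1 K, |P k - Z * (1 + e2) * X k| ≤ t * Z) (he : |e2| ≤ t)
    (h3 : ∀ k ∈ Icc 1 K, |S k - Z| ≤ t * Z) :
    |∑ k ∈ Icc 1 K, P k - M * ∑ k ∈ Icc 1 K, S k| ≤ (4 + 2 * M) * t * (K * Z) ∧
      (1 - t) * (K * Z) ≤ ∑ k ∈ Icc 1 K, S k := by
  have hKp : (0 : ℝ) < K := by exact_mod_cast hK
  have hcard : ((Icc 1 K).card : ℝ) = K := by rw [Nat.card_Icc]; norm_num
  have a1 : |∑ k ∈ Icc 1 K, (P k - Z * (1 + e2) * X k)| ≤ K * (t * Z) := by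
    refine (abs_sum_le_sum_abs _ _).trans ((sum_le_sum h2).trans ?_)
    rw [sum_const, nsmul_eq_mul, hcard]
  have a2 : |∑ k ∈ Icc 1 K, (S k - Z)| ≤ K * (t * Z) := by
    refine (abs_sum_le_sum_abs _ _).trans ((sum_le_sum h3).trans ?_)
    rw [sum_const, nsmul_eq_mul, hcard]
  rw [sum_sub_distrib, ← mul_sum] at a1
  rw [sum_sub_distrib, sum_const, nsmul_eq_mul, hcard] at a2
  set SX : ℝ := ∑ k ∈ Icc 1 K, X k with hSX
  set SP : ℝ := ∑ k ∈ Icc 1 K, P k with hSP
  set SS : ℝ := ∑ k ∈ Icc 1 K, S k with hSS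
  have a3 : |SX - K * M| ≤ 2 * t * K := by
    have e : SX - K * M = K * ((1 / (K : ℝ)) * SX - M) := by field_simp
    rw [e, abs_mul, abs_of_pos hKp]
    nlinarith
  have hE := abs_le.1 he
  constructor
  · have e : SP - M * SS = (SP - Z * (1 + e2) * SX) + Z * (1 + e2) * (SX - K * M) + Z * e2 * (K * M) -
        M * (SS - K * Z) := by ring
    rw [e]
    have b1 : |Z * (1 + e2) * (SX - K * M)| ≤ Z * (3 / 2) * (2 * t * K) := by
      rw [abs_mul, abs_mul, abs_of_pos hZ]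
      have : |1 + e2| ≤ 3 / 2 := by rw [abs_le]; constructor <;> linarith [hE.1, hE.2]
      exact mul_le_mul (mul_le_mul_of_nonneg_left this hZ.le) a3 (abs_nonneg _) (by positivity)
    have b2 : |Z * e2 * (K * M)| ≤ Z * t * (K * M) := by
      rw [abs_mul, abs_mul, abs_of_pos hZ, abs_of_nonneg (by positivity : (0 : ℝ) ≤ K * M)]
      exact mul_le_mul_of_nonneg_right (mul_le_mul_of_nonneg_left he hZ.le) (by positivity)
    have b3 : |M * (SS - K * Z)| ≤ M * (K * (t * Z)) := by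
      rw [abs_mul, abs_of_nonneg hM]
      exact mul_le_mul_of_nonneg_left a2 hM
    calc |(SP - Z * (1 + e2) * SX) + Z * (1 + e2) * (SX - K * M) + Z * e2 * (K * M) - M * (SS - K * Z)| ≤
          |SP - Z * (1 + e2) * SX| + |Z * (1 + e2) * (SX - K * M)| + |Z * e2 * (K * M)| + |M * (SS - K * Z)| := by
          refine (abs_sub _ _).trans ?_
          refine add_le_add ((abs_add_le _ _).trans ?_) le_rfl
          exact add_le_add (abs_add_le _ _) le_rfl
      _ ≤ K * (t * Z) + Z * (3 / 2) * (2 * t * K) + Z * t * (K * M) + M * (K * (t * Z)) := by linarith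
      _ = (4 + 2 * M) * t * (K * Z) := by ring
  · have := (abs_le.1 a2).1
    linarith

/-- Markov's inequality -/
lemma markov {ι : Type} [Fintype ι] [Nonempty ι] (φ : ι → ℝ) (h0 : ∀ r, 0 ≤ φ r) {t E : ℝ} (ht : 0 < t)
    (hE : 𝔼 r, φ r ≤ E) : (((univ : Finset ι).filter (fun r => t < φ r)).card : ℝ) ≤ E / t * Fintype.card ι := by
  have hc : (0 : ℝ) < Fintype.card ι := by exact_mod_cast Fintype.card_pos
  rw [Fintype.expect_eq_sum_div_card, div_le_iff₀ hc] at hE
  rw [div_mul_eq_mul_div, le_div_iff₀ ht]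
  refine le_trans ?_ hE
  calc (((univ : Finset ι).filter (fun r => t < φ r)).card : ℝ) * t =
        ∑ r ∈ univ.filter (fun r => t < φ r), t := by rw [sum_const, nsmul_eq_mul]
    _ ≤ ∑ r ∈ univ.filter (fun r => t < φ r), φ r := sum_le_sum fun r hr => (mem_filter.1 hr).2.le
    _ ≤ ∑ r, φ r := sum_le_sum_of_subset_of_nonneg (filter_subset _ _) fun r _ _ => h0 r

lemma noninj {H n : ℕ} (hH : 1 ≤ H) :
    (((univ : Finset (Fin (n + 1) → Fin H)).filter (fun r => ¬ Function.Injective r)).card : ℝ) ≤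
      ((n : ℝ) + 1) ^ 2 / H * (H : ℝ) ^ (n + 1) := by
  classical
  have hHe : Nonempty (Fin H) := ⟨⟨0, hH⟩⟩
  have hHp : (0 : ℝ) < H := by exact_mod_cast hH
  have hcard : (Fintype.card (Fin (n + 1) → Fin H) : ℝ) = (H : ℝ) ^ (n + 1) := by
    rw [Fintype.card_fun, Fintype.card_fin, Fintype.card_fin]
    push_cast
    rfl
  have h1 : 𝔼 r : Fin (n + 1) → Fin H, (if Function.Injective r then (0 : ℝ) else 1) ≤ ((n : ℝ) + 1) ^ 2 / H := by
    have h2 : ∀ r : Fin (n + 1) → Fin H, (if Function.Injective r then (0 : ℝ) else 1) ≤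
        ∑ i, ∑ k : Fin n, (if r i = r (i.succAbove k) then (1 : ℝ) else 0) := by
      intro r
      have h3 := le_coinc r (X := 0) (Y := if Function.Injective r then (0 : ℝ) else 1)
        (by split_ifs <;> norm_num) le_rfl (fun h => by rw [if_pos h])
      rw [zero_add] at h3
      refine h3.trans (sum_le_sum fun i _ => sum_le_sum fun k _ => ?_)
      split_ifs <;> norm_num
    refine (expect_le_expect fun r _ => h2 r).trans ?_
    rw [expect_sum_comm]
    have h4 : ∀ i : Fin (n + 1), 𝔼 r : Fin (n + 1) → Fin H, ∑ k : Fin n,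
        (if r i = r (i.succAbove k) then (1 : ℝ) else 0) ≤ ((n : ℝ) + 1) / H := by
      intro i
      rw [expect_sum_comm]
      have h5 : ∀ k : Fin n, 𝔼 r : Fin (n + 1) → Fin H, (if r i = r (i.succAbove k) then (1 : ℝ) else 0) = 1 / H := by
        intro k
        rw [exp_two i (i.succAbove k) (Fin.succAbove_ne i k).symm (fun s t : Fin H => if s = t then (1 : ℝ) else 0)]
        have h6 : ∀ s : Fin H, 𝔼 t : Fin H, (if s = t then (1 : ℝ) else 0) = 1 / H := by
          intro s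
          rw [Fintype.expect_eq_sum_div_card, Fintype.card_fin, sum_ite_eq, if_pos (mem_univ _)]
        simp only [h6]
        exact expect_const univ_nonempty _
      simp only [h5]
      rw [sum_const, card_univ, Fintype.card_fin, nsmul_eq_mul, mul_one_div]
      exact div_le_div_of_nonneg_right (by linarith) hHp.le
    calc _ ≤ ∑ _i : Fin (n + 1), ((n : ℝ) + 1) / H := sum_le_sum fun i _ => h4 i
      _ = _ := by
        rw [sum_const, card_univ, Fintype.card_fin, nsmul_eq_mul]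
        push_cast
        ring
  rw [Fintype.expect_eq_sum_div_card, hcard, div_le_iff₀ (by positivity)] at h1
  refine le_trans (le_of_eq ?_) h1
  rw [card_eq_sum_ones, sum_filter]
  push_cast
  refine sum_congr rfl fun r _ => ?_
  split_ifs with h2 h3 <;> simp_all

/-- counting bad vectors through the parametrisation by `Fin` -/
lemma card_bad {H n : ℕ} (bad : (Fin (n + 1) → ℕ) → Prop) [DecidablePred bad] :
    ((Fintype.piFinset (fun _ : Fin (n + 1) => Icc 1 H)).filter bad).card ≤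
      by classical exact ((univ : Finset (Fin (n + 1) → Fin H)).filter (fun r => bad (fun i => vl (r i)))).card := by
  classical
  have h1 : (Fintype.piFinset (fun _ : Fin (n + 1) => Icc 1 H)).filter bad ⊆
      ((univ : Finset (Fin (n + 1) → Fin H)).filter (fun r => bad (fun i => vl (r i)))).image
        (fun r i => vl (r i)) := by
    intro h hh
    rw [mem_filter, Fintype.mem_piFinset] at hh
    obtain ⟨h1, h2⟩ := hh
    have h3 : ∀ i, 1 ≤ h i ∧ h i ≤ H := fun i => mem_Icc.1 (h1 i)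
    have e : (fun i => vl (⟨h i - 1, by have := h3 i; omega⟩ : Fin H)) = h := by
      funext i
      unfold vl
      have := (h3 i).1
      show h i - 1 + 1 = h i
      omega
    rw [mem_image]
    refine ⟨fun i => ⟨h i - 1, by have := h3 i; omega⟩, ?_, e⟩
    rw [mem_filter]
    refine ⟨mem_univ _, ?_⟩
    rw [e]
    exact h2
  exact (card_le_card h1).trans card_image_le

/-- the estimate for one vector -/
lemma one_vec (hTI : S_TI) (hCP : S_CP) (hSS : S_SS) {w N n H μ Kt J Bd : ℕ} {t Mc δ : ℝ} (hN : 3 ≤ N) (hw1 : n + 1 ≤ w)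
    (hμ : 1 ≤ μ) (hμB : μ ≤ Bd) (hK : 1 ≤ Kt) (hKB : Kt ≤ Bd) (hBw : Bd * Bd ≤ w)
    (ht0 : 0 < t) (ht : t ≤ 1 / 2) (hM : 0 ≤ Mc) (hδ : (4 + 2 * Mc) * t ≤ δ * (1 - t)) (hδ0 : 0 ≤ δ)
    (htr : trE w N (μ * J) (Real.log N ^ (n + 1)) ≤ t)
    (hcard : |((kap w N).card : ℝ) / (N * Vv w) - 1| ≤ t)
    (hsq : 2 * (Real.log N ^ (n + 1) * (N : ℝ) ^ (-(1 / 2 : ℝ))) ≤ t)
    (r : Fin (n + 1) → Fin H) (hr : Function.Injective r)
    (hA : |𝔼 z : Fin Kt × kap w N, ∏ i, fP w N (μ * J + μ * vl z.1 * vl (r i)) z.2 - Mc| ≤ t)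
    (hB : (sg w (3 ^ (n + 1)) (dsc (fun i => vl (r i))) - 1) + ((n : ℝ) + 1) ^ 2 / w ≤ t) :
    |∑ k ∈ Icc 1 Kt, (pT (fun i => Wn w * μ * k * vl (r i)) N : ℝ) -
      Mc * ∑ k ∈ Icc 1 Kt, (N / Real.log N ^ (n + 1)) * singularSeries (fun i => Wn w * μ * k * vl (r i))| ≤
      δ * ∑ k ∈ Icc 1 Kt, (N / Real.log N ^ (n + 1)) * singularSeries (fun i => Wn w * μ * k * vl (r i)) := by
  have hne := kap_nonempty (w := w) (N := N) (by omega)
  have hKe : Nonempty (Fin Kt) := ⟨⟨0, hK⟩⟩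
  have hlogN : 1 ≤ Real.log N := by
    rw [Real.le_log_iff_exp_le (by positivity)]
    have h3 : (3 : ℝ) ≤ N := by exact_mod_cast hN
    linarith [Real.exp_one_lt_d9]
  have hNp : (0 : ℝ) < N := by
    have : (3 : ℝ) ≤ N := by exact_mod_cast hN
    linarith
  have hV := Vv_pos w
  have hV1 := Vv_le_one w
  have hKp : (0 : ℝ) < Kt := by exact_mod_cast hK
  set ℓ : ℝ := Real.log N with hℓ
  have hℓ0 : 0 < ℓ := by linarith
  have hWp : 1 ≤ Wn w := Wn_pos w
  set Z : ℝ := N / ℓ ^ (n + 1) / Vv w ^ n with hZ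
  have hZ0 : 0 < Z := by positivity
  set n0 : ℝ := ((kap w N).card : ℝ) with hn0
  have hn0p : 0 < n0 := by
    rw [hn0]
    exact_mod_cast Fintype.card_coe (kap w N) ▸ Fintype.card_pos
  -- the quantities
  set X : ℕ → ℝ := fun k => 𝔼 q : kap w N, ∏ i, Fp w N (q + Wn w * (μ * k * vl (r i))) with hX
  have hXm : |(1 / (Kt : ℝ)) * ∑ k ∈ Icc 1 Kt, X k - Mc| ≤ 2 * t := by
    have e1 : 𝔼 z : Fin Kt × kap w N, ∏ i, fP w N (μ * J + μ * vl z.1 * vl (r i)) z.2 =
        (1 / (Kt : ℝ)) * ∑ k ∈ Icc 1 Kt, 𝔼 q : kap w N, ∏ i, Fp w N (q + Wn w * (μ * J) + Wn w * (μ * k * vl (r i))) := by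
      rw [exp_prod, Fintype.expect_eq_sum_div_card, Fintype.card_fin, one_div, inv_mul_eq_div,
        ← sum_vl (fun k => 𝔼 q : kap w N, ∏ i, Fp w N (q + Wn w * (μ * J) + Wn w * (μ * k * vl (r i))))]
      congr 1
      refine sum_congr rfl fun k _ => expect_congr rfl fun q _ => prod_congr rfl fun i _ => ?_
      unfold fP
      congr 1
      ring
    rw [e1] at hA
    have h2 : |(1 / (Kt : ℝ)) * ∑ k ∈ Icc 1 Kt, X k - (1 / (Kt : ℝ)) * ∑ k ∈ Icc 1 Kt,
        𝔼 q : kap w N, ∏ i, Fp w N (q + Wn w * (μ * J) + Wn w * (μ * k * vl (r i)))| ≤ t := by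
      rw [← mul_sub, ← sum_sub_distrib, abs_mul, abs_of_nonneg (by positivity)]
      have h3 : |∑ k ∈ Icc 1 Kt, (X k - 𝔼 q : kap w N, ∏ i, Fp w N (q + Wn w * (μ * J) + Wn w * (μ * k * vl (r i))))| ≤
          ∑ _k ∈ Icc 1 Kt, t := by
        refine (abs_sum_le_sum_abs _ _).trans (sum_le_sum fun k _ => ?_)
        rw [abs_sub_comm]
        refine (exp_shift hTI w N (μ * J) (fun x => ∏ i, Fp w N (x + Wn w * (μ * k * vl (r i)))) (ℓ ^ (n + 1))
          (fun x => prod_nonneg fun i _ => Fp_nonneg _ _ _) (fun x => ?_)).trans htr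
        calc ∏ i, Fp w N (x + Wn w * (μ * k * vl (r i))) ≤ ∏ _i : Fin (n + 1), ℓ :=
              prod_le_prod (fun i _ => Fp_nonneg _ _ _) fun i _ => Fp_le _ _ _
          _ = ℓ ^ (n + 1) := by rw [prod_const, card_univ, Fintype.card_fin]
      rw [sum_const, Nat.card_Icc, nsmul_eq_mul] at h3
      have e : ((Kt + 1 - 1 : ℕ) : ℝ) = Kt := by norm_num
      rw [e] at h3
      calc _ ≤ (1 / (Kt : ℝ)) * (Kt * t) := mul_le_mul_of_nonneg_left h3 (by positivity)
        _ = t := by field_simp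
    have := abs_sub_le ((1 / (Kt : ℝ)) * ∑ k ∈ Icc 1 Kt, X k) ((1 / (Kt : ℝ)) * ∑ k ∈ Icc 1 Kt,
        𝔼 q : kap w N, ∏ i, Fp w N (q + Wn w * (μ * J) + Wn w * (μ * k * vl (r i)))) Mc
    linarith
  set e2 : ℝ := n0 / (N * Vv w) - 1 with he2
  have hfun : ∀ k, (fun i => Wn w * μ * k * vl (r i)) = fun i => Wn w * (μ * k * vl (r i)) := by
    intro k
    funext i
    ring
  have hP : ∀ k ∈ Icc 1 Kt, |(pT (fun i => Wn w * μ * k * vl (r i)) N : ℝ) - Z * (1 + e2) * X k| ≤ t * Z := by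
    intro k hk
    rw [mem_Icc] at hk
    rw [hfun]
    have h1 := hCP w N n (fun i => Wn w * (μ * k * vl (r i))) (by omega)
      (fun i => Nat.mul_pos hWp (Nat.mul_pos (Nat.mul_pos hμ hk.1) (vl_pos _))) (fun i => dvd_mul_right _ _)
    have h2 : ∑ q ∈ kap w N, ∏ i, Fp w N (q + Wn w * (μ * k * vl (r i))) = n0 * X k := by
      have e : X k = mean w N (fun q => ∏ i, Fp w N (q + Wn w * (μ * k * vl (r i)))) :=
        exp_kap w N (fun q => ∏ i, Fp w N (q + Wn w * (μ * k * vl (r i))))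
      rw [e]
      unfold mean
      rw [← hn0, mul_div_cancel₀ _ hn0p.ne']
    rw [h2] at h1
    set c : ℝ := (Vv w * ℓ) ^ (n + 1) with hc
    have hc0 : 0 < c := by positivity
    have e1 : Z * (1 + e2) = n0 / c := by
      rw [hZ, he2, hc, mul_pow]
      field_simp
      ring
    rw [e1]
    have e3 : (pT (fun i => Wn w * (μ * k * vl (r i))) N : ℝ) - n0 / c * X k =
        -((n0 * X k - c * (pT (fun i => Wn w * (μ * k * vl (r i))) N : ℝ)) / c) := by
      field_simp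
      ring
    rw [e3, abs_neg, abs_div, abs_of_pos hc0, div_le_iff₀ hc0]
    refine h1.trans ?_
    rw [mul_comm]
    refine mul_le_mul_of_nonneg_right ?_ hc0.le
    have hsN : 1 ≤ Real.sqrt N := by
      rw [Real.one_le_sqrt]
      have : (3 : ℝ) ≤ N := by exact_mod_cast hN
      linarith
    have h4 : 2 * Real.sqrt N * ℓ ^ (n + 1) / N ≤ t := by
      refine le_trans (le_of_eq ?_) hsq
      rw [Real.rpow_neg hNp.le, ← Real.sqrt_eq_rpow]
      have : (N : ℝ) = Real.sqrt N * Real.sqrt N := (Real.mul_self_sqrt hNp.le).symm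
      field_simp
      rw [Real.sq_sqrt hNp.le]
    have h5 : N / ℓ ^ (n + 1) ≤ Z := by
      rw [hZ, le_div_iff₀ (by positivity)]
      exact mul_le_of_le_one_right (by positivity) (pow_le_one₀ hV.le hV1)
    calc Real.sqrt N + 1 ≤ 2 * Real.sqrt N := by linarith
      _ = (2 * Real.sqrt N * ℓ ^ (n + 1) / N) * (N / ℓ ^ (n + 1)) := by field_simp
      _ ≤ t * (N / ℓ ^ (n + 1)) := mul_le_mul_of_nonneg_right h4 (by positivity)
      _ ≤ t * Z := mul_le_mul_of_nonneg_left h5 ht0.le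
  have hS : ∀ k ∈ Icc 1 Kt, |(N / ℓ ^ (n + 1)) * singularSeries (fun i => Wn w * μ * k * vl (r i)) - Z| ≤ t * Z := by
    intro k hk
    rw [mem_Icc] at hk
    rw [hfun]
    have hkB : μ * k ≤ w := (Nat.mul_le_mul hμB (hk.2.trans hKB)).trans hBw
    have h1 := hSS w n (μ * k) (fun i => vl (r i)) hw1 (Nat.mul_pos hμ hk.1) hkB (fun a b hab => hr (vl_inj hab))
    have e : (N / ℓ ^ (n + 1)) * singularSeries (fun i => Wn w * (μ * k * vl (r i))) - Z =
        Z * (Vv w ^ n * singularSeries (fun i => Wn w * (μ * k * vl (r i))) - 1) := by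
      rw [hZ]
      field_simp
    rw [e, abs_mul, abs_of_pos hZ0, mul_comm]
    exact mul_le_mul_of_nonneg_right (h1.trans hB) hZ0.le
  obtain ⟨d1, d2⟩ := det (K := Kt) (Z := Z) (M := Mc) (t := t) (e2 := e2) (X := X)
    (S := fun k => (N / ℓ ^ (n + 1)) * singularSeries (fun i => Wn w * μ * k * vl (r i)))
    (P := fun k => (pT (fun i => Wn w * μ * k * vl (r i)) N : ℝ)) hK hZ0 ht0 ht hM hXm hP hcard hS
  refine d1.trans ?_
  have hKZ : 0 ≤ (Kt : ℝ) * Z := by positivity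
  calc (4 + 2 * Mc) * t * (Kt * Z) ≤ δ * (1 - t) * (Kt * Z) := mul_le_mul_of_nonneg_right hδ hKZ
    _ = δ * ((1 - t) * (Kt * Z)) := by ring
    _ ≤ _ := mul_le_mul_of_nonneg_left d2 hδ0

end Pool.Agent.NH16.SM
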