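import Pool.Agent.NH16.SM.C7

set_option autoImplicit false
set_option linter.unusedSectionVars false
set_option linter.unusedVariables false

/-!
# The final statement
-/

namespace Pool.Agent.NH16.SM

open Finset Filter Topology
open scoped BigOperators
open Pool.Agent.NH16.DL
open Pool.Agent.H386R2.HL (singularSeries)

theorem final (hPS1 : S_PS1) (hTI : S_TI) (hFP2 : S_FP2) (hFP3 : S_FP3) (hCP : S_CP) (hSS : S_SS) {R C : ℕ}
    (hC : 1 ≤ C)
    (hLV : ∀ b : ℕ, C ≤ b → ∀ η : ℝ, 0 < η → ∀ w : ℕ, 1 ≤ w → ∀ᶠ N : ℕ in atTop, LV (2 * R + 6) C b w N η)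
    (hCut : CutHyp) : ∃ Cs : ℝ, 0 ≤ Cs ∧ ∀ δ : ℝ, 0 < δ → ∃ (B : ℕ) (b : ℝ), ∀ ε : ℝ, 0 < ε → ∀ᶠ N : ℕ in atTop,
      ∀ H : ℕ, b * Real.log N ≤ H → (H : ℝ) ≤ (N : ℝ) ^ (1 - ε) →
      ∃ (m K T : ℕ) (X : Fin T → ℝ), 1 ≤ m ∧ m ≤ B ∧ 1 ≤ K ∧ K ≤ B ∧ 1 ≤ T ∧ (∀ j, 0 ≤ X j) ∧
        |(∑ j, X j) / T - 1| ≤ δ ∧ ∀ n ≤ R, (∑ j, X j ^ (n + 1)) / T ≤ Cs ∧
        (((Fintype.piFinset (fun _ : Fin (n + 1) => Icc 1 H)).filter (fun h =>
          δ * ∑ k ∈ Icc 1 K, (N / Real.log N ^ (n + 1)) * singularSeries (fun i => m * k * h i) <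
          |∑ k ∈ Icc 1 K, (pT (fun i => m * k * h i) N : ℝ) - (∑ j, X j ^ (n + 1)) / T *
            ∑ k ∈ Icc 1 K, (N / Real.log N ^ (n + 1)) * singularSeries (fun i => m * k * h i)|)).card : ℝ) ≤
          δ * (H : ℝ) ^ (n + 1) := by
  classical
  set Cs : ℝ := ∑ n ∈ range (R + 1), 2 ^ (n + 1) * K0c C ^ (n + 1) * BB (n + 1) with hCs
  have hK02 : 2 ≤ K0c C := two_le_K C (C + 3)
  have hterm0 : ∀ n, 0 ≤ 2 ^ (n + 1) * K0c C ^ (n + 1) * BB (n + 1) := fun n => by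
    have := one_le_BB (n + 1)
    positivity
  have hCs0 : 0 ≤ Cs := sum_nonneg fun n _ => hterm0 n
  have hCsn : ∀ n ≤ R, 2 ^ (n + 1) * K0c C ^ (n + 1) * BB (n + 1) ≤ Cs := fun n hn =>
    single_le_sum (f := fun n => 2 ^ (n + 1) * K0c C ^ (n + 1) * BB (n + 1)) (fun i _ => hterm0 i)
      (mem_range.2 (by omega))
  refine ⟨Cs, hCs0, fun δ hδ => ?_⟩
  set δ0 : ℝ := min δ 1 with hδ0
  have hδ0p : 0 < δ0 := lt_min hδ one_pos
  have hδ01 : δ0 ≤ 1 := min_le_right _ _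
  have hδ0δ : δ0 ≤ δ := min_le_left _ _
  set t : ℝ := δ0 / (4 * (2 + Cs)) with ht
  have ht0 : 0 < t := by positivity
  have ht8 : t * 8 ≤ δ0 := by
    rw [ht, div_mul_eq_mul_div, div_le_iff₀ (by positivity)]
    nlinarith
  have htCs : t * (4 * (2 + Cs)) = δ0 := by rw [ht]; field_simp
  have ht12 : t ≤ 1 / 2 := by linarith
  set δ1 : ℝ := min δ (t * δ0 / 3) with hδ1
  have hδ1p : 0 < δ1 := lt_min hδ (by positivity)
  obtain ⟨Bd, lam0, hlam0, hlam1, H0, w0, hw0⟩ := core hPS1 hTI hFP2 hFP3 hC hLV hCut δ1 hδ1p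
  -- choice of w
  have e3 : ∀ᶠ w : ℕ in atTop, ∀ n ∈ range (R + 1), XA (n + 1) w ≤ t * δ0 / 6 :=
    (eventually_all_finset _).2 fun n _ => le_of_ev (XA_tendsto _) (by positivity)
  have e4 : ∀ᶠ w : ℕ in atTop, ((R : ℝ) + 1) ^ 2 / w ≤ t * δ0 / 6 :=
    le_of_ev (tendsto_const_div_atTop_nhds_zero_nat _) (by positivity)
  obtain ⟨w, g3, g4, g5, g6, g7⟩ := (e3.and (e4.and ((eventually_ge_atTop (R + 1)).and
    ((eventually_ge_atTop (Bd * Bd)).and (eventually_ge_atTop w0))))).exists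
  refine ⟨Wn w * Bd + Bd, 4 / lam0 + H0 + 3 * ((R : ℝ) + 1) ^ 2 / δ0, fun ε hε => ?_⟩
  have etr : ∀ᶠ N : ℕ in atTop, ∀ n ∈ range (R + 1), ∀ v : ℕ, (v : ℝ) ≤ (Bd * Bd : ℕ) * (N : ℝ) ^ (1 - ε) →
      trE w N v (Real.log N ^ (n + 1)) ≤ t :=
    (eventually_all_finset _).2 fun n _ => trE_small hFP3 w hε (Bd * Bd) (n + 1) ht0
  have esq : ∀ᶠ N : ℕ in atTop, ∀ n ∈ range (R + 1), 2 * (Real.log N ^ (n + 1) * (N : ℝ) ^ (-(1 / 2 : ℝ))) ≤ t :=
    (eventually_all_finset _).2 fun n _ => le_of_ev (log_pow_rpow (n + 1) (by norm_num) 2) ht0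
  filter_upwards [hw0 w g7 ε hε, etr, esq, hFP3 w t ht0, eventually_ge_atTop 3] with N hN htr hsq hcard hN3 H hH hHN
  have hlogN : 1 ≤ Real.log N := by
    rw [Real.le_log_iff_exp_le (by positivity)]
    have h3 : (3 : ℝ) ≤ N := by exact_mod_cast hN3
    linarith [Real.exp_one_lt_d9]
  have hb1 : 4 * Real.log N ≤ lam0 * H := by
    have h1 : 4 / lam0 * Real.log N ≤ H := by
      refine le_trans (mul_le_mul_of_nonneg_right ?_ (by linarith)) hH
      have h2 : (0 : ℝ) ≤ H0 := Nat.cast_nonneg _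
      have h3 : (0 : ℝ) ≤ 3 * ((R : ℝ) + 1) ^ 2 / δ0 := by positivity
      linarith
    rw [div_mul_eq_mul_div, div_le_iff₀ hlam0] at h1
    linarith
  have hb2 : H0 ≤ H := by
    have h1 : (H0 : ℝ) ≤ H := by
      refine le_trans ?_ hH
      have h2 : (0 : ℝ) ≤ 4 / lam0 := by positivity
      have h3 : (0 : ℝ) ≤ 3 * ((R : ℝ) + 1) ^ 2 / δ0 := by positivity
      have h4 : (0 : ℝ) ≤ H0 := Nat.cast_nonneg _
      nlinarith
    exact_mod_cast h1
  have hb3 : 3 * ((R : ℝ) + 1) ^ 2 / δ0 ≤ H := by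
    refine le_trans ?_ hH
    have h2 : (0 : ℝ) ≤ 4 / lam0 := by positivity
    have h3 : (0 : ℝ) ≤ 3 * ((R : ℝ) + 1) ^ 2 / δ0 := by positivity
    have h4 : (0 : ℝ) ≤ H0 := Nat.cast_nonneg _
    nlinarith
  have hHp : (0 : ℝ) < H := lt_of_lt_of_le (by positivity) hb3
  have hH1 : 1 ≤ H := by exact_mod_cast hHp
  have hHe : Nonempty (Fin H) := ⟨⟨0, hH1⟩⟩
  obtain ⟨μ, Kt, J, Kc, hμ1, hμB, hK1, hKB, hJB, hKc, hmean, hall⟩ := hN H hb2 hb1 hHN
  have hNe : Nonempty (kap w N) := kap_nonempty (by omega)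
  set T : ℕ := Fintype.card (kap w N) with hT
  have hT1 : 1 ≤ T := Fintype.card_pos
  set e := (Fintype.equivFin (kap w N)).symm with he
  set X : Fin T → ℝ := fun j => min (PsiN w N μ J (e j)) Kc with hX
  have hXsum : ∀ m : ℕ, (∑ j, X j ^ m) / T = 𝔼 q : kap w N, (min (PsiN w N μ J q) Kc) ^ m := by
    intro m
    rw [Fintype.expect_eq_sum_div_card]
    congr 1
    exact Equiv.sum_comp e (fun q : kap w N => (min (PsiN w N μ J q) Kc) ^ m)
  refine ⟨Wn w * μ, Kt, T, X, Nat.mul_pos (Wn_pos w) hμ1, ?_, hK1, by omega, hT1,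
    fun j => le_min (PsiN_nonneg _ _ _ _ _) (by linarith), ?_, fun n hn => ?_⟩
  · have := Nat.mul_le_mul_left (Wn w) hμB
    omega
  · have h1 := hXsum 1
    simp only [pow_one] at h1
    rw [h1]
    exact hmean.trans (min_le_left _ _)
  obtain ⟨hup, hcount⟩ := hall n hn
  refine ⟨by rw [hXsum]; exact hup.trans (hCsn n hn), ?_⟩
  rw [hXsum]
  set Mc : ℝ := 𝔼 q : kap w N, (min (PsiN w N μ J q) Kc) ^ (n + 1) with hMc
  have hMc0 : 0 ≤ Mc := expect_nonneg fun q _ => pow_nonneg (le_min (PsiN_nonneg _ _ _ _ _) (by linarith)) _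
  have hMcs : Mc ≤ Cs := hup.trans (hCsn n hn)
  have hnR : n ∈ range (R + 1) := mem_range.2 (by omega)
  have hcardF : (Fintype.card (Fin (n + 1) → Fin H) : ℝ) = (H : ℝ) ^ (n + 1) := by
    rw [Fintype.card_fun, Fintype.card_fin, Fintype.card_fin]
    push_cast
    rfl
  -- the three exceptional sets
  set φ1 : (Fin (n + 1) → Fin H) → ℝ := fun r =>
    |𝔼 z : Fin Kt × kap w N, ∏ i, fP w N (μ * J + μ * vl z.1 * vl (r i)) z.2 - Mc| with hφ1
  set φ2 : (Fin (n + 1) → Fin H) → ℝ := fun r =>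
    (sg w (3 ^ (n + 1)) (dsc (fun i => vl (r i))) - 1) + ((n : ℝ) + 1) ^ 2 / w with hφ2
  have m1 := markov φ1 (fun r => abs_nonneg _) ht0 (hcount.trans (min_le_right _ _))
  have hw1 : 1 ≤ w := by omega
  have hφ2E : 𝔼 r, φ2 r ≤ t * δ0 / 3 := by
    rw [hφ2, expect_add_distrib, Fintype.expect_const]
    have a1 := PS.exp_sg_dsc (R := H) (m := n + 1) (w := w) hH1 hw1
    have a2 := g3 n hnR
    have a3 : ((n : ℝ) + 1) ^ 2 / w ≤ ((R : ℝ) + 1) ^ 2 / w := by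
      refine div_le_div_of_nonneg_right ?_ (Nat.cast_nonneg _)
      have : (n : ℝ) ≤ R := by exact_mod_cast hn
      exact pow_le_pow_left₀ (by positivity) (by linarith) 2
    linarith
  have m2 := markov φ2 (fun r => by
    have := sg_one_le (w := w) (c := 3 ^ (n + 1)) (by positivity) (dsc (fun i => vl (r i)))
    have h2 : (0 : ℝ) ≤ ((n : ℝ) + 1) ^ 2 / w := by positivity
    show 0 ≤ (sg w (3 ^ (n + 1)) (dsc (fun i => vl (r i))) - 1) + ((n : ℝ) + 1) ^ 2 / w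
    linarith) ht0 hφ2E
  have m3 := noninj (n := n) hH1
  rw [hcardF] at m1 m2
  have ht3 : t * δ0 / 3 / t = δ0 / 3 := by field_simp
  rw [ht3] at m1 m2
  have m3' : (((univ : Finset (Fin (n + 1) → Fin H)).filter (fun r => ¬ Function.Injective r)).card : ℝ) ≤
      δ0 / 3 * (H : ℝ) ^ (n + 1) := by
    refine m3.trans (mul_le_mul_of_nonneg_right ?_ (by positivity))
    rw [div_le_iff₀ hHp]
    have h1 : ((n : ℝ) + 1) ^ 2 ≤ ((R : ℝ) + 1) ^ 2 := by
      have : (n : ℝ) ≤ R := by exact_mod_cast hn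
      exact pow_le_pow_left₀ (by positivity) (by linarith) 2
    rw [div_le_iff₀ hδ0p] at hb3
    linarith
  have hbad := card_bad (H := H) (n := n) (fun h =>
          δ * ∑ k ∈ Icc 1 Kt, (N / Real.log N ^ (n + 1)) * singularSeries (fun i => Wn w * μ * k * h i) <
          |∑ k ∈ Icc 1 Kt, (pT (fun i => Wn w * μ * k * h i) N : ℝ) - Mc *
            ∑ k ∈ Icc 1 Kt, (N / Real.log N ^ (n + 1)) * singularSeries (fun i => Wn w * μ * k * h i)|)
  have hsub : (univ : Finset (Fin (n + 1) → Fin H)).filter (fun r =>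
          δ * ∑ k ∈ Icc 1 Kt, (N / Real.log N ^ (n + 1)) * singularSeries (fun i => Wn w * μ * k * vl (r i)) <
          |∑ k ∈ Icc 1 Kt, (pT (fun i => Wn w * μ * k * vl (r i)) N : ℝ) - Mc *
            ∑ k ∈ Icc 1 Kt, (N / Real.log N ^ (n + 1)) * singularSeries (fun i => Wn w * μ * k * vl (r i))|) ⊆
      (univ.filter (fun r => t < φ1 r) ∪ univ.filter (fun r => t < φ2 r)) ∪
        univ.filter (fun r => ¬ Function.Injective r) := by
    intro r hr
    rw [mem_filter] at hr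
    by_contra hcon
    rw [mem_union, mem_union, mem_filter, mem_filter, mem_filter] at hcon
    push Not at hcon
    obtain ⟨⟨c1', c2'⟩, c3'⟩ := hcon
    have hov := one_vec hTI hCP hSS (w := w) (N := N) (n := n) (H := H) (μ := μ) (Kt := Kt) (J := J) (Bd := Bd)
      (t := t) (Mc := Mc) (δ := δ) hN3 (by omega) hμ1 hμB hK1 hKB g6 ht0 ht12 hMc0 (by
        have h1 : (4 + 2 * Mc) * t ≤ δ0 / 2 := by
          have : (4 + 2 * Mc) * t ≤ (4 + 2 * Cs) * t := mul_le_mul_of_nonneg_right (by linarith) ht0.le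
          linarith
        have h2 : δ0 / 2 ≤ δ * (1 - t) := by
          have : δ0 * (1 / 2) ≤ δ * (1 - t) := mul_le_mul hδ0δ (by linarith) (by norm_num) hδ.le
          linarith
        linarith) hδ.le
      (htr n hnR (μ * J) (by
        have h1 : μ * J ≤ Bd * Bd * H := by
          calc μ * J ≤ Bd * (Bd * H) := Nat.mul_le_mul hμB hJB
            _ = _ := by ring
        calc ((μ * J : ℕ) : ℝ) ≤ ((Bd * Bd * H : ℕ) : ℝ) := by exact_mod_cast h1
          _ = ((Bd * Bd : ℕ) : ℝ) * H := by push_cast; ring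
          _ ≤ _ := mul_le_mul_of_nonneg_left hHN (Nat.cast_nonneg _)))
      hcard (hsq n hnR) r (c3' (mem_univ _)) (c1' (mem_univ _)) (c2' (mem_univ _))
    exact absurd hov (not_le.2 hr.2)
  have hcardle : (((univ : Finset (Fin (n + 1) → Fin H)).filter (fun r =>
          δ * ∑ k ∈ Icc 1 Kt, (N / Real.log N ^ (n + 1)) * singularSeries (fun i => Wn w * μ * k * vl (r i)) <
          |∑ k ∈ Icc 1 Kt, (pT (fun i => Wn w * μ * k * vl (r i)) N : ℝ) - Mc *
            ∑ k ∈ Icc 1 Kt, (N / Real.log N ^ (n + 1)) * singularSeries (fun i => Wn w * μ * k * vl (r i))|)).card : ℝ) ≤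
      δ0 * (H : ℝ) ^ (n + 1) := by
    have h1 := (card_le_card hsub).trans ((card_union_le _ _).trans (Nat.add_le_add_right (card_union_le _ _) _))
    have h2 : ((univ : Finset (Fin (n + 1) → Fin H)).filter (fun r =>
          δ * ∑ k ∈ Icc 1 Kt, (N / Real.log N ^ (n + 1)) * singularSeries (fun i => Wn w * μ * k * vl (r i)) <
          |∑ k ∈ Icc 1 Kt, (pT (fun i => Wn w * μ * k * vl (r i)) N : ℝ) - Mc *
            ∑ k ∈ Icc 1 Kt, (N / Real.log N ^ (n + 1)) * singularSeries (fun i => Wn w * μ * k * vl (r i))|)).card ≤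
      (((univ.filter (fun r => t < φ1 r)).card + (univ.filter (fun r => t < φ2 r)).card +
        (univ.filter (fun r : Fin (n + 1) → Fin H => ¬ Function.Injective r)).card : ℕ) : ℝ) := by
      exact_mod_cast h1
    push_cast at h2
    linarith
  refine le_trans ?_ (hcardle.trans (mul_le_mul_of_nonneg_right hδ0δ (by positivity)))
  exact_mod_cast hbad

end Pool.Agent.NH16.SM
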