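import Pool.Agent.Helper602.MK.J5b

set_option autoImplicit false

/-!
# Project SM (helper16): prime tuples and bounded multiples of the shifts.  Definitions and statements.
-/

namespace Pool.Agent.NH16.SM

open Finset
open scoped BigOperators
open Pool.Agent.Helper602.MK

/-! ### Fourier side -/

/-- normalised Dirichlet kernel -/
noncomputable def Dk (J : ℕ) (θ : ℝ) : ℂ := (1 / (J : ℂ)) * ∑ j ∈ range J, ee ((j : ℝ) * θ)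

/-- the mean square over the multiples `k ≤ K` of the exponential sum with coefficients `b` -/
noncomputable def Sb (K H : ℕ) (b : ℕ → ℝ) (α : ℝ) : ℝ :=
  (1 / (K : ℝ)) * ∑ k ∈ Icc 1 K, ‖(1 / (H : ℂ)) * ∑ h ∈ Icc 1 H, (b h : ℂ) * ee ((k : ℝ) * h * α)‖ ^ 2

/-- If the mean square over the multiples is large, then `m₁ α` is very close to an integer. -/
def S_DIO : Prop := ∀ τ : ℝ, 0 < τ → τ ≤ 1 / 2 → ∃ m1 G K0 H0 : ℕ, 1 ≤ m1 ∧ 1 ≤ G ∧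
  ∀ K H J' : ℕ, K0 ≤ K → H0 ≤ H → 1 ≤ K → 1 ≤ H → 1 ≤ J' → G * J' ≤ K * H →
  ∀ b : ℕ → ℝ, (∀ h, |b h| ≤ 1) → ∀ α : ℝ,
    τ ^ 2 < Sb K H b α → 1 - ‖Dk J' ((m1 : ℝ) * α)‖ ^ 2 < τ

/-- the pointwise inequality between the Fourier transforms -/
def PIneq (K H J J' m1 : ℕ) (b : ℕ → ℝ) (κ c : ℝ) : Prop := ∀ α : ℝ,
  (1 / (K : ℝ)) * ∑ k ∈ Icc 1 K, ‖(1 / (H : ℂ)) * ∑ h ∈ Icc 1 H, (b h : ℂ) * ee ((k : ℝ) * h * α) -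
      ((1 / (H : ℂ)) * ∑ h ∈ Icc 1 H, (b h : ℂ)) * ((‖Dk J α‖ ^ 2 : ℝ) : ℂ)‖ ^ 2 ≤
    κ + c * (‖Dk J' ((m1 : ℝ) * α)‖ ^ 4 - ‖Dk J α‖ ^ 4)

def S_PI : Prop := ∀ κ : ℝ, 0 < κ → ∃ c : ℝ, 0 < c ∧ ∃ m1 D G K0 H0 : ℕ, 1 ≤ m1 ∧ 1 ≤ D ∧ 1 ≤ G ∧
  ∀ K H J' : ℕ, K0 ≤ K → H0 ≤ H → 1 ≤ K → 1 ≤ H → 1 ≤ J' → G * J' = K * H →
  ∀ b : ℕ → ℝ, (∀ h, |b h| ≤ 1) → PIneq K H (D * K * H) J' m1 b κ c

/-- average with the weights of Fejer's kernel over a progression with difference `μ` -/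
noncomputable def Pf {Q : ℕ} (μ J : ℕ) (φ : ZMod Q → ℝ) (n : ZMod Q) : ℝ :=
  (1 / (J : ℝ) ^ 2) * ∑ j ∈ range J, ∑ j' ∈ range J,
    φ (n + ((μ * j : ℕ) : ZMod Q) - ((μ * j' : ℕ) : ZMod Q))

/-- the corresponding inequality between mean squares on a cyclic group -/
def S_OP : Prop := ∀ (Q : ℕ) [NeZero Q] (K H J J' m1 μ : ℕ) (b : ℕ → ℝ) (κ c : ℝ),
  1 ≤ K → 1 ≤ H → 1 ≤ J → 1 ≤ J' → PIneq K H J J' m1 b κ c → ∀ φ : ZMod Q → ℝ,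
  (1 / (K : ℝ)) * ∑ k ∈ Icc 1 K, ∑ n : ZMod Q,
      ((1 / (H : ℝ)) * ∑ h ∈ Icc 1 H, b h * φ (n + ((μ * k * h : ℕ) : ZMod Q)) -
        ((1 / (H : ℝ)) * ∑ h ∈ Icc 1 H, b h) * Pf μ J φ n) ^ 2 ≤
    κ * ∑ n : ZMod Q, φ n ^ 2 +
      c * (∑ n : ZMod Q, Pf (μ * m1) J' φ n ^ 2 - ∑ n : ZMod Q, Pf μ J φ n ^ 2)

/-! ### regularity -/

section
variable {ρ κ γ : Type} [Fintype ρ] [Fintype κ] [DecidableEq γ]

/-- the number of the elements with the colour of `s` -/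
def cell (π : ρ → γ) (s : ρ) : ℕ := (univ.filter (fun t => π t = π s)).card

/-- the average of `f` over the colour class of `s` -/
noncomputable def av (π : ρ → γ) (f : ρ → κ → ℝ) (s : ρ) (q : κ) : ℝ :=
  (∑ t ∈ univ.filter (fun t => π t = π s), f t q) / cell π s

end

/-- weak regularity: if the energy of all partitions into `2 ^ T` classes is at most `C ≤ η T`, one of
them approximates `f` up to `η` -/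
def S_WR : Prop := ∀ (ρ κ : Type) [Fintype ρ] [Nonempty ρ] [DecidableEq ρ] [Fintype κ] [Nonempty κ]
  (f : ρ → κ → ℝ) (η C : ℝ) (T : ℕ), 1 ≤ T → 0 < η → C ≤ η * T →
  (∀ π : ρ → (Fin T → Bool), 𝔼 s, 𝔼 q, av π f s q ^ 2 ≤ C) →
  ∃ π : ρ → (Fin T → Bool), ∀ A : Finset ρ,
    𝔼 q, (𝔼 s, (if s ∈ A then (1 : ℝ) else 0) * (f s q - av π f s q)) ^ 2 ≤ η

/-- the energy of a partition -/
def S_EN : Prop := ∀ (ρ κ γ : Type) [Fintype ρ] [Nonempty ρ] [DecidableEq ρ] [Fintype κ] [Nonempty κ]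
  [Fintype γ] [DecidableEq γ] (f : ρ → κ → ℝ) (Y : ρ → ρ → ℝ) (Ca lam t : ℝ) (π : ρ → γ),
  0 ≤ Ca → 0 ≤ t → (∀ s s', 0 ≤ Y s s') →
  (∀ s s', s ≠ s' → 𝔼 q, f s q * f s' q ≤ Ca + Y s s') → 𝔼 s, 𝔼 s', Y s s' ^ 2 ≤ t ^ 2 →
  (∀ s, 𝔼 q, f s q ^ 2 ≤ lam * (Fintype.card ρ : ℝ)) →
  𝔼 s, 𝔼 q, av π f s q ^ 2 ≤ Ca + Real.sqrt (Fintype.card γ) * t + (Fintype.card γ : ℝ) * lam

/-- the moments of the averages over large classes -/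
def S_MO : Prop := ∀ (ρ κ γ : Type) [Fintype ρ] [Nonempty ρ] [DecidableEq ρ] [Fintype κ] [Nonempty κ]
  [DecidableEq γ] (f ν : ρ → κ → ℝ) (K σ t : ℝ) (j : ℕ) (π : ρ → γ),
  0 ≤ K → 0 < σ → (∀ s q, 0 ≤ f s q) → (∀ s q, f s q ≤ K * ν s q) →
  𝔼 r : Fin j → ρ, max 0 (𝔼 q, ∏ i, ν (r i) q - 2) ≤ t →
  𝔼 s, 𝔼 q, (if σ * (Fintype.card ρ : ℝ) ≤ cell π s then av π f s q else 0) ^ j ≤
    K ^ j * (2 + (1 / σ) ^ j * t)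

end Pool.Agent.NH16.SM
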