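import Pool.Agent.NH16.SM.B1
import Pool.Agent.NH16.SM.Stm
import Pool.Agent.NH16.DL.B5
import Pool.Agent.H386R2.HL.A

set_option autoImplicit false

/-!
# Project SM (helper16), second part: definitions and statements
-/

namespace Pool.Agent.NH16.SM

open Finset Filter
open scoped BigOperators
open Pool.Agent.NH16.DL

/-! ### pseudorandomness -/

/-- the product of the differences -/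
def dsc {m : ℕ} (r : Fin m → ℕ) : ℕ := ∏ i, ∏ j, ed (r i) (r j)

/-- pseudorandomness of order `m` of a kernel -/
def FLa {R : ℕ} {κ : Type} [Fintype κ] (ν : Fin R → κ → ℝ) (w : ℕ) (θ η : ℝ) (m : ℕ) : Prop :=
  ∀ (a : Fin m → Bool) (u : Fin m → Fin R), Function.Injective u →
    (1 - θ) * (1 - (m : ℝ) ^ 2 / w) - η ≤ 𝔼 q, pp ν (fun _ _ => 1) a u q ∧
    𝔼 q, pp ν (fun _ _ => 1) a u q ≤ (1 + θ) * sg w (3 ^ m) (dsc (fun i => vl (u i))) + η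

noncomputable def XA (m w : ℕ) : ℝ := (m + 2 * m * m) * (Real.exp ((1 + 3 ^ m) ^ (m + m * m) / w) - 1)

noncomputable def tauA (m w : ℕ) (θ η lam : ℝ) : ℝ :=
  XA m w + 2 * θ * c1 m + η + (m : ℝ) ^ 2 / w + (m : ℝ) ^ 2 * lam * (BB (m - 1) + 1)

noncomputable def excA (m w : ℕ) (lam : ℝ) : ℝ := 2 * XA m w + (m : ℝ) ^ 2 * lam * BB (m - 1)

/-- consequences of the pseudorandomness -/
def S_PS1 : Prop := ∀ (R : ℕ) (κ : Type) [Fintype κ] [Nonempty κ] (ν : Fin R → κ → ℝ) (Λ lam θ η : ℝ)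
  (w M : ℕ), 1 ≤ R → 1 ≤ w → 1 ≤ Λ → (∀ s q, 0 ≤ ν s q) → (∀ s q, ν s q ≤ Λ) → Λ / R ≤ lam → lam ≤ 1 →
  0 ≤ θ → θ ≤ 1 → 0 ≤ η → η ≤ 1 → (∀ m ≤ M, FLa ν w θ η m) →
  (∀ m ≤ M, MB ν (fun _ _ => 1) (BB m) m) ∧
  (∀ m ≤ M, 1 ≤ m → PR ν (fun _ _ => 1) (tauA m w θ η lam) m) ∧
  (∀ m ≤ M, 1 ≤ m → θ + η ≤ 1 →
    𝔼 r : Fin m → Fin R, max 0 (𝔼 q, ∏ i, ν (r i) q - 2) ≤ excA m w lam)

/-- bound for the pair correlations -/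
noncomputable def YY (K : ℝ) (w : ℕ) {R : ℕ} (s t : Fin R) : ℝ := 2 * K ^ 2 * (sg w 9 (dsc ![vl s, vl t]) - 1)

def S_PS2 : Prop := ∀ (R : ℕ) (κ : Type) [Fintype κ] [Nonempty κ] (f ν : Fin R → κ → ℝ) (K Λ θ η : ℝ)
  (w : ℕ), 1 ≤ R → 1 ≤ w → (∀ s q, 0 ≤ ν s q) → (∀ s q, ν s q ≤ Λ) → 0 ≤ K → (∀ s q, 0 ≤ f s q) →
  (∀ s q, f s q ≤ K * ν s q) → 0 ≤ θ → θ ≤ 1 → 0 ≤ η → η ≤ 1 → θ + η ≤ 1 →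
  FLa ν w θ η 1 → FLa ν w θ η 2 →
  (∀ s t : Fin R, 0 ≤ YY K w s t) ∧ (∀ s t, s ≠ t → 𝔼 q, f s q * f t q ≤ 2 * K ^ 2 + YY K w s t) ∧
  𝔼 s : Fin R, 𝔼 t : Fin R, YY K w s t ^ 2 ≤ 4 * K ^ 4 * (10 * (Real.exp (101 ^ 6 / w) - 1)) ∧
  (∀ s, 𝔼 q, f s q ^ 2 ≤ 3 * K ^ 2 * Λ)

/-- pseudorandomness of the sieve majorant along positions -/
def S_FLA : Prop := ∀ M : ℕ, ∃ C : ℕ, 1 ≤ C ∧ ∀ b : ℕ, C ≤ b → ∀ η : ℝ, 0 < η → ∀ w : ℕ, 1 ≤ w →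
  ∀ᶠ N : ℕ in atTop, ∀ (R : ℕ) (pos : Fin R → ℕ), Function.Injective pos →
    (∀ s t : Fin R, ∀ p : ℕ, p.Prime → w < p → p ∣ Nat.dist (pos s) (pos t) → p ∣ Nat.dist (vl s) (vl t)) →
    ∀ m ≤ M, FLa (fun (s : Fin R) (q : kap w N) => gy w (yx C b N) ((q : ℕ) + Wn w * pos s)) w
      (4 * (1 / 2 : ℝ) ^ b) η m

/-! ### primes -/

/-- the normalised indicator function of the primes above `√N` -/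
noncomputable def Fp (w N n : ℕ) : ℝ := open Classical in if n.Prime ∧ N < n * n then Vv w * Real.log N else 0

def S_FP1 : Prop := ∀ (C b : ℕ), 1 ≤ C → 1 ≤ b → ∀ w : ℕ, ∀ᶠ N : ℕ in atTop, ∀ n : ℕ,
  Fp w N n ≤ 2 / ke C b * gy w (yx C b N) n

def S_FP2 : Prop := ∀ (w : ℕ) (δ : ℝ), 0 < δ → ∀ᶠ N : ℕ in atTop, |mean w N (Fp w N) - 1| ≤ δ

def S_FP3 : Prop := ∀ (w : ℕ) (δ : ℝ), 0 < δ → ∀ᶠ N : ℕ in atTop,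
  |((kap w N).card : ℝ) / (N * Vv w) - 1| ≤ δ

def S_TI : Prop := ∀ (w N v : ℕ) (G : ℕ → ℝ) (Mx : ℝ), (∀ n, 0 ≤ G n) → (∀ n, G n ≤ Mx) →
  |∑ q ∈ kap w N, G (q + Wn w * v) - ∑ q ∈ kap w N, G q| ≤ Wn w * v * Mx

/-- `π(N; a)` -/
def pT {r : ℕ} (a : Fin r → ℕ) (N : ℕ) : ℕ := ((Icc 1 N).filter (fun n => ∀ i, (n + a i).Prime)).card

def S_CP : Prop := ∀ (w N r : ℕ) (a : Fin (r + 1) → ℕ), 1 ≤ N → (∀ i, 1 ≤ a i) → (∀ i, Wn w ∣ a i) →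
  |∑ q ∈ kap w N, ∏ i, Fp w N (q + a i) - (Vv w * Real.log N) ^ (r + 1) * pT a N| ≤
    (Vv w * Real.log N) ^ (r + 1) * (Real.sqrt N + 1)

/-- the singular series is close to `Vv w ^ (-r)` -/
def S_SS : Prop := ∀ (w r c : ℕ) (u : Fin (r + 1) → ℕ), r + 1 ≤ w → 1 ≤ c → c ≤ w → Function.Injective u →
  |Vv w ^ r * Pool.Agent.H386R2.HL.singularSeries (fun i => Wn w * (c * u i)) - 1| ≤
    (sg w (3 ^ (r + 1)) (dsc u) - 1) + ((r : ℝ) + 1) ^ 2 / w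

/-! ### the dense model -/

def S_DM : Prop := ∀ (ρ κ : Type) [Fintype ρ] [Nonempty ρ] [DecidableEq ρ] [Fintype κ] [Nonempty κ]
  (f ν0 ν : ρ → κ → ℝ) (Y : ρ → ρ → ℝ) (K0 K Ca t lam t6 τ ηc σ B : ℝ) (T : ℕ),
  1 ≤ K0 → 1 ≤ K → 0 ≤ Ca → 0 ≤ t → 0 ≤ t6 → 0 ≤ τ → 0 < ηc → 0 < σ → 1 ≤ T → 0 ≤ B → 0 ≤ lam →
  (∀ s q, 0 ≤ f s q) → (∀ s q, f s q ≤ K0 * ν0 s q) → (∀ s q, f s q ≤ K * ν s q) → (∀ s q, 0 ≤ ν s q) →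
  (∀ s s', 0 ≤ Y s s') → (∀ s s', s ≠ s' → 𝔼 q, f s q * f s' q ≤ Ca + Y s s') →
  𝔼 s, 𝔼 s', Y s s' ^ 2 ≤ t ^ 2 → (∀ s, 𝔼 q, f s q ^ 2 ≤ lam * (Fintype.card ρ : ℝ)) →
  𝔼 r : Fin 6 → ρ, max 0 (𝔼 q, ∏ i, ν0 (r i) q - 2) ≤ t6 →
  MB ν (fun _ _ => 1) B 1 → MB ν (fun _ _ => 1) B 2 → PR ν (fun _ _ => 1) τ 4 →
  Real.sqrt (2 ^ T) * t + 2 ^ T * lam ≤ 1 → Ca + 1 ≤ ηc * T →
  ∃ F' : ρ → κ → ℝ, (∀ s q, 0 ≤ F' s q) ∧ (∀ s q, F' s q ≤ K) ∧ 𝔼 s, 𝔼 q, F' s q ^ 2 ≤ Ca + 1 ∧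
    𝔼 s, 𝔼 s', |𝔼 q, f s q * f s' q - 𝔼 q, F' s q * F' s' q| ≤
      2 * (K * Real.sqrt (B * (4 * (3 * (ηc + (Ca * (2 ^ T * σ) ^ 2 + t + lam) +
        K0 ^ 6 * (2 + (1 / σ) ^ 6 * t6) / K ^ 4)) + 8 * K ^ 2 * Real.sqrt (B * τ))))

/-! ### windows -/

/-- extension by zero to a cyclic group -/
noncomputable def ext {κ : Type} (Q L : ℕ) (f : ℕ → κ → ℝ) (q : κ) (n : ZMod Q) : ℝ :=
  if n.val < L then f n.val q else 0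

/-- energy of a window function -/
noncomputable def En {κ : Type} [Fintype κ] (Q L μ J : ℕ) [NeZero Q] (f : ℕ → κ → ℝ) : ℝ :=
  (1 / (L : ℝ)) * 𝔼 q, ∑ n : ZMod Q, Pf μ J (ext Q L f q) n ^ 2

def S_EL : Prop := ∀ (κ : Type) [Fintype κ] [Nonempty κ] (Q L μ J : ℕ) [NeZero Q] (f : ℕ → κ → ℝ),
  1 ≤ L → 1 ≤ J → L ≤ Q →
  0 ≤ En Q L μ J f ∧ En Q L μ J f ≤ (1 / (L : ℝ)) * ∑ s ∈ range L, 𝔼 q, f s q ^ 2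

def S_WIN : Prop := ∀ (κt : Type) [Fintype κt] [Nonempty κt] (Q : ℕ) [NeZero Q] (L K H J J' m1 μ : ℕ)
  (b : ℕ → ℝ) (κ c : ℝ) (f f' : ℕ → κt → ℝ),
  1 ≤ L → 1 ≤ K → 1 ≤ H → 1 ≤ J → 1 ≤ J' → 1 ≤ μ → H ≤ J → L + μ * (2 * J + K * H) < Q →
  (∀ h, |b h| ≤ 1) → PIneq K H J J' m1 b κ c →
  (1 / (K : ℝ)) * ∑ k ∈ Icc 1 K, (1 / (L : ℝ)) * ∑ u ∈ Ico (μ * J) (L - μ * J - μ * K * H),
      𝔼 q, ((1 / (H : ℝ)) * ∑ h ∈ Icc 1 H, b h * f (u + μ * k * h) q -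
        ((1 / (H : ℝ)) * ∑ h ∈ Icc 1 H, b h) *
          ((1 / (J : ℝ) ^ 2) * ∑ j ∈ range J, ∑ j' ∈ range J, f (u + μ * j - μ * j') q)) ^ 2 ≤
    κ * ((1 / (L : ℝ)) * ∑ s ∈ range L, 𝔼 q, f' s q ^ 2) +
      c * (En Q L (μ * m1) J' f' - En Q L μ J f') +
      4 / (H : ℝ) * ((1 / (L : ℝ)) * ∑ s ∈ range L, ∑ s' ∈ range L,
        |𝔼 q, f s q * f s' q - 𝔼 q, f' s q * f' s' q|)

end Pool.Agent.NH16.SM
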